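import Pool.Agent.CLH.Stmts

set_option autoImplicit false

/-!
# CLH: ARIA, arithmetic with base `p` digits
-/

namespace Pool.Agent.CLH

universe u

namespace ARIA_

/-- Lucas for the numbers `c * p ^ i`. -/
theorem lucas (p : ℕ) [Fact p.Prime] (c : ℕ) (hc : c < p) : ∀ (i n : ℕ),
    n.choose (c * p ^ i) ≡ ((n / p ^ i) % p).choose c [MOD p] := by
  have hp : 0 < p := (Fact.out : p.Prime).pos
  intro i
  induction i with
  | zero =>
    intro n
    have h := Choose.choose_modEq_choose_mod_mul_choose_div_nat (n := n) (k := c) (p := p)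
    rw [Nat.mod_eq_of_lt hc, Nat.div_eq_of_lt hc, Nat.choose_zero_right, mul_one] at h
    simpa using h
  | succ i ih =>
    intro n
    have h := Choose.choose_modEq_choose_mod_mul_choose_div_nat (n := n) (k := c * p ^ (i + 1))
      (p := p)
    have h1 : c * p ^ (i + 1) = (c * p ^ i) * p := by ring
    rw [h1, Nat.mul_mod_left, Nat.choose_zero_right, one_mul, Nat.mul_div_cancel _ hp] at h
    rw [h1]
    refine h.trans ?_
    have h2 := ih (n / p)
    rw [Nat.div_div_eq_div_mul, ← pow_succ'] at h2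
    exact h2

/-- Lucas in the field. -/
theorem lucasK {K : Type u} [Field K] (p : ℕ) [Fact p.Prime] [CharP K p] {c : ℕ} (hc : c < p)
    (i n : ℕ) : ((n.choose (c * p ^ i) : ℕ) : K) = ((((n / p ^ i) % p).choose c : ℕ) : K) :=
  CharP.natCast_eq_natCast' K p (lucas p c hc i n)

theorem two_mul_choose (a : ℕ) : 2 * a.choose 2 = a * (a - 1) := by
  rw [Nat.choose_two_right]
  exact Nat.mul_div_cancel' (Nat.even_mul_pred_self a).two_dvd

theorem two_mul_chooseK {K : Type u} [Field K] (a : ℕ) (ha : 1 ≤ a) :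
    2 * ((a.choose 2 : ℕ) : K) = (a : K) * ((a : K) - 1) := by
  have h := congrArg (fun n : ℕ => (n : K)) (two_mul_choose a)
  simp only [Nat.cast_mul, Nat.cast_sub ha, Nat.cast_one, Nat.cast_ofNat] at h
  exact h

/-- A natural number strictly between `0` and `p` is not zero in `K`. -/
theorem cast_ne {K : Type u} [Field K] (p : ℕ) [CharP K p] {a : ℕ} (h0 : 0 < a) (h1 : a < p) :
    (a : K) ≠ 0 := by
  intro h
  rw [CharP.cast_eq_zero_iff K p] at h
  exact absurd (Nat.le_of_dvd h0 h) (by omega)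

/-- The consequence of the hypothesis for the digits `a < b` of `D` and `w` at the place `i`. -/
theorem main_step {K : Type u} [Field K] (p : ℕ) [Fact p.Prime] [CharP K p] (h3 : 3 ≤ p)
    (D w Y q τ i : ℕ)
    (hyp : ∀ (i j : ℕ) (α β : K), i ≤ j →
      α * ((D.choose i : K) * (D.choose (j - i) : K)) = β * (D.choose j : K) →
      α * ((w.choose i : K) * (w.choose (j - i) : K)) ≠ β * (w.choose j : K) →
      Y ≤ (q - 1) * j + τ)
    (hab : (D / p ^ i) % p < (w / p ^ i) % p) : Y ≤ (q - 1) * (2 * p ^ i) + τ := by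
  have hp : 0 < p := by omega
  have hbp : (w / p ^ i) % p < p := Nat.mod_lt _ hp
  set a := (D / p ^ i) % p with ha
  set b := (w / p ^ i) % p with hb
  have hD1 : ((D.choose (p ^ i) : ℕ) : K) = (a : K) := by
    have := lucasK (K := K) p (c := 1) (by omega) i D
    simpa using this
  have hD2 : ((D.choose (2 * p ^ i) : ℕ) : K) = ((a.choose 2 : ℕ) : K) :=
    lucasK (K := K) p (c := 2) (by omega) i D
  have hw1 : ((w.choose (p ^ i) : ℕ) : K) = (b : K) := by
    have := lucasK (K := K) p (c := 1) (by omega) i w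
    simpa using this
  have hw2 : ((w.choose (2 * p ^ i) : ℕ) : K) = ((b.choose 2 : ℕ) : K) :=
    lucasK (K := K) p (c := 2) (by omega) i w
  have hb0 : (b : K) ≠ 0 := cast_ne p (by omega) hbp
  rcases Nat.eq_zero_or_pos a with h0 | h0
  · have h1 := hyp 0 (p ^ i) 0 1 (Nat.zero_le _) (by rw [hD1, h0]; simp)
      (by rw [hw1]; simpa using hb0.symm)
    refine le_trans h1 (Nat.add_le_add_right (Nat.mul_le_mul_left _ ?_) _)
    omega
  · have hsub : 2 * p ^ i - p ^ i = p ^ i := by omega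
    have ha0 : (a : K) ≠ 0 := cast_ne p h0 (by omega)
    have hba : ((b - a : ℕ) : K) ≠ 0 := cast_ne p (by omega) (by omega)
    rw [Nat.cast_sub (by omega)] at hba
    refine hyp (p ^ i) (2 * p ^ i) ((a.choose 2 : ℕ) : K) ((a : K) * a) (by omega) ?_ ?_
    · rw [hsub, hD1, hD2]
      ring
    · rw [hsub, hw1, hw2]
      intro heq
      have e1 := two_mul_chooseK (K := K) a h0
      have e2 := two_mul_chooseK (K := K) b (by omega)
      have e5 : (a : K) * (a - 1) * (b * b) = a * a * (b * (b - 1)) := by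
        linear_combination (-((b : K) * b)) * e1 + ((a : K) * a) * e2 + 2 * heq
      have e3 : (a : K) * b * (b - a) = 0 := by
        linear_combination (-1) * e5
      exact (mul_ne_zero (mul_ne_zero ha0 hb0) hba) e3

/-- The highest place where the digits of two numbers differ. -/
theorem top_digit (p : ℕ) {x y m : ℕ} (hxy : x < y) (hx : x < p ^ m)
    (hy : y < p ^ m) : ∃ i, i < m ∧ (x / p ^ i) % p < (y / p ^ i) % p ∧
      x / p ^ (i + 1) = y / p ^ (i + 1) := by
  classical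
  have hex : ∃ n, x / p ^ n = y / p ^ n := ⟨m, by rw [Nat.div_eq_of_lt hx, Nat.div_eq_of_lt hy]⟩
  have hfind := Nat.find_spec hex
  have hmin : ∀ k < Nat.find hex, x / p ^ k ≠ y / p ^ k := fun k hk => Nat.find_min hex hk
  have hle : Nat.find hex ≤ m := Nat.find_min' hex (by
    rw [Nat.div_eq_of_lt hx, Nat.div_eq_of_lt hy])
  have hpos : Nat.find hex ≠ 0 := by
    intro h0
    rw [h0] at hfind
    simp at hfind
    omega
  obtain ⟨i, hi⟩ := Nat.exists_eq_succ_of_ne_zero hpos
  rw [hi] at hfind hmin hle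
  refine ⟨i, by omega, ?_, hfind⟩
  have h1 := hmin i (Nat.lt_succ_self i)
  have h2 : x / p ^ i ≤ y / p ^ i := Nat.div_le_div_right hxy.le
  have h3 : x / p ^ i < y / p ^ i := lt_of_le_of_ne h2 h1
  have h4 : (x / p ^ i) / p = (y / p ^ i) / p := by
    rw [Nat.div_div_eq_div_mul, Nat.div_div_eq_div_mul, ← pow_succ]
    exact hfind
  have h5 := Nat.div_add_mod (x / p ^ i) p
  have h6 := Nat.div_add_mod (y / p ^ i) p
  rw [h4] at h5
  omega

end ARIA_

open ARIA_ in
theorem aria_proof : Stmt_Aria.{u} := by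
  intro K _ p h _ _ hp3 hh D τ w Y hD hDτ hτ hDw hwτ hY h33 hyp
  have hprime : p.Prime := Fact.out
  obtain ⟨m, rfl⟩ : ∃ m, h = m + 3 := ⟨h - 3, by omega⟩
  have hs1 : m + 3 - 1 = m + 2 := by omega
  have hs2 : m + 3 - 2 = m + 1 := by omega
  rw [hs1] at hτ
  rw [hs2]
  -- powers
  set Q3 := p ^ m with hQ3
  have hQ3pos : 1 ≤ Q3 := Nat.one_le_pow _ _ (by omega)
  have hQ2 : p ^ (m + 1) = p * Q3 := by rw [pow_succ']
  have hQ : p ^ (m + 2) = p * (p * Q3) := by rw [pow_succ', pow_succ']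
  have hq : p ^ (m + 3) = p * (p * (p * Q3)) := by rw [pow_succ', pow_succ', pow_succ']
  set Q2 := p * Q3 with hQ2def
  set Q := p * Q2 with hQdef
  set q := p ^ (m + 3) with hqdef
  rw [hQ] at hτ
  have hQ2pos : 3 ≤ Q2 := by
    calc 3 = 3 * 1 := rfl
      _ ≤ p * Q3 := Nat.mul_le_mul hp3 hQ3pos
  have hQ3' : 3 * Q2 ≤ Q := Nat.mul_le_mul_right _ hp3
  have hqQ : 3 * Q ≤ q := by rw [hq]; exact Nat.mul_le_mul_right _ hp3
  -- `D` is at least `Q + Q2`
  have hDlow : Q + Q2 ≤ D := by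
    by_contra hcon
    have h1 : D ≤ Q + Q2 - 1 := by omega
    have h2 : (p - 1) * D ≤ (p - 1) * (Q + Q2 - 1) := Nat.mul_le_mul_left _ h1
    obtain ⟨r, rfl⟩ : ∃ r, p = r + 1 := ⟨p - 1, by omega⟩
    simp only [Nat.add_sub_cancel] at h2 hD
    have h3 : r * (Q + Q2 - 1) + r = r * (Q + Q2) := by
      have : Q + Q2 = (Q + Q2 - 1) + 1 := by omega
      conv_rhs => rw [this]
      ring
    have h4 : q = (r + 1) * Q := hq
    have h5 : Q = (r + 1) * Q2 := hQdef
    have h6 : r * (Q + Q2) = q - Q2 := by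
      rw [h4]
      have : (r + 1) * Q = r * (Q + Q2) + Q2 := by
        rw [mul_add]
        nlinarith
      omega
    omega
  have hDup : D + 2 ≤ 2 * Q := by omega
  obtain ⟨x, hx⟩ : ∃ x, D = Q + x := ⟨D - Q, by omega⟩
  have hxQ : x < Q := by omega
  have hwQ : w < Q := by omega
  have hxw : x < w := by omega
  obtain ⟨i, him, hdig, -⟩ := top_digit p hxw (m := m + 2) (by rw [hQ]; exact hxQ)
    (by rw [hQ]; exact hwQ)
  -- the digits of `D` below the top are the digits of `x`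
  have hDdig : (D / p ^ i) % p = (x / p ^ i) % p := by
    have h1 : Q = p ^ i * (p * p ^ (m + 1 - i)) := by
      rw [← hQ, ← pow_succ', ← pow_add]
      congr 1
      omega
    rw [hx, h1, Nat.mul_add_div (Nat.pow_pos (by omega)), Nat.mul_add_mod]
  have hstep := main_step (K := K) p hp3 D w Y q τ i hyp (by rw [hDdig]; exact hdig)
  have hτq : τ ≤ q + 1 := by omega
  have hkey : τ * (q + 1 - τ) ≤ (q - 1) * (2 * p ^ i) := by
    have h1 : q + 2 - τ = (q + 1 - τ) + 1 := by omega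
    rw [h1, mul_add, mul_one] at hY
    omega
  by_cases him2 : i ≤ m
  · exfalso
    have hpi : p ^ i ≤ Q3 := Nat.pow_le_pow_right (by omega) him2
    have h1 : 9 * Q3 ≤ Q := by
      calc 9 * Q3 = 3 * (3 * Q3) := by ring
        _ ≤ p * (p * Q3) := Nat.mul_le_mul hp3 (Nat.mul_le_mul_right _ hp3)
    have h2 : 9 * Q3 ≤ 2 * τ := by omega
    have h3 : 2 * q ≤ 3 * (q + 1 - τ) := by omega
    have h4 : (9 * Q3) * (2 * q) ≤ (2 * τ) * (3 * (q + 1 - τ)) := Nat.mul_le_mul h2 h3
    have h5 : (q - 1) * (2 * p ^ i) ≤ (q - 1) * (2 * Q3) :=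
      Nat.mul_le_mul_left _ (Nat.mul_le_mul_left _ hpi)
    have h6 : (q - 1) * (2 * Q3) + 2 * Q3 = 2 * (q * Q3) := by
      have : q = (q - 1) + 1 := by omega
      conv_rhs => rw [this]
      ring
    have h7 : (9 * Q3) * (2 * q) = 18 * (q * Q3) := by ring
    have h8 : (2 * τ) * (3 * (q + 1 - τ)) = 6 * (τ * (q + 1 - τ)) := by ring
    rw [h7, h8] at h4
    have h9 : 0 < q * Q3 := Nat.mul_pos (by omega) (by omega)
    omega
  have hi : i = m + 1 := by omega
  rw [hi, hQ2] at hkey hdig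
  by_cases hp5 : 5 ≤ p
  · exfalso
    have h1 : 5 * Q2 ≤ Q := Nat.mul_le_mul_right _ hp5
    have h2 : 6 * Q2 ≤ 2 * τ := by omega
    have h3 : 5 * Q ≤ q := by rw [hq]; exact Nat.mul_le_mul_right _ hp5
    have h4 : 4 * q ≤ 5 * (q + 1 - τ) := by omega
    have h5 : (6 * Q2) * (4 * q) ≤ (2 * τ) * (5 * (q + 1 - τ)) := Nat.mul_le_mul h2 h4
    have h6 : (q - 1) * (2 * Q2) + 2 * Q2 = 2 * (q * Q2) := by
      have : q = (q - 1) + 1 := by omega
      conv_rhs => rw [this]
      ring
    have h7 : (6 * Q2) * (4 * q) = 24 * (q * Q2) := by ring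
    have h8 : (2 * τ) * (5 * (q + 1 - τ)) = 10 * (τ * (q + 1 - τ)) := by ring
    rw [h7, h8] at h5
    have h9 : 0 < q * Q2 := Nat.mul_pos (by omega) (by omega)
    omega
  have hp : p = 3 := by
    have h4 : p ≠ 4 := by
      rintro rfl
      exact absurd hprime (by norm_num)
    omega
  have hQ2pos' : 0 < Q2 := by omega
  -- the digits at the top
  have hxd : x / Q2 < 3 := by
    rw [Nat.div_lt_iff_lt_mul hQ2pos']
    calc x < Q := hxQ
      _ = 3 * Q2 := by rw [hQdef, hp]
  have hwd : w / Q2 < 3 := by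
    rw [Nat.div_lt_iff_lt_mul hQ2pos']
    calc w < Q := hwQ
      _ = 3 * Q2 := by rw [hQdef, hp]
  have hxd1 : 1 ≤ x / Q2 := by
    rw [Nat.one_le_div_iff hQ2pos']
    omega
  rw [hp, Nat.mod_eq_of_lt hxd, Nat.mod_eq_of_lt hwd] at hdig
  have hx1 : x / Q2 = 1 := by omega
  have hw2 : w / Q2 = 2 := by omega
  have hwlow : 2 * Q2 ≤ w := by
    rw [← hw2]
    exact Nat.div_mul_le_self w Q2
  have hxup : x < 2 * Q2 := by
    rw [← Nat.div_lt_iff_lt_mul hQ2pos']
    omega
  have hQ2' : Q2 = 3 ^ (m + 1) := by rw [← hQ2, hp]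
  refine ⟨hp, ?_, ?_, ?_⟩
  · -- the case `h = 3`
    by_contra hm
    have hm0 : m = 0 := by omega
    subst hm0
    subst hp
    have hτ8 := h33 rfl rfl
    have hQ39 : Q3 = 1 := by rw [hQ3]; norm_num
    have hQ2' : Q2 = 3 := by rw [hQ2def, hQ39]
    have hQ9 : Q = 9 := by rw [hQdef, hQ2']
    have hq27 : q = 27 := by rw [hqdef]; norm_num
    have hD6 : ((D.choose 6 : ℕ) : K) = 0 := by
      have h1 := lucasK (K := K) 3 (c := 2) (by norm_num) 1 D
      have h2 : (D / 3 ^ 1) % 3 = 1 := by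
        rw [hx, hQ9, pow_one]
        rw [hQ2'] at hx1
        omega
      rw [h2] at h1
      simpa using h1
    have hw6 : ((w.choose 6 : ℕ) : K) = 1 := by
      have h1 := lucasK (K := K) 3 (c := 2) (by norm_num) 1 w
      have h2 : (w / 3 ^ 1) % 3 = 2 := by
        rw [pow_one]
        rw [hQ2'] at hw2
        omega
      rw [h2] at h1
      simpa using h1
    have h1 := hyp 0 6 0 1 (by norm_num) (by rw [hD6]; simp) (by rw [hw6]; simp)
    rw [hq27] at h1 hY
    rw [hQ9] at hτ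
    have hτ' : τ = 8 ∨ τ = 9 := by omega
    rcases hτ' with rfl | rfl
    · norm_num at hY h1
      omega
    · norm_num at hY h1
      omega
  · rw [← hQ2']
    exact hwlow
  · rw [← hQ2']
    have : Q = 3 * Q2 := by rw [hQdef, hp]
    omega

end Pool.Agent.CLH
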