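import Pool.Agent.CLH.Stmts

set_option autoImplicit false

/-!
# CLH: module ARIB, arithmetic, second part
-/

namespace Pool.Agent.CLH

universe u

namespace ARIB_

lemma lucas (c e : ℕ) : ∀ n : ℕ, n.choose (c * 3 ^ e) ≡ (n / 3 ^ e).choose c [MOD 3] := by
  have : Fact (Nat.Prime 3) := ⟨Nat.prime_three⟩
  induction e with
  | zero =>
    intro n
    rw [pow_zero, Nat.div_one, mul_one]
  | succ e ih =>
    intro n
    have h := @Choose.choose_modEq_choose_mod_mul_choose_div_nat n (c * 3 ^ (e + 1)) 3 _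
    have h1 : c * 3 ^ (e + 1) % 3 = 0 := by
      rw [pow_succ, ← mul_assoc, Nat.mul_mod_left]
    have h2 : c * 3 ^ (e + 1) / 3 = c * 3 ^ e := by
      rw [pow_succ, ← mul_assoc, Nat.mul_div_cancel _ (by norm_num)]
    rw [h1, h2, Nat.choose_zero_right, one_mul] at h
    have h3 := ih (n / 3)
    rw [Nat.div_div_eq_div_mul, ← pow_succ'] at h3
    exact h.trans h3

lemma arith (m τ Y : ℕ) (hm : 1 ≤ m) (h1 : 9 * m + 1 ≤ 4 * τ) (h2 : τ ≤ 3 * m)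
    (h3 : 3 * (τ * (9 * m + 1)) ≤ 3 * Y + τ * (τ - 1))
    (h4 : Y ≤ (9 * m - 1) * (2 * m) + τ) : False := by
  obtain ⟨t, rfl⟩ : ∃ t, τ = t + 1 := ⟨τ - 1, by omega⟩
  obtain ⟨n, rfl⟩ : ∃ n, m = n + 1 := ⟨m - 1, by omega⟩
  have e1 : t + 1 - 1 = t := by omega
  have e2 : 9 * (n + 1) - 1 = 9 * n + 8 := by omega
  rw [e1] at h3
  rw [e2] at h4
  zify at h1 h2 h3 h4
  nlinarith [mul_nonneg (sub_nonneg.2 h1) (sub_nonneg.2 h2),
    mul_nonneg (sub_nonneg.2 h1) (Int.natCast_nonneg n)]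

end ARIB_

/-- ARIB: arithmetic, second part. -/
theorem arib_proof : Stmt_Arib.{u} := by
  intro K _ _ h hh D τ w Y hD1 hDτ hτ hwτ hw hD2 hY hall
  obtain ⟨e, rfl⟩ : ∃ e, h = e + 4 := ⟨h - 4, by omega⟩
  have e1 : e + 4 - 2 = e + 2 := by omega
  have e2 : e + 4 - 1 = e + 3 := by omega
  have e3 : 3 ^ (e + 3) = 3 * 3 ^ (e + 2) := by ring
  have e4 : 3 ^ (e + 4) = 9 * 3 ^ (e + 2) := by ring
  have h9 : 9 ≤ 3 ^ (e + 2) := by
    calc 9 = 3 ^ 2 := by norm_num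
      _ ≤ 3 ^ (e + 2) := Nat.pow_le_pow_right (by norm_num) (by omega)
  rw [e1] at hw hD2
  rw [e2, e3] at hτ
  rw [e4] at hD1 hY
  have hDm : D / 3 ^ (e + 2) = 4 := by
    rw [Nat.div_eq_iff (by omega)]
    omega
  have hwm : w / 3 ^ (e + 2) = 2 := by
    rw [Nat.div_eq_iff (by omega)]
    omega
  have hD3 := ARIB_.lucas 2 (e + 2) D
  have hw3 := ARIB_.lucas 2 (e + 2) w
  rw [hDm] at hD3
  rw [hwm] at hw3
  have hD4 : ((D.choose (2 * 3 ^ (e + 2)) : ℕ) : K) = 0 := by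
    rw [(CharP.natCast_eq_natCast K 3).2 hD3, CharP.cast_eq_zero_iff K 3]
    decide
  have hw4 : ((w.choose (2 * 3 ^ (e + 2)) : ℕ) : K) ≠ 0 := by
    rw [(CharP.natCast_eq_natCast K 3).2 hw3, Nat.choose_self, Nat.cast_one]
    exact one_ne_zero
  have h5 := hall _ hD4 hw4
  rw [e4] at h5
  exact ARIB_.arith (3 ^ (e + 2)) τ Y (by omega) (by omega) hτ hY h5

end Pool.Agent.CLH
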