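import Pool.Agent.CLH.Stmts

set_option autoImplicit false

/-!
# CLH, module AXIS: the axis in the concurrent case
-/

namespace Pool.Agent.CLH

open scoped BigOperators

universe u

/-- AXIS. -/
theorem axis_proof (h1 : Stmt_Lsys.{u}) (h2 : Stmt_Pln.{u}) : Stmt_Axis.{u} := by
  classical
  intro K _ _ Z D s hloc hconc
  obtain ⟨R, hR⟩ := hconc
  obtain ⟨ht, hpos, hsys⟩ := h1 K Z D s hloc
  obtain ⟨hl1, hp1, hjoin, hmeet, huniq, -⟩ := h2 K Z
  have hq1 : 1 < Fintype.card K := Fintype.one_lt_card
  have hD := hloc.pos
  have hsm := hloc.small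
  -- the weights through a point
  have hcar : ∀ (x : Z.Pt), ∀ l m : Z.Ln, Z.inc x l → Z.inc x m → l ≠ m →
      wp Z D s l + wp Z D s m ≤ D + Fintype.card K * kap Z s x := by
    intro x l m hl hm hlm
    rw [← hsys.point x]
    unfold Pl.ps
    have h5 : ∑ l' ∈ ({l, m} : Finset Z.Ln), (if Z.inc x l' then wp Z D s l' else 0) ≤
        ∑ l' : Z.Ln, (if Z.inc x l' then wp Z D s l' else 0) :=
      Finset.sum_le_univ_sum_of_nonneg (fun _ => Nat.zero_le _)
    rw [Finset.sum_pair hlm, if_pos hl, if_pos hm] at h5
    exact h5
  -- existence of an external line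
  have htau : 1 ≤ tau Z s := by omega
  obtain ⟨l0, hl0⟩ : ∃ l, Z.ls s l = 0 := by
    by_contra hcon
    push Not at hcon
    have : tau Z s = 0 := by
      unfold tau
      apply Finset.sum_eq_zero
      intro l _
      unfold ext
      rw [if_neg (hcon l)]
    omega
  -- points of an external line
  have hs0 : ∀ x l, Z.ls s l = 0 → Z.inc x l → s x = 0 := by
    intro x l hl hx
    unfold Pl.ls at hl
    rw [Finset.sum_eq_zero_iff] at hl
    have := hl x (Finset.mem_univ _)
    rwa [if_pos hx] at this
  have htt : ∀ x, x ≠ R → ∀ l, Z.ls s l = 0 → Z.inc x l → tt Z s x = 1 := by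
    intro x hxR l hl hx
    unfold tt Pl.ps
    rw [Finset.sum_eq_single l]
    · rw [if_pos hx]
      unfold ext
      rw [if_pos hl]
    · intro m _ hm
      by_cases hxm : Z.inc x m
      · rw [if_pos hxm]
        unfold ext
        rw [if_neg]
        intro hm0
        exact hm (huniq x R m l hxR hxm (hR m hm0) hx (hR l hl))
      · rw [if_neg hxm]
    · intro h; exact absurd (Finset.mem_univ _) h
  have hkap : ∀ x, x ≠ R → ∀ l, Z.ls s l = 0 → Z.inc x l → kap Z s x = 0 := by
    intro x hxR l hl hx
    unfold kap
    rw [hs0 x l hl hx, htt x hxR l hl hx]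
  -- lines which do not contain R
  have hnot : ∀ l, ¬ Z.inc R l → wp Z D s l = 0 := by
    intro l hl
    obtain ⟨y, hy1, hy2⟩ := hmeet l l0
    have hyR : y ≠ R := by rintro rfl; exact hl hy1
    have hne : l ≠ l0 := by rintro rfl; exact hl (hR l hl0)
    have h5 := hcar y l l0 hy1 hy2 hne
    rw [hkap y hyR l0 hl0 hy2] at h5
    have h6 : wp Z D s l0 = D := by unfold wp; rw [if_pos hl0]
    omega
  refine ⟨R, fun l => ?_⟩
  by_cases hl : Z.inc R l
  · simp only [hl, iff_true]
    by_cases hl00 : Z.ls s l = 0
    · rw [hl00]; exact dvd_zero _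
    · -- a second point of the line
      obtain ⟨y, hyR, hyl⟩ : ∃ y, y ≠ R ∧ Z.inc y l := by
        by_contra hcon
        push Not at hcon
        have h5 := hl1 l
        unfold Pl.ls at h5
        rw [Finset.sum_eq_single R] at h5
        · rw [if_pos hl] at h5
          have h5' : 1 = Fintype.card K + 1 := h5
          omega
        · intro x _ hx
          rw [if_neg (hcon x hx)]
        · intro h; exact absurd (Finset.mem_univ _) h
      have h5 := hsys.point y
      unfold Pl.ps at h5
      rw [Finset.sum_eq_single l] at h5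
      · rw [if_pos hyl] at h5
        unfold wp at h5
        rw [if_neg hl00] at h5
        have h6 := (hloc.line l).resolve_left hl00
        refine ⟨2 + kap Z s y, ?_⟩
        rw [mul_add]
        omega
      · intro m _ hm
        by_cases hym : Z.inc y m
        · rw [if_pos hym]
          apply hnot
          intro hRm
          exact hm (huniq y R m l hyR hym hRm hyl hl)
        · rw [if_neg hym]
      · intro h; exact absurd (Finset.mem_univ _) h
  · simp only [hl, iff_false]
    have h5 := hnot l hl
    have hl00 : Z.ls s l ≠ 0 := fun h => hl (hR l h)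
    have h6 := (hloc.line l).resolve_left hl00
    unfold wp at h5
    rw [if_neg hl00] at h5
    rintro ⟨c, hc⟩
    have h7 : Fintype.card K * c + D = 2 * Fintype.card K := by omega
    have hc2 : c < 2 := by
      by_contra h8
      push Not at h8
      have : Fintype.card K * 2 ≤ Fintype.card K * c := Nat.mul_le_mul_left _ h8
      omega
    interval_cases c
    · omega
    · omega

end Pool.Agent.CLH
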