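import Pool.Agent.CLH.Stmts

set_option autoImplicit false

/-!
# CLH, module AXP: the axis of a point
-/

namespace Pool.Agent.CLH

open Module
open Pool.Agent.Helper58.Cyl

universe u

/-- AXP. -/
theorem axp_proof (h1 : Stmt_Tol.{u}) (h2 : Stmt_Loc.{u}) (h3 : Stmt_Axis.{u}) :
    Stmt_Axp.{u} := by
  intro K _ _ p h D _ _ V _ _ _ F hp3 hh3 hdiv hM P Q hP0 hFP hmom
  obtain ⟨Z, s, L, v, hloc, hL, hv, htau⟩ := h1 K p h D V F hp3 (by omega) hM P hP0 hFP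
  have hconc := h2 K p h hM.hq hp3 hh3 Z D s hloc hM.large (htau ⟨Q, hmom⟩) hdiv
  obtain ⟨R, hR⟩ := h3 K Z D s hloc hconc
  refine ⟨v R, hv R, ?_⟩
  intro ψ hψ0 hψP
  obtain ⟨h4, h5⟩ := hL ψ hψ0 hψP
  have hq1 : 1 < Fintype.card K := Fintype.one_lt_card
  rw [← h4, mul_comm (Fintype.card K), Nat.mul_dvd_mul_iff_left (by omega), hR, h5]

end Pool.Agent.CLH
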