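import Pool.Agent.CLH.Stmts

set_option autoImplicit false
set_option linter.unusedSectionVars false
set_option linter.style.haveILetI false

/-!
# CLH, module CCZ: two external functionals do not span a minimal one, in dimension four
-/

namespace Pool.Agent.CLH

open Module
open Pool.Agent.Helper58.Cyl

universe u

/-- CCZ. -/
theorem ccz_proof (h1 : Stmt_Del.{u}) (h2 : Stmt_D2f.{u}) (h3 : Stmt_Axp.{u})
    (h4 : Stmt_Glob.{u}) : Stmt_Ccz.{u} := by
  classical
  intro K _ _ p h D _ _ hp3 hh3 hq hDeq hdiv V _ _ _ F hV hF hN ψ y α β hψ hy hind hne hmin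
  rw [pow_zero, one_mul] at hmin
  rw [zero_add, pow_one] at hN
  have hV4 : finrank K V = 4 := by omega
  obtain ⟨-, D', hD', hpos, hsmall, hlarge⟩ := h2 K p h hq (by omega)
  have hq1 : 1 < Fintype.card K := Fintype.one_lt_card
  have hDD : D = D' := by
    have e1 : (Fintype.card K - 1) * D = (Fintype.card K - 1) * D' := by omega
    exact Nat.eq_of_mul_eq_mul_left (by omega) e1
  subst hDD
  have hDpos : 0 < D2 K p := by
    by_contra hcon
    have h0 : D2 K p = 0 := by omega
    rw [h0, zero_add] at hD'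
    have := Nat.eq_of_mul_eq_mul_left (by omega : 0 < Fintype.card K - 1) hD'
    omega
  have hLB : ∀ φ : Dual K V, φ ≠ 0 → hyp F φ = 0 ∨ D2 K p ≤ hyp F φ := by
    intro φ hφ
    have := lower_bound (k := 0) (TT_zero (K := K) (p := p)) hV hF φ hφ
    rwa [pow_zero, one_mul] at this
  have hpos2 : 0 < hyp F (α • ψ + β • y) := by rw [hmin]; exact hDpos
  obtain ⟨Q, hQ, hFQ⟩ := cnt_pos_iff.1 hpos2
  have htot : tot F = Fintype.card K * D2 K p :=
    le_antisymm hN (h1 K p h hq hp3 (by omega) V hV4 F hF Q hFQ hLB)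
  have hM : Minw K p h D V F :=
    { hq := hq, hV := hV4, word := hF, hD := hD', pos := hpos, small := hsmall, large := hlarge,
      low := hLB, htot := htot }
  obtain ⟨R, hR0, hR⟩ := h4 K p h D V F hp3 hh3 hM ⟨Q, hFQ⟩
    (h3 K p h D V F hp3 hh3 hdiv hM)
  set χ := α • ψ + β • y with hχ
  have hχR : χ R = 0 := by
    rw [hχ, LinearMap.add_apply, LinearMap.smul_apply, LinearMap.smul_apply, hR ψ hψ, hR y hy]
    simp
  obtain ⟨φ, hφR, -⟩ := exists_functional (⊥ : Submodule K V) (v := R) (by simpa using hR0)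
  -- every functional which does not vanish at `R` has the minimal count
  have hDeq' : ∀ φ : Dual K V, φ R = 1 → hyp F φ = D2 K p := by
    intro φ hφ
    have hψR := hR ψ hψ
    have h5 : ∀ c : K, D2 K p ≤ hyp F (φ + c • ψ) := by
      intro c
      have h6 : (φ + c • ψ) R = 1 := by simp [hφ, hψR]
      rcases hLB (φ + c • ψ) (by intro h0; rw [h0] at h6; simp at h6) with h | h
      · have := hR _ h
        rw [h6] at this
        exact absurd this one_ne_zero
      · exact h
    have h2' := pencil_tot F ψ φ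
    have h3' : cnt F (fun v => ψ v = 0 ∧ φ v = 0) = 0 := by
      rw [cnt_eq_zero_iff]
      intro v hv
      exact hyp_eq_zero.1 hψ v hv.1
    rw [hψ, h3', zero_add, mul_zero, add_zero, htot] at h2'
    by_contra hne'
    have h6 : D2 K p < hyp F (φ + (0 : K) • ψ) := by
      have := h5 0
      rw [zero_smul, add_zero] at this ⊢
      omega
    have h7 : ∑ c : K, D2 K p < ∑ c : K, hyp F (φ + c • ψ) :=
      Finset.sum_lt_sum (fun c _ => h5 c) ⟨0, Finset.mem_univ _, h6⟩
    rw [Finset.sum_const, Finset.card_univ, smul_eq_mul] at h7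
    omega
  have h8 := pencil_tot F χ φ
  have h9 : ∀ c : K, hyp F (φ + c • χ) = D2 K p := by
    intro c
    apply hDeq'
    simp [hφR, hχR]
  simp only [h9] at h8
  rw [Finset.sum_const, Finset.card_univ, smul_eq_mul, htot] at h8
  have hmin' : hyp F χ = D2 K p := hmin
  rw [hmin'] at h8
  have h10 : D2 K p = Fintype.card K * cnt F (fun v => χ v = 0 ∧ φ v = 0) := by omega
  have h11 : Fintype.card K ∣ (Fintype.card K - 1) * D := by
    have h12 : Fintype.card K ∣ D2 K p + (Fintype.card K - 1) * D := by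
      rw [hD']
      exact Dvd.dvd.mul_left (Dvd.intro_left 2 rfl) _
    exact (Nat.dvd_add_right (h10 ▸ Dvd.intro _ rfl)).1 h12
  have hcop : Nat.Coprime (Fintype.card K) (Fintype.card K - 1) := by
    have : Fintype.card K = (Fintype.card K - 1) + 1 := by omega
    conv_lhs => rw [this]
    exact (Nat.coprime_self_add_right.2 (Nat.coprime_one_right _)).symm
  have h13 := hcop.dvd_of_dvd_mul_left h11
  have := Nat.le_of_dvd hpos h13
  omega

end Pool.Agent.CLH
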