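import Pool.Agent.CLH.Stmts

set_option autoImplicit false

/-!
# CLH: module D2F
-/

open scoped BigOperators Polynomial
open Module Polynomial
open Pool.Agent.Helper58.Cyl (IsWord hyp tot cnt D2 lift TT)

namespace Pool.Agent.CLH

universe u

theorem d2f_proof (h1 : Stmt_Smw.{u}) (h2 : Stmt_Lowp.{u}) : Stmt_D2f.{u} := by
  intro K _ _ p h _ _ hq hh
  have hp : p.Prime := Fact.out
  have hp2 : 2 ≤ p := hp.two_le
  obtain ⟨F, hF, hne, hcnt⟩ := h1 K p h hq (by omega)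
  have hS : {k | ∃ F : (Fin 3 → K) → ZMod p, IsWord K F ∧ (∃ v, F v ≠ 0) ∧
      cnt F (fun _ => True) = k}.Nonempty := ⟨_, F, hF, hne, rfl⟩
  have hspec : ∃ F : (Fin 3 → K) → ZMod p, IsWord K F ∧ (∃ v, F v ≠ 0) ∧
      cnt F (fun _ => True) = D2 K p := Nat.sInf_mem hS
  refine ⟨hspec, ?_⟩
  have hle : D2 K p ≤ cnt F (fun _ => True) := Nat.sInf_le ⟨F, hF, hne, rfl⟩
  obtain ⟨G, hG, hGne, hGc⟩ := hspec
  have hlow := h2 K p G hG hGne
  have hlow' : (Fintype.card K - 1) * (Fintype.card K + 2) ≤ D2 K p := by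
    rw [← hGc]
    exact hlow
  obtain ⟨δ, hδ⟩ : (Fintype.card K - 1) ∣ D2 K p := by
    rw [← hGc]
    exact Pool.Agent.Helper58.Cyl.dvd_cnt hG (fun _ _ _ _ => trivial)
  set q := Fintype.card K with hqd
  have hpq : p < q := by
    rw [hq]
    calc p = p ^ 1 := (pow_one p).symm
      _ < p ^ h := Nat.pow_lt_pow_right (by omega) (by omega)
  have hq1 : 0 < q - 1 := by omega
  have hA : (p - 1) * δ + q ≤ (p - 1) * (2 * q) + p := by
    have e1 : (p - 1) * D2 K p + (q - 1) * q ≤ (q - 1) * ((p - 1) * (2 * q) + p) :=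
      le_trans (Nat.add_le_add_right (Nat.mul_le_mul_left _ hle) _) hcnt
    rw [hδ] at e1
    have e2 : (q - 1) * ((p - 1) * δ + q) ≤ (q - 1) * ((p - 1) * (2 * q) + p) := by
      calc (q - 1) * ((p - 1) * δ + q) = (p - 1) * ((q - 1) * δ) + (q - 1) * q := by ring
        _ ≤ _ := e1
    exact Nat.le_of_mul_le_mul_left e2 hq1
  have hB : q + 2 ≤ δ := by
    rw [hδ] at hlow'
    exact Nat.le_of_mul_le_mul_left hlow' hq1
  have hC : δ < 2 * q := by
    by_contra hcon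
    have hcon' : 2 * q ≤ δ := not_lt.1 hcon
    have e3 : (p - 1) * (2 * q) ≤ (p - 1) * δ := Nat.mul_le_mul_left _ hcon'
    omega
  refine ⟨2 * q - δ, ?_, by omega, by omega, ?_⟩
  · rw [hδ, ← mul_add]
    congr 1
    omega
  · rw [← hq]
    have e4 : (p - 1) * (2 * q - δ) + (p - 1) * δ = (p - 1) * (2 * q) := by
      rw [← mul_add]
      congr 1
      omega
    omega

end Pool.Agent.CLH
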