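import Pool.Agent.CLH.Stmts

set_option autoImplicit false

/-!
# CLH: module DEGT (functions of small degree on lines)
-/

open scoped BigOperators Polynomial
open Finset

namespace Pool.Agent.CLH.Degt_

universe u

section
variable {K : Type u} [Field K] [Fintype K]

theorem delta_ne {t s : K} (h : t ≠ s) :
    ∑ e ∈ range (Fintype.card K), t ^ e * s ^ (Fintype.card K - 1 - e) = 1 := by
  have h1 := (Commute.all t s).geom_sum₂_mul (Fintype.card K)
  rw [FiniteField.pow_card, FiniteField.pow_card] at h1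
  exact mul_right_cancel₀ (sub_ne_zero.mpr h) (by rw [h1, one_mul])

theorem delta_eq (t : K) :
    ∑ e ∈ range (Fintype.card K), t ^ e * t ^ (Fintype.card K - 1 - e) = 0 := by
  have h1 : ∀ e ∈ range (Fintype.card K), t ^ e * t ^ (Fintype.card K - 1 - e) =
      t ^ (Fintype.card K - 1) := fun e he => by
    rw [← pow_add]
    congr 1
    have := mem_range.mp he
    omega
  rw [sum_congr rfl h1, sum_const, card_range, nsmul_eq_mul, FiniteField.cast_card_eq_zero,
    zero_mul]

open Classical in
theorem delta (t s : K) :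
    ∑ e ∈ range (Fintype.card K), t ^ e * s ^ (Fintype.card K - 1 - e) =
      1 - if s = t then 1 else 0 := by
  by_cases h : s = t
  · rw [if_pos h, h, delta_eq, sub_self]
  · rw [if_neg h, sub_zero, delta_ne (fun h' => h h'.symm)]

theorem interp (F : K → K) (t : K) : F t = ∑ s, F s -
    ∑ e ∈ range (Fintype.card K), t ^ e * ∑ s, s ^ (Fintype.card K - 1 - e) * F s := by
  classical
  have h1 : ∑ e ∈ range (Fintype.card K), t ^ e * ∑ s, s ^ (Fintype.card K - 1 - e) * F s =
      ∑ s, F s * ∑ e ∈ range (Fintype.card K), t ^ e * s ^ (Fintype.card K - 1 - e) := by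
    simp only [mul_sum]
    rw [sum_comm]
    refine sum_congr rfl fun s _ => sum_congr rfl fun e _ => ?_
    ring
  rw [h1, ← sum_sub_distrib]
  have h2 : ∀ s, F s - F s * ∑ e ∈ range (Fintype.card K),
      t ^ e * s ^ (Fintype.card K - 1 - e) = if s = t then F s else 0 := by
    intro s
    rw [delta]
    by_cases h : s = t
    · rw [if_pos h, if_pos h]; ring
    · rw [if_neg h, if_neg h]; ring
  rw [sum_congr rfl (fun s _ => h2 s), sum_ite_eq' univ t F, if_pos (mem_univ t)]

theorem line_moment (p h : ℕ) [Fact p.Prime] [CharP K p] (hq : Fintype.card K = p ^ h)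
    (h1 : 1 ≤ h) (F g : K → K)
    (hF : ∀ j, j + 2 ≤ Fintype.card K → ¬ p ∣ j + 1 → ∑ t, t ^ j * F t = 0)
    (hg : ∀ t, g t ^ p = F t) (j : ℕ) (hj : j + p ^ (h - 1) + 1 ≤ Fintype.card K) :
    ∑ t, t ^ j * g t = 0 := by
  classical
  have hp : p.Prime := Fact.out
  have hqQ : Fintype.card K = p ^ (h - 1) * p := by
    rw [hq, ← pow_succ]
    congr 1
    omega
  have hq2 : 2 ≤ Fintype.card K := by
    rw [hqQ]
    calc 2 ≤ p := hp.two_le
      _ = 1 * p := (one_mul _).symm
      _ ≤ p ^ (h - 1) * p := Nat.mul_le_mul_right _ (Nat.one_le_pow _ _ hp.pos)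
  have hF0 : ∑ s, F s = 0 := by
    have h2 := hF 0 (by omega) (by
      rw [zero_add]
      exact fun hd => hp.one_lt.ne' (Nat.dvd_one.mp hd))
    simpa using h2
  have hsurj : Function.Surjective (frobenius K p) :=
    Finite.injective_iff_surjective.mp (frobenius_inj K p)
  have hex : ∀ e : ℕ, ∃ n : K, n ^ p = -∑ s, s ^ (Fintype.card K - 1 - e) * F s := fun e => by
    obtain ⟨n, hn⟩ := hsurj (-∑ s, s ^ (Fintype.card K - 1 - e) * F s)
    exact ⟨n, by rw [← hn, frobenius_def]⟩
  choose n hn using hex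
  have hgt : ∀ t, g t = ∑ e ∈ (range (Fintype.card K)).filter (fun e => p ∣ e),
      n e * t ^ (e / p) := by
    intro t
    apply frobenius_inj K p
    rw [frobenius_def, frobenius_def, hg, sum_pow_char, interp F t, hF0, zero_sub,
      ← sum_neg_distrib, sum_filter]
    refine sum_congr rfl fun e he => ?_
    have he' := mem_range.mp he
    by_cases hd : p ∣ e
    · rw [if_pos hd, mul_pow, hn, ← pow_mul, Nat.div_mul_cancel hd]
      ring
    · rw [if_neg hd]
      have he0 : e ≠ 0 := fun h0 => hd (h0 ▸ dvd_zero p)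
      have h3 := hF (Fintype.card K - 1 - e) (by omega) (by
        intro hd2
        apply hd
        have h4 : Fintype.card K - 1 - e + 1 = Fintype.card K - e := by omega
        rw [h4] at hd2
        have h5 : p ∣ Fintype.card K := hqQ ▸ dvd_mul_left _ _
        have h6 : e = Fintype.card K - (Fintype.card K - e) := by omega
        rw [h6]
        exact Nat.dvd_sub h5 hd2)
      rw [h3, mul_zero, neg_zero]
  simp only [hgt, mul_sum]
  rw [sum_comm]
  refine sum_eq_zero fun e he => ?_
  have he' := mem_range.mp (mem_filter.mp he).1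
  have he2 : e / p < p ^ (h - 1) := by
    rw [Nat.div_lt_iff_lt_mul hp.pos, ← hqQ]
    exact he'
  have h7 : ∀ t : K, t ^ j * (n e * t ^ (e / p)) = n e * t ^ (j + e / p) := by
    intro t
    rw [pow_add]
    ring
  rw [sum_congr rfl (fun t _ => h7 t), ← mul_sum,
    FiniteField.sum_pow_lt_card_sub_one K _ (by omega), mul_zero]

/-- Two-dimensional moments. -/
noncomputable def mu (g : K → K → K) (u v : ℕ) : K := ∑ a, ∑ b, a ^ u * b ^ v * g a b

section
variable {Q : ℕ} {g : K → K → K}

theorem mu_left (HL : ∀ a b α β : K, (α ≠ 0 ∨ β ≠ 0) → ∀ j : ℕ, j + Q + 1 ≤ Fintype.card K →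
    ∑ t : K, t ^ j * g (a + t * α) (b + t * β) = 0) {u v : ℕ} (hu : u + Q + 1 ≤ Fintype.card K) :
    mu g u v = 0 := by
  unfold mu
  rw [sum_comm]
  refine sum_eq_zero fun b _ => ?_
  have h1 := HL 0 b 1 0 (Or.inl one_ne_zero) u hu
  simp only [zero_add, mul_one, mul_zero, add_zero] at h1
  have h2 : ∀ a : K, a ^ u * b ^ v * g a b = b ^ v * (a ^ u * g a b) := fun a => by ring
  rw [sum_congr rfl (fun a _ => h2 a), ← mul_sum, h1, mul_zero]

theorem mu_right (HL : ∀ a b α β : K, (α ≠ 0 ∨ β ≠ 0) → ∀ j : ℕ, j + Q + 1 ≤ Fintype.card K →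
    ∑ t : K, t ^ j * g (a + t * α) (b + t * β) = 0) {u v : ℕ} (hv : v + Q + 1 ≤ Fintype.card K) :
    mu g u v = 0 := by
  unfold mu
  refine sum_eq_zero fun a _ => ?_
  have h1 := HL a 0 0 1 (Or.inr one_ne_zero) v hv
  simp only [zero_add, mul_one, mul_zero, add_zero] at h1
  have h2 : ∀ b : K, a ^ u * b ^ v * g a b = a ^ u * (b ^ v * g a b) := fun b => by ring
  rw [sum_congr rfl (fun b _ => h2 b), ← mul_sum, h1, mul_zero]

theorem mu_line (HL : ∀ a b α β : K, (α ≠ 0 ∨ β ≠ 0) → ∀ j : ℕ, j + Q + 1 ≤ Fintype.card K →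
    ∑ t : K, t ^ j * g (a + t * α) (b + t * β) = 0) {i : ℕ} (hi : i + Q + 1 ≤ Fintype.card K)
    (y : K) :
    ∑ s ∈ range (Fintype.card K), y ^ s * mu g (i + s) (Fintype.card K - 1 - s) = 0 := by
  classical
  have h0 : ∑ s ∈ range (Fintype.card K), y ^ s * mu g (i + s) (Fintype.card K - 1 - s) =
      ∑ a, ∑ b, a ^ i * g a b *
        ∑ s ∈ range (Fintype.card K), (y * a) ^ s * b ^ (Fintype.card K - 1 - s) := by
    unfold mu
    simp only [mul_sum]
    rw [sum_comm]
    refine sum_congr rfl fun a _ => ?_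
    rw [sum_comm]
    refine sum_congr rfl fun b _ => sum_congr rfl fun s _ => ?_
    rw [mul_pow, pow_add]
    ring
  rw [h0]
  have h1 : ∀ a b : K, a ^ i * g a b *
      ∑ s ∈ range (Fintype.card K), (y * a) ^ s * b ^ (Fintype.card K - 1 - s) =
      a ^ i * b ^ 0 * g a b - if b = y * a then a ^ i * g a b else 0 := by
    intro a b
    rw [delta]
    by_cases h : b = y * a
    · rw [if_pos h, if_pos h]; ring
    · rw [if_neg h, if_neg h]; ring
  simp only [h1, sum_sub_distrib]
  have h2 : ∑ a, ∑ b, a ^ i * b ^ 0 * g a b = mu g i 0 := rfl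
  rw [h2, mu_left HL hi, zero_sub, neg_eq_zero]
  have h3 := HL 0 0 1 y (Or.inl one_ne_zero) i hi
  refine Eq.trans (sum_congr rfl fun a _ => ?_) h3
  rw [sum_ite_eq' univ (y * a) (fun b => a ^ i * g a b), if_pos (mem_univ _)]
  simp only [zero_add, mul_one]
  rw [mul_comm y a]

theorem mu_zero (HL : ∀ a b α β : K, (α ≠ 0 ∨ β ≠ 0) → ∀ j : ℕ, j + Q + 1 ≤ Fintype.card K →
    ∑ t : K, t ^ j * g (a + t * α) (b + t * β) = 0) (hQ : 2 * Q ≤ Fintype.card K) {u v : ℕ}
    (hv : v + 1 ≤ Fintype.card K)
    (huv : u + v + Q + 2 ≤ 2 * Fintype.card K) : mu g u v = 0 := by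
  have hcard : 0 < Fintype.card K := Fintype.card_pos
  by_cases hs : Fintype.card K ≤ u + v + 1
  · obtain ⟨i, hi⟩ : ∃ i, i = u + v + 1 - Fintype.card K := ⟨_, rfl⟩
    have hi2 : i + Q + 1 ≤ Fintype.card K := by omega
    obtain ⟨P, hP⟩ : ∃ P : K[X], P = ∑ s ∈ range (Fintype.card K),
        Polynomial.C (mu g (i + s) (Fintype.card K - 1 - s)) * Polynomial.X ^ s := ⟨_, rfl⟩
    have hdeg : P.natDegree < (univ : Finset K).card := by
      rw [card_univ, hP]
      refine lt_of_le_of_lt (Polynomial.natDegree_sum_le_of_forall_le (n := Fintype.card K - 1) _ _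
        fun s hs => ?_) (by omega)
      refine (Polynomial.natDegree_C_mul_X_pow_le _ _).trans ?_
      have := mem_range.mp hs
      omega
    have hP0 : P = 0 := by
      refine Polynomial.eq_zero_of_natDegree_lt_card_of_eval_eq_zero' P univ (fun y _ => ?_) hdeg
      rw [hP, Polynomial.eval_finsetSum]
      refine Eq.trans (sum_congr rfl fun s _ => ?_) (mu_line HL hi2 y)
      rw [Polynomial.eval_mul, Polynomial.eval_C, Polynomial.eval_pow, Polynomial.eval_X, mul_comm]
    have hc := congrArg (fun R : K[X] => R.coeff (Fintype.card K - 1 - v)) hP0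
    simp only [Polynomial.coeff_zero] at hc
    rw [hP, Polynomial.finsetSum_coeff] at hc
    simp only [Polynomial.coeff_C_mul_X_pow] at hc
    rw [sum_ite_eq (range (Fintype.card K)) (Fintype.card K - 1 - v)
      (fun s => mu g (i + s) (Fintype.card K - 1 - s)),
      if_pos (mem_range.mpr (by omega))] at hc
    have e1 : i + (Fintype.card K - 1 - v) = u := by omega
    have e2 : Fintype.card K - 1 - (Fintype.card K - 1 - v) = v := by omega
    rw [e1, e2] at hc
    exact hc
  · by_cases hu : u + Q + 1 ≤ Fintype.card K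
    · exact mu_left HL hu
    · exact mu_right HL (by omega)

theorem expand2 (g : K → K → K) (a b : K) : g a b = mu g 0 0 -
    ∑ i ∈ range (Fintype.card K), a ^ i * mu g (Fintype.card K - 1 - i) 0 -
    ∑ j ∈ range (Fintype.card K), b ^ j * mu g 0 (Fintype.card K - 1 - j) +
    ∑ i ∈ range (Fintype.card K), ∑ j ∈ range (Fintype.card K), a ^ i * b ^ j *
      mu g (Fintype.card K - 1 - i) (Fintype.card K - 1 - j) := by
  have h1 := interp (fun x => g x b) a
  have h2 : ∀ s, g s b = ∑ t, g s t -
      ∑ j ∈ range (Fintype.card K), b ^ j * ∑ t, t ^ (Fintype.card K - 1 - j) * g s t :=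
    fun s => interp (fun y => g s y) b
  have h3 : ∀ u : ℕ, ∑ s, s ^ u * g s b = mu g u 0 -
      ∑ j ∈ range (Fintype.card K), b ^ j * mu g u (Fintype.card K - 1 - j) := by
    intro u
    have h4 : ∀ s, s ^ u * g s b = ∑ t, s ^ u * t ^ 0 * g s t -
        ∑ j ∈ range (Fintype.card K), b ^ j *
          ∑ t, s ^ u * t ^ (Fintype.card K - 1 - j) * g s t := by
      intro s
      rw [h2 s, mul_sub, mul_sum]
      congr 1
      · refine sum_congr rfl fun t _ => ?_
        ring
      · rw [mul_sum]
        refine sum_congr rfl fun j _ => ?_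
        simp only [mul_sum]
        refine sum_congr rfl fun t _ => ?_
        ring
    rw [sum_congr rfl (fun s _ => h4 s), sum_sub_distrib]
    unfold mu
    congr 1
    rw [sum_comm]
    refine sum_congr rfl fun j _ => ?_
    rw [mul_sum]
  have h5 : ∑ s, g s b = mu g 0 0 -
      ∑ j ∈ range (Fintype.card K), b ^ j * mu g 0 (Fintype.card K - 1 - j) := by
    rw [← h3 0]
    simp
  have h6 : g a b = ∑ s, g s b -
      ∑ e ∈ range (Fintype.card K), a ^ e * ∑ s, s ^ (Fintype.card K - 1 - e) * g s b := h1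
  rw [h6, h5]
  have h7 : ∑ e ∈ range (Fintype.card K), a ^ e * ∑ s, s ^ (Fintype.card K - 1 - e) * g s b =
      ∑ i ∈ range (Fintype.card K), a ^ i * mu g (Fintype.card K - 1 - i) 0 -
      ∑ i ∈ range (Fintype.card K), ∑ j ∈ range (Fintype.card K), a ^ i * b ^ j *
        mu g (Fintype.card K - 1 - i) (Fintype.card K - 1 - j) := by
    rw [← sum_sub_distrib]
    refine sum_congr rfl fun i _ => ?_
    rw [h3, mul_sub, mul_sum]
    congr 1
    refine sum_congr rfl fun j _ => ?_
    ring
  rw [h7]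
  ring

end

theorem main (p h : ℕ) [Fact p.Prime] [CharP K p] (hq : Fintype.card K = p ^ h) (hp3 : 3 ≤ p)
    (h1 : 1 ≤ h) (f : K → K → K)
    (hf : ∀ a b α β : K, (α ≠ 0 ∨ β ≠ 0) → ∀ j : ℕ, j + 2 ≤ Fintype.card K → ¬ p ∣ j + 1 →
      ∑ t : K, t ^ j * f (a + t * α) (b + t * β) = 0)
    (S : Finset (K × K)) (hS : ∀ x ∈ S, ∀ a, f a (x.1 * a + x.2) = 0)
    (hcard : p ^ (h - 1) ≤ S.card) (a b : K) : f a b = 0 := by
  classical
  have hp : p.Prime := Fact.out
  have hK : 0 < Fintype.card K := Fintype.card_pos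
  obtain ⟨Q, hQdef⟩ : ∃ Q, Q = p ^ (h - 1) := ⟨_, rfl⟩
  have hQ1 : 1 ≤ Q := by rw [hQdef]; exact Nat.one_le_pow _ _ hp.pos
  have hqQ : Fintype.card K = Q * p := by
    rw [hq, hQdef, ← pow_succ]
    congr 1
    omega
  have hQ3 : 3 * Q ≤ Fintype.card K := by rw [hqQ, mul_comm]; exact Nat.mul_le_mul_left _ hp3
  have hsurj : Function.Surjective (frobenius K p) :=
    Finite.injective_iff_surjective.mp (frobenius_inj K p)
  have hex : ∀ a b : K, ∃ c : K, c ^ p = f a b := fun a b => by
    obtain ⟨c, hc⟩ := hsurj (f a b)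
    exact ⟨c, by rw [← hc, frobenius_def]⟩
  choose g hg using hex
  have hg0 : ∀ a b, f a b = 0 → g a b = 0 := fun a b h0 => by
    have := hg a b
    rw [h0] at this
    exact pow_eq_zero_iff hp.ne_zero |>.mp this
  have HL : ∀ a b α β : K, (α ≠ 0 ∨ β ≠ 0) → ∀ j : ℕ, j + Q + 1 ≤ Fintype.card K →
      ∑ t : K, t ^ j * g (a + t * α) (b + t * β) = 0 := fun a b α β hαβ j hj => by
    rw [hQdef] at hj
    exact line_moment p h hq h1 (fun t => f (a + t * α) (b + t * β))
      (fun t => g (a + t * α) (b + t * β)) (hf a b α β hαβ) (fun t => hg _ _) j hj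
  -- the coefficients
  have hQ2 : 2 * Q ≤ Fintype.card K := by omega
  obtain ⟨c, hc⟩ : ∃ c : ℕ → ℕ → K, c = fun i j =>
      mu g (Fintype.card K - 1 - i) (Fintype.card K - 1 - j) := ⟨_, rfl⟩
  have hc0 : ∀ i j, i < Fintype.card K → j < Fintype.card K → Q ≤ i + j → c i j = 0 := by
    intro i j hi hj hij
    rw [hc]
    exact mu_zero HL hQ2 (by omega) (by omega)
  have hgexp : ∀ a b, g a b = ∑ i ∈ range (Fintype.card K), ∑ j ∈ range (Fintype.card K),
      a ^ i * b ^ j * c i j := by
    intro a b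
    have e1 := expand2 g a b
    have z1 : mu g 0 0 = 0 := mu_left HL (by omega)
    have z2 : ∑ i ∈ range (Fintype.card K), a ^ i * mu g (Fintype.card K - 1 - i) 0 = 0 :=
      sum_eq_zero fun i _ => by rw [mu_right HL (by omega), mul_zero]
    have z3 : ∑ j ∈ range (Fintype.card K), b ^ j * mu g 0 (Fintype.card K - 1 - j) = 0 :=
      sum_eq_zero fun j _ => by rw [mu_left HL (by omega), mul_zero]
    rw [z1, z2, z3, sub_zero, sub_zero, zero_add] at e1
    rw [e1, hc]
  -- the polynomial
  obtain ⟨G, hG⟩ : ∃ G : Polynomial K[X], G = ∑ j ∈ range Q,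
      Polynomial.C (∑ i ∈ range (Fintype.card K), Polynomial.C (c i j) * Polynomial.X ^ i) *
        Polynomial.X ^ j := ⟨_, rfl⟩
  have hGev : ∀ R : K[X], G.eval R = ∑ j ∈ range Q, ∑ i ∈ range (Fintype.card K),
      Polynomial.C (c i j) * Polynomial.X ^ i * R ^ j := by
    intro R
    rw [hG, Polynomial.eval_finsetSum]
    refine sum_congr rfl fun j _ => ?_
    rw [Polynomial.eval_mul, Polynomial.eval_C, Polynomial.eval_pow, Polynomial.eval_X, sum_mul]
  have hgG : ∀ (R : K[X]) (a b : K), R.eval a = b → g a b = (G.eval R).eval a := by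
    intro R a b hR
    rw [hGev, Polynomial.eval_finsetSum, hgexp, sum_comm]
    have h3 : range Q ⊆ range (Fintype.card K) := range_subset_range.mpr (by omega)
    rw [← sum_subset h3]
    · refine sum_congr rfl fun j _ => ?_
      rw [Polynomial.eval_finsetSum]
      refine sum_congr rfl fun i _ => ?_
      simp only [Polynomial.eval_mul, Polynomial.eval_C, Polynomial.eval_pow, Polynomial.eval_X,
        hR]
      ring
    · intro j hj hjQ
      refine sum_eq_zero fun i hi => ?_
      rw [hc0 i j (mem_range.mp hi) (mem_range.mp hj) (by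
        have : ¬ j < Q := fun h' => hjQ (mem_range.mpr h')
        omega), mul_zero]
  have hroot : ∀ x ∈ S, G.eval (Polynomial.C x.1 * Polynomial.X + Polynomial.C x.2) = 0 := by
    intro x hx
    have hdeg : (G.eval (Polynomial.C x.1 * Polynomial.X + Polynomial.C x.2)).natDegree <
        (univ : Finset K).card := by
      rw [card_univ, hGev]
      refine lt_of_le_of_lt (Polynomial.natDegree_sum_le_of_forall_le (n := Q - 1) _ _
        fun j hj => Polynomial.natDegree_sum_le_of_forall_le (n := Q - 1) _ _ fun i hi => ?_)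
        (by omega)
      by_cases hij : Q ≤ i + j
      · rw [hc0 i j (mem_range.mp hi) (by have := mem_range.mp hj; omega) hij]
        simp
      · have d1 : (Polynomial.C (c i j) * Polynomial.X ^ i : K[X]).natDegree ≤ i :=
          Polynomial.natDegree_C_mul_X_pow_le _ _
        have d2 : ((Polynomial.C x.1 * Polynomial.X + Polynomial.C x.2 : K[X]) ^ j).natDegree ≤
            j := by
          refine Polynomial.natDegree_pow_le.trans ?_
          have := Polynomial.natDegree_linear_le (a := x.1) (b := x.2)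
          calc j * (Polynomial.C x.1 * Polynomial.X + Polynomial.C x.2 : K[X]).natDegree ≤ j * 1 :=
                Nat.mul_le_mul_left _ this
            _ = j := mul_one _
        refine Polynomial.natDegree_mul_le.trans ?_
        omega
    refine Polynomial.eq_zero_of_natDegree_lt_card_of_eval_eq_zero' _ univ (fun a _ => ?_) hdeg
    rw [← hgG (Polynomial.C x.1 * Polynomial.X + Polynomial.C x.2) a (x.1 * a + x.2) (by simp)]
    exact hg0 _ _ (hS x hx a)
  have hG0 : G = 0 := by
    refine Polynomial.eq_zero_of_natDegree_lt_card_of_eval_eq_zero' G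
      (S.image fun x => (Polynomial.C x.1 * Polynomial.X + Polynomial.C x.2 : K[X]))
      (fun R hR => ?_) ?_
    · obtain ⟨x, hx, rfl⟩ := mem_image.mp hR
      exact hroot x hx
    · have hinj : Function.Injective
          (fun x : K × K => (Polynomial.C x.1 * Polynomial.X + Polynomial.C x.2 : K[X])) := by
        intro x y hxy
        have e0 := congrArg (fun R : K[X] => R.coeff 0) hxy
        have e1 := congrArg (fun R : K[X] => R.coeff 1) hxy
        simp at e0 e1
        exact Prod.ext e1 e0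
      rw [card_image_of_injective _ hinj]
      refine lt_of_le_of_lt (b := Q - 1) ?_ (by rw [← hQdef] at hcard; omega)
      rw [hG]
      refine Polynomial.natDegree_sum_le_of_forall_le _ _ fun j hj => ?_
      refine (Polynomial.natDegree_C_mul_X_pow_le _ _).trans ?_
      have := mem_range.mp hj
      omega
  have hga : g a b = 0 := by
    rw [hgG (Polynomial.C b) a b (by simp), hG0]
    simp
  rw [← hg a b, hga, zero_pow hp.ne_zero]

end

end Pool.Agent.CLH.Degt_

namespace Pool.Agent.CLH

universe u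

theorem degt_proof : Stmt_Degt.{u} := by
  intro K _ _ p h _ _ hq hp h1 f hf S hS hcard a b
  exact Degt_.main p h hq hp h1 f hf S hS hcard a b

end Pool.Agent.CLH
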