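import Pool.Agent.CLH.Stmts

set_option autoImplicit false
set_option linter.unusedSectionVars false
set_option linter.style.haveILetI false

/-!
# CLH, module DEL: the lower bound in dimension four (generalisation of `Cyl/Claim.lean`)
-/

namespace Pool.Agent.CLH

open Module
open Pool.Agent.Helper58.Cyl

universe u

section claim

variable {K : Type u} [Field K] [Fintype K]
variable {p : ℕ} [Fact p.Prime] [CharP K p]
variable {V : Type u} [AddCommGroup V] [Module K V]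

/-- In dimension four the weight of a word that is at most the expected minimum is at least the
expected minimum. -/
theorem delta_four' [Finite V] {h : ℕ} (hh : 2 ≤ h) (hp3 : 3 ≤ p) (hTau : Stmt_Tau.{u})
    (hq : Fintype.card K = p ^ h) (hDpos : 0 < D2 K p)
    (hD : D2 K p ≤ (Fintype.card K - 1) * (2 * Fintype.card K - 1)) (h4 : finrank K V = 4)
    {F : V → ZMod p} (hF : IsWord K F) {Q : V} (hFQ : F Q ≠ 0)
    (hLB : ∀ φ : Dual K V, φ ≠ 0 → hyp F φ = 0 ∨ D2 K p ≤ hyp F φ) :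
    Fintype.card K * D2 K p ≤ tot F := by
  classical
  by_contra hlt
  push Not at hlt
  haveI : FiniteDimensional K V := Module.finite_of_finrank_pos (by omega)
  haveI : Nontrivial V := Module.nontrivial_of_finrank_pos (R := K) (by omega)
  have hp2 : 2 ≤ p := (Fact.out : p.Prime).two_le
  have hq1 : 1 < Fintype.card K := Fintype.one_lt_card
  obtain ⟨ψ₀, hψ₀, hψ₀ext⟩ := exists_external hF hDpos hLB hlt.le
  have hψ₀Q : ψ₀ Q ≠ 0 := by
    intro h
    exact hFQ (hyp_eq_zero.1 hψ₀ext Q h)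
  set ψ : Dual K V := (ψ₀ Q)⁻¹ • ψ₀ with hψdef
  have hψ : hyp F ψ = 0 := by
    rw [hψdef, hyp_smul _ _ (inv_ne_zero hψ₀Q)]; exact hψ₀ext
  have hψQ : ψ Q = 1 := by simp [hψdef, hψ₀Q]
  have hψne : ψ ≠ 0 := by
    intro h; rw [h] at hψQ; simp at hψQ
  have hcardV : Nat.card V = Fintype.card K ^ 4 := by
    rw [Module.natCard_eq_pow_finrank (K := K), h4, Nat.card_eq_fintype_card]
  have hker := card_mul_card_ker ψ hψne
  rw [hcardV] at hker
  have hker3 : Nat.card (LinearMap.ker ψ) = Fintype.card K ^ 3 := by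
    have : Fintype.card K * Nat.card (LinearMap.ker ψ) = Fintype.card K * Fintype.card K ^ 3 := by
      rw [hker]; ring
    exact Nat.eq_of_mul_eq_mul_left (by omega) this
  obtain ⟨P, hP0, hψP, hM⟩ := find_P' hF ψ hψ hψQ hFQ (by
    rw [hker3]
    obtain ⟨k, hk⟩ : ∃ k, Fintype.card K = k + 2 := ⟨Fintype.card K - 2, by omega⟩
    rw [hk] at hD hlt ⊢
    have e1 : k + 2 - 1 = k + 1 := by omega
    have e2 : 2 * (k + 2) - 1 = 2 * k + 3 := by omega
    rw [e1, e2] at hD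
    have e3 : (k + 2) * D2 K p ≤ (k + 2) * ((k + 1) * (2 * k + 3)) := Nat.mul_le_mul_left _ hD
    have e4 : (k + 2) * ((k + 1) * (2 * k + 3)) = 2 * k ^ 3 + 9 * k ^ 2 + 13 * k + 6 := by ring
    have e5 : (k + 2) ^ 3 = k ^ 3 + 6 * k ^ 2 + 12 * k + 8 := by ring
    rw [e5]
    have e6 : k ^ 3 + 6 * k ^ 2 + 12 * k + 8 - 1 = k ^ 3 + 6 * k ^ 2 + 12 * k + 7 := by omega
    rw [e6, e1]
    nlinarith)
  have hcount := hTau K p h hq hp3 (by omega) V h4 F hF P Q hM
  obtain ⟨e₃, he₃⟩ := exists_notMem_span (K := K) ![P, Q] (by rw [h4]; norm_num)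
  obtain ⟨e₄, he₄⟩ := exists_notMem_span (K := K) ![P, Q, e₃] (by rw [h4]; norm_num)
  obtain ⟨χ₁, hχ₁1, hχ₁2⟩ := exists_functional _ he₃
  obtain ⟨χ₂, hχ₂1, hχ₂2⟩ := exists_functional _ he₄
  have hχ₁P : χ₁ P = 0 := hχ₁2 P (Submodule.subset_span ⟨0, rfl⟩)
  have hχ₁Q : χ₁ Q = 0 := hχ₁2 Q (Submodule.subset_span ⟨1, rfl⟩)
  have hχ₂P : χ₂ P = 0 := hχ₂2 P (Submodule.subset_span ⟨0, rfl⟩)
  have hχ₂Q : χ₂ Q = 0 := hχ₂2 Q (Submodule.subset_span ⟨1, rfl⟩)
  have hχ₂e : χ₂ e₃ = 0 := hχ₂2 e₃ (Submodule.subset_span ⟨2, rfl⟩)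
  have key : ∀ a : K, ∃ c : K, c ≠ 0 ∧ hyp F (χ₁ + a • χ₂ + c • ψ) = 0 := by
    intro a
    obtain ⟨c, hc⟩ := exists_second hLB (ψ := ψ) (φ := χ₁ + a • χ₂) hψ (by
      intro c h0
      have h1 := congrArg (fun f => f Q) h0
      have h2 := congrArg (fun f => f e₃) h0
      simp only [LinearMap.add_apply, LinearMap.smul_apply, smul_eq_mul, LinearMap.zero_apply,
        hχ₁Q, hχ₂Q, hψQ, hχ₂e, hχ₁1, mul_zero, mul_one, zero_add, add_zero] at h1 h2
      rw [h1] at h2
      simp at h2) (Or.inl hlt)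
    refine ⟨c, ?_, hc⟩
    rintro rfl
    apply hFQ
    apply hyp_eq_zero.1 hc
    simp [hχ₁Q, hχ₂Q]
  choose c hc0 hc using key
  have hle : Nat.card K ≤ p ^ (h - 1) := by
    haveI : Finite (Dual K V) := Module.finite_of_finite K
    rw [← Set.ncard_univ]
    refine le_trans ?_ hcount
    apply Set.ncard_le_ncard_of_injOn (fun a => (c a)⁻¹ • (χ₁ + a • χ₂ + c a • ψ))
    · intro a _
      refine ⟨?_, ?_, ?_⟩
      · rw [hyp_smul _ _ (inv_ne_zero (hc0 a))]; exact hc a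
      · simp [hχ₁P, hχ₂P, hψP]
      · simp [hχ₁Q, hχ₂Q, hψQ, hc0 a]
    · intro a _ b _ hab
      have h1 := congrArg (fun f => f e₃) hab
      have h2 := congrArg (fun f => f e₄) hab
      simp only [LinearMap.add_apply, LinearMap.smul_apply, smul_eq_mul, hχ₁1, hχ₂e,
        hχ₂1, mul_zero, add_zero, mul_one] at h1 h2
      have ha := hc0 a
      have hb := hc0 b
      have h3 : (c a)⁻¹ = (c b)⁻¹ := by
        have e1 : (c a)⁻¹ * (1 + c a * ψ e₃) = (c a)⁻¹ + ψ e₃ := by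
          field_simp
        have e2 : (c b)⁻¹ * (1 + c b * ψ e₃) = (c b)⁻¹ + ψ e₃ := by
          field_simp
        rw [e1, e2] at h1
        exact add_right_cancel h1
      have h4 : c a = c b := inv_injective h3
      rw [h4] at h2
      have h5 := mul_left_cancel₀ (inv_ne_zero hb) h2
      linear_combination h5
  rw [Nat.card_eq_fintype_card, hq] at hle
  have h5 : p ^ (h - 1) < p ^ h := Nat.pow_lt_pow_right (by omega) (by omega)
  omega


end claim

/-- DEL. -/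
theorem del_proof (h1 : Stmt_Tau.{u}) (h2 : Stmt_D2f.{u}) : Stmt_Del.{u} := by
  intro K _ _ p h _ _ hq hp3 hh V _ _ _ h4 F hF Q hQ hLB
  obtain ⟨-, D, hD, hpos, hsmall, -⟩ := h2 K p h hq hh
  have hq1 : 1 < Fintype.card K := Fintype.one_lt_card
  generalize hqq : Fintype.card K = q at *
  obtain ⟨k, rfl⟩ : ∃ k, q = D + 2 + k := ⟨q - (D + 2), by omega⟩
  have e1 : D + 2 + k - 1 = D + 1 + k := by omega
  have e2 : 2 * (D + 2 + k) - 1 = 2 * D + 3 + 2 * k := by omega
  have hD' : D2 K p + (D + 1 + k) * D = (D + 1 + k) * (2 * (D + 2 + k)) := by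
    rw [← e1]; exact hD
  have hDpos : 0 < D2 K p := by
    by_contra hcon
    have h0 : D2 K p = 0 := by omega
    rw [h0, zero_add] at hD'
    nlinarith
  have := delta_four' hh hp3 h1 (hqq.trans hq) hDpos (by
    rw [hqq, e1, e2]
    nlinarith) h4 hF hQ hLB
  rw [hqq] at this
  exact this

end Pool.Agent.CLH
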