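import Pool.Agent.CLH.Stmts

set_option autoImplicit false

/-!
# CLH module DIG: a fat line with a point of weight zero has weight `D`
-/

open scoped BigOperators Polynomial LinearAlgebra.Projectivization
open Module Polynomial

namespace Pool.Agent.CLH

universe u

noncomputable section

namespace DIG_

variable {K : Type u} [Field K]

theorem ps_single (Z : Pl K) (g : Z.Ln → ℕ) (x : Z.Pt) (l : Z.Ln) (hl : Z.inc x l) :
    g l ≤ Z.ps g x := by
  classical
  unfold Pl.ps
  have h := Finset.single_le_sum (f := fun m : Z.Ln => if Z.inc x m then g m else 0)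
    (fun _ _ => Nat.zero_le _) (Finset.mem_univ l)
  simp only [if_pos hl] at h
  exact h

theorem ps_pair (Z : Pl K) (g : Z.Ln → ℕ) (x : Z.Pt) (l m : Z.Ln) (hlm : l ≠ m)
    (hl : Z.inc x l) (hm : Z.inc x m) : g l + g m ≤ Z.ps g x := by
  classical
  unfold Pl.ps
  have h : ∑ n ∈ ({l, m} : Finset Z.Ln), (if Z.inc x n then g n else 0) ≤
      ∑ n : Z.Ln, if Z.inc x n then g n else 0 :=
    Finset.sum_le_sum_of_subset (Finset.subset_univ _)
  rw [Finset.sum_pair hlm, if_pos hl, if_pos hm] at h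
  exact h

theorem ps_other (Z : Pl K) (g : Z.Ln → ℕ) (x : Z.Pt) (l : Z.Ln) (hlt : g l < Z.ps g x) :
    ∃ m, m ≠ l ∧ Z.inc x m ∧ g m ≠ 0 := by
  classical
  by_contra hcon
  push Not at hcon
  have : Z.ps g x ≤ g l := by
    unfold Pl.ps
    rw [Finset.sum_eq_single l]
    · split_ifs
      · exact le_rfl
      · exact Nat.zero_le _
    · intro m _ hm
      by_cases hi : Z.inc x m
      · rw [if_pos hi]; exact hcon m hm hi
      · rw [if_neg hi]
    · intro h; exact absurd (Finset.mem_univ l) h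
  omega

theorem ls_ge (Z : Pl K) (f : Z.Pt → ℕ) (l : Z.Ln) (h : ∀ x, Z.inc x l → 1 ≤ f x) :
    Z.ls (fun _ => 1) l ≤ Z.ls f l := by
  unfold Pl.ls
  apply Finset.sum_le_sum
  intro x _
  by_cases hx : Z.inc x l
  · rw [if_pos hx, if_pos hx]; exact h x hx
  · rw [if_neg hx, if_neg hx]

end DIG_

theorem dig_proof (h1 : Stmt_Lsys.{u}) (h2 : Stmt_Yx.{u}) (h3 : Stmt_Ylow.{u})
    (h4 : Stmt_Fatw.{u}) (h5 : Stmt_Nc.{u}) (h6 : Stmt_Ldl.{u}) (h7 : Stmt_Aria.{u})
    (h8 : Stmt_Arib.{u}) (h9 : Stmt_Pln.{u}) : Stmt_Dig.{u} := by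
  intro K _ _ p h _ _ hq hp hh Z D s hL hD hτ hC x l hx hl
  obtain ⟨e1, e2, hS⟩ := h1 K Z D s hL
  obtain ⟨p1, -⟩ := h9 K Z
  have hq0 : p ^ (h - 1) ≤ p ^ h := Nat.pow_le_pow_right (by omega) (by omega)
  have hτq : tau Z s ≤ Fintype.card K := by rw [hq]; exact hτ.trans hq0
  have hY := h3 K Z s (by omega)
  -- the key step
  have key : ∀ (x : Z.Pt) (l : Z.Ln), kap Z s x = 0 → Z.inc x l → wp Z D s l ≠ 0 →
      wp Z D s l < D → Z.ls s l ≠ 0 ∧ wp Z D s l + 2 ≤ tau Z s ∧
      (p = 3 ∧ 4 ≤ h ∧ 2 * 3 ^ (h - 2) ≤ wp Z D s l ∧ D < 5 * 3 ^ (h - 2)) := by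
    intro x l hx hl h0 hlt
    have hls : Z.ls s l ≠ 0 := by
      intro h
      have : wp Z D s l = D := if_pos h
      omega
    have hpt := hS.point x
    rw [hx, mul_zero, add_zero] at hpt
    obtain ⟨m, hml, hm, hm0⟩ := DIG_.ps_other Z (wp Z D s) x l (by omega)
    have hsum := DIG_.ps_pair Z (wp Z D s) x l m (Ne.symm hml) hl hm
    have hlsm : Z.ls s m ≠ 0 := by
      intro h
      have : wp Z D s m = D := if_pos h
      omega
    have f1 := h4 K Z D s hL l hls h0
    have f2 := h4 K Z D s hL m hlsm hm0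
    have hw : wp Z D s l + 2 ≤ tau Z s := by omega
    refine ⟨hls, hw, ?_⟩
    apply h7 K p h hp hh D (tau Z s) (wp Z D s l) (yy Z s) hD e1 hτ f1 hw
    · have := hY.1
      rw [hq] at this
      exact this
    · intro hh3 hp3
      subst hh3
      subst hp3
      have f3 := h5 K Z D s hL hC hτq
      norm_num at hD
      omega
    · intro i j α β hij g1 g2
      have := h2 K Z D s hL x l hx hl hls h0 i j α β hij g1 g2
      rw [hq] at this
      exact this
  by_contra hcon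
  push Not at hcon
  obtain ⟨c1, c2⟩ := hcon
  have hle : wp Z D s l < D := by
    have hpt := hS.point x
    rw [hx, mul_zero, add_zero] at hpt
    have := DIG_.ps_single Z (wp Z D s) x l hl
    omega
  obtain ⟨hls, hw, rfl, hh4, hw2, hD5⟩ := key x l hx hl c1 hle
  -- all fat lines have weight at least `2 * 3 ^ (h - 2)`
  have hpow1 : 3 ^ h = 9 * 3 ^ (h - 2) := by
    obtain ⟨e, rfl⟩ : ∃ e, h = e + 2 := ⟨h - 2, by omega⟩
    rw [Nat.add_sub_cancel, pow_add]; ring
  have hpow2 : 3 ^ (h - 1) = 3 * 3 ^ (h - 2) := by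
    obtain ⟨e, rfl⟩ : ∃ e, h = e + 2 := ⟨h - 2, by omega⟩
    rw [Nat.add_sub_cancel, show e + 2 - 1 = e + 1 by omega, pow_succ]; ring
  have hQ : 1 ≤ 3 ^ (h - 2) := Nat.one_le_pow _ _ (by norm_num)
  have hD' : 3 ^ h ≤ 2 * D + 3 := by
    have := hD
    norm_num at this
    exact this
  have hfat : ∀ m, Z.ls s m ≠ 0 → wp Z D s m ≠ 0 → 2 * 3 ^ (h - 2) ≤ wp Z D s m := by
    intro m hm hm0
    by_cases hz : ∃ y, Z.inc y m ∧ kap Z s y = 0
    · obtain ⟨y, hy, hy0⟩ := hz
      have hpt := hS.point y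
      rw [hy0, mul_zero, add_zero] at hpt
      have hs1 := DIG_.ps_single Z (wp Z D s) y m hy
      rcases Nat.lt_or_ge (wp Z D s m) D with hlt | hge
      · exact (key y m hy0 hy hm0 hlt).2.2.2.2.1
      · omega
    · push Not at hz
      have hline := hS.line m
      have g1 := DIG_.ls_ge Z (kap Z s) m (fun y hy => by
        have := hz y hy
        omega)
      rw [p1 m, hq] at g1
      omega
  have htt := h6 K h hq hh4 Z D s hL hτ hD' hD5 hfat
  have hY2 := hY.2 htt
  rw [hq] at hY2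
  exact h8 K h hh4 D (tau Z s) (wp Z D s l) (yy Z s) hD' e1 hτ hw hw2 hD5 hY2 (by
    intro j g1 g2
    have := h2 K Z D s hL x l hx hl hls c1 0 j 0 1 (Nat.zero_le _) (by rw [g1]; ring) (by
      rw [zero_mul, one_mul]
      exact g2.symm)
    rw [hq] at this
    exact this)

end

end Pool.Agent.CLH
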