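import Mathlib
import Pool.Agent.Helper58.Cyl.Induct

set_option autoImplicit false

/-!
# CLH: minimum weight codewords of the dual point-line code of `PG(n, q)`, `q = p ^ h`
(problem MP_7b21eb_co)

Definitions: abstract projective planes over a finite field, given by affine coordinates with
respect to every flag; systems of weights; local data of a codeword at a point.
-/

open scoped BigOperators Polynomial
open Module

namespace Pool.Agent.CLH

universe u

noncomputable section

/-! ## The standard plane in affine coordinates -/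

/-- The coordinates of points and of lines.  Points: `inl (a, b)` is the affine point `(a, b)`,
`inr (inl y)` is the point at infinity of slope `y`, `inr (inr ())` is the vertical point.
Lines: `inl (y, m)` is the line `b = y a + m`, `inr (inl a)` is the vertical line with first
coordinate `a`, `inr (inr ())` is the line at infinity. -/
abbrev SP (K : Type u) := (K × K) ⊕ (K ⊕ Unit)

/-- The vertical point, or the line at infinity. -/
def inf {K : Type u} : SP K := Sum.inr (Sum.inr ())

/-- The incidence of the standard plane. -/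
def sinc {K : Type u} [Field K] : SP K → SP K → Prop
  | Sum.inl x, Sum.inl y => x.2 = y.1 * x.1 + y.2
  | Sum.inl x, Sum.inr (Sum.inl a) => x.1 = a
  | Sum.inl _, Sum.inr (Sum.inr _) => False
  | Sum.inr (Sum.inl y), Sum.inl z => y = z.1
  | Sum.inr (Sum.inl _), Sum.inr (Sum.inl _) => False
  | Sum.inr (Sum.inl _), Sum.inr (Sum.inr _) => True
  | Sum.inr (Sum.inr _), Sum.inl _ => False
  | Sum.inr (Sum.inr _), Sum.inr _ => True

/-- A coordinatisation of an incidence structure. -/
structure Frame (K : Type u) [Field K] (Pt Ln : Type u) (inc : Pt → Ln → Prop) where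
  p : SP K ≃ Pt
  l : SP K ≃ Ln
  hinc : ∀ s t, sinc s t ↔ inc (p s) (l t)

/-- A projective plane over `K`: every flag is the pair (vertical point, line at infinity) of some
coordinatisation. -/
structure Pl (K : Type u) [Field K] where
  Pt : Type u
  Ln : Type u
  fp : Fintype Pt
  fl : Fintype Ln
  inc : Pt → Ln → Prop
  frame : ∀ x l, inc x l → ∃ f : Frame K Pt Ln inc, f.p inf = x ∧ f.l inf = l
  flag : ∃ x l, inc x l

attribute [instance] Pl.fp Pl.fl

variable {K : Type u} [Field K]

/-- The coordinatisations of a plane. -/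
abbrev Pl.Fr (Z : Pl K) := Frame K Z.Pt Z.Ln Z.inc

open Classical in
/-- The sum of `f` over the points of the line `l`. -/
def Pl.ls (Z : Pl K) (f : Z.Pt → ℕ) (l : Z.Ln) : ℕ := ∑ x : Z.Pt, if Z.inc x l then f x else 0

open Classical in
/-- The sum of `g` over the lines through the point `x`. -/
def Pl.ps (Z : Pl K) (g : Z.Ln → ℕ) (x : Z.Pt) : ℕ := ∑ l : Z.Ln, if Z.inc x l then g l else 0

/-- The line `b = y a + m`. -/
def aff {Z : Pl K} (f : Z.Fr) (y m : K) : Z.Ln := f.l (Sum.inl (y, m))

/-- The vertical line with first coordinate `a`. -/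
def ver {Z : Pl K} (f : Z.Fr) (a : K) : Z.Ln := f.l (Sum.inr (Sum.inl a))

/-- The affine point `(a, b)`. -/
def apt {Z : Pl K} (f : Z.Fr) (a b : K) : Z.Pt := f.p (Sum.inl (a, b))

/-- The point at infinity of slope `y`. -/
def slp {Z : Pl K} (f : Z.Fr) (y : K) : Z.Pt := f.p (Sum.inr (Sum.inl y))

/-! ## Systems of weights -/

/-- A multiset `κ` of points together with weights `w` of the lines such that
`κ(l) = k + w(l)` for all lines and `w(x) = D + q κ(x)` for all points. -/
structure Sys [Fintype K] (Z : Pl K) (k D : ℕ) (κ : Z.Pt → ℕ) (w : Z.Ln → ℕ) : Prop where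
  line : ∀ l, Z.ls κ l = k + w l
  point : ∀ x, Z.ps w x = D + Fintype.card K * κ x

/-- The generating polynomial `∏ (1 - m T) ^ w` of the pencil of a slope point. -/
def Fpol [Fintype K] {Z : Pl K} (f : Z.Fr) (w : Z.Ln → ℕ) (y : K) : K[X] :=
  ∏ m : K, (1 - Polynomial.C m * Polynomial.X) ^ w (aff f y m)

/-- The generating polynomial `∏ (1 + a T) ^ w` of the pencil of the vertical point. -/
def Gpol [Fintype K] {Z : Pl K} (f : Z.Fr) (w : Z.Ln → ℕ) : K[X] :=
  ∏ a : K, (1 + Polynomial.C a * Polynomial.X) ^ w (ver f a)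

/-! ## Local data of a codeword at a point outside its support

`s x` is the number of points of the support on the line `x` through the point; the minimum weight
in planes is `2 q - D`. -/

/-- The local data. -/
structure Loc [Fintype K] (Z : Pl K) (D : ℕ) (s : Z.Pt → ℕ) : Prop where
  ne_one : ∀ x, s x ≠ 1
  line : ∀ l, Z.ls s l = 0 ∨ 2 * Fintype.card K ≤ Z.ls s l + D
  tot : ∑ x, s x + Fintype.card K * D = 2 * Fintype.card K ^ 2
  pos : 0 < D
  small : D + 2 ≤ Fintype.card K

/-- The indicator of the external lines. -/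
def ext (Z : Pl K) (s : Z.Pt → ℕ) (l : Z.Ln) : ℕ := if Z.ls s l = 0 then 1 else 0

/-- The number of external lines. -/
def tau (Z : Pl K) (s : Z.Pt → ℕ) : ℕ := ∑ l, ext Z s l

/-- The number of external lines through `x`. -/
def tt (Z : Pl K) (s : Z.Pt → ℕ) (x : Z.Pt) : ℕ := Z.ps (ext Z s) x

/-- The point weights `s x + 2 t x - 2`. -/
def kap (Z : Pl K) (s : Z.Pt → ℕ) (x : Z.Pt) : ℕ := s x + 2 * tt Z s x - 2

/-- The line weights: `D` for external lines, the excess over `2 q - D` for the others. -/
def wp [Fintype K] (Z : Pl K) (D : ℕ) (s : Z.Pt → ℕ) (l : Z.Ln) : ℕ :=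
  if Z.ls s l = 0 then D else Z.ls s l + D - 2 * Fintype.card K

/-- The external lines are concurrent. -/
def Conc (Z : Pl K) (s : Z.Pt → ℕ) : Prop := ∃ R : Z.Pt, ∀ l, Z.ls s l = 0 → Z.inc R l

open Classical in
/-- The number of points of weight zero on external lines. -/
def yy (Z : Pl K) (s : Z.Pt → ℕ) : ℕ :=
  (Finset.univ.filter fun x : Z.Pt => s x = 0 ∧ tt Z s x = 1).card

end

end Pool.Agent.CLH
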