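import Pool.Agent.CLH.Stmts

set_option autoImplicit false

open scoped BigOperators
open Module

namespace Pool.Agent.CLH

universe u

namespace FATW_

variable {K : Type u} [Field K]

theorem ls_add (Z : Pl K) (f g : Z.Pt → ℕ) (l : Z.Ln) :
    Z.ls (fun x => f x + g x) l = Z.ls f l + Z.ls g l := by
  unfold Pl.ls
  rw [← Finset.sum_add_distrib]
  refine Finset.sum_congr rfl fun x _ => ?_
  split_ifs <;> rfl

theorem ls_two (Z : Pl K) (l : Z.Ln) :
    Z.ls (fun _ => 2) l = 2 * Z.ls (fun _ => 1) l := by
  unfold Pl.ls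
  rw [Finset.mul_sum]
  refine Finset.sum_congr rfl fun x _ => ?_
  split_ifs <;> rfl

theorem ls_mono (Z : Pl K) (f g : Z.Pt → ℕ) (l : Z.Ln) (h : ∀ x, Z.inc x l → f x ≤ g x) :
    Z.ls f l ≤ Z.ls g l := by
  unfold Pl.ls
  refine Finset.sum_le_sum fun x _ => ?_
  split_ifs with hx
  · exact h x hx
  · exact le_rfl

open Classical in
theorem ps_two (Z : Pl K) (g : Z.Ln → ℕ) (x : Z.Pt) (l m : Z.Ln) (hne : l ≠ m)
    (hl : Z.inc x l) (hm : Z.inc x m) : g l + g m ≤ Z.ps g x := by
  unfold Pl.ps
  have h1 : ∑ i ∈ ({l, m} : Finset Z.Ln), (if Z.inc x i then g i else 0) ≤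
      ∑ i : Z.Ln, (if Z.inc x i then g i else 0) :=
    Finset.sum_le_sum_of_subset (Finset.subset_univ _)
  rw [Finset.sum_pair hne, if_pos hl, if_pos hm] at h1
  exact h1

end FATW_

open FATW_

theorem fatw_proof (h1 : Stmt_Pln.{u}) (h2 : Stmt_Lsys.{u}) : Stmt_Fatw.{u} := by
  classical
  intro K _ _ Z D s hL l hl hw
  obtain ⟨p1, -, -, -, -, -, p7, -, -, -⟩ := h1 K Z
  obtain ⟨-, hx, hsys⟩ := h2 K Z D s hL
  have e1 : ext Z s l = 0 := by simp [ext, hl]
  have e2 : Z.ls (tt Z s) l = tau Z s := by
    have h := p7 (ext Z s) l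
    rw [e1, mul_zero, zero_add] at h
    exact h
  have key : ∀ x, Z.inc x l → 2 ≤ s x + tt Z s x := by
    intro x hxl
    by_cases hs : s x = 0
    · by_contra hcon
      have ht : tt Z s x = 1 := by
        have := hx x
        omega
      have hk : kap Z s x = 0 := by simp [kap, hs, ht]
      have hp := hsys.point x
      rw [hk, mul_zero, add_zero] at hp
      -- an external line through x
      have hex : ∃ m, Z.inc x m ∧ ext Z s m ≠ 0 := by
        by_contra hno
        push Not at hno
        have : tt Z s x = 0 := by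
          unfold tt Pl.ps
          refine Finset.sum_eq_zero fun m _ => ?_
          split_ifs with hm
          · exact hno m hm
          · rfl
        omega
      obtain ⟨m, hm, hem⟩ := hex
      have hm0 : Z.ls s m = 0 := by
        by_contra h
        exact hem (by simp [ext, h])
      have hne : l ≠ m := fun h => hl (h ▸ hm0)
      have hwm : wp Z D s m = D := by simp [wp, hm0]
      have h3 := ps_two Z (wp Z D s) x l m hne hxl hm
      rw [hp, hwm] at h3
      omega
    · have := hL.ne_one x
      omega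
  have h3 := ls_mono Z (fun _ => 2) (fun x => s x + tt Z s x) l key
  rw [ls_two, p1, ls_add, e2] at h3
  have h4 : wp Z D s l = Z.ls s l + D - 2 * Fintype.card K := by simp [wp, hl]
  omega

end Pool.Agent.CLH
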