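import Pool.Agent.CLH.Stmts
import Pool.Agent.Helper58.Cyl.Proj

set_option autoImplicit false

/-!
# CLH, module FIN: minimum weight codewords of the dual point-line code of `PG(n, q)`
-/

namespace Pool.Agent.CLH

open Module
open scoped LinearAlgebra.Projectivization
open Pool.Agent.Helper58.Cyl

universe u

/-- A codeword of the dual point-line code of the projective space `ℙ K V`: a function from the
points to the field with `p` elements whose values sum to zero on every line. -/
def IsDualWord {p : ℕ} {K V : Type*} [Field K] [AddCommGroup V] [Module K V]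
    (c : ℙ K V → ZMod p) : Prop :=
  ∀ L : Submodule K V, finrank K L = 2 → ∑ᶠ P ∈ {P : ℙ K V | P.submodule ≤ L}, c P = 0

/-- The weight of `c`: the number of points at which it does not vanish. -/
noncomputable def weight {p : ℕ} {K V : Type*} [Field K] [AddCommGroup V] [Module K V]
    (c : ℙ K V → ZMod p) : ℕ :=
  {P : ℙ K V | c P ≠ 0}.ncard

/-- `c` is a codeword of minimum weight of the dual point-line code of `ℙ K V`. -/
def IsMinWeight {p : ℕ} {K V : Type*} [Field K] [AddCommGroup V] [Module K V]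
    (c : ℙ K V → ZMod p) : Prop :=
  IsDualWord c ∧ c ≠ 0 ∧ ∀ c' : ℙ K V → ZMod p, IsDualWord c' → c' ≠ 0 → weight c ≤ weight c'

/-- `c` is a cylinder codeword of `PG(n, K)`: there are a plane `π`, a subspace `ρ` of projective
dimension `n - 3` disjoint from `π` and a codeword `c'` of the dual point-line code of `π` such
that `c` vanishes on the points of `ρ`, and at a point `P` outside `ρ` it takes the value of `c'`
at the point in which the span of `ρ` and `P` meets `π`. -/
def IsCylinder {p : ℕ} {K : Type*} [Field K] (n : ℕ) (c : ℙ K (Fin (n + 1) → K) → ZMod p) :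
    Prop :=
  ∃ (π ρ : Submodule K (Fin (n + 1) → K)) (c' : ℙ K π → ZMod p),
    finrank K π = 3 ∧ finrank K ρ = n - 2 ∧ Disjoint ρ π ∧ IsDualWord c' ∧
      ∀ P : ℙ K (Fin (n + 1) → K),
        (P.submodule ≤ ρ → c P = 0) ∧
        (¬ P.submodule ≤ ρ → ∃ x : ℙ K π,
          (ρ ⊔ P.submodule) ⊓ π = x.submodule.map π.subtype ∧ c P = c' x)

/-- The minimum weight of the dual point-line code of the projective plane `PG(2, K)`. -/
noncomputable def planeMin (p : ℕ) (K : Type*) [Field K] : ℕ :=
  sInf {k | ∃ c : ℙ K (Fin 3 → K) → ZMod p, IsDualWord c ∧ c ≠ 0 ∧ weight c = k}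

/-- The structure theorem follows from the statement `TT` on words. -/
theorem cylinder_of_TT (p h : ℕ) [Fact p.Prime] (K : Type u) [Field K] [Fintype K]
    (hK : Fintype.card K = p ^ h) (hh : 1 ≤ h) (hTT : ∀ k, TT.{u, u} K p k)
    (hspec : ∃ F : (Fin 3 → K) → ZMod p, IsWord K F ∧ (∃ v, F v ≠ 0) ∧
      cnt F (fun _ => True) = D2 K p)
    (n : ℕ) (hn : 2 < n) (c : ℙ K (Fin (n + 1) → K) → ZMod p)
    (hc : IsMinWeight c) : IsCylinder n c := by
  classical
  have : CharP K p := charP_of_card_eq_prime_pow hK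
  obtain ⟨hdual, hne, hmin⟩ := hc
  have hV : finrank K (Fin (n + 1) → K) = (n - 2) + 3 := by
    rw [finrank_fin_fun]; omega
  have hA : ∀ x : ZMod p, Fintype.card K • x = 0 := by
    intro x
    rw [hK, nsmul_eq_mul, Nat.cast_pow, ZMod.natCast_self, zero_pow (by omega), zero_mul]
  have hF : IsWord K (toWord K c) := isWord_toWord hA c hdual
  set F := toWord K c with hFdef
  have hFne : ∃ v, F v ≠ 0 := by
    obtain ⟨P, hP⟩ := Function.ne_iff.1 hne
    refine ⟨P.rep, ?_⟩
    rw [hFdef, toWord_of_ne c P.rep_nonzero, P.mk_rep]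
    exact hP
  -- the upper bound
  have hupper : tot F ≤ Fintype.card K ^ (n - 2) * D2 K p := by
    obtain ⟨F₂, hF₂, ⟨w, hw⟩, hF₂D⟩ := hspec
    let f : (Fin (n + 1) → K) →ₗ[K] (Fin 3 → K) :=
      LinearMap.funLeft K K (Fin.castLE (show 3 ≤ n + 1 by omega))
    have hf : Function.Surjective f :=
      LinearMap.funLeft_surjective_of_injective K K _ (Fin.castLE_injective _)
    have hG : IsWord K (fun v => F₂ (f v)) := hF₂.comp f
    have h1 : tot (fun v => F₂ (f v)) ≤ D2 K p * Fintype.card K ^ (n - 2) := by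
      refine (tot_pullback f hf).trans (le_of_eq ?_)
      have h2 := LinearMap.finrank_range_add_finrank_ker f
      rw [LinearMap.range_eq_top.2 hf, finrank_top, hV, finrank_fin_fun] at h2
      have h3 : finrank K (LinearMap.ker f) = n - 2 := by omega
      rw [Module.natCard_eq_pow_finrank (K := K), h3, Nat.card_eq_fintype_card]
      congr 1
    have h2 : weight c ≤ weight (ofWord (K := K) (fun v => F₂ (f v))) := by
      apply hmin
      · intro L hL
        exact ofWord_dual hG L hL
      · obtain ⟨v, hv⟩ := hf w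
        have hv' : F₂ (f v) ≠ 0 := by rw [hv]; exact hw
        have hv0 : v ≠ 0 := hG.ne_zero (v := v) hv'
        intro h0
        have h3 := congrFun h0 (Projectivization.mk K v hv0)
        rw [ofWord_mk hG hv0] at h3
        exact hv' h3
    calc tot F = (Fintype.card K - 1) * weight c := tot_toWord c
      _ ≤ (Fintype.card K - 1) * weight (ofWord (K := K) (fun v => F₂ (f v))) :=
        Nat.mul_le_mul_left _ h2
      _ = tot (fun v => F₂ (f v)) := tot_ofWord hG
      _ ≤ D2 K p * Fintype.card K ^ (n - 2) := h1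
      _ = _ := mul_comm _ _
  obtain ⟨ρ, hρ1, hρ2⟩ := (hTT (n - 2) (Fin (n + 1) → K) F hV hF hFne).2 hupper
  obtain ⟨π, hπ⟩ := Submodule.exists_isCompl ρ
  have hπ3 : finrank K π = 3 := by
    have := Submodule.finrank_add_eq_of_isCompl hπ
    omega
  have hFπ : IsWord K (fun w : π => F w) := hF.restrict π
  refine ⟨π, ρ, ofWord (fun w : π => F w), hπ3, hρ1, hπ.disjoint, ?_, ?_⟩
  · intro L hL
    exact ofWord_dual hFπ L hL
  · intro P
    obtain ⟨v, hv, rfl⟩ : ∃ (v : Fin (n + 1) → K) (hv : v ≠ 0), Projectivization.mk K v hv = P :=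
      ⟨P.rep, P.rep_nonzero, P.mk_rep⟩
    rw [Projectivization.submodule_mk]
    have hcF : c (Projectivization.mk K v hv) = F v := by
      rw [hFdef, toWord_of_ne c hv]
    rw [hcF, Submodule.span_singleton_le_iff_mem]
    constructor
    · intro hvρ
      have := hρ2 v hvρ 0
      rw [zero_add, hF.zero] at this
      exact this
    · intro hvρ
      have hsup : v ∈ ρ ⊔ π := by rw [hπ.sup_eq_top]; exact Submodule.mem_top
      obtain ⟨r, hr, x, hx, hrx⟩ := Submodule.mem_sup.1 hsup
      have hx0 : x ≠ 0 := by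
        rintro rfl
        apply hvρ
        rw [← hrx, add_zero]
        exact hr
      have hx0' : (⟨x, hx⟩ : π) ≠ 0 := fun h => hx0 (congrArg Subtype.val h)
      refine ⟨Projectivization.mk K (⟨x, hx⟩ : π) hx0', ?_, ?_⟩
      · rw [Projectivization.submodule_mk, Submodule.map_span, Set.image_singleton]
        change (ρ ⊔ Submodule.span K {v}) ⊓ π = Submodule.span K {x}
        apply le_antisymm
        · rintro y ⟨hy1, hy2⟩
          obtain ⟨s, hs, t, ht, hst⟩ := Submodule.mem_sup.1 hy1
          obtain ⟨a, rfl⟩ := Submodule.mem_span_singleton.1 ht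
          rw [Submodule.mem_span_singleton]
          refine ⟨a, ?_⟩
          have h1 : y - a • x = s + a • r := by
            rw [← hst, ← hrx]; module
          have h2 : y - a • x ∈ ρ := by
            rw [h1]
            exact ρ.add_mem hs (ρ.smul_mem _ hr)
          have h3 : y - a • x ∈ π := π.sub_mem hy2 (π.smul_mem _ hx)
          have h4 := Submodule.disjoint_def.1 hπ.disjoint _ h2 h3
          exact (sub_eq_zero.1 h4).symm
        · rw [Submodule.span_singleton_le_iff_mem]
          refine ⟨?_, hx⟩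
          have h1 : x = (-r) + v := by rw [← hrx]; abel
          rw [h1]
          exact Submodule.add_mem_sup (ρ.neg_mem hr) (Submodule.mem_span_singleton_self v)
      · rw [ofWord_mk hFπ]
        rw [← hrx, add_comm, hρ2 r hr x]


/-- The minimum weight in planes in terms of words. -/
theorem D2_eq (p h : ℕ) [Fact p.Prime] (K : Type u) [Field K] [Fintype K]
    (hK : Fintype.card K = p ^ h) (hh : 1 ≤ h)
    (hspec : ∃ F : (Fin 3 → K) → ZMod p, IsWord K F ∧ (∃ v, F v ≠ 0) ∧
      cnt F (fun _ => True) = D2 K p) :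
    D2 K p = (Fintype.card K - 1) * planeMin p K := by
  classical
  have hA : ∀ x : ZMod p, Fintype.card K • x = 0 := by
    intro x
    rw [hK, nsmul_eq_mul, Nat.cast_pow, ZMod.natCast_self, zero_pow (by omega), zero_mul]
  have hne : {k | ∃ c : ℙ K (Fin 3 → K) → ZMod p, IsDualWord c ∧ c ≠ 0 ∧ weight c = k}.Nonempty ∧
      (Fintype.card K - 1) * planeMin p K ≤ D2 K p := by
    obtain ⟨F, hF, ⟨w, hw⟩, hFD⟩ := hspec
    have hw0 : w ≠ 0 := hF.ne_zero hw
    have h0 : ofWord (K := K) F ≠ 0 := by
      intro h0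
      have h3 := congrFun h0 (Projectivization.mk K w hw0)
      rw [ofWord_mk hF hw0] at h3
      exact hw h3
    have hmem : weight (ofWord (K := K) F) ∈
        {k | ∃ c : ℙ K (Fin 3 → K) → ZMod p, IsDualWord c ∧ c ≠ 0 ∧ weight c = k} :=
      ⟨_, fun L hL => ofWord_dual hF L hL, h0, rfl⟩
    refine ⟨⟨_, hmem⟩, ?_⟩
    calc (Fintype.card K - 1) * planeMin p K
        ≤ (Fintype.card K - 1) * weight (ofWord (K := K) F) :=
          Nat.mul_le_mul_left _ (Nat.sInf_le hmem)
      _ = tot F := tot_ofWord hF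
      _ = D2 K p := hFD
  refine le_antisymm ?_ hne.2
  obtain ⟨c, hc1, hc2, hc3⟩ := Nat.sInf_mem hne.1
  have h1 : tot (toWord K c) = (Fintype.card K - 1) * weight c := tot_toWord c
  have h2 : D2 K p ≤ tot (toWord K c) := by
    refine D2_le (by simp) (isWord_toWord hA c hc1) ?_
    obtain ⟨P, hP⟩ := Function.ne_iff.1 hc2
    refine ⟨P.rep, ?_⟩
    rw [toWord_of_ne c P.rep_nonzero, P.mk_rep]
    exact hP
  rw [h1, hc3] at h2
  exact h2

/-- The final statement. -/
theorem fin_proof (h1 : Stmt_Ind.{u}) (h2 : Stmt_Ccz.{u}) (h3 : Stmt_D2f.{u})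
    (p h : ℕ) [Fact p.Prime] (hp : p ≠ 2) (K : Type u) [Field K] [Fintype K]
    (hK : Fintype.card K = p ^ h)
    (hh : h.Prime ∨ (2 ≤ h ∧ ∀ e, e ∣ h → 2 ≤ e → e < h → ¬ p ^ (h - e) ∣ planeMin p K))
    (n : ℕ) (hn : 2 < n) (c : ℙ K (Fin (n + 1) → K) → ZMod p)
    (hc : IsMinWeight c) : IsCylinder n c := by
  classical
  have hcp : CharP K p := charP_of_card_eq_prime_pow hK
  have hpp : p.Prime := Fact.out
  have hp3 : 3 ≤ p := by
    have := hpp.two_le
    omega
  have hh2 : 2 ≤ h := by
    rcases hh with hh | hh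
    · exact hh.two_le
    · exact hh.1
  obtain ⟨hspec, D, hD, hpos, hsmall, hlarge⟩ := h3 K p h hK hh2
  rcases Nat.lt_or_ge h 3 with hlt | hh3
  · have hh' : h = 2 := by omega
    subst hh'
    exact cylinder_of_TT p 2 K hK (by norm_num) (fun k => (TT_all hK k).1) hspec n hn c hc
  · have hdiv : ∀ e, e ∣ h → 2 ≤ e → e < h → ¬ p ^ (h - e) ∣ D := by
      intro e he he2 heh hdvd
      rcases hh with hpr | hh
      · rcases (Nat.dvd_prime hpr).1 he with h0 | h0
        · omega
        · omega
      · apply hh.2 e he he2 heh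
        have h4 := D2_eq p h K hK (by omega) hspec
        have hq1 : 0 < Fintype.card K - 1 := by
          have : 1 < Fintype.card K := Fintype.one_lt_card
          omega
        rw [h4, ← mul_add] at hD
        have h5 := Nat.eq_of_mul_eq_mul_left hq1 hD
        have h6 : p ^ (h - e) ∣ planeMin p K + D := by
          rw [h5, hK]
          exact Dvd.dvd.mul_left (pow_dvd_pow p (by omega)) 2
        exact (Nat.dvd_add_left hdvd).1 h6
    have hCC := h2 K p h D hp3 hh3 hK hD hdiv
    have hDpos : 0 < D2 K p := by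
      obtain ⟨F, hF, ⟨v, hv⟩, hF2⟩ := hspec
      rw [← hF2, cnt_pos_iff]
      exact ⟨v, trivial, hv⟩
    have hdvd : (Fintype.card K - 1) ∣ D2 K p := by
      obtain ⟨F, hF, ⟨v, hv⟩, hF2⟩ := hspec
      rw [← hF2]
      exact dvd_cnt hF (fun _ _ _ _ => trivial)
    exact cylinder_of_TT p h K hK (by omega) (fun k => (h1 K p hDpos hdvd hCC k).1) hspec n hn c hc

end Pool.Agent.CLH
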