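import Pool.Agent.CLH.Stmts

set_option autoImplicit false

/-!
# CLH, module FRM: the projective plane of a three-dimensional space is a plane
-/

open scoped BigOperators LinearAlgebra.Projectivization
open Module

namespace Pool.Agent.CLH

universe u

namespace FRM_

noncomputable section

variable {K : Type u} [Field K]

/-- The coordinates of the point with the standard coordinates `s`. -/
def co : SP K → (Fin 3 → K)
  | Sum.inl x => ![1, x.1, x.2]
  | Sum.inr (Sum.inl y) => ![0, 1, y]
  | Sum.inr (Sum.inr _) => ![0, 0, 1]

theorem co_ne (s : SP K) : co s ≠ 0 := by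
  intro h
  rcases s with ⟨a, b⟩ | y | _
  · have := congrFun h 0
    simp [co] at this
  · have := congrFun h 1
    simp [co] at this
  · have := congrFun h 2
    simp [co] at this

variable {U : Type u} [AddCommGroup U] [Module K U]

theorem lin_ne (c : Basis (Fin 3) K U) (s : SP K) : c.equivFun.symm (co s) ≠ 0 := by
  intro h
  exact co_ne s ((LinearEquiv.map_eq_zero_iff _).mp h)

/-- The point with the coordinates `s`. -/
def pt (c : Basis (Fin 3) K U) (s : SP K) : ℙ K U :=
  Projectivization.mk K (c.equivFun.symm (co s)) (lin_ne c s)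

theorem pt_inj (c : Basis (Fin 3) K U) : Function.Injective (pt c) := by
  intro s t h
  unfold pt at h
  rw [Projectivization.mk_eq_mk_iff'] at h
  obtain ⟨a, ha⟩ := h
  rw [← map_smul] at ha
  have h2 : a • co t = co s := c.equivFun.symm.injective ha
  have e0 := congrFun h2 0
  have e1 := congrFun h2 1
  have e2 := congrFun h2 2
  rcases s with ⟨x, y⟩ | y | _ <;> rcases t with ⟨x', y'⟩ | y' | _ <;>
    simp [co] at e0 e1 e2 ⊢ <;> (try subst e0) <;> (try subst e1) <;> simp_all

theorem pt_surj (c : Basis (Fin 3) K U) : Function.Surjective (pt c) := by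
  intro p
  induction p using Projectivization.ind with
  | h v hv =>
    set w : Fin 3 → K := c.equivFun v with hw
    have hvw : v = c.equivFun.symm w := by rw [hw]; simp
    by_cases h0 : w 0 = 0
    · by_cases h1 : w 1 = 0
      · have h2 : w 2 ≠ 0 := by
          intro h2
          apply hv
          have : w = 0 := by
            funext i
            fin_cases i <;> simp [h0, h1, h2]
          rw [hvw, this, map_zero]
        refine ⟨inf, ?_⟩
        unfold pt
        rw [Projectivization.mk_eq_mk_iff']
        refine ⟨(w 2)⁻¹, ?_⟩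
        rw [hvw, ← map_smul]
        congr 1
        funext i
        fin_cases i <;> simp [co, inf, h0, h1, h2]
      · refine ⟨Sum.inr (Sum.inl (w 2 / w 1)), ?_⟩
        unfold pt
        rw [Projectivization.mk_eq_mk_iff']
        refine ⟨(w 1)⁻¹, ?_⟩
        rw [hvw, ← map_smul]
        congr 1
        funext i
        fin_cases i <;> simp [co, h0, h1]
        field_simp
    · refine ⟨Sum.inl (w 1 / w 0, w 2 / w 0), ?_⟩
      unfold pt
      rw [Projectivization.mk_eq_mk_iff']
      refine ⟨(w 0)⁻¹, ?_⟩
      rw [hvw, ← map_smul]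
      congr 1
      funext i
      fin_cases i <;> simp [co, h0] <;> field_simp

/-- The change of the signs. -/
def ng : SP K ≃ SP K :=
  Equiv.sumCongr (Equiv.prodCongr (Equiv.neg K) (Equiv.neg K))
    (Equiv.sumCongr (Equiv.neg K) (Equiv.refl Unit))

theorem pinc_mk {W : Type u} [AddCommGroup W] [Module K W] (v : W) (hv : v ≠ 0) (g : Dual K W)
    (hg : g ≠ 0) : pinc (Projectivization.mk K v hv) (Projectivization.mk K g hg) ↔ g v = 0 := by
  obtain ⟨a, ha⟩ := Projectivization.exists_smul_eq_mk_rep K v hv
  obtain ⟨b, hb⟩ := Projectivization.exists_smul_eq_mk_rep K g hg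
  unfold pinc
  rw [← ha, ← hb]
  simp [Units.smul_def]

variable {W : Type u} [AddCommGroup W] [Module K W]

/-- The basis of the dual space. -/
def db (b : Basis (Fin 3) K W) : Basis (Fin 3) K (Dual K W) :=
  b.dualBasis.reindex (Equiv.swap 0 2)

theorem db0 (b : Basis (Fin 3) K W) : db b 0 = b.coord 2 := by
  unfold db
  rw [Basis.reindex_apply]
  simp

theorem db1 (b : Basis (Fin 3) K W) : db b 1 = b.coord 1 := by
  unfold db
  rw [Basis.reindex_apply]
  have : (Equiv.swap (0 : Fin 3) 2).symm 1 = 1 := by decide
  rw [this]
  simp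

theorem db2 (b : Basis (Fin 3) K W) : db b 2 = b.coord 0 := by
  unfold db
  rw [Basis.reindex_apply]
  simp

theorem pairing (b : Basis (Fin 3) K W) (v w : Fin 3 → K) :
    ((db b).equivFun.symm w) (b.equivFun.symm v) = w 0 * v 2 + w 1 * v 1 + w 2 * v 0 := by
  rw [Basis.equivFun_symm_apply, Fin.sum_univ_three, db0, db1, db2]
  have h : ∀ i, b.coord i (b.equivFun.symm v) = v i := by
    intro i
    rw [Basis.coord_apply, ← Basis.equivFun_apply, LinearEquiv.apply_symm_apply]
  rw [LinearMap.add_apply, LinearMap.add_apply, LinearMap.smul_apply, LinearMap.smul_apply,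
    LinearMap.smul_apply, h, h, h]
  simp only [smul_eq_mul]

theorem sinc_iff (s t : SP K) :
    sinc s t ↔ co (ng t) 0 * co s 2 + co (ng t) 1 * co s 1 + co (ng t) 2 * co s 0 = 0 := by
  rcases s with ⟨a, b⟩ | y | _ <;> rcases t with ⟨a', b'⟩ | y' | _ <;>
    simp [sinc, co, ng]
  · constructor
    · intro h
      linear_combination h
    · intro h
      linear_combination h
  · constructor
    · intro h
      linear_combination h
    · intro h
      linear_combination h
  · constructor
    · intro h
      linear_combination h
    · intro h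
      linear_combination h

/-- The frame of a basis. -/
def fr (b : Basis (Fin 3) K W) : Frame K (ℙ K W) (ℙ K (Dual K W)) pinc where
  p := Equiv.ofBijective (pt b) ⟨pt_inj b, pt_surj b⟩
  l := ng.trans (Equiv.ofBijective (pt (db b)) ⟨pt_inj (db b), pt_surj (db b)⟩)
  hinc := by
    intro s t
    rw [sinc_iff]
    change _ ↔ pinc (pt b s) (pt (db b) (ng t))
    unfold pt
    rw [pinc_mk, pairing]

theorem exists_basis (hW : finrank K W = 3) (e : W) (he : e ≠ 0) (g : Dual K W) (hg : g ≠ 0)
    (hge : g e = 0) : ∃ b : Basis (Fin 3) K W, b 2 = e ∧ b.coord 0 = g := by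
  have hfin : Module.Finite K W := Module.finite_of_finrank_pos (by omega)
  obtain ⟨e0, h0⟩ : ∃ e0, g e0 = 1 := by
    obtain ⟨z, hz⟩ : ∃ z, g z ≠ 0 := by
      by_contra hcon
      push Not at hcon
      exact hg (LinearMap.ext fun x => by simpa using hcon x)
    exact ⟨(g z)⁻¹ • z, by rw [map_smul, smul_eq_mul, inv_mul_cancel₀ hz]⟩
  obtain ⟨e1, h1, h1'⟩ : ∃ e1, g e1 = 0 ∧ e1 ∉ Submodule.span K {e} := by
    by_contra hcon
    push Not at hcon
    have hle : LinearMap.ker g ≤ Submodule.span K {e} := fun x hx => hcon x hx
    have hr := LinearMap.finrank_range_add_finrank_ker g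
    have hr1 : finrank K (LinearMap.range g) ≤ 1 := by
      calc finrank K (LinearMap.range g) ≤ finrank K K := Submodule.finrank_le _
        _ = 1 := finrank_self K
    have hr2 := Submodule.finrank_mono hle
    rw [finrank_span_singleton he] at hr2
    omega
  have hli : LinearIndependent K ![e0, e1, e] := by
    rw [Fintype.linearIndependent_iff]
    intro w hw
    rw [Fin.sum_univ_three] at hw
    simp only [Matrix.cons_val_zero, Matrix.cons_val_one, Matrix.cons_val] at hw
    have w0 : w 0 = 0 := by
      have := congrArg g hw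
      simpa [h0, h1, hge] using this
    have w1 : w 1 = 0 := by
      by_contra hne
      apply h1'
      rw [Submodule.mem_span_singleton]
      refine ⟨-((w 1)⁻¹ * w 2), ?_⟩
      rw [w0, zero_smul, zero_add] at hw
      have h := congrArg (fun x => (w 1)⁻¹ • x) hw
      simp only [smul_add, smul_smul, inv_mul_cancel₀ hne, one_smul, smul_zero] at h
      rw [neg_smul]
      exact (eq_neg_of_add_eq_zero_left h).symm
    have w2 : w 2 = 0 := by
      rw [w0, w1, zero_smul, zero_smul, zero_add, zero_add] at hw
      exact (smul_eq_zero.mp hw).resolve_right he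
    intro i
    fin_cases i
    · exact w0
    · exact w1
    · exact w2
  refine ⟨basisOfLinearIndependentOfCardEqFinrank hli (by simp [hW]), ?_, ?_⟩
  · rw [coe_basisOfLinearIndependentOfCardEqFinrank]
    simp
  · apply Basis.ext (basisOfLinearIndependentOfCardEqFinrank hli (by simp [hW]))
    intro i
    rw [Basis.coord_apply, Basis.repr_self]
    rw [coe_basisOfLinearIndependentOfCardEqFinrank]
    fin_cases i
    · simp [h0]
    · simp [h1]
    · simp [hge]

end

end FRM_

open FRM_ in
theorem frm_proof : Stmt_Frm.{u} := by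
  intro K _ W _ _ hW
  refine ⟨?_, ?_⟩
  · intro x φ hx
    obtain ⟨b, hb, hb'⟩ := exists_basis hW x.rep x.rep_nonzero φ.rep φ.rep_nonzero hx
    refine ⟨fr b, ?_, ?_⟩
    · change pt b inf = x
      unfold pt
      have h : b.equivFun.symm (co inf) = x.rep := by
        rw [Basis.equivFun_symm_apply, Fin.sum_univ_three]
        simp [co, inf, hb]
      simp only [h]
      exact Projectivization.mk_rep x
    · change pt (db b) (ng inf) = φ
      unfold pt
      have h : (db b).equivFun.symm (co (ng inf)) = φ.rep := by
        rw [Basis.equivFun_symm_apply, Fin.sum_univ_three, db0, db1, db2]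
        simp [co, inf, ng, hb']
      simp only [h]
      exact Projectivization.mk_rep φ
  · have hfin : Module.Finite K W := Module.finite_of_finrank_pos (by omega)
    let b : Basis (Fin 3) K W := finBasisOfFinrankEq K W hW
    have h1 : b.coord 1 ≠ 0 := by
      intro h
      have := congrArg (fun g : Dual K W => g (b 1)) h
      simp at this
    refine ⟨Projectivization.mk K (b 0) (b.ne_zero 0), Projectivization.mk K (b.coord 1) h1, ?_⟩
    rw [pinc_mk]
    simp

end Pool.Agent.CLH
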