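import Pool.Agent.CLH.Stmts

set_option autoImplicit false

/-!
# CLH, module GCDD: dividing by the greatest common divisor
-/

open scoped BigOperators

namespace Pool.Agent.CLH

universe u

namespace GCDD_

variable {K : Type u} [Field K]

theorem ps_mul (Z : Pl K) (D : ℕ) (b : Z.Ln → ℕ) (x : Z.Pt) :
    Z.ps (fun l => D * b l) x = D * Z.ps b x := by
  classical
  unfold Pl.ps
  rw [Finset.mul_sum]
  refine Finset.sum_congr rfl fun l _ => ?_
  split_ifs <;> simp

theorem ls_mul (Z : Pl K) (D : ℕ) (f : Z.Pt → ℕ) (l : Z.Ln) :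
    Z.ls (fun x => D * f x) l = D * Z.ls f l := by
  classical
  unfold Pl.ls
  rw [Finset.mul_sum]
  refine Finset.sum_congr rfl fun x _ => ?_
  split_ifs <;> simp

end GCDD_

open GCDD_ in
theorem gcdd_proof (hP : Stmt_Pln.{u}) : Stmt_Gcdd.{u} := by
  intro K _ _ p h hp hK Z k D κ b hS hb01 hD hkD hDq
  classical
  obtain ⟨h1, h2, -, -, -, -, -, -⟩ := hP K Z
  set q := Fintype.card K with hq
  have hq0 : 0 < q := by omega
  obtain ⟨x0, l0, hxl0⟩ := Z.flag
  have hpt : ∀ x, D * Z.ps b x = D + q * κ x := by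
    intro x
    rw [← ps_mul]
    exact hS.point x
  have hline : ∀ l, Z.ls κ l = k + D * b l := hS.line
  -- a line with b = 0
  have hb0 : ∃ l, b l = 0 := by
    by_contra hcon
    push Not at hcon
    have hall : ∀ l, b l = 1 := fun l => (hb01 l).resolve_left (hcon l)
    have hbf : b = fun _ => 1 := funext hall
    have hκD : ∀ x, κ x = D := by
      intro x
      have h3 := hpt x
      rw [hbf, h2 x] at h3
      have h4 : q * κ x = q * D := by
        have : D * (q + 1) = D + q * D := by ring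
        omega
      exact Nat.eq_of_mul_eq_mul_left hq0 h4
    have h3 := hline l0
    have hκf : κ = fun _ => D * 1 := funext fun x => by rw [hκD x, mul_one]
    rw [hκf, ls_mul, h1 l0, hall l0, mul_one] at h3
    have h4 : D * (q + 1) = D * q + D := by ring
    have h5 : D * 1 ≤ D * q := Nat.mul_le_mul_left D hq0
    omega
  obtain ⟨m0, hm0⟩ := hb0
  -- a line with b = 1
  have hb1 : ∃ l, b l = 1 := by
    by_contra hcon
    push Not at hcon
    have hall : ∀ l, b l = 0 := fun l => (hb01 l).resolve_right (hcon l)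
    have h3 := hpt x0
    have h4 : Z.ps b x0 = 0 := by
      unfold Pl.ps
      refine Finset.sum_eq_zero fun l _ => ?_
      rw [hall l]
      split_ifs <;> rfl
    rw [h4, mul_zero] at h3
    omega
  obtain ⟨m1, hm1⟩ := hb1
  set g := Finset.univ.gcd κ with hg
  have hgκ : ∀ x, g ∣ κ x := fun x => Finset.gcd_dvd (Finset.mem_univ x)
  have hgls : ∀ l, g ∣ Z.ls κ l := by
    intro l
    unfold Pl.ls
    refine Finset.dvd_sum fun x _ => ?_
    split_ifs
    · exact hgκ x
    · exact dvd_zero g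
  have hgk : g ∣ k := by
    have h3 := hgls m0
    rw [hline, hm0, mul_zero, add_zero] at h3
    exact h3
  have hgD : g ∣ D := by
    have h3 := hgls m1
    rw [hline, hm1, mul_one] at h3
    exact (Nat.dvd_add_right hgk).1 h3
  have hg0 : 0 < g := Nat.pos_of_dvd_of_pos hgD hD
  obtain ⟨κ₁, hκ₁, hgcd⟩ : ∃ κ₁ : Z.Pt → ℕ, (∀ x, κ x = g * κ₁ x) ∧ Finset.univ.gcd κ₁ = 1 := by
    refine ⟨fun x => κ x / g, fun x => (Nat.mul_div_cancel' (hgκ x)).symm, ?_⟩
    have hne : ∃ x ∈ (Finset.univ : Finset Z.Pt), κ x ≠ 0 := by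
      by_contra hcon
      push Not at hcon
      have h3 : g = 0 := Finset.gcd_eq_zero_iff.2 hcon
      omega
    obtain ⟨x, hx, hx0⟩ := hne
    exact Finset.gcd_div_eq_one hx hx0
  obtain ⟨k₁, hk₁⟩ := hgk
  obtain ⟨r, hr⟩ := hgD
  have hr0 : 0 < r := by
    rcases Nat.eq_zero_or_pos r with h0 | h0
    · rw [h0, mul_zero] at hr; omega
    · exact h0
  have hpt1 : ∀ x, r * Z.ps b x = r + q * κ₁ x := by
    intro x
    have h3 := hpt x
    rw [hr, hκ₁ x] at h3
    refine Nat.eq_of_mul_eq_mul_left hg0 ?_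
    calc g * (r * Z.ps b x) = g * r * Z.ps b x := by ring
      _ = g * r + q * (g * κ₁ x) := h3
      _ = g * (r + q * κ₁ x) := by ring
  have hline1 : ∀ l, Z.ls κ₁ l = k₁ + r * b l := by
    intro l
    have h3 := hline l
    have h4 : κ = fun x => g * κ₁ x := funext hκ₁
    rw [h4, ls_mul, hk₁, hr] at h3
    refine Nat.eq_of_mul_eq_mul_left hg0 ?_
    calc g * Z.ls κ₁ l = g * k₁ + g * r * b l := h3
      _ = g * (k₁ + r * b l) := by ring
  have hrq : r ∣ q := by
    have h3 : ∀ x ∈ (Finset.univ : Finset Z.Pt), r ∣ q * κ₁ x := by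
      intro x _
      exact (Nat.dvd_add_right (dvd_refl r)).1 (hpt1 x ▸ dvd_mul_right r (Z.ps b x))
    have h4 : r ∣ Finset.univ.gcd fun x => q * κ₁ x := Finset.dvd_gcd h3
    rw [Finset.gcd_mul_left, hgcd, mul_one] at h4
    simpa using h4
  rw [hK] at hrq
  obtain ⟨s, -, hs⟩ := (Nat.dvd_prime_pow hp.out).1 hrq
  refine ⟨g, s, k₁, κ₁, ?_, ?_, ⟨fun l => ?_, fun x => ?_⟩, ?_⟩
  · rw [← hs]; exact hr
  · rw [← hs]
    rw [hk₁, hr] at hkD
    exact lt_of_mul_lt_mul_left hkD (Nat.zero_le g)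
  · rw [← hs]
    exact hline1 l
  · rw [← hs, ps_mul]
    exact hpt1 x
  · by_contra hcon
    push Not at hcon
    have h3 : p ∣ Finset.univ.gcd κ₁ := Finset.dvd_gcd fun x _ => hcon x
    rw [hgcd] at h3
    exact hp.out.one_lt.ne' (Nat.dvd_one.1 h3)

end Pool.Agent.CLH
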