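import Pool.Agent.CLH.Stmts

set_option autoImplicit false

/-!
# GLOB: all external planes share a point
-/

open scoped BigOperators Polynomial LinearAlgebra.Projectivization
open Module Polynomial
open Pool.Agent.Helper58.Cyl (IsWord hyp tot cnt D2 lift TT)

namespace Pool.Agent.CLH

universe u

noncomputable section

namespace GLOB_

section linalg

variable {K : Type u} [Field K] {V : Type u} [AddCommGroup V] [Module K V]
  [FiniteDimensional K V]

theorem lemA (l M : Submodule K V) (hl : finrank K l = 2) (a b : V) (ha0 : a ≠ 0) (ha : a ∈ l)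
    (hb : b ∈ l) (haM : a ∈ M) (hbM : b ∈ M) (h : ¬ l ≤ M) : ∃ c : K, b = c • a := by
  by_contra hcon
  push Not at hcon
  apply h
  have hli : LinearIndependent K ![a, b] := by
    rw [LinearIndependent.pair_iff' ha0]
    intro c hc
    exact hcon c hc.symm
  have h2 : finrank K (Submodule.span K (Set.range ![a, b])) = 2 := by
    rw [finrank_span_eq_card hli]
    simp
  have h3 : Submodule.span K (Set.range ![a, b]) ≤ l := by
    rw [Submodule.span_le]
    rintro _ ⟨i, rfl⟩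
    fin_cases i
    · exact ha
    · exact hb
  have h4 := Submodule.eq_of_le_of_finrank_eq h3 (by rw [h2, hl])
  rw [← h4, Submodule.span_le]
  rintro _ ⟨i, rfl⟩
  fin_cases i
  · exact haM
  · exact hbM

theorem exists_ker (U : Submodule K V) (hU : finrank K U < finrank K V) :
    ∃ ψ : Dual K V, ψ ≠ 0 ∧ ∀ x ∈ U, ψ x = 0 := by
  have hlt : U < ⊤ := by
    refine lt_top_iff_ne_top.2 fun h => ?_
    rw [h, finrank_top] at hU
    exact lt_irrefl _ hU
  obtain ⟨f, hf, hle⟩ := Submodule.exists_le_ker_of_lt_top U hlt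
  exact ⟨f, hf, fun x hx => hle hx⟩

/-- pairwise intersecting lines which span the space have a common point -/
theorem common (h4 : finrank K V = 4) (A : Set (Submodule K V))
    (hA2 : ∀ l ∈ A, finrank K l = 2)
    (hmeet : ∀ l ∈ A, ∀ l' ∈ A, ∃ v : V, v ≠ 0 ∧ v ∈ l ∧ v ∈ l')
    (hspan : ∀ ψ : Dual K V, ψ ≠ 0 → ∃ l ∈ A, ¬ l ≤ LinearMap.ker ψ) :
    ∃ R : V, R ≠ 0 ∧ ∀ l ∈ A, R ∈ l := by
  -- the first line
  obtain ⟨ψ₀, hψ₀, _⟩ := exists_ker (⊥ : Submodule K V) (by rw [finrank_bot, h4]; norm_num)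
  obtain ⟨l₁, hl₁, _⟩ := hspan ψ₀ hψ₀
  obtain ⟨ψ₁, hψ₁, hk₁⟩ := exists_ker l₁ (by rw [hA2 l₁ hl₁, h4]; norm_num)
  obtain ⟨l₂, hl₂, hn₂⟩ := hspan ψ₁ hψ₁
  obtain ⟨R, hR0, hR1, hR2⟩ := hmeet l₁ hl₁ l₂ hl₂
  have hinf : 1 ≤ finrank K (l₁ ⊓ l₂ : Submodule K V) := by
    rw [Nat.one_le_iff_ne_zero]
    intro h0
    rw [Submodule.finrank_eq_zero] at h0
    have : R ∈ (⊥ : Submodule K V) := by
      rw [← h0]
      exact ⟨hR1, hR2⟩
    exact hR0 (by simpa using this)
  have hsum := Submodule.finrank_sup_add_finrank_inf_eq l₁ l₂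
  rw [hA2 l₁ hl₁, hA2 l₂ hl₂] at hsum
  obtain ⟨ψ₂, hψ₂, hk₂⟩ := exists_ker (l₁ ⊔ l₂) (by rw [h4]; omega)
  obtain ⟨l₃, hl₃, hn₃⟩ := hspan ψ₂ hψ₂
  obtain ⟨a, ha0, ha1, ha3⟩ := hmeet l₁ hl₁ l₃ hl₃
  obtain ⟨b, hb0, hb2, hb3⟩ := hmeet l₂ hl₂ l₃ hl₃
  obtain ⟨c, hc⟩ := lemA l₃ (LinearMap.ker ψ₂) (hA2 l₃ hl₃) a b ha0 ha3 hb3
    (hk₂ a (Submodule.mem_sup_left ha1)) (hk₂ b (Submodule.mem_sup_right hb2)) hn₃
  have hc0 : c ≠ 0 := by
    rintro rfl
    rw [zero_smul] at hc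
    exact hb0 hc
  have ha2 : a ∈ l₂ := by
    have : a = c⁻¹ • b := by rw [hc, smul_smul, inv_mul_cancel₀ hc0, one_smul]
    rw [this]
    exact l₂.smul_mem _ hb2
  obtain ⟨c', hc'⟩ := lemA l₂ (LinearMap.ker ψ₁) (hA2 l₂ hl₂) a R ha0 ha2 hR2
    (hk₁ a ha1) (hk₁ R hR1) hn₂
  have hR3 : R ∈ l₃ := by
    rw [hc']
    exact l₃.smul_mem _ ha3
  refine ⟨R, hR0, fun l hl => ?_⟩
  by_contra hRl
  have hM3 : finrank K (l ⊔ Submodule.span K {R} : Submodule K V) ≤ 3 := by
    have e1 := Submodule.finrank_sup_add_finrank_inf_eq l (Submodule.span K {R})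
    rw [hA2 l hl, finrank_span_singleton hR0] at e1
    omega
  have hRM : R ∈ (l ⊔ Submodule.span K {R} : Submodule K V) :=
    Submodule.mem_sup_right (Submodule.mem_span_singleton_self R)
  have key : ∀ m ∈ A, R ∈ m → m ≤ l ⊔ Submodule.span K {R} := by
    intro m hm hRm
    by_contra hcon
    obtain ⟨v, hv0, hvl, hvm⟩ := hmeet l hl m hm
    obtain ⟨e, he⟩ := lemA m _ (hA2 m hm) R v hR0 hRm hvm hRM (Submodule.mem_sup_left hvl) hcon
    have he0 : e ≠ 0 := by
      rintro rfl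
      rw [zero_smul] at he
      exact hv0 he
    apply hRl
    have : R = e⁻¹ • v := by rw [he, smul_smul, inv_mul_cancel₀ he0, one_smul]
    rw [this]
    exact l.smul_mem _ hvl
  have hle : l₁ ⊔ l₂ ≤ l ⊔ Submodule.span K {R} := sup_le (key l₁ hl₁ hR1) (key l₂ hl₂ hR2)
  have h3 : 3 ≤ finrank K (l₁ ⊔ l₂ : Submodule K V) := by
    have hlt : l₁ < l₁ ⊔ l₂ := by
      refine lt_of_le_of_ne le_sup_left fun h => hn₂ ?_
      intro x hx
      have : x ∈ l₁ := by
        rw [h]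
        exact Submodule.mem_sup_right hx
      exact hk₁ x this
    have := Submodule.finrank_lt_finrank_of_lt hlt
    rw [hA2 l₁ hl₁] at this
    omega
  have heq := Submodule.eq_of_le_of_finrank_le hle (hM3.trans h3)
  apply hn₃
  intro x hx
  have hx' := key l₃ hl₃ hR3 hx
  rw [← heq] at hx'
  exact hk₂ x hx'

end linalg

section words

variable {K : Type u} [Field K] [Fintype K] {p : ℕ} [Fact p.Prime] [CharP K p]
  {V : Type u} [AddCommGroup V] [Module K V] [Finite V]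

/-- the support is not contained in a hyperplane -/
theorem exists_supp {F : V → ZMod p} (hF : IsWord K F) (hne : ∃ v, F v ≠ 0) (φ : Dual K V)
    (hφ : φ ≠ 0) : ∃ X, F X ≠ 0 ∧ φ X ≠ 0 := by
  by_contra hcon
  push Not at hcon
  obtain ⟨v, hv⟩ := hne
  obtain ⟨w, hw⟩ : ∃ w, φ w ≠ 0 := by
    by_contra h
    push Not at h
    exact hφ (LinearMap.ext h)
  have hFw : F w = 0 := by
    by_contra h
    exact hw (hcon w h)
  have h1 := hF.line w v
  rw [hFw, zero_add, Finset.sum_eq_single (0 : K)] at h1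
  · rw [zero_smul, add_zero] at h1
    exact hv h1
  · intro a _ ha
    by_contra h
    have h2 := hcon _ h
    rw [map_add, map_smul, hcon v hv, zero_add, smul_eq_mul] at h2
    rcases mul_eq_zero.1 h2 with h3 | h3
    · exact ha h3
    · exact hw h3
  · intro h
    exact absurd (Finset.mem_univ _) h

/-- a line with exactly two points of the support -/
theorem two_pt {F : V → ZMod p} (hF : IsWord K F) (φ : Dual K V) (X : V) (hX : F X ≠ 0)
    (hφX : φ X ≠ 0) (htot : tot F < 2 * Nat.card (LinearMap.ker φ)) :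
    ∃ Y, F Y ≠ 0 ∧ ∀ b : K, b ≠ 0 → F (Y + b • X) = 0 := by
  by_contra hcon
  push Not at hcon
  have h1 : ∀ w : V, ∃ a b : K, b ≠ 0 ∧ F (w + a • X) ≠ 0 ∧ F (w + (a + b) • X) ≠ 0 := by
    intro w
    obtain ⟨a, ha⟩ := hF.exists_ne hX w
    obtain ⟨b, hb, hb'⟩ := hcon _ ha
    refine ⟨a, b, hb, ha, ?_⟩
    rwa [add_smul, ← add_assoc]
  choose a b hb ha hab using h1
  let f : (LinearMap.ker φ) × Bool → {v : V // True ∧ F v ≠ 0} := fun x =>
    if x.2 then ⟨x.1 + (a x.1 + b x.1) • X, trivial, hab _⟩ else ⟨x.1 + a x.1 • X, trivial, ha _⟩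
  have hf : Function.Injective f := by
    rintro ⟨x, i⟩ ⟨y, j⟩ hxy
    have hx : φ (x : V) = 0 := x.2
    have hy : φ (y : V) = 0 := y.2
    have key : ∀ s t : K, (x : V) + s • X = y + t • X → s = t ∧ x = y := by
      intro s t h
      have h2 := congrArg φ h
      rw [map_add, map_add, hx, hy, map_smul, map_smul, zero_add, zero_add, smul_eq_mul,
        smul_eq_mul] at h2
      have h3 := mul_right_cancel₀ hφX h2
      subst h3
      exact ⟨rfl, Subtype.ext (add_right_cancel h)⟩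
    cases i <;> cases j
    · have h2 : (x : V) + a x • X = y + a y • X := congrArg Subtype.val hxy
      rw [(key _ _ h2).2]
    · exfalso
      have h2 : (x : V) + a x • X = y + (a y + b y) • X := congrArg Subtype.val hxy
      obtain ⟨h3, h4⟩ := key _ _ h2
      subst h4
      have : b (x : V) = 0 := by linear_combination -h3
      exact hb _ this
    · exfalso
      have h2 : (x : V) + (a x + b x) • X = y + a y • X := congrArg Subtype.val hxy
      obtain ⟨h3, h4⟩ := key _ _ h2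
      subst h4
      have : b (x : V) = 0 := by linear_combination h3
      exact hb _ this
    · have h2 : (x : V) + (a x + b x) • X = y + (a y + b y) • X := congrArg Subtype.val hxy
      rw [(key _ _ h2).2]
  have h2 := Nat.card_le_card_of_injective f hf
  rw [Nat.card_prod, Nat.card_eq_fintype_card (α := Bool), Fintype.card_bool] at h2
  have h3 : Nat.card {v : V // True ∧ F v ≠ 0} = tot F := rfl
  rw [h3] at h2
  omega

theorem two_ne (hp : 3 ≤ p) : (2 : K) ≠ 0 := by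
  intro h
  have h1 : ((2 : ℕ) : K) = 0 := by exact_mod_cast h
  rw [CharP.cast_eq_zero_iff K p] at h1
  have := Nat.le_of_dvd (by norm_num) h1
  omega

/-- a good point outside a hyperplane -/
theorem good {F : V → ZMod p} (hp : 3 ≤ p) (hF : IsWord K F) (hne : ∃ v, F v ≠ 0) (φ : Dual K V)
    (hφ : φ ≠ 0) (htot : tot F < 2 * Nat.card (LinearMap.ker φ)) :
    ∃ P Q : V, φ P ≠ 0 ∧ F P = 0 ∧ ∑ z : K, z * lift K F (Q + z • P) ≠ 0 := by
  obtain ⟨X, hX, hφX⟩ := exists_supp hF hne φ hφ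
  obtain ⟨Y, hY, hXY⟩ := two_pt hF φ X hX hφX htot
  obtain ⟨a, ha0, ha⟩ : ∃ a : K, a ≠ 0 ∧ φ (X + a • Y) ≠ 0 := by
    by_cases h1 : φ (X + (1 : K) • Y) = 0
    · refine ⟨-1, neg_ne_zero.2 one_ne_zero, fun h2 => ?_⟩
      rw [map_add, map_smul, smul_eq_mul] at h1 h2
      have h3 : (2 : K) * φ X = 0 := by linear_combination h1 + h2
      rcases mul_eq_zero.1 h3 with h4 | h4
      · exact two_ne hp h4
      · exact hφX h4
    · exact ⟨1, one_ne_zero, h1⟩
  have hgen : ∀ s t : K, s ≠ 0 → t ≠ 0 → F (s • X + t • Y) = 0 := by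
    intro s t hs ht
    have h1 : s • X + t • Y = t • (Y + (t⁻¹ * s) • X) := by
      rw [smul_add, smul_smul, ← mul_assoc, mul_inv_cancel₀ ht, one_mul, add_comm]
    rw [h1, hF.smul _ _ ht]
    exact hXY _ (mul_ne_zero (inv_ne_zero ht) hs)
  refine ⟨X + a • Y, X, ha, ?_, ?_⟩
  · have := hgen 1 a one_ne_zero ha0
    rwa [one_smul] at this
  · rw [Finset.sum_eq_single (-1 : K)]
    · have h1 : X + (-1 : K) • (X + a • Y) = (-a) • Y := by
        rw [smul_add, smul_smul, neg_one_smul, neg_one_mul]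
        abel
      rw [h1]
      refine mul_ne_zero (neg_ne_zero.2 one_ne_zero) ?_
      intro h2
      rw [Pool.Agent.Helper58.Cyl.lift_eq_zero, hF.smul _ _ (neg_ne_zero.2 ha0)] at h2
      exact hY h2
    · intro z _ hz
      by_cases hz0 : z = 0
      · rw [hz0, zero_mul]
      · have h1 : X + z • (X + a • Y) = (1 + z) • X + (z * a) • Y := by
          rw [smul_add, smul_smul, add_smul, one_smul]
          abel
        have h2 : lift K F (X + z • (X + a • Y)) = 0 := by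
          rw [Pool.Agent.Helper58.Cyl.lift_eq_zero, h1]
          refine hgen _ _ (fun h => hz ?_) (mul_ne_zero hz0 ha0)
          linear_combination h
        rw [h2, mul_zero]
    · intro h
      exact absurd (Finset.mem_univ _) h

end words

end GLOB_

open GLOB_

theorem glob_proof : Stmt_Glob.{u} := by
  intro K _ _ p h D _ _ V _ _ _ F hp hh hM hne hax
  have h4 := hM.hV
  haveI : FiniteDimensional K V := Module.finite_of_finrank_pos (by omega)
  have hF := hM.word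
  have hq2 : 2 ≤ Fintype.card K := Fintype.one_lt_card
  -- the size of the support
  have hcardV : Nat.card V = Fintype.card K ^ 4 := by
    rw [Module.natCard_eq_pow_finrank (K := K), h4, Nat.card_eq_fintype_card]
  have hker : ∀ φ : Dual K V, φ ≠ 0 → Nat.card (LinearMap.ker φ) = Fintype.card K ^ 3 := by
    intro φ hφ
    have h1 := Pool.Agent.Helper58.Cyl.card_mul_card_ker φ hφ
    rw [hcardV] at h1
    have h2 : Fintype.card K * Nat.card (LinearMap.ker φ) = Fintype.card K * Fintype.card K ^ 3 := by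
      rw [h1]
      ring
    exact Nat.eq_of_mul_eq_mul_left (by omega) h2
  have htot1 : tot F + Fintype.card K * ((Fintype.card K - 1) * D) =
      Fintype.card K * ((Fintype.card K - 1) * (2 * Fintype.card K)) := by
    rw [hM.htot, ← hM.hD]
    ring
  have hD := hM.pos
  have htot2 : tot F < 2 * Fintype.card K ^ 3 := by
    obtain ⟨k, hk⟩ : ∃ k, Fintype.card K = k + 2 := ⟨Fintype.card K - 2, by omega⟩
    rw [hk] at htot1 ⊢
    have e1 : k + 2 - 1 = k + 1 := by omega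
    rw [e1] at htot1
    have e2 : (k + 2) * ((k + 1) * (2 * (k + 2))) + 2 * (k + 2) ^ 2 = 2 * (k + 2) ^ 3 := by ring
    have e3 : 0 < 2 * (k + 2) ^ 2 := by positivity
    omega
  have hgood : ∀ φ : Dual K V, φ ≠ 0 → ∃ P Q : V, φ P ≠ 0 ∧ F P = 0 ∧
      ∑ z : K, z * lift K F (Q + z • P) ≠ 0 := fun φ hφ =>
    good hp hF hne φ hφ (by rw [hker φ hφ]; exact htot2)
  -- the axes
  let A : Set (Submodule K V) := {l | ∃ P R : V, P ≠ 0 ∧ R ∉ Submodule.span K {P} ∧
    l = Submodule.span K (Set.range ![P, R]) ∧ ∀ ψ : Dual K V, ψ ≠ 0 → ψ P = 0 →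
      (Fintype.card K * (Fintype.card K - 1) ∣ hyp F ψ ↔ ψ R = 0)}
  have hmemP : ∀ P R : V, P ∈ Submodule.span K (Set.range ![P, R]) := fun P R =>
    Submodule.subset_span ⟨0, rfl⟩
  have hmemR : ∀ P R : V, R ∈ Submodule.span K (Set.range ![P, R]) := fun P R =>
    Submodule.subset_span ⟨1, rfl⟩
  have hA2 : ∀ l ∈ A, finrank K l = 2 := by
    rintro l ⟨P, R, hP, hR, rfl, _⟩
    have hli : LinearIndependent K ![P, R] := by
      rw [LinearIndependent.pair_iff' hP]
      intro c hc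
      exact hR (Submodule.mem_span_singleton.2 ⟨c, hc⟩)
    rw [finrank_span_eq_card hli]
    simp
  have hAax : ∀ P Q : V, P ≠ 0 → F P = 0 → ∑ z : K, z * lift K F (Q + z • P) ≠ 0 →
      ∃ l ∈ A, P ∈ l ∧ ∀ ψ : Dual K V, ψ ≠ 0 → ψ P = 0 →
        Fintype.card K * (Fintype.card K - 1) ∣ hyp F ψ → ∀ x ∈ l, ψ x = 0 := by
    intro P Q hP hFP hm
    obtain ⟨R, hR, hR'⟩ := hax P Q hP hFP hm
    refine ⟨_, ⟨P, R, hP, hR, rfl, hR'⟩, hmemP P R, fun ψ hψ hψP hd x hx => ?_⟩
    have hψR := (hR' ψ hψ hψP).1 hd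
    have hle : Submodule.span K (Set.range ![P, R]) ≤ LinearMap.ker ψ := by
      rw [Submodule.span_le]
      rintro _ ⟨i, rfl⟩
      fin_cases i
      · exact hψP
      · exact hψR
    exact hle hx
  have hmeet : ∀ l ∈ A, ∀ l' ∈ A, ∃ v : V, v ≠ 0 ∧ v ∈ l ∧ v ∈ l' := by
    intro l hl l' hl'
    by_contra hcon
    push Not at hcon
    have hinf : (l ⊓ l' : Submodule K V) = ⊥ := by
      rw [eq_bot_iff]
      rintro x ⟨hx, hx'⟩
      by_contra hx0
      exact hcon x (by simpa using hx0) hx hx'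
    have hsum := Submodule.finrank_sup_add_finrank_inf_eq l l'
    rw [hinf, finrank_bot, hA2 l hl, hA2 l' hl'] at hsum
    obtain ⟨P, R, hP, hR, hlP, hax1⟩ := hl
    obtain ⟨P', R', hP', hR', hlP', hax2⟩ := hl'
    obtain ⟨ψ, hψ, hψU⟩ := exists_ker (l ⊔ Submodule.span K {P'}) (by
      have e1 := Submodule.finrank_sup_add_finrank_inf_eq l (Submodule.span K {P'})
      rw [hA2 l ⟨P, R, hP, hR, hlP, hax1⟩, finrank_span_singleton hP'] at e1
      rw [h4]
      omega)
    have hψP : ψ P = 0 := hψU P (Submodule.mem_sup_left (by rw [hlP]; exact hmemP P R))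
    have hψR : ψ R = 0 := hψU R (Submodule.mem_sup_left (by rw [hlP]; exact hmemR P R))
    have hψP' : ψ P' = 0 := hψU P' (Submodule.mem_sup_right (Submodule.mem_span_singleton_self P'))
    have hψR' : ψ R' = 0 := (hax2 ψ hψ hψP').1 ((hax1 ψ hψ hψP).2 hψR)
    have hle' : l' ≤ LinearMap.ker ψ := by
      rw [hlP', Submodule.span_le]
      rintro _ ⟨i, rfl⟩
      fin_cases i
      · exact hψP'
      · exact hψR'
    have hle : l ⊔ l' ≤ LinearMap.ker ψ :=
      sup_le (fun x hx => hψU x (Submodule.mem_sup_left hx)) hle'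
    have htop : (l ⊔ l' : Submodule K V) = ⊤ := by
      apply Submodule.eq_top_of_finrank_eq
      rw [h4]
      omega
    rw [htop, top_le_iff] at hle
    exact hψ (LinearMap.ker_eq_top.1 hle)
  have hspan : ∀ ψ : Dual K V, ψ ≠ 0 → ∃ l ∈ A, ¬ l ≤ LinearMap.ker ψ := by
    intro ψ hψ
    obtain ⟨P, Q, hψP, hFP, hm⟩ := hgood ψ hψ
    have hP : P ≠ 0 := by
      rintro rfl
      exact hψP (map_zero ψ)
    obtain ⟨l, hl, hPl, _⟩ := hAax P Q hP hFP hm
    exact ⟨l, hl, fun hle => hψP (hle hPl)⟩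
  obtain ⟨R, hR0, hR⟩ := common h4 A hA2 hmeet hspan
  refine ⟨R, hR0, fun ψ₀ hψ₀ext => ?_⟩
  obtain ⟨v, hv⟩ := hne
  have hψ₀v : ψ₀ v ≠ 0 := by
    intro h0
    exact hv (Pool.Agent.Helper58.Cyl.hyp_eq_zero.1 hψ₀ext v h0)
  have hψ₀ : ψ₀ ≠ 0 := by
    rintro rfl
    exact hψ₀v rfl
  obtain ⟨P, hP0, hψP, hm⟩ := Pool.Agent.Helper58.Cyl.find_P' (K := K) hF ψ₀ hψ₀ext
    (Q := (ψ₀ v)⁻¹ • v) (by rw [map_smul, smul_eq_mul, inv_mul_cancel₀ hψ₀v])
    (by rwa [hF.smul _ _ (inv_ne_zero hψ₀v)]) (by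
      rw [hker ψ₀ hψ₀]
      obtain ⟨k, hk⟩ : ∃ k, Fintype.card K = k + 2 := ⟨Fintype.card K - 2, by omega⟩
      rw [hk] at htot1 htot2 ⊢
      have e1 : k + 2 - 1 = k + 1 := by omega
      rw [e1] at htot1 ⊢
      have e2 : (k + 2) * ((k + 1) * (2 * (k + 2))) + 2 * (k + 2) ^ 2 = 2 * (k + 2) ^ 3 := by ring
      have e3 : 2 * (k + 2) ^ 2 = 2 * k ^ 2 + 8 * k + 8 := by ring
      have e4 : 1 ≤ (k + 2) ^ 3 := Nat.one_le_pow _ _ (by omega)
      omega)
  have hFP : F P = 0 := Pool.Agent.Helper58.Cyl.hyp_eq_zero.1 hψ₀ext P hψP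
  obtain ⟨l, hl, _, hl'⟩ := hAax P _ hP0 hFP hm
  exact hl' ψ₀ hψ₀ hψP (by rw [hψ₀ext]; exact dvd_zero _) R (hR l hl)

end

end Pool.Agent.CLH
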