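import Pool.Agent.CLH.Stmts

set_option autoImplicit false

/-!
# CLH: module HAS, the polynomial of the pencil of a point
-/

open scoped BigOperators Polynomial
open Module Polynomial

namespace Pool.Agent.CLH

universe u

namespace HAS_

variable {K : Type u} [Field K]

/-! ### Sums over lines and points in a frame -/

open Classical in
lemma ps_eq [Fintype K] {Z : Pl K} (f : Z.Fr) (g : Z.Ln → ℕ) (s : SP K) :
    Z.ps g (f.p s) = ∑ t : SP K, if sinc s t then g (f.l t) else 0 := by
  unfold Pl.ps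
  rw [← Equiv.sum_comp f.l]
  refine Finset.sum_congr rfl (fun t _ => ?_)
  by_cases h : sinc s t
  · rw [if_pos h, if_pos ((f.hinc s t).1 h)]
  · rw [if_neg h, if_neg (fun hh => h ((f.hinc s t).2 hh))]

open Classical in
lemma ls_eq [Fintype K] {Z : Pl K} (f : Z.Fr) (g : Z.Pt → ℕ) (t : SP K) :
    Z.ls g (f.l t) = ∑ s : SP K, if sinc s t then g (f.p s) else 0 := by
  unfold Pl.ls
  rw [← Equiv.sum_comp f.p]
  refine Finset.sum_congr rfl (fun s _ => ?_)
  by_cases h : sinc s t
  · rw [if_pos h, if_pos ((f.hinc s t).1 h)]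
  · rw [if_neg h, if_neg (fun hh => h ((f.hinc s t).2 hh))]

lemma ps_slp [Fintype K] {Z : Pl K} (f : Z.Fr) (g : Z.Ln → ℕ) (y : K) :
    Z.ps g (slp f y) = (∑ m : K, g (aff f y m)) + g (f.l inf) := by
  classical
  unfold slp aff inf
  rw [ps_eq, Fintype.sum_sum_type, Fintype.sum_sum_type, Fintype.sum_prod_type]
  have h1 : ∀ a b : K, (if sinc (Sum.inr (Sum.inl y) : SP K) (Sum.inl (a, b)) then
      g (f.l (Sum.inl (a, b))) else 0) = if y = a then g (f.l (Sum.inl (a, b))) else 0 := by
    intro a b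
    rfl
  have h2 : ∀ a : K, (if sinc (Sum.inr (Sum.inl y) : SP K) (Sum.inr (Sum.inl a)) then
      g (f.l (Sum.inr (Sum.inl a))) else 0) = 0 := by
    intro a
    rw [if_neg]
    intro h
    exact h
  have h3 : ∀ a : Unit, (if sinc (Sum.inr (Sum.inl y) : SP K) (Sum.inr (Sum.inr a)) then
      g (f.l (Sum.inr (Sum.inr a))) else 0) = g (f.l (Sum.inr (Sum.inr a))) := by
    intro a
    rw [if_pos]
    exact trivial
  simp only [h1, h2, h3, Finset.sum_const_zero, zero_add, Finset.univ_unique,
    Finset.sum_singleton]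
  rw [Finset.sum_eq_single y]
  · simp
  · intro a _ ha
    refine Finset.sum_eq_zero (fun b _ => ?_)
    rw [if_neg (fun h => ha h.symm)]
  · intro h
    exact absurd (Finset.mem_univ y) h

lemma ps_inf [Fintype K] {Z : Pl K} (f : Z.Fr) (g : Z.Ln → ℕ) :
    Z.ps g (f.p inf) = (∑ a : K, g (ver f a)) + g (f.l inf) := by
  classical
  unfold ver inf
  rw [ps_eq, Fintype.sum_sum_type, Fintype.sum_sum_type]
  have h1 : ∀ a : K × K, (if sinc (Sum.inr (Sum.inr ()) : SP K) (Sum.inl a) then
      g (f.l (Sum.inl a)) else 0) = 0 := by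
    intro a
    rw [if_neg]
    intro h
    exact h
  have h2 : ∀ a : K, (if sinc (Sum.inr (Sum.inr ()) : SP K) (Sum.inr (Sum.inl a)) then
      g (f.l (Sum.inr (Sum.inl a))) else 0) = g (f.l (Sum.inr (Sum.inl a))) := by
    intro a
    rw [if_pos]
    exact trivial
  have h3 : ∀ a : Unit, (if sinc (Sum.inr (Sum.inr ()) : SP K) (Sum.inr (Sum.inr a)) then
      g (f.l (Sum.inr (Sum.inr a))) else 0) = g (f.l (Sum.inr (Sum.inr a))) := by
    intro a
    rw [if_pos]
    exact trivial
  simp only [h1, h2, h3, Finset.sum_const_zero, zero_add, Finset.univ_unique,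
    Finset.sum_singleton]

lemma ls_inf [Fintype K] {Z : Pl K} (f : Z.Fr) (g : Z.Pt → ℕ) :
    Z.ls g (f.l inf) = (∑ y : K, g (slp f y)) + g (f.p inf) := by
  classical
  unfold slp inf
  rw [ls_eq, Fintype.sum_sum_type, Fintype.sum_sum_type]
  have h1 : ∀ a : K × K, (if sinc (Sum.inl a : SP K) (Sum.inr (Sum.inr ())) then
      g (f.p (Sum.inl a)) else 0) = 0 := by
    intro a
    rw [if_neg]
    intro h
    exact h
  have h2 : ∀ a : K, (if sinc (Sum.inr (Sum.inl a) : SP K) (Sum.inr (Sum.inr ())) then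
      g (f.p (Sum.inr (Sum.inl a))) else 0) = g (f.p (Sum.inr (Sum.inl a))) := by
    intro a
    rw [if_pos]
    exact trivial
  have h3 : ∀ a : Unit, (if sinc (Sum.inr (Sum.inr a) : SP K) (Sum.inr (Sum.inr ())) then
      g (f.p (Sum.inr (Sum.inr a))) else 0) = g (f.p (Sum.inr (Sum.inr a))) := by
    intro a
    rw [if_pos]
    exact trivial
  simp only [h1, h2, h3, Finset.sum_const_zero, zero_add, Finset.univ_unique,
    Finset.sum_singleton]

/-! ### Polynomials -/

open Classical in
lemma prod_pow_ite [Fintype K] (r : ℕ) (c : K → ℕ) (hc : ∀ m, c m = 0 ∨ c m = 1)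
    (u : K → K[X]) : ∏ m : K, u m ^ (r * c m) =
      (∏ m ∈ Finset.univ.filter (fun m => c m = 1), u m) ^ r := by
  rw [← Finset.prod_pow, Finset.prod_filter]
  refine Finset.prod_congr rfl (fun m _ => ?_)
  rcases hc m with h | h
  · rw [h, if_neg (by norm_num), mul_zero, pow_zero]
  · rw [h, if_pos rfl, mul_one]

lemma coeff_pow_char (p : ℕ) [Fact p.Prime] [CharP K p] (s : ℕ) (G : K[X]) (i : ℕ) :
    (G ^ p ^ s).coeff (p ^ s * i) = G.coeff i ^ p ^ s := by
  have hp : 0 < p ^ s := pow_pos (Fact.out : p.Prime).pos s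
  have h := map_iterateFrobenius_expand p G s
  rw [← h, coeff_map, coeff_expand_mul' hp]
  exact iterateFrobenius_def _ _ _

/-- Lucas: `n choose (n mod p ^ e)` is one modulo `p`. -/
lemma choose_mod (p : ℕ) [Fact p.Prime] (e : ℕ) : ∀ n : ℕ, n.choose (n % p ^ e) ≡ 1 [MOD p] := by
  induction e with
  | zero =>
    intro n
    rw [pow_zero, Nat.mod_one, Nat.choose_zero_right]
  | succ e ih =>
    intro n
    have h := @Choose.choose_modEq_choose_mod_mul_choose_div_nat n (n % p ^ (e + 1)) p _
    have h1 : n % p ^ (e + 1) % p = n % p := Nat.mod_mod_of_dvd n (dvd_pow_self p (Nat.succ_ne_zero e))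
    have h2 : n % p ^ (e + 1) / p = n / p % p ^ e := by
      rw [pow_succ', Nat.mod_mul_right_div_self]
    rw [h1, h2, Nat.choose_self, one_mul] at h
    exact h.trans (ih (n / p))

/-- The generating polynomial of a set. -/
noncomputable def G0 (B : Finset K) : K[X] := ∏ A ∈ B, (1 + C A * X)

open Classical in
lemma gpol_eq [Fintype K] {Z : Pl K} (f : Z.Fr) (r : ℕ) (b : Z.Ln → ℕ)
    (hb : ∀ l, b l = 0 ∨ b l = 1) :
    Gpol f (fun l => r * b l) = G0 (Finset.univ.filter fun A => b (ver f A) = 1) ^ r := by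
  unfold Gpol G0
  exact prod_pow_ite r (fun m => b (ver f m)) (fun m => hb _) (fun A => 1 + C A * X)

open Classical in
lemma fpol_eq [Fintype K] {Z : Pl K} (f : Z.Fr) (r : ℕ) (b : Z.Ln → ℕ)
    (hb : ∀ l, b l = 0 ∨ b l = 1) (y : K) :
    Fpol f (fun l => r * b l) y =
      (∏ m ∈ Finset.univ.filter (fun m => b (aff f y m) = 1), (1 - C m * X)) ^ r := by
  unfold Fpol
  exact prod_pow_ite r (fun m => b (aff f y m)) (fun m => hb _) (fun A => 1 - C A * X)

lemma slope_sum [Fintype K] {Z : Pl K} {k r : ℕ} {κ : Z.Pt → ℕ} {b : Z.Ln → ℕ} (f : Z.Fr)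
    (hr : 0 < r) (hs : Sys Z k r κ (fun l => r * b l)) (y : K) (hy : κ (slp f y) = 0) :
    (∑ m : K, b (aff f y m)) + b (f.l inf) = 1 := by
  have h := hs.point (slp f y)
  rw [ps_slp, hy, mul_zero, add_zero, ← Finset.mul_sum, ← mul_add] at h
  exact Nat.eq_of_mul_eq_mul_left hr (h.trans (mul_one r).symm)

open Classical in
lemma slope_one [Fintype K] {Z : Pl K} {k r : ℕ} {κ : Z.Pt → ℕ} {b : Z.Ln → ℕ} (f : Z.Fr)
    (hr : 0 < r) (hs : Sys Z k r κ (fun l => r * b l)) (hb : ∀ l, b l = 0 ∨ b l = 1)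
    (y : K) (hy : κ (slp f y) = 0) (hl : b (f.l inf) = 1) :
    Fpol f (fun l => r * b l) y = 1 := by
  have h := slope_sum f hr hs y hy
  rw [hl] at h
  have h0 : (∑ m : K, b (aff f y m)) = 0 := by omega
  rw [fpol_eq f r b hb y]
  have h1 : Finset.univ.filter (fun m => b (aff f y m) = 1) = ∅ := by
    rw [Finset.filter_eq_empty_iff]
    intro m _ hm
    have h2 := Finset.sum_eq_zero_iff.1 h0 m (Finset.mem_univ m)
    omega
  rw [h1, Finset.prod_empty, one_pow]

open Classical in
lemma slope_zero [Fintype K] {Z : Pl K} {k r : ℕ} {κ : Z.Pt → ℕ} {b : Z.Ln → ℕ} (f : Z.Fr)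
    (hr : 0 < r) (hs : Sys Z k r κ (fun l => r * b l)) (hb : ∀ l, b l = 0 ∨ b l = 1)
    (y : K) (hy : κ (slp f y) = 0) (hl : b (f.l inf) = 0) :
    ∃ m0 : K, Fpol f (fun l => r * b l) y = (1 - C m0 * X) ^ r := by
  have h := slope_sum f hr hs y hy
  rw [hl, add_zero] at h
  have h1 : (Finset.univ.filter (fun m => b (aff f y m) = 1)).card = 1 := by
    refine Eq.trans ?_ h
    rw [Finset.card_filter]
    refine Finset.sum_congr rfl (fun m _ => ?_)
    rcases hb (aff f y m) with h2 | h2
    · rw [h2, if_neg (by norm_num)]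
    · rw [h2, if_pos rfl]
  obtain ⟨m0, hm0⟩ := Finset.card_eq_one.1 h1
  refine ⟨m0, ?_⟩
  rw [fpol_eq f r b hb y, hm0, Finset.prod_singleton]

/-- The vanishing of a coefficient. -/
lemma vanish [Fintype K] (p s : ℕ) [Fact p.Prime] [CharP K p] (h1 : Stmt_Rl.{u})
    {Z : Pl K} {k : ℕ} {κ : Z.Pt → ℕ} {b : Z.Ln → ℕ} (f : Z.Fr)
    (hs : Sys Z k (p ^ s) κ (fun l => p ^ s * b l)) (hb : ∀ l, b l = 0 ∨ b l = 1)
    (S : Finset K) (hS : ∀ y ∈ S, κ (slp f y) = 0) (B : Finset K)
    (hB : ∀ A, A ∈ B ↔ b (ver f A) = 1) (i : ℕ) (hi : 1 ≤ i)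
    (hiq : p ^ s * i + 1 < Fintype.card K) (hcard : p ^ s * i < S.card)
    (hcase : b (f.l inf) = 1 ∨ 2 ≤ i) : (G0 B).coeff i = 0 := by
  classical
  have hr : 0 < p ^ s := pow_pos (Fact.out : p.Prime).pos s
  obtain ⟨σ, hσ⟩ := h1 K Z k (p ^ s) κ (fun l => p ^ s * b l) f hs
  obtain ⟨hd, he, hc⟩ := hσ (p ^ s * i) hiq
  have hz : σ (p ^ s * i) = 0 := by
    refine eq_zero_of_natDegree_lt_card_of_eval_eq_zero' _ S ?_ (lt_of_le_of_lt hd hcard)
    intro y hy
    rw [he y]
    rcases hb (f.l inf) with hl | hl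
    · have h2 : 2 ≤ i := by
        rcases hcase with h | h
        · rw [hl] at h
          exact absurd h (by norm_num)
        · exact h
      obtain ⟨m0, hm0⟩ := slope_zero f hr hs hb y (hS y hy) hl
      rw [hm0, coeff_pow_char p s]
      have h3 : (1 - C m0 * X : K[X]).coeff i = 0 := by
        rw [coeff_sub, coeff_one, if_neg (by omega), coeff_C_mul, coeff_X, if_neg (by omega),
          mul_zero, sub_zero]
      rw [h3, zero_pow hr.ne']
    · rw [slope_one f hr hs hb y (hS y hy) hl, coeff_one, if_neg]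
      have : 0 < p ^ s * i := Nat.mul_pos hr hi
      omega
  rw [hz, coeff_zero, gpol_eq f (p ^ s) b hb, coeff_pow_char p s] at hc
  have hBB : Finset.univ.filter (fun A => b (ver f A) = 1) = B := by
    ext A
    rw [hB A]
    simp
  rw [hBB] at hc
  exact (pow_eq_zero_iff hr.ne').1 hc.symm

/-! ### Counting -/

open Classical in
lemma card_zero [Fintype K] {Z : Pl K} (f : Z.Fr) (κ : Z.Pt → ℕ) :
    Fintype.card K ≤ (∑ y : K, κ (slp f y)) +
      (Finset.univ.filter fun y : K => κ (slp f y) = 0).card := by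
  rw [Finset.card_filter, ← Finset.sum_add_distrib, ← Finset.card_univ, Finset.card_eq_sum_ones]
  refine Finset.sum_le_sum (fun y _ => ?_)
  by_cases h : κ (slp f y) = 0
  · rw [if_pos h]
    omega
  · rw [if_neg h]
    omega

open Classical in
lemma card_nu [Fintype K] {Z : Pl K} (f : Z.Fr) (κ : Z.Pt → ℕ) (hinf : κ (f.p inf) ≠ 0) :
    (Finset.univ.filter fun x => Z.inc x (f.l inf) ∧ κ x ≠ 0).card +
      (Finset.univ.filter fun y : K => κ (slp f y) = 0).card = Fintype.card K + 1 := by
  have h1 : (Finset.univ.filter fun x => Z.inc x (f.l inf) ∧ κ x ≠ 0).card =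
      Z.ls (fun x => if κ x ≠ 0 then 1 else 0) (f.l inf) := by
    unfold Pl.ls
    rw [Finset.card_filter]
    refine Finset.sum_congr rfl (fun x _ => ?_)
    by_cases hx : Z.inc x (f.l inf)
    · by_cases hk : κ x ≠ 0
      · rw [if_pos ⟨hx, hk⟩, if_pos hx]
        exact (if_pos hk).symm
      · rw [if_neg (fun hh => hk hh.2), if_pos hx]
        exact (if_neg hk).symm
    · rw [if_neg (fun hh => hx hh.1), if_neg hx]
  rw [h1, ls_inf, if_pos hinf, Finset.card_filter, add_right_comm, ← Finset.sum_add_distrib,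
    ← Finset.card_univ, Finset.card_eq_sum_ones]
  congr 1
  refine Finset.sum_congr rfl (fun y _ => ?_)
  by_cases h : κ (slp f y) = 0
  · rw [if_pos h, if_neg (fun hh => hh h)]
  · rw [if_neg h, if_pos h]

/-! ### The Taylor expansion -/

lemma taylor_P [Fintype K] {Z : Pl K} (f f' : Z.Fr) (b : Z.Ln → ℕ) (β B : Finset K)
    (hβ : ∀ a, a ∈ β ↔ b (ver f a) = 1) (hB : ∀ A, A ∈ B ↔ b (ver f' A) = 1) (a : K)
    (hrot : ∀ A, A ≠ 0 → ver f' A = ver f (a + A⁻¹)) :
    ∃ c : K, c ≠ 0 ∧ (a ∉ β → taylor a (∏ x ∈ β, (X - C x)) =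
        C c * (G0 B).comp (C (-1) * X)) ∧
      (a ∈ β → taylor a (∏ x ∈ β, (X - C x)) = X * (C c * (G0 B).comp (C (-1) * X))) := by
  classical
  refine ⟨∏ x ∈ β.erase a, (a - x), ?_, ?_⟩
  · rw [Finset.prod_ne_zero_iff]
    intro x hx
    exact sub_ne_zero.2 (fun h => (Finset.ne_of_mem_erase hx) h.symm)
  · have key : ∏ x ∈ β.erase a, (X + C (a - x)) =
        C (∏ x ∈ β.erase a, (a - x)) * (G0 B).comp (C (-1) * X) := by
      have e1 : (G0 B).comp (C (-1) * X) = ∏ A ∈ B.erase 0, (1 - C A * X : K[X]) := by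
        unfold G0
        rw [prod_comp, Finset.prod_erase]
        · refine Finset.prod_congr rfl (fun A _ => ?_)
          rw [add_comp, one_comp, mul_comp, C_comp, X_comp, C_neg, C_1]
          ring
        · rw [C_0]
          ring
      have e2 : ∏ A ∈ B.erase 0, (1 - C A * X : K[X]) =
          ∏ x ∈ β.erase a, (1 - C ((x - a)⁻¹) * X : K[X]) := by
        symm
        refine Finset.prod_bij (fun x _ => (x - a)⁻¹) ?_ ?_ ?_ ?_
        · intro x hx
          have hx1 := Finset.ne_of_mem_erase hx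
          have hx2 := (hβ x).1 (Finset.mem_of_mem_erase hx)
          have hne : (x - a)⁻¹ ≠ 0 := inv_ne_zero (sub_ne_zero.2 hx1)
          rw [Finset.mem_erase, hB, hrot _ hne, inv_inv]
          refine ⟨hne, ?_⟩
          rw [add_sub_cancel]
          exact hx2
        · intro x hx y hy hxy
          have := inv_injective hxy
          exact sub_left_injective this
        · intro A hA
          have hA1 := Finset.ne_of_mem_erase hA
          have hA2 := (hB A).1 (Finset.mem_of_mem_erase hA)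
          rw [hrot A hA1] at hA2
          refine ⟨a + A⁻¹, ?_, ?_⟩
          · rw [Finset.mem_erase, hβ]
            refine ⟨?_, hA2⟩
            intro h
            exact inv_ne_zero hA1 (add_eq_left.1 h)
          · rw [add_sub_cancel_left, inv_inv]
        · intro x hx
          rfl
      rw [e1, e2, map_prod, ← Finset.prod_mul_distrib]
      refine Finset.prod_congr rfl (fun x hx => ?_)
      have hx1 : x - a ≠ 0 := sub_ne_zero.2 (Finset.ne_of_mem_erase hx)
      have h5 : (a - x) * (x - a)⁻¹ = -1 := by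
        rw [← neg_sub x a, neg_mul, mul_inv_cancel₀ hx1]
      have h6 : C (a - x) * (1 - C ((x - a)⁻¹) * X) =
          C (a - x) - C ((a - x) * (x - a)⁻¹) * X := by
        rw [C_mul]
        ring
      rw [h6, h5, C_neg, C_1]
      ring
    have ht : taylor a (∏ x ∈ β, (X - C x)) = ∏ x ∈ β, (X + C (a - x)) := by
      rw [taylor_apply, prod_comp]
      refine Finset.prod_congr rfl (fun x _ => ?_)
      rw [sub_comp, X_comp, C_comp, C_sub]
      ring
    refine ⟨fun ha => ?_, fun ha => ?_⟩
    · rw [ht, ← key, Finset.erase_eq_of_notMem ha]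
    · rw [ht, ← key, ← Finset.mul_prod_erase β _ ha, sub_self, C_0, add_zero]

end HAS_

/-- HAS: the polynomial of the pencil of a point. -/
theorem has_proof (h1 : Stmt_Rl.{u}) (h2 : Stmt_Rot.{u}) (_h3 : Stmt_Pln.{u}) :
    Stmt_Has.{u} := by
  classical
  intro K _ _ p h s _ _ hq hp hs1 hsh Z k κ b hsys hb hk f β hβ
  have hpp : p.Prime := Fact.out
  have hr : 0 < p ^ s := pow_pos hpp.pos s
  have hE3 : 3 ≤ p ^ (h - s) := by
    calc 3 ≤ p := hp
      _ = p ^ 1 := (pow_one p).symm
      _ ≤ p ^ (h - s) := Nat.pow_le_pow_right hpp.pos (by omega)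
  have hr3 : 3 ≤ p ^ s := by
    calc 3 ≤ p := hp
      _ = p ^ 1 := (pow_one p).symm
      _ ≤ p ^ s := Nat.pow_le_pow_right hpp.pos hs1
  have hqE : Fintype.card K = p ^ s * p ^ (h - s) := by
    rw [hq, ← pow_add]
    congr 1
    omega
  set r := p ^ s with hrdef
  set E := p ^ (h - s) with hEdef
  have hmon : (∏ a ∈ β, (X - C a) : K[X]).natDegree = β.card := by
    rw [natDegree_prod_of_monic _ _ (fun a _ => monic_X_sub_C a)]
    simp
  by_cases hinf : κ (f.p inf) = 0
  · -- the trivial case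
    have hpt := hsys.point (f.p inf)
    rw [HAS_.ps_inf, hinf, mul_zero, add_zero, ← Finset.mul_sum, ← mul_add] at hpt
    have h4 : (∑ a : K, b (ver f a)) + b (f.l inf) = 1 :=
      Nat.eq_of_mul_eq_mul_left hr (hpt.trans (mul_one _).symm)
    have h5 : β.card ≤ 1 := by
      have h6 : β.card = ∑ a ∈ β, b (ver f a) := by
        rw [Finset.card_eq_sum_ones]
        exact Finset.sum_congr rfl (fun a ha => ((hβ a).1 ha).symm)
      have h7 : ∑ a ∈ β, b (ver f a) ≤ ∑ a : K, b (ver f a) :=
        Finset.sum_le_sum_of_subset (Finset.subset_univ β)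
      omega
    refine ⟨fun n hn => ?_, fun a _ hne => ?_⟩
    · have h8 : n ≤ 1 := by
        have := le_natDegree_of_ne_zero hn
        rw [hmon] at this
        omega
      have h9 : n % E = n := Nat.mod_eq_of_lt (by omega)
      rw [h9]
      omega
    · exfalso
      apply hne
      rw [hasseDeriv_eq_zero_of_lt_natDegree _ _ (by rw [hmon]; omega), eval_zero]
  · -- the main case
    have main : ∀ a : K, (∀ i, 2 ≤ i → i < E →
        (hasseDeriv i (∏ x ∈ β, (X - C x))).eval a = 0) ∧
        (a ∈ β → (hasseDeriv E (∏ a ∈ β, (X - C a))).eval a ≠ 0 →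
          p ^ s + 1 ≤ (Finset.univ.filter fun x => Z.inc x (ver f a) ∧ κ x ≠ 0).card) := by
      intro a
      obtain ⟨f', hf1, hf2, hf3, hf4, hf5, hf6⟩ := (h2 K Z f).2 a
      set B : Finset K := Finset.univ.filter (fun A => b (ver f' A) = 1) with hBdef
      have hB : ∀ A, A ∈ B ↔ b (ver f' A) = 1 := by
        intro A
        rw [hBdef]
        simp
      set S : Finset K := Finset.univ.filter (fun y : K => κ (slp f' y) = 0) with hSdef
      have hS : ∀ y ∈ S, κ (slp f' y) = 0 := by
        intro y hy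
        exact (Finset.mem_filter.1 hy).2
      have hinf' : κ (f'.p inf) ≠ 0 := by
        rw [hf1]
        exact hinf
      have hnu := HAS_.card_nu f' κ hinf'
      have hcz := HAS_.card_zero f' κ
      have hline := hsys.line (f'.l inf)
      rw [HAS_.ls_inf] at hline
      rw [← hSdef] at hnu hcz
      obtain ⟨c, hc0, hc1, hc2⟩ := HAS_.taylor_P f f' b β B hβ hB a hf4
      have hcoef : ∀ i, (C c * (HAS_.G0 B).comp (C (-1) * X) : K[X]).coeff i =
          c * ((HAS_.G0 B).coeff i * (-1) ^ i) := by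
        intro i
        rw [coeff_C_mul, comp_C_mul_X_coeff]
      have hinf1 : 1 ≤ κ (f'.p inf) := Nat.one_le_iff_ne_zero.2 hinf'
      -- the line `f'.l inf` is `ver f a`
      have hbl : a ∈ β ↔ b (f'.l inf) = 1 := by
        rw [hβ a, hf2]
      by_cases ha : a ∈ β
      · have hl : b (f'.l inf) = 1 := hbl.1 ha
        rw [hl, mul_one] at hline
        have hlow : ∀ i, 1 ≤ i → i + 1 < E → (HAS_.G0 B).coeff i = 0 := by
          intro i hi1 hi2
          have h7 : r * i + 2 * r ≤ r * E := by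
            calc r * i + 2 * r = r * (i + 2) := by ring
              _ ≤ r * E := Nat.mul_le_mul_left r (by omega)
          refine HAS_.vanish p s h1 f' hsys hb S hS B hB i hi1 ?_ ?_ (Or.inl hl)
          · rw [← hrdef]
            omega
          · rw [← hrdef]
            omega
        refine ⟨fun i hi1 hi2 => ?_, fun _ hne => ?_⟩
        · rw [← taylor_coeff, hc2 ha]
          obtain ⟨j, rfl⟩ : ∃ j, i = j + 1 := ⟨i - 1, by omega⟩
          rw [coeff_X_mul, hcoef, hlow j (by omega) (by omega), zero_mul, mul_zero]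
        · by_contra hcon
          apply hne
          rw [← taylor_coeff, hc2 ha]
          obtain ⟨j, hj⟩ : ∃ j, E = j + 1 := ⟨E - 1, by omega⟩
          have h8 : r * j + r = r * E := by
            rw [hj]
            ring
          have h9 : (HAS_.G0 B).coeff j = 0 := by
            rw [hf2] at hnu
            refine HAS_.vanish p s h1 f' hsys hb S hS B hB j (by omega) ?_ ?_ (Or.inl hl)
            · rw [← hrdef]
              omega
            · rw [← hrdef]
              omega
          rw [hj, coeff_X_mul, hcoef, h9, zero_mul, mul_zero]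
      · have hl : b (f'.l inf) = 0 := by
          rcases hb (f'.l inf) with h | h
          · exact h
          · exact absurd (hbl.2 h) ha
        rw [hl, mul_zero, add_zero] at hline
        refine ⟨fun i hi1 hi2 => ?_, fun h => absurd h ha⟩
        have h7 : r * i + r ≤ r * E := by
          calc r * i + r = r * (i + 1) := by ring
            _ ≤ r * E := Nat.mul_le_mul_left r (by omega)
        rw [← taylor_coeff, hc1 ha, hcoef]
        have h9 : (HAS_.G0 B).coeff i = 0 := by
          refine HAS_.vanish p s h1 f' hsys hb S hS B hB i (by omega) ?_ ?_ (Or.inr hi1)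
          · rw [← hrdef]
            omega
          · rw [← hrdef]
            omega
        rw [h9, zero_mul, mul_zero]
    refine ⟨fun n hn => ?_, fun a ha hne => (main a).2 ha hne⟩
    by_contra hcon
    have hi1 : 2 ≤ n % E := by omega
    have hi2 : n % E < E := Nat.mod_lt _ (by omega)
    have hz : hasseDeriv (n % E) (∏ x ∈ β, (X - C x) : K[X]) = 0 := by
      refine eq_zero_of_natDegree_lt_card_of_eval_eq_zero' _ Finset.univ
        (fun a _ => (main a).1 _ hi1 hi2) ?_
      have h10 := natDegree_hasseDeriv_le (∏ x ∈ β, (X - C x) : K[X]) (n % E)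
      rw [hmon] at h10
      have h11 : β.card ≤ Fintype.card K := Finset.card_le_univ β
      rw [Finset.card_univ]
      have h12 : 0 < Fintype.card K := Fintype.card_pos
      omega
    have h13 : (hasseDeriv (n % E) (∏ x ∈ β, (X - C x) : K[X])).coeff (n - n % E) = 0 := by
      rw [hz, coeff_zero]
    rw [hasseDeriv_coeff, Nat.sub_add_cancel (Nat.mod_le n E)] at h13
    rcases mul_eq_zero.1 h13 with h14 | h14
    · have h15 := HAS_.choose_mod p (h - s) n
      have h16 : ((n.choose (n % E) : ℕ) : K) = ((1 : ℕ) : K) :=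
        (CharP.natCast_eq_natCast K p).2 h15
      rw [h14, Nat.cast_one] at h16
      exact zero_ne_one h16
    · exact hn h14

end Pool.Agent.CLH
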