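import Pool.Agent.CLH.Stmts

/-!
# CLH module LD: the logarithmic derivative
-/

set_option autoImplicit false

open scoped BigOperators Polynomial
open Module Polynomial

namespace Pool.Agent.CLH

universe u

noncomputable section

namespace LD_

open Classical in
theorem core (K : Type u) [Field K] (p : ℕ) [Fact p.Prime] [CharP K p] (S : Finset K)
    (v : K → ℕ) (hv : ∀ m ∈ S, v m ≠ 0) (m₀ : K) (hmem : m₀ ∈ S) (hm₀ : m₀ ≠ 0)
    (hnd : ¬ p ∣ v m₀) (e : ℕ)
    (hcoef : ∀ i, 1 ≤ i → i ≤ S.card * p ^ e →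
      (∏ m ∈ S, (1 - C m * X) ^ (p ^ e * v m)).coeff i = 0) : False := by
  have hPpos : 0 < p ^ e := pow_pos (Nat.Prime.pos Fact.out) _
  set Ψ : K[X] := ∏ m ∈ S, (1 - C (m ^ p ^ e) * X) ^ (v m) with hΨdef
  have hexp : ∏ m ∈ S, (1 - C m * X) ^ (p ^ e * v m) = expand K (p ^ e) Ψ := by
    rw [hΨdef, map_prod]
    refine Finset.prod_congr rfl fun m _ => ?_
    rw [map_pow, pow_mul, sub_pow_char_pow, one_pow, mul_pow, map_sub, map_one, map_mul,
      expand_C, expand_X, ← C_pow]
  have hΨ : ∀ j, 1 ≤ j → j ≤ S.card → Ψ.coeff j = 0 := by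
    intro j h1 h2
    have h3 := hcoef (j * p ^ e) (Nat.mul_pos h1 hPpos) (Nat.mul_le_mul_right _ h2)
    rwa [hexp, coeff_expand_mul hPpos] at h3
  set A : K[X] := ∏ m ∈ S, (1 - C (m ^ p ^ e) * X) ^ (v m - 1) with hAdef
  set Θ : K[X] := ∑ m ∈ S, (∏ m' ∈ S.erase m, (1 - C (m' ^ p ^ e) * X)) *
    C (-((v m : K) * m ^ p ^ e)) with hΘdef
  have hder : derivative Ψ = A * Θ := by
    rw [hΨdef, derivative_prod_finset, hΘdef, Finset.mul_sum]
    refine Finset.sum_congr rfl fun m hm => ?_
    have hA : A = (∏ m' ∈ S.erase m, (1 - C (m' ^ p ^ e) * X) ^ (v m' - 1)) *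
        (1 - C (m ^ p ^ e) * X) ^ (v m - 1) := by
      rw [hAdef, Finset.prod_erase_mul _ _ hm]
    have hprod : ∏ m' ∈ S.erase m, (1 - C (m' ^ p ^ e) * X) ^ (v m') =
        (∏ m' ∈ S.erase m, (1 - C (m' ^ p ^ e) * X) ^ (v m' - 1)) *
          ∏ m' ∈ S.erase m, (1 - C (m' ^ p ^ e) * X) := by
      rw [← Finset.prod_mul_distrib]
      refine Finset.prod_congr rfl fun m' hm' => ?_
      have h1 := hv m' (Finset.mem_of_mem_erase hm')
      rw [← pow_succ]
      congr 1
      omega
    have hd : derivative ((1 - C (m ^ p ^ e) * X : K[X]) ^ (v m)) =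
        (1 - C (m ^ p ^ e) * X) ^ (v m - 1) * C (-((v m : K) * m ^ p ^ e)) := by
      rw [derivative_pow]
      simp only [derivative_sub, derivative_one, derivative_mul, derivative_C, derivative_X,
        zero_mul, zero_add, mul_one, zero_sub, map_neg, map_mul, map_natCast]
      ring
    rw [hprod, hd, hA]
    ring
  have hdvd : X ^ S.card ∣ derivative Ψ := by
    rw [X_pow_dvd_iff]
    intro d hd
    rw [coeff_derivative, hΨ (d + 1) (by omega) (by omega), zero_mul]
  have hA0 : A.coeff 0 = 1 := by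
    rw [coeff_zero_eq_eval_zero, hAdef, eval_prod]
    exact Finset.prod_eq_one fun m _ => by simp
  have hcop : IsCoprime (X ^ S.card : K[X]) A := by
    apply IsCoprime.pow_left
    rw [irreducible_X.coprime_iff_not_dvd, X_dvd_iff, hA0]
    exact one_ne_zero
  have hdvd2 : X ^ S.card ∣ Θ := by
    rw [hder] at hdvd
    exact hcop.dvd_of_dvd_mul_left hdvd
  have hcard : 0 < S.card := Finset.card_pos.mpr ⟨m₀, hmem⟩
  have hdeg : Θ.natDegree ≤ S.card - 1 := by
    rw [hΘdef]
    apply natDegree_sum_le_of_forall_le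
    intro m hm
    refine le_trans (natDegree_mul_C_le _ _) ?_
    refine le_trans (natDegree_prod_le _ _) ?_
    rw [← Finset.card_erase_of_mem hm, Finset.card_eq_sum_ones]
    refine Finset.sum_le_sum fun m' _ => ?_
    refine le_trans (natDegree_sub_le _ _) ?_
    simp only [natDegree_one, max_le_iff, zero_le, true_and]
    exact le_trans (natDegree_C_mul_le _ _) natDegree_X_le
  have hΘ0 : Θ = 0 := by
    by_contra hne
    have := natDegree_le_of_dvd hdvd2 hne
    rw [natDegree_X_pow] at this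
    omega
  have hev := congrArg (eval ((m₀ ^ p ^ e)⁻¹)) hΘ0
  rw [hΘdef, eval_finsetSum, eval_zero, Finset.sum_eq_single m₀] at hev
  · rw [eval_mul, eval_prod, eval_C] at hev
    have hm₀P : m₀ ^ p ^ e ≠ 0 := pow_ne_zero _ hm₀
    rcases mul_eq_zero.mp hev with h | h
    · rw [Finset.prod_eq_zero_iff] at h
      obtain ⟨m', hm', h0⟩ := h
      simp only [eval_sub, eval_one, eval_mul, eval_C, eval_X] at h0
      have h1 : m' ^ p ^ e = m₀ ^ p ^ e := by
        rw [sub_eq_zero, eq_mul_inv_iff_mul_eq₀ hm₀P, one_mul] at h0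
        exact h0.symm
      have h2 : (m' - m₀) ^ p ^ e = 0 := by
        rw [sub_pow_char_pow, h1, sub_self]
      have h3 := (pow_eq_zero_iff hPpos.ne').mp h2
      exact (Finset.ne_of_mem_erase hm') (sub_eq_zero.mp h3)
    · rw [neg_eq_zero, mul_eq_zero] at h
      rcases h with h | h
      · exact hnd ((CharP.cast_eq_zero_iff K p _).mp h)
      · exact hm₀P h
  · intro m _ hne
    rw [eval_mul, eval_prod, Finset.prod_eq_zero (i := m₀), zero_mul]
    · exact Finset.mem_erase.mpr ⟨hne.symm, hmem⟩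
    · simp only [eval_sub, eval_one, eval_mul, eval_C, eval_X]
      rw [mul_inv_cancel₀ (pow_ne_zero _ hm₀), sub_self]
  · intro h
    exact absurd hmem h

theorem sinc_slp {K : Type u} [Field K] {y z m : K} :
    sinc (Sum.inr (Sum.inl y)) (Sum.inl (z, m)) ↔ y = z := Iff.rfl

theorem aff_inj {K : Type u} [Field K] {Z : Pl K} (f : Z.Fr) (y m m' : K)
    (h : aff f y m = aff f y m') : m = m' := by
  have := f.l.injective h
  simpa using this

theorem aff_ne_inf {K : Type u} [Field K] {Z : Pl K} (f : Z.Fr) (y m : K) :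
    aff f y m ≠ f.l inf := by
  intro h
  have := f.l.injective h
  simp [inf] at this

theorem ver_ne_inf {K : Type u} [Field K] {Z : Pl K} (f : Z.Fr) (a : K) :
    ver f a ≠ f.l inf := by
  intro h
  have := f.l.injective h
  simp [inf] at this

theorem inc_slp_aff {K : Type u} [Field K] {Z : Pl K} (f : Z.Fr) (y m : K) :
    Z.inc (slp f y) (aff f y m) := (f.hinc _ _).mp rfl

theorem inc_slp_inf {K : Type u} [Field K] {Z : Pl K} (f : Z.Fr) (y : K) :
    Z.inc (slp f y) (f.l inf) := (f.hinc _ _).mp trivial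

theorem inc_inf_ver {K : Type u} [Field K] {Z : Pl K} (f : Z.Fr) (a : K) :
    Z.inc (f.p inf) (ver f a) := (f.hinc _ _).mp trivial

theorem inc_inf_inf {K : Type u} [Field K] {Z : Pl K} (f : Z.Fr) :
    Z.inc (f.p inf) (f.l inf) := (f.hinc _ _).mp trivial

/-- points on the line at infinity -/
theorem on_inf {K : Type u} [Field K] {Z : Pl K} (f : Z.Fr) (x : Z.Pt)
    (h : Z.inc x (f.l inf)) : x = f.p inf ∨ ∃ y, x = slp f y := by
  obtain ⟨t, rfl⟩ := f.p.surjective x
  rcases t with ⟨a, b⟩ | y | ⟨⟩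
  · exact absurd ((f.hinc _ _).mpr h) (fun h => h)
  · exact Or.inr ⟨y, rfl⟩
  · exact Or.inl rfl

/-- lines on a slope point -/
theorem on_slp {K : Type u} [Field K] {Z : Pl K} (f : Z.Fr) (y : K) (l : Z.Ln)
    (h : Z.inc (slp f y) l) : l = f.l inf ∨ ∃ m, l = aff f y m := by
  obtain ⟨t, rfl⟩ := f.l.surjective l
  rcases t with ⟨z, m⟩ | a | ⟨⟩
  · have h1 : y = z := (f.hinc _ _).mpr h
    subst h1
    exact Or.inr ⟨m, rfl⟩
  · exact absurd ((f.hinc _ _).mpr h) (fun h => h)
  · exact Or.inl rfl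

theorem zero_line {K : Type u} [Field K] [Fintype K] {Z : Pl K} {k D : ℕ} {κ : Z.Pt → ℕ}
    {w : Z.Ln → ℕ} (hS : Sys Z k D κ w) {z : Z.Pt} {l m : Z.Ln} (hwl : w l = D)
    (hzl : Z.inc z l) (hκ : κ z = 0) (hzm : Z.inc z m) (hne : m ≠ l) : w m = 0 := by
  classical
  have h1 := hS.point z
  rw [hκ, mul_zero, add_zero] at h1
  have h2 : ∑ n ∈ ({m, l} : Finset Z.Ln), (if Z.inc z n then w n else 0) ≤ Z.ps w z := by
    unfold Pl.ps
    have h3 : ∀ n : Z.Ln, (if Z.inc z n then w n else 0) =
        @ite ℕ (Z.inc z n) (Classical.propDecidable _) (w n) 0 := by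
      intro n
      by_cases hn : Z.inc z n
      · simp [hn]
      · simp [hn]
    rw [Finset.sum_congr rfl fun n _ => h3 n]
    exact Finset.sum_le_sum_of_subset (Finset.subset_univ _)
  rw [Finset.sum_pair hne, if_pos hzm, if_pos hzl, hwl, h1] at h2
  omega

end LD_

theorem ld_proof (h1 : Stmt_Rl.{u}) (h2 : Stmt_Rot.{u}) (_h3 : Stmt_Pln.{u}) : Stmt_Ld.{u} := by
  intro K _ _ p _ _ Z k D κ w hS hD hD2 x l l' hwl hxl hκx hxl' hne ν hν
  have key : ∀ (N : Finset Z.Pt) (M : Finset Z.Ln), (∀ y, y ∈ N ↔ Z.inc y l ∧ κ y = 0) →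
      (∀ m, m ∈ M ↔ Z.inc x m ∧ m ≠ l ∧ w m ≠ 0) →
      min N.card (Fintype.card K - 1) ≤ M.card * p ^ ν := by
    classical
    intro N M hN hM
    rcases N.eq_empty_or_nonempty with rfl | ⟨z, hz⟩
    · simp
    obtain ⟨hzl, hκz⟩ := (hN z).mp hz
    obtain ⟨f₀, hf₀p, hf₀l⟩ := Z.frame z l hzl
    have hx0 : ∃ y₀, x = slp f₀ y₀ := by
      rcases LD_.on_inf f₀ x (by rw [hf₀l]; exact hxl) with h | h
      · exact absurd (by rw [h, hf₀p]; exact hκz) hκx
      · exact h
    obtain ⟨y₀, hy₀⟩ := hx0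
    have hl'0 : ∃ m', l' = aff f₀ y₀ m' := by
      rcases LD_.on_slp f₀ y₀ l' (by rw [← hy₀]; exact hxl') with h | h
      · exact absurd (by rw [h, hf₀l]) hne
      · exact h
    obtain ⟨m', hm'⟩ := hl'0
    set T : Finset K := Finset.univ.filter fun m => w (aff f₀ y₀ m) ≠ 0 with hT
    have hw' : w (aff f₀ y₀ m') ≠ 0 := by
      rw [← hm']
      intro h0
      exact hν (h0 ▸ dvd_zero _)
    have hm'T : m' ∈ T := by
      rw [hT, Finset.mem_filter]
      exact ⟨Finset.mem_univ _, hw'⟩
    obtain ⟨m₁, hm₁T, hmin⟩ := T.exists_min_image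
      (fun m => padicValNat p (w (aff f₀ y₀ m))) ⟨m', hm'T⟩
    set e := padicValNat p (w (aff f₀ y₀ m₁)) with he
    have hw₁ : w (aff f₀ y₀ m₁) ≠ 0 := by
      rw [hT, Finset.mem_filter] at hm₁T
      exact hm₁T.2
    have heν : e ≤ ν := by
      refine le_trans (hmin m' hm'T) ?_
      by_contra hcon
      push Not at hcon
      apply hν
      rw [hm']
      exact (padicValNat_dvd_iff_le hw').mpr hcon
    have hdv : ∀ m, p ^ e ∣ w (aff f₀ y₀ m) := by
      intro m
      by_cases h0 : w (aff f₀ y₀ m) = 0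
      · rw [h0]; exact dvd_zero _
      · exact (padicValNat_dvd_iff_le h0).mpr (hmin m (by
          rw [hT, Finset.mem_filter]; exact ⟨Finset.mem_univ _, h0⟩))
    have hnd₁ : ¬ p ^ (e + 1) ∣ w (aff f₀ y₀ m₁) := by
      intro h
      have := (padicValNat_dvd_iff_le hw₁).mp h
      omega
    obtain ⟨f, hfa, hfl, hfp, -⟩ := (h2 K Z f₀).1 (m₁ - 1)
    have hfl' : f.l inf = l := by
      rw [← hf₀l]; exact hfl (Sum.inr ())
    have hfp' : f.p inf = z := by
      rw [← hf₀p]; exact hfp (Sum.inr ())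
    have hfx : x = slp f y₀ := by
      rw [hy₀]; exact (hfp (Sum.inl y₀)).symm
    have hf1 : aff f y₀ 1 = aff f₀ y₀ m₁ := by
      rw [hfa]; congr 1; ring
    obtain ⟨σ, hσ⟩ := h1 K Z k D κ w f hS
    by_contra hcon
    push Not at hcon
    set S : Finset K := Finset.univ.filter fun m => w (aff f y₀ m) ≠ 0 with hSdef
    have hSM : S.card ≤ M.card := by
      apply Finset.card_le_card_of_injOn (fun m => aff f y₀ m)
      · intro m hm
        have hm2 : w (aff f y₀ m) ≠ 0 := by
          have := Finset.mem_coe.mp hm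
          rw [hSdef, Finset.mem_filter] at this
          exact this.2
        refine Finset.mem_coe.mpr ((hM _).mpr ⟨?_, ?_, hm2⟩)
        · rw [hfx]; exact LD_.inc_slp_aff f y₀ m
        · rw [← hfl']; exact LD_.aff_ne_inf f y₀ m
      · intro m _ m' _ h
        exact LD_.aff_inj f y₀ m m' h
    have hle : S.card * p ^ e ≤ M.card * p ^ ν :=
      Nat.mul_le_mul hSM (Nat.pow_le_pow_right (Nat.Prime.pos Fact.out) heν)
    set Y : Finset K := Finset.univ.filter fun y => κ (slp f y) = 0 with hY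
    have hNY : N.card ≤ Y.card + 1 := by
      have hsub : N ⊆ insert z (Y.image fun y => slp f y) := by
        intro y' hy'
        obtain ⟨h4, h5⟩ := (hN y').mp hy'
        rcases LD_.on_inf f y' (by rw [hfl']; exact h4) with h | ⟨y, rfl⟩
        · rw [h, hfp']; exact Finset.mem_insert_self _ _
        · apply Finset.mem_insert_of_mem
          apply Finset.mem_image_of_mem
          rw [hY, Finset.mem_filter]
          exact ⟨Finset.mem_univ _, h5⟩
      calc N.card ≤ _ := Finset.card_le_card hsub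
        _ ≤ _ := Finset.card_insert_le _ _
        _ ≤ Y.card + 1 := by
          exact Nat.add_le_add_right Finset.card_image_le _
    have hG : Gpol f w = 1 := by
      unfold Gpol
      apply Finset.prod_eq_one
      intro a _
      rw [LD_.zero_line hS hwl hzl hκz (by rw [← hfp']; exact LD_.inc_inf_ver f a)
        (by rw [← hfl']; exact LD_.ver_ne_inf f a), pow_zero]
    have hF : ∀ y ∈ Y, Fpol f w y = 1 := by
      intro y hy
      rw [hY, Finset.mem_filter] at hy
      unfold Fpol
      apply Finset.prod_eq_one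
      intro m _
      rw [LD_.zero_line hS hwl (by rw [← hfl']; exact LD_.inc_slp_inf f y) hy.2
        (LD_.inc_slp_aff f y m) (by rw [← hfl']; exact LD_.aff_ne_inf f y m), pow_zero]
    have hcoef0 : ∀ i, 1 ≤ i → i ≤ S.card * p ^ e → (Fpol f w y₀).coeff i = 0 := by
      intro i hi1 hi2
      have hi3 : i < N.card := lt_of_le_of_lt (le_trans hi2 hle)
        (lt_of_lt_of_le hcon (min_le_left _ _))
      have hi4 : i < Fintype.card K - 1 := lt_of_le_of_lt (le_trans hi2 hle)
        (lt_of_lt_of_le hcon (min_le_right _ _))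
      obtain ⟨hd, hev, hco⟩ := hσ i (by omega)
      have hone : (1 : K[X]).coeff i = 0 := by
        rw [coeff_one, if_neg (by omega)]
      rw [hG, hone] at hco
      have hσ0 : σ i = 0 := by
        by_contra hne0
        have hlt : (σ i).natDegree < i := by
          refine lt_of_le_of_ne hd ?_
          intro heq
          apply hne0
          rw [← leadingCoeff_eq_zero, leadingCoeff, heq, hco]
        apply hne0
        apply eq_zero_of_natDegree_lt_card_of_eval_eq_zero' _ Y
        · intro y hy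
          rw [hev, hF y hy, hone]
        · omega
      rw [← hev, hσ0, eval_zero]
    have hFS : Fpol f w y₀ = ∏ m ∈ S, (1 - C m * X) ^ (p ^ e * (w (aff f y₀ m) / p ^ e)) := by
      unfold Fpol
      rw [← Finset.prod_subset (Finset.subset_univ S)]
      · refine Finset.prod_congr rfl fun m _ => ?_
        rw [Nat.mul_div_cancel' (by rw [hfa]; exact hdv _)]
      · intro m _ hm
        have h0 : w (aff f y₀ m) = 0 := by
          by_contra hne0
          exact hm (by rw [hSdef, Finset.mem_filter]; exact ⟨Finset.mem_univ _, hne0⟩)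
        rw [h0, pow_zero]
    refine LD_.core K p S (fun m => w (aff f y₀ m) / p ^ e) ?_ 1 ?_ one_ne_zero ?_ e ?_
    · intro m hm
      have h0 : w (aff f y₀ m) ≠ 0 := by
        rw [hSdef, Finset.mem_filter] at hm
        exact hm.2
      have hd : p ^ e ∣ w (aff f y₀ m) := by rw [hfa]; exact hdv _
      intro h
      apply h0
      rw [← Nat.mul_div_cancel' hd, h, mul_zero]
    · rw [hSdef, Finset.mem_filter, hf1]
      exact ⟨Finset.mem_univ _, hw₁⟩
    · intro h
      apply hnd₁
      rw [← hf1]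
      obtain ⟨c, hc⟩ := h
      refine ⟨c, ?_⟩
      have hd : p ^ e ∣ w (aff f y₀ 1) := by rw [hfa]; exact hdv _
      rw [← Nat.mul_div_cancel' hd, hc, pow_succ]
      ring
    · intro i hi1 hi2
      rw [← hFS]
      exact hcoef0 i hi1 hi2
  exact key _ _ (fun y => by simp) (fun m => by simp)

end

end Pool.Agent.CLH
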