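import Pool.Agent.CLH.Stmts

/-!
# CLH module LDL: no double and no triple points in characteristic three
-/

set_option autoImplicit false

open scoped BigOperators Polynomial
open Module Polynomial

namespace Pool.Agent.CLH

universe u

noncomputable section

namespace LDL_

variable {K : Type u} [Field K] (Z : Pl K)

theorem ps_mono (g g' : Z.Ln → ℕ) (x : Z.Pt) (h : ∀ m, Z.inc x m → g m ≤ g' m) :
    Z.ps g x ≤ Z.ps g' x := by
  unfold Pl.ps
  refine Finset.sum_le_sum fun m _ => ?_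
  split_ifs with hm
  · exact h m hm
  · exact le_refl _

theorem ps_add (g g' : Z.Ln → ℕ) (x : Z.Pt) :
    Z.ps (fun m => g m + g' m) x = Z.ps g x + Z.ps g' x := by
  unfold Pl.ps
  rw [← Finset.sum_add_distrib]
  refine Finset.sum_congr rfl fun m _ => ?_
  split_ifs
  · rfl
  · rfl

theorem ps_mul (a : ℕ) (g : Z.Ln → ℕ) (x : Z.Pt) :
    Z.ps (fun m => a * g m) x = a * Z.ps g x := by
  unfold Pl.ps
  rw [Finset.mul_sum]
  refine Finset.sum_congr rfl fun m _ => ?_
  split_ifs
  · rfl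
  · rw [mul_zero]

theorem ls_mono (g g' : Z.Pt → ℕ) (l : Z.Ln) (h : ∀ y, Z.inc y l → g y ≤ g' y) :
    Z.ls g l ≤ Z.ls g' l := by
  unfold Pl.ls
  refine Finset.sum_le_sum fun m _ => ?_
  split_ifs with hm
  · exact h m hm
  · exact le_refl _

theorem ls_add (g g' : Z.Pt → ℕ) (l : Z.Ln) :
    Z.ls (fun y => g y + g' y) l = Z.ls g l + Z.ls g' l := by
  unfold Pl.ls
  rw [← Finset.sum_add_distrib]
  refine Finset.sum_congr rfl fun m _ => ?_
  split_ifs
  · rfl
  · rfl

theorem ls_mul (a : ℕ) (g : Z.Pt → ℕ) (l : Z.Ln) :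
    Z.ls (fun y => a * g y) l = a * Z.ls g l := by
  unfold Pl.ls
  rw [Finset.mul_sum]
  refine Finset.sum_congr rfl fun m _ => ?_
  split_ifs
  · rfl
  · rw [mul_zero]

theorem zero_of_ls (s : Z.Pt → ℕ) (l : Z.Ln) (h : Z.ls s l = 0) (y : Z.Pt)
    (hy : Z.inc y l) : s y = 0 := by
  unfold Pl.ls at h
  have := (Finset.sum_eq_zero_iff.mp h) y (Finset.mem_univ _)
  rw [if_pos hy] at this
  exact this

theorem le_ps (g : Z.Ln → ℕ) (x : Z.Pt) (l : Z.Ln) (h : Z.inc x l) : g l ≤ Z.ps g x := by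
  classical
  unfold Pl.ps
  have h1 := Finset.single_le_sum (s := Finset.univ)
    (f := fun m : Z.Ln => @ite ℕ (Z.inc x m) (Classical.propDecidable _) (g m) 0)
    (fun _ _ => Nat.zero_le _) (Finset.mem_univ l)
  simp only [h, if_true] at h1
  exact h1

/-- the cardinality of a set of lines through `x` -/
theorem card_le_ps (g : Z.Ln → ℕ) (x : Z.Pt) (A : Finset Z.Ln)
    (hA : ∀ m ∈ A, Z.inc x m ∧ 1 ≤ g m) : A.card ≤ Z.ps g x := by
  classical
  unfold Pl.ps
  rw [Finset.card_eq_sum_ones]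
  calc ∑ _m ∈ A, 1 ≤ ∑ m ∈ A, @ite ℕ (Z.inc x m) (Classical.propDecidable _) (g m) 0 := by
        refine Finset.sum_le_sum fun m hm => ?_
        rw [if_pos (hA m hm).1]
        exact (hA m hm).2
    _ ≤ _ := Finset.sum_le_sum_of_subset (Finset.subset_univ _)

theorem ls_le_card (g : Z.Pt → ℕ) (l : Z.Ln) (N : Finset Z.Pt)
    (hN : ∀ y, Z.inc y l → g y ≤ 1 ∧ (g y ≠ 0 → y ∈ N)) : Z.ls g l ≤ N.card := by
  classical
  unfold Pl.ls
  rw [Finset.card_eq_sum_ones, ← Finset.sum_subset (Finset.subset_univ N)]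
  · refine Finset.sum_le_sum fun y _ => ?_
    split_ifs with h
    · exact (hN y h).1
    · exact Nat.zero_le _
  · intro y _ hy
    split_ifs with h
    · by_contra hne
      exact hy ((hN y h).2 hne)
    · rfl

theorem two_lines (s : Z.Pt → ℕ) (x : Z.Pt) (h : 2 ≤ tt Z s x) :
    ∃ l l' : Z.Ln, Z.inc x l ∧ Z.inc x l' ∧ l' ≠ l ∧ Z.ls s l = 0 ∧ Z.ls s l' = 0 := by
  classical
  have h1 : tt Z s x = (Finset.univ.filter fun m : Z.Ln => Z.inc x m ∧ Z.ls s m = 0).card := by
    unfold tt Pl.ps ext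
    rw [Finset.card_filter]
    refine Finset.sum_congr rfl fun m _ => ?_
    by_cases h1 : Z.inc x m
    · by_cases h2 : Z.ls s m = 0
      · simp [h1, h2]
      · simp [h1, h2]
    · simp [h1]
  rw [h1] at h
  obtain ⟨l, hl, l', hl', hne⟩ := Finset.one_lt_card.mp h
  rw [Finset.mem_filter] at hl hl'
  exact ⟨l, l', hl.2.1, hl'.2.1, hne.symm, hl.2.2, hl'.2.2⟩

end LDL_

theorem ldl_proof (h1 : Stmt_Ld.{u}) (h2 : Stmt_Lsys.{u}) (h3 : Stmt_Pln.{u}) :
    Stmt_Ldl.{u} := by
  intro K _ _ _ h hq hh Z D s hloc htau hDlow hDup hfat x hx2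
  have : Fact (Nat.Prime 3) := ⟨Nat.prime_three⟩
  obtain ⟨htau2, hst, hS⟩ := h2 K Z D s hloc
  obtain ⟨l, l', hxl, hxl', hne, hl, hl'⟩ := LDL_.two_lines Z s x hx2
  obtain ⟨hls1, -, -, -, -, -, hlsps, -⟩ := h3 K Z
  obtain ⟨c, hc⟩ : ∃ c, c = 3 ^ (h - 3) := ⟨_, rfl⟩
  have hc3 : 3 ≤ c := by
    rw [hc]
    calc 3 = 3 ^ 1 := rfl
      _ ≤ 3 ^ (h - 3) := Nat.pow_le_pow_right (by norm_num) (by omega)
  have e2 : 3 ^ (h - 2) = 3 * c := by
    rw [hc, ← pow_succ']; congr 1; omega
  have e1 : 3 ^ (h - 1) = 9 * c := by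
    have : 3 ^ (h - 1) = 3 * 3 ^ (h - 2) := by rw [← pow_succ']; congr 1; omega
    rw [this, e2]; ring
  have e0 : 3 ^ h = 27 * c := by
    have : 3 ^ h = 3 * 3 ^ (h - 1) := by rw [← pow_succ']; congr 1; omega
    rw [this, e1]; ring
  rw [e0] at hq hDlow
  rw [e1] at htau
  rw [e2] at hDup
  have hwl : wp Z D s l = D := by unfold wp; rw [if_pos hl]
  have hwl' : wp Z D s l' = D := by unfold wp; rw [if_pos hl']
  have hsx : s x = 0 := LDL_.zero_of_ls Z s l hl x hxl
  have hkx : kap Z s x = 2 * tt Z s x - 2 := by unfold kap; rw [hsx, zero_add]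
  by_contra hcon
  push Not at hcon
  have hnd : ¬ 3 ^ (h - 3 + 1) ∣ wp Z D s l' := by
    have : h - 3 + 1 = h - 2 := by omega
    rw [this, e2, hwl']
    rintro ⟨a, ha⟩
    have h5 : a < 5 := by
      by_contra h6
      push Not at h6
      have : 3 * c * 5 ≤ 3 * c * a := Nat.mul_le_mul_left _ h6
      omega
    interval_cases a <;> omega
  have key := h1 K 3 Z (2 * tau Z s - 2 - D) D (kap Z s) (wp Z D s) hS hloc.pos hloc.small
    x l l' hwl hxl (by rw [hkx]; omega) hxl' hne (h - 3) hnd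
  rw [← hc] at key
  -- the left side
  have hN : ∀ N : Finset Z.Pt, (∀ y, y ∈ N ↔ Z.inc y l ∧ kap Z s y = 0) →
      Fintype.card K + 2 ≤ tau Z s + N.card := by
    classical
    intro N hN
    have h4 : Z.ls (tt Z s) l = Fintype.card K + tau Z s := by
      have := hlsps (ext Z s) l
      have h5 : ext Z s l = 1 := by unfold ext; rw [if_pos hl]
      rw [h5, mul_one] at this
      exact this
    have h5 : Z.ls (fun _ => 2) l ≤ Z.ls (fun y => tt Z s y + if y ∈ N then 1 else 0) l := by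
      apply LDL_.ls_mono
      intro y hy
      have h6 : s y = 0 := LDL_.zero_of_ls Z s l hl y hy
      have h7 := hst y
      rw [h6] at h7
      by_cases h8 : y ∈ N
      · rw [if_pos h8]; omega
      · rw [if_neg h8]
        have h9 : kap Z s y ≠ 0 := fun h0 => h8 ((hN y).mpr ⟨hy, h0⟩)
        unfold kap at h9
        omega
    rw [LDL_.ls_add, h4] at h5
    have h6 : Z.ls (fun y => if y ∈ N then 1 else 0) l ≤ N.card := by
      apply LDL_.ls_le_card
      intro y _
      constructor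
      · split_ifs <;> omega
      · intro h
        by_contra h8
        rw [if_neg h8] at h
        exact h rfl
    have h7 : Z.ls (fun _ => 2) l = 2 * (Fintype.card K + 1) := by
      rw [← hls1 l, ← LDL_.ls_mul]
    omega
  -- the right side
  set fat : Z.Ln → ℕ := fun m => if Z.ls s m ≠ 0 ∧ wp Z D s m ≠ 0 then 1 else 0 with hfatdef
  have hM : ∀ M : Finset Z.Ln, (∀ m, m ∈ M ↔ Z.inc x m ∧ m ≠ l ∧ wp Z D s m ≠ 0) →
      M.card + 1 ≤ tt Z s x + Z.ps fat x := by
    classical
    intro M hM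
    have h4 : l ∉ M := fun h => ((hM l).mp h).2.1 rfl
    rw [← Finset.card_insert_of_notMem h4]
    have h5 : tt Z s x + Z.ps fat x = Z.ps (fun m => ext Z s m + fat m) x := by
      rw [LDL_.ps_add]; rfl
    rw [h5]
    apply LDL_.card_le_ps
    intro m hm
    rcases Finset.mem_insert.mp hm with rfl | hm
    · refine ⟨hxl, ?_⟩
      unfold ext
      rw [if_pos hl]
      omega
    · obtain ⟨h6, _, h8⟩ := (hM m).mp hm
      refine ⟨h6, ?_⟩
      by_cases h9 : Z.ls s m = 0
      · unfold ext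
        rw [if_pos h9]; omega
      · have : fat m = 1 := by
          rw [hfatdef]; simp only; rw [if_pos ⟨h9, h8⟩]
        omega
  have hw : D * tt Z s x + 6 * c * Z.ps fat x ≤
      D + Fintype.card K * (2 * tt Z s x - 2) := by
    rw [← hkx, ← hS.point x]
    have h4 : D * tt Z s x + 6 * c * Z.ps fat x =
        Z.ps (fun m => D * ext Z s m + 6 * c * fat m) x := by
      rw [LDL_.ps_add Z (fun m => D * ext Z s m) (fun m => 6 * c * fat m),
        LDL_.ps_mul, LDL_.ps_mul]
      rfl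
    rw [h4]
    apply LDL_.ps_mono
    intro m _
    by_cases h9 : Z.ls s m = 0
    · have h10 : ext Z s m = 1 := by unfold ext; rw [if_pos h9]
      have h11 : fat m = 0 := by
        rw [hfatdef]; simp only; rw [if_neg (fun h => h.1 h9)]
      have h12 : wp Z D s m = D := by unfold wp; rw [if_pos h9]
      rw [h10, h11, h12]; omega
    · have h10 : ext Z s m = 0 := by unfold ext; rw [if_neg h9]
      rw [h10]
      by_cases h13 : wp Z D s m = 0
      · have h11 : fat m = 0 := by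
          rw [hfatdef]; simp only; rw [if_neg (fun h => h.2 h13)]
        rw [h11]; omega
      · have h11 : fat m = 1 := by
          rw [hfatdef]; simp only; rw [if_pos ⟨h9, h13⟩]
        have h14 := hfat m h9 h13
        rw [e2] at h14
        rw [h11]; omega
  have fin : ∀ (N : Finset Z.Pt) (M : Finset Z.Ln), (∀ y, y ∈ N ↔ Z.inc y l ∧ kap Z s y = 0) →
      (∀ m, m ∈ M ↔ Z.inc x m ∧ m ≠ l ∧ wp Z D s m ≠ 0) →
      min N.card (Fintype.card K - 1) ≤ M.card * c → False := by
    intro N M hN' hM' hk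
    have hNk := hN N hN'
    have hMk := hM M hM'
    rw [hq] at hNk hw hk
    obtain ⟨t, ht⟩ : ∃ t, t = tt Z s x := ⟨_, rfl⟩
    obtain ⟨F, hF⟩ : ∃ F, F = Z.ps fat x := ⟨_, rfl⟩
    rw [← ht] at hx2 hcon hMk hw
    rw [← hF] at hMk hw
    have hF13 : F ≤ 13 ∧ (t = 2 → F ≤ 6) := by
      constructor
      · by_contra h6
        push Not at h6
        have h7 : 6 * c * 14 ≤ 6 * c * F := Nat.mul_le_mul_left _ h6
        interval_cases t <;> omega
      · intro h2t
        by_contra h6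
        push Not at h6
        have h7 : 6 * c * 7 ≤ 6 * c * F := Nat.mul_le_mul_left _ h6
        subst h2t
        omega
    have hM15 : M.card ≤ 15 := by
      have := hF13.1
      omega
    have h8 : M.card * c ≤ 15 * c := Nat.mul_le_mul_right _ hM15
    have h9 := le_trans hk h8
    rcases min_le_iff.mp h9 with h10 | h10
    · omega
    · omega
  exact fin _ _ (fun y => by simp) (fun m => by simp) key

end

end Pool.Agent.CLH
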