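import Pool.Agent.CLH.Stmts

set_option autoImplicit false

open scoped BigOperators Polynomial
open Module Polynomial

namespace Pool.Agent.CLH

universe u

noncomputable section

namespace LEMR_

variable {K : Type u} [Field K]

lemma ps_slp [Fintype K] {Z : Pl K} (f : Z.Fr) (g : Z.Ln → ℕ) (y : K) :
    Z.ps g (slp f y) = ∑ m : K, g (aff f y m) + g (f.l inf) := by
  classical
  unfold Pl.ps
  rw [← Equiv.sum_comp f.l, Fintype.sum_sum_type, Fintype.sum_sum_type, Fintype.sum_prod_type]
  have h1 : ∀ t, (Z.inc (slp f y) (f.l t) ↔ sinc (Sum.inr (Sum.inl y)) t) := by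
    intro t
    exact (f.hinc _ _).symm
  have e1 : ∀ a b : K, (if Z.inc (slp f y) (f.l (Sum.inl (a, b))) then g (f.l (Sum.inl (a, b)))
      else 0) = if y = a then g (aff f a b) else 0 := by
    intro a b
    by_cases h : y = a
    · rw [if_pos h, if_pos]
      · rfl
      · rw [h1]
        exact h
    · rw [if_neg h, if_neg]
      rw [h1]
      exact h
  have e2 : ∀ a : K, (if Z.inc (slp f y) (f.l (Sum.inr (Sum.inl a))) then
      g (f.l (Sum.inr (Sum.inl a))) else 0) = 0 := by
    intro a
    rw [if_neg]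
    rw [h1]
    exact fun h => h
  have e3 : ∀ a : Unit, (if Z.inc (slp f y) (f.l (Sum.inr (Sum.inr a))) then
      g (f.l (Sum.inr (Sum.inr a))) else 0) = g (f.l inf) := by
    intro a
    rw [if_pos]
    · rfl
    · rw [h1]
      exact True.intro
  rw [Finset.sum_congr rfl (fun a _ => Finset.sum_congr rfl (fun b _ => e1 a b)),
    Finset.sum_congr rfl (fun a _ => e2 a), Finset.sum_congr rfl (fun a _ => e3 a)]
  rw [Finset.sum_eq_single y]
  · simp
  · intro b _ hb
    apply Finset.sum_eq_zero
    intro c _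
    rw [if_neg (Ne.symm hb)]
  · intro h
    exact absurd (Finset.mem_univ y) h

lemma ls_inf [Fintype K] {Z : Pl K} (f : Z.Fr) (g : Z.Pt → ℕ) :
    Z.ls g (f.l inf) = ∑ y : K, g (slp f y) + g (f.p inf) := by
  classical
  unfold Pl.ls
  rw [← Equiv.sum_comp f.p, Fintype.sum_sum_type, Fintype.sum_sum_type]
  have h1 : ∀ t, (Z.inc (f.p t) (f.l inf) ↔ sinc t inf) := by
    intro t
    exact (f.hinc _ _).symm
  have e1 : ∀ a : K × K, (if Z.inc (f.p (Sum.inl a)) (f.l inf) then g (f.p (Sum.inl a))
      else 0) = 0 := by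
    intro a
    rw [if_neg]
    rw [h1]
    exact fun h => h
  have e2 : ∀ a : K, (if Z.inc (f.p (Sum.inr (Sum.inl a))) (f.l inf) then
      g (f.p (Sum.inr (Sum.inl a))) else 0) = g (slp f a) := by
    intro a
    rw [if_pos]
    · rfl
    · rw [h1]
      exact True.intro
  have e3 : ∀ a : Unit, (if Z.inc (f.p (Sum.inr (Sum.inr a))) (f.l inf) then
      g (f.p (Sum.inr (Sum.inr a))) else 0) = g (f.p inf) := by
    intro a
    rw [if_pos]
    · rfl
    · rw [h1]
      exact True.intro
  rw [Finset.sum_congr rfl (fun a _ => e1 a),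
    Finset.sum_congr rfl (fun a _ => e2 a), Finset.sum_congr rfl (fun a _ => e3 a)]
  simp

/-- The degree of a product. -/
lemma natDegree_one_sub (s : Finset K) (e : K → ℕ) :
    (∏ m ∈ s, (1 - C m * X : K[X]) ^ e m).natDegree ≤ ∑ m ∈ s, e m := by
  refine (natDegree_prod_le s _).trans (Finset.sum_le_sum ?_)
  intro m _
  refine natDegree_pow_le.trans ?_
  have h : (1 - C m * X : K[X]).natDegree ≤ 1 := by
    refine (natDegree_sub_le _ _).trans ?_
    simp only [natDegree_one, zero_le, sup_of_le_right]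
    refine (natDegree_C_mul_le _ _).trans ?_
    exact natDegree_X_le
  calc e m * (1 - C m * X : K[X]).natDegree ≤ e m * 1 := Nat.mul_le_mul_left _ h
    _ = e m := mul_one _

lemma reflect_one_X (m : K) : reflect 1 (X - C m : K[X]) = 1 - C m * X := by
  ext n
  rw [coeff_reflect]
  rcases Nat.lt_or_ge 1 n with h | h
  · rw [revAt_eq_self_of_lt h]
    simp only [coeff_sub, coeff_X, coeff_C, coeff_one, coeff_C_mul]
    rw [if_neg (by omega), if_neg (by omega), if_neg (by omega)]
    simp
  · rw [revAt_le h]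
    interval_cases n
    · simp [coeff_X, coeff_one, coeff_C]
    · simp [coeff_X, coeff_one, coeff_C]

lemma natDegree_X_sub (s : Finset K) (e : K → ℕ) :
    (∏ m ∈ s, (X - C m : K[X]) ^ e m).natDegree = ∑ m ∈ s, e m := by
  rw [natDegree_prod_of_monic]
  · apply Finset.sum_congr rfl
    intro m _
    rw [natDegree_pow, natDegree_X_sub_C, mul_one]
  · intro m _
    exact (monic_X_sub_C m).pow _

lemma reflect_pow (m : K) (n : ℕ) : reflect n ((X - C m : K[X]) ^ n) = (1 - C m * X) ^ n := by
  induction n with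
  | zero => simp
  | succ n ih =>
    rw [pow_succ, reflect_mul _ _ (F := n) (G := 1), ih, reflect_one_X, pow_succ]
    · refine natDegree_pow_le.trans ?_
      rw [natDegree_X_sub_C, mul_one]
    · rw [natDegree_X_sub_C]

lemma reflect_prod (s : Finset K) (e : K → ℕ) :
    reflect (∑ m ∈ s, e m) (∏ m ∈ s, (X - C m : K[X]) ^ e m) =
      ∏ m ∈ s, (1 - C m * X : K[X]) ^ e m := by
  classical
  induction s using Finset.induction_on with
  | empty => simp
  | insert a s ha ih =>
    rw [Finset.sum_insert ha, Finset.prod_insert ha, Finset.prod_insert ha,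
      reflect_mul _ _ (F := e a) (G := ∑ m ∈ s, e m), ih, reflect_pow]
    · refine natDegree_pow_le.trans ?_
      rw [natDegree_X_sub_C, mul_one]
    · rw [natDegree_X_sub]

lemma coeff_rev (s : Finset K) (e : K → ℕ) (i : ℕ) (hi : i ≤ ∑ m ∈ s, e m) :
    (∏ m ∈ s, (X - C m : K[X]) ^ e m).coeff (∑ m ∈ s, e m - i) =
      (∏ m ∈ s, (1 - C m * X : K[X]) ^ e m).coeff i := by
  rw [← reflect_prod s e, coeff_reflect, revAt_le hi]

/-- The power `q` of a linear polynomial. -/
lemma X_pow_q [Fintype K] (m : K) :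
    (X : K[X]) ^ Fintype.card K = (X - C m) ^ Fintype.card K + C m := by
  obtain ⟨p, hp⟩ := CharP.exists K
  obtain ⟨n, hpr, hn⟩ := FiniteField.card K p
  haveI : Fact p.Prime := ⟨hpr⟩
  have h : (X - C m : K[X]) ^ Fintype.card K = X ^ Fintype.card K - C m := by
    rw [hn, sub_pow_char_pow, ← hn, ← C_pow, FiniteField.pow_card]
  rw [h]
  ring

/-- The polynomial argument. -/
lemma poly [Fintype K] (e : K → ℕ) (D k : ℕ) (hk : 1 ≤ k)
    (hsum : ∑ m : K, e m = D + Fintype.card K)
    (hco : ∀ i, D < i → i + k < Fintype.card K →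
      (∏ m : K, (1 - C m * X : K[X]) ^ e m).coeff i = 0)
    (m : K) (hm : D + k < e m) : Fintype.card K ≤ e m := by
  classical
  by_contra hlt
  rw [not_le] at hlt
  set q := Fintype.card K with hq
  set P : K[X] := ∏ m : K, (X - C m : K[X]) ^ e m with hP
  have hPdeg : P.natDegree = D + q := by
    rw [hP, natDegree_X_sub, hsum]
  have hmon : (X ^ q : K[X]).Monic := monic_X_pow q
  have hdiv : P %ₘ (X ^ q) + X ^ q * (P /ₘ (X ^ q)) = P := modByMonic_add_div P (X ^ q)
  set M0 := P %ₘ (X ^ q) with hM0
  set M1 := P /ₘ (X ^ q) with hM1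
  have hM1deg : M1.natDegree = D := by
    rw [hM1, natDegree_divByMonic P hmon, hPdeg, natDegree_X_pow]
    omega
  have hM0co : ∀ j, j < q → M0.coeff j = P.coeff j := by
    intro j hj
    have h1 : P.coeff j = (M0 + X ^ q * M1).coeff j := by rw [hdiv]
    rw [h1, coeff_add, coeff_X_pow_mul', if_neg (by omega), add_zero]
  have hM0lt : ∀ j, q ≤ j → M0.coeff j = 0 := by
    intro j hj
    apply coeff_eq_zero_of_degree_lt
    refine lt_of_lt_of_le (degree_modByMonic_lt P hmon) ?_
    rw [degree_X_pow]
    exact_mod_cast hj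
  have hM0deg : M0.natDegree ≤ D + k := by
    rw [natDegree_le_iff_coeff_eq_zero]
    intro j hj
    rcases Nat.lt_or_ge j q with h | h
    · rw [hM0co j h]
      have h1 := coeff_rev Finset.univ e (D + q - j) (by rw [hsum]; omega)
      rw [hsum] at h1
      have h2 : D + q - (D + q - j) = j := by omega
      rw [h2] at h1
      rw [hP, h1]
      apply hco
      · omega
      · omega
    · exact hM0lt j h
  have hPfac : P = (X - C m) ^ e m * ∏ m' ∈ Finset.univ.erase m, (X - C m' : K[X]) ^ e m' := by
    rw [hP, ← Finset.mul_prod_erase Finset.univ _ (Finset.mem_univ m)]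
  set R : K[X] := ∏ m' ∈ Finset.univ.erase m, (X - C m' : K[X]) ^ e m' with hR
  have hPeq : P = (X - C m) ^ q * M1 + (M0 + C m * M1) := by
    have h1 : P = M0 + X ^ q * M1 := hdiv.symm
    have h2 : (X : K[X]) ^ q = (X - C m) ^ q + C m := X_pow_q m
    rw [h2] at h1
    rw [h1]
    ring
  have hdvd : (X - C m) ^ e m ∣ M0 + C m * M1 := by
    have h1 : (X - C m) ^ e m ∣ P := ⟨R, hPfac⟩
    have h2 : (X - C m) ^ e m ∣ (X - C m) ^ q * M1 :=
      (pow_dvd_pow _ hlt.le).mul_right _
    rw [hPeq] at h1
    exact (dvd_add_right h2).1 h1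
  have hzero : M0 + C m * M1 = 0 := by
    apply eq_zero_of_dvd_of_natDegree_lt hdvd
    rw [natDegree_pow, natDegree_X_sub_C, mul_one]
    refine lt_of_le_of_lt (natDegree_add_le _ _) ?_
    refine max_lt (lt_of_le_of_lt hM0deg hm) ?_
    refine lt_of_le_of_lt (natDegree_C_mul_le _ _) ?_
    rw [hM1deg]
    omega
  have hfin : (X - C m) ^ (q - e m) ∣ R := by
    have h1 : (X - C m) ^ e m * R = (X - C m) ^ e m * ((X - C m) ^ (q - e m) * M1) := by
      rw [← hPfac, ← mul_assoc, ← pow_add]
      have h2 : e m + (q - e m) = q := by omega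
      rw [h2, hPeq, hzero, add_zero]
    have h3 : (X - C m : K[X]) ^ e m ≠ 0 := pow_ne_zero _ (X_sub_C_ne_zero m)
    exact ⟨M1, mul_left_cancel₀ h3 h1⟩
  have h4 : (X - C m) ∣ R := (dvd_pow_self _ (by omega)).trans hfin
  have h5 : R.eval m = 0 := by
    have := dvd_iff_isRoot.1 h4
    exact this
  rw [hR, eval_prod, Finset.prod_eq_zero_iff] at h5
  obtain ⟨m', hm', h6⟩ := h5
  rw [eval_pow, eval_sub, eval_X, eval_C] at h6
  have h7 : m - m' = 0 := by
    by_contra h8
    exact pow_ne_zero _ h8 h6
  have h8 : m' ≠ m := (Finset.mem_erase.1 hm').1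
  exact h8 (sub_eq_zero.1 h7).symm

end LEMR_

theorem lemr_proof (h1 : Stmt_Rl.{u}) (h2 : Stmt_Pln.{u}) : Stmt_Lemr.{u} := by
  classical
  intro K _ _ Z k D κ w hS hD hDq hkD l hl
  by_contra hlt
  rw [not_le] at hlt
  obtain ⟨p1, p2, -, -, -, -, -, -, -, -⟩ := h2 K Z
  set q := Fintype.card K with hq
  -- all points of the line have positive weight
  have c1 : ∀ x, Z.inc x l → 1 ≤ κ x := by
    intro x hx
    by_contra h
    have h0 : κ x = 0 := by omega
    have h3 : w l ≤ Z.ps w x := by
      unfold Pl.ps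
      have := Finset.single_le_sum (f := fun l' => if Z.inc x l' then w l' else 0)
        (fun i _ => Nat.zero_le _) (Finset.mem_univ l)
      simp only [if_pos hx] at this
      exact this
    have h4 := hS.point x
    rw [h0] at h4
    simp only [mul_zero, add_zero] at h4
    omega
  have hline := hS.line l
  -- a lower bound for the weight
  have c2 : q + 1 ≤ k + w l := by
    rw [← hline, ← p1 l]
    unfold Pl.ls
    apply Finset.sum_le_sum
    intro x _
    by_cases hx : Z.inc x l
    · rw [if_pos hx, if_pos hx]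
      exact c1 x hx
    · rw [if_neg hx, if_neg hx]
  -- a point of weight one
  have c3 : ∃ x, Z.inc x l ∧ κ x = 1 := by
    by_contra h
    push Not at h
    have h3 : 2 * (q + 1) ≤ Z.ls κ l := by
      rw [← p1 l]
      unfold Pl.ls
      rw [Finset.mul_sum]
      apply Finset.sum_le_sum
      intro x _
      by_cases hx : Z.inc x l
      · rw [if_pos hx, if_pos hx]
        have h4 := c1 x hx
        have h5 := h x hx
        show 2 * 1 ≤ κ x
        omega
      · rw [if_neg hx, if_neg hx, mul_zero]
    rw [hline] at h3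
    omega
  obtain ⟨x, hxl, hx1⟩ := c3
  have hpt := hS.point x
  rw [hx1, mul_one] at hpt
  -- a line of weight zero
  have c4 : ∃ l', Z.inc x l' ∧ w l' = 0 := by
    by_contra h
    push Not at h
    have h3 : (q + 1) + (w l - 1) ≤ Z.ps w x := by
      rw [← p2 x]
      have h4 : (w l - 1) = ∑ l' : Z.Ln, if l' = l then w l - 1 else 0 := by
        rw [Finset.sum_ite_eq' Finset.univ l (fun _ => w l - 1), if_pos (Finset.mem_univ l)]
      rw [h4]
      unfold Pl.ps
      rw [← Finset.sum_add_distrib]
      apply Finset.sum_le_sum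
      intro l' _
      by_cases hx : Z.inc x l'
      · rw [if_pos hx, if_pos hx]
        have h5 := h l' hx
        by_cases hll : l' = l
        · rw [if_pos hll, hll]
          show 1 + (w l - 1) ≤ w l
          omega
        · rw [if_neg hll]
          show 1 + 0 ≤ w l'
          omega
      · rw [if_neg hx, if_neg hx, if_neg]
        intro hll
        exact hx (hll ▸ hxl)
    omega
  obtain ⟨l', hxl', hl'⟩ := c4
  have hline' := hS.line l'
  rw [hl', add_zero] at hline'
  have hk1 : 1 ≤ k := by
    rw [← hline', ← hx1]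
    unfold Pl.ls
    have := Finset.single_le_sum (f := fun x => if Z.inc x l' then κ x else 0)
      (fun i _ => Nat.zero_le _) (Finset.mem_univ x)
    simp only [if_pos hxl'] at this
    exact this
  have c5 : ∃ z, Z.inc z l' ∧ κ z = 0 := by
    by_contra h
    push Not at h
    have h3 : (q + 1) ≤ Z.ls κ l' := by
      rw [← p1 l']
      unfold Pl.ls
      apply Finset.sum_le_sum
      intro x _
      by_cases hx : Z.inc x l'
      · rw [if_pos hx, if_pos hx]
        have h5 := h x hx
        show 1 ≤ κ x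
        omega
      · rw [if_neg hx, if_neg hx]
    rw [hline'] at h3
    omega
  obtain ⟨z, hzl', hz⟩ := c5
  obtain ⟨f, hfz, hfl⟩ := Z.frame z l' hzl'
  have c6 : ∃ y0, x = slp f y0 := by
    obtain ⟨s, hs⟩ := f.p.surjective x
    have h3 : sinc s inf := by
      rw [f.hinc, hs, hfl]
      exact hxl'
    rcases s with s | s | s
    · exact absurd h3 (fun h => h)
    · exact ⟨s, hs.symm⟩
    · exfalso
      have h4 : x = z := by
        rw [← hs, ← hfz]
        rfl
      rw [h4] at hx1
      omega
  obtain ⟨y0, hy0⟩ := c6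
  have c7 : ∃ m, l = aff f y0 m := by
    obtain ⟨t, ht⟩ := f.l.surjective l
    have h3 : sinc (Sum.inr (Sum.inl y0)) t := by
      rw [f.hinc, ht]
      have h4 : f.p (Sum.inr (Sum.inl y0)) = x := hy0.symm
      rw [h4]
      exact hxl
    rcases t with ⟨y, m⟩ | t | t
    · have h4 : y0 = y := h3
      refine ⟨m, ?_⟩
      rw [← ht, ← h4]
      rfl
    · exact absurd h3 (fun h => h)
    · exfalso
      have h4 : l = l' := by
        rw [← ht, ← hfl]
        rfl
      rw [h4, hl'] at hl
      omega
  obtain ⟨m, hm⟩ := c7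
  have hwinf : w (f.l inf) = 0 := by
    rw [hfl, hl']
  have hsum0 : ∑ m : K, w (aff f y0 m) = D + q := by
    have h3 := LEMR_.ps_slp f w y0
    rw [hwinf, add_zero, ← hy0, hpt] at h3
    exact h3.symm
  obtain ⟨σ, hσ⟩ := h1 K Z k D κ w f hS
  -- the slopes of weight zero
  set S : Finset K := Finset.univ.filter (fun y => κ (slp f y) = 0) with hSdef
  have hScard : q ≤ S.card + k := by
    have h3 := LEMR_.ls_inf f κ
    rw [hfl, hline', hfz, hz, add_zero] at h3
    have h4 : q = ∑ y : K, 1 := by
      simp [hq]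
    have h5 : S.card = ∑ y : K, if κ (slp f y) = 0 then 1 else 0 := by
      rw [hSdef, Finset.card_filter]
    rw [h5, h3, h4, ← Finset.sum_add_distrib]
    apply Finset.sum_le_sum
    intro y _
    by_cases hy : κ (slp f y) = 0
    · rw [if_pos hy]
      omega
    · rw [if_neg hy]
      omega
  have hdeg : ∀ y ∈ S, (Fpol f w y).natDegree ≤ D := by
    intro y hy
    have hy' : κ (slp f y) = 0 := by
      rw [hSdef, Finset.mem_filter] at hy
      exact hy.2
    have h3 := LEMR_.ps_slp f w y
    have h4 := hS.point (slp f y)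
    rw [hy', mul_zero, add_zero] at h4
    rw [h4, hwinf, add_zero] at h3
    rw [h3]
    exact LEMR_.natDegree_one_sub Finset.univ (fun m => w (aff f y m))
  have hco : ∀ i, D < i → i + k < q → (Fpol f w y0).coeff i = 0 := by
    intro i hi1 hi2
    obtain ⟨s1, s2, -⟩ := hσ i (by omega)
    have h3 : σ i = 0 := by
      apply eq_zero_of_natDegree_lt_card_of_eval_eq_zero' (σ i) S
      · intro y hy
        rw [s2 y]
        exact coeff_eq_zero_of_natDegree_lt (lt_of_le_of_lt (hdeg y hy) hi1)
      · omega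
    rw [← s2 y0, h3, eval_zero]
  have hfin := LEMR_.poly (fun m => w (aff f y0 m)) D k hk1 hsum0 hco m (by
    show D + k < w (aff f y0 m)
    rw [← hm]
    omega)
  have h9 : w (aff f y0 m) = w l := by rw [hm]
  simp only [h9] at hfin
  omega

end

end Pool.Agent.CLH
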