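import Pool.Agent.CLH.Stmts

set_option autoImplicit false

/-!
# CLH, module LOC: the external lines are concurrent
-/

open scoped BigOperators

namespace Pool.Agent.CLH

universe u

theorem loc_proof (h1 : Stmt_Lsys.{u}) (h2 : Stmt_Dig.{u}) (h3 : Stmt_Twow.{u})
    (h4 : Stmt_Rdu.{u}) (h5 : Stmt_Gcdd.{u}) (h6 : Stmt_Penc.{u}) (h7 : Stmt_Subf.{u})
    (h8 : Stmt_Num.{u}) (h9 : Stmt_Pln.{u}) : Stmt_Loc.{u} := by
  intro K _ _ p h _ _ hq hp hh Z D s hL hD hτ hdiv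
  by_contra hnc
  obtain ⟨hD2, -, hS⟩ := h1 K Z D s hL
  set q := Fintype.card K with hqq
  obtain ⟨g, rfl⟩ : ∃ g, h = g + 3 := ⟨h - 3, by omega⟩
  have e1 : g + 3 - 1 = g + 2 := by omega
  rw [e1] at hτ
  set Q := p ^ (g + 2) with hQ
  have hqQ : q = p * Q := by rw [hq, hQ]; ring
  have hp2 : p ^ 2 ≤ Q := Nat.pow_le_pow_right (by omega) (by omega)
  have hp9 : 9 ≤ Q := le_trans (by nlinarith) hp2
  -- `D > Q`
  have hDQ : Q < D := by
    by_contra hcon
    have h10 : D ≤ Q := by omega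
    have h11 : (p - 1) * D ≤ (p - 1) * Q := Nat.mul_le_mul_left _ h10
    obtain ⟨r, hr⟩ : ∃ r, p = r + 1 := ⟨p - 1, by omega⟩
    rw [hr] at h11 hD hp2
    have h12 : r + 1 - 1 = r := by omega
    rw [h12] at h11 hD
    have h13 : (r + 1) ^ (g + 3) = (r + 1) * Q := by rw [hQ, hr]; ring
    rw [h13] at hD
    have hr2 : 2 ≤ r := by omega
    nlinarith
  have hDQ2 : D + 2 ≤ 2 * Q := by omega
  have hq3 : 3 * Q ≤ q := by rw [hqQ]; exact Nat.mul_le_mul_right _ hp
  have hpos := hL.pos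
  have hsmall := hL.small
  have hk : 2 * (2 * tau Z s - 2 - D) + D < q + 1 := by omega
  -- two weights
  have hdig : ∀ x l, kap Z s x = 0 → Z.inc x l → wp Z D s l = 0 ∨ wp Z D s l = D := by
    apply h2 K p (g + 3) hq hp hh Z D s hL hD _ hnc
    rw [e1]; exact hτ
  have htw := h3 K Z _ D _ _ hS hpos hsmall hk hdig
  obtain ⟨k', κ', b, hk', hb, hS', hbT⟩ := h4 K Z _ D _ _ hS hpos hsmall hk htw
  obtain ⟨gg, t, k₁, κ₁, hDg, hk1, hS1, hx⟩ := h5 K p (g + 3) hq Z k' D κ' b hS' hb hpos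
    (by omega) (by omega)
  rcases Nat.eq_zero_or_pos t with ht | ht
  · subst ht
    rw [pow_zero] at hk1 hS1
    have hk0 : k₁ = 0 := by omega
    subst hk0
    have hb1 : (fun l => 1 * b l) = b := by funext l; rw [one_mul]
    rw [hb1] at hS1
    obtain ⟨R, hR⟩ := h6 K Z κ₁ b hS1 hb
    apply hnc
    refine ⟨R, fun l hl => hR l (hbT l ?_)⟩
    unfold wp
    rw [if_pos hl]
  · have htpos : 0 < p ^ t := Nat.pow_pos (by omega)
    have htd : p ^ t ∣ D := ⟨gg, by rw [hDg]; ring⟩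
    have hth : t < g + 2 := by
      by_contra hcon
      have h14 : Q ∣ D := (Nat.pow_dvd_pow p (by omega : g + 2 ≤ t)).trans htd
      obtain ⟨c, hc⟩ := h14
      have hc1 : c = 1 ∨ c = 0 ∨ 2 ≤ c := by omega
      rcases hc1 with hc1 | hc1 | hc1
      · subst hc1; omega
      · subst hc1; omega
      · have : Q * 2 ≤ Q * c := Nat.mul_le_mul_left _ hc1
        omega
    have hsub := h7 K p (g + 3) t hq hp ht (by omega) Z k₁ κ₁ b hS1 hb hk1 hx
    have hnum := h8 K p (g + 3) (g + 3 - t) hq (by omega) hsub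
    apply hdiv (g + 3 - t) hnum (by omega) (by omega)
    have e2 : g + 3 - (g + 3 - t) = t := by omega
    rw [e2]
    exact htd

end Pool.Agent.CLH
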