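import Pool.Agent.CLH.Stmts

set_option autoImplicit false

/-!
# CLH, module LOWP: a nonzero word of the plane has at least `q + 2` points
-/

open scoped BigOperators

namespace Pool.Agent.CLH

universe u

open Pool.Agent.Helper58.Cyl in
theorem lowp_proof : Stmt_Lowp.{u} := by
  intro K _ _ p F hF ⟨v₀, hv₀⟩
  classical
  have hne : v₀ ≠ 0 := hF.ne_zero hv₀
  have hq1 : 1 < Fintype.card K := Fintype.one_lt_card
  set q := Fintype.card K with hq
  set S : Submodule K (Fin 3 → K) := Submodule.span K {v₀} with hS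
  have hSc : Nat.card S = q := by
    rw [← Nat.card_congr (LinearEquiv.toSpanNonzeroSingleton K (Fin 3 → K) v₀ hne).toEquiv,
      Nat.card_eq_fintype_card]
  have hVc : Nat.card (Fin 3 → K) = q ^ 3 := by
    rw [Nat.card_eq_fintype_card, Fintype.card_fun, Fintype.card_fin]
  have hQc : Nat.card ((Fin 3 → K) ⧸ S) = q ^ 2 := by
    have h := Submodule.card_eq_card_quotient_mul_card S
    rw [hVc, hSc] at h
    have h0 : 0 < q := by omega
    have h1 : Nat.card ((Fin 3 → K) ⧸ S) * q = q ^ 2 * q := by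
      rw [← pow_succ]
      first
        | exact h.symm
        | (rw [mul_comm]; exact h.symm)
    exact Nat.eq_of_mul_eq_mul_right h0 h1
  haveI : Finite ((Fin 3 → K) ⧸ S) := Quotient.finite _
  set A : Set (Fin 3 → K) := {v | (∃ a : K, v = a • v₀) ∧ F v ≠ 0} with hA
  set B : Set (Fin 3 → K) := {v | v ∉ S ∧ F v ≠ 0} with hB
  have hAc : A.ncard = q - 1 := cnt_line hF hv₀
  have hBc : q ^ 2 - 1 ≤ B.ncard := by
    have h1 : ({0}ᶜ : Set ((Fin 3 → K) ⧸ S)) ⊆ (fun v => (Submodule.Quotient.mk v :
        (Fin 3 → K) ⧸ S)) '' B := by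
      intro x hx
      obtain ⟨w, rfl⟩ := Submodule.Quotient.mk_surjective S x
      obtain ⟨a, ha⟩ := hF.exists_ne hv₀ w
      have hav : a • v₀ ∈ S := Submodule.smul_mem _ _ (Submodule.mem_span_singleton_self v₀)
      refine ⟨w + a • v₀, ⟨?_, ha⟩, ?_⟩
      · intro hcon
        apply hx
        have h2 : w ∈ S := by
          have h3 := Submodule.sub_mem S hcon hav
          rwa [add_sub_cancel_right] at h3
        exact (Submodule.Quotient.mk_eq_zero S).2 h2
      · change Submodule.Quotient.mk (w + a • v₀) = Submodule.Quotient.mk w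
        rw [Submodule.Quotient.eq, add_sub_cancel_left]
        exact hav
    have h2 : ({0}ᶜ : Set ((Fin 3 → K) ⧸ S)).ncard = q ^ 2 - 1 := by
      have h3 := Set.ncard_add_ncard_compl ({0} : Set ((Fin 3 → K) ⧸ S))
      rw [hQc, Set.ncard_singleton] at h3
      omega
    rw [← h2]
    exact (Set.ncard_le_ncard h1 (Set.toFinite _)).trans (Set.ncard_image_le (Set.toFinite _))
  have htot : tot F = A.ncard + B.ncard := by
    rw [← Set.ncard_union_eq _ (Set.toFinite _) (Set.toFinite _)]
    · unfold tot cnt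
      congr 1
      ext v
      simp only [hA, hB, Set.mem_ofPred_eq, Set.mem_union, true_and]
      constructor
      · intro hv
        by_cases hvS : v ∈ S
        · obtain ⟨a, ha⟩ := Submodule.mem_span_singleton.1 hvS
          exact Or.inl ⟨⟨a, ha.symm⟩, hv⟩
        · exact Or.inr ⟨hvS, hv⟩
      · rintro (h | h)
        · exact h.2
        · exact h.2
    · rw [Set.disjoint_left]
      rintro v ⟨⟨a, rfl⟩, -⟩ ⟨h, -⟩
      exact h (Submodule.smul_mem _ _ (Submodule.mem_span_singleton_self v₀))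
  rw [htot, hAc]
  obtain ⟨m, hm⟩ : ∃ m, q = m + 1 := ⟨q - 1, by omega⟩
  have h5 : (q - 1) * (q + 2) + 1 = (q - 1) + q ^ 2 := by
    rw [hm]
    simp only [Nat.add_sub_cancel]
    ring
  omega

end Pool.Agent.CLH
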