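import Pool.Agent.CLH.Stmts

set_option autoImplicit false

/-!
# CLH, module LSYS: the local data give a system
-/

open scoped BigOperators
open Module

namespace Pool.Agent.CLH

universe u

namespace LSYS_

variable {K : Type u} [Field K]

theorem ls_add (Z : Pl K) (f g : Z.Pt → ℕ) (l : Z.Ln) :
    Z.ls (fun x => f x + g x) l = Z.ls f l + Z.ls g l := by
  unfold Pl.ls
  rw [← Finset.sum_add_distrib]
  refine Finset.sum_congr rfl fun x _ => ?_
  split_ifs <;> simp

theorem ls_mul (Z : Pl K) (c : ℕ) (f : Z.Pt → ℕ) (l : Z.Ln) :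
    Z.ls (fun x => c * f x) l = c * Z.ls f l := by
  unfold Pl.ls
  rw [Finset.mul_sum]
  refine Finset.sum_congr rfl fun x _ => ?_
  split_ifs <;> simp

theorem ps_add (Z : Pl K) (f g : Z.Ln → ℕ) (x : Z.Pt) :
    Z.ps (fun l => f l + g l) x = Z.ps f x + Z.ps g x := by
  unfold Pl.ps
  rw [← Finset.sum_add_distrib]
  refine Finset.sum_congr rfl fun x _ => ?_
  split_ifs <;> simp

theorem ps_mul (Z : Pl K) (c : ℕ) (f : Z.Ln → ℕ) (x : Z.Pt) :
    Z.ps (fun l => c * f l) x = c * Z.ps f x := by
  unfold Pl.ps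
  rw [Finset.mul_sum]
  refine Finset.sum_congr rfl fun x _ => ?_
  split_ifs <;> simp

theorem ps_mono (Z : Pl K) (f g : Z.Ln → ℕ) (x : Z.Pt) (h : ∀ l, Z.inc x l → f l ≤ g l) :
    Z.ps f x ≤ Z.ps g x := by
  unfold Pl.ps
  refine Finset.sum_le_sum fun l _ => ?_
  split_ifs with hl
  · exact h l hl
  · exact le_rfl

theorem le_ps (Z : Pl K) (f : Z.Ln → ℕ) (x : Z.Pt) (l : Z.Ln) (h : Z.inc x l) :
    f l ≤ Z.ps f x := by
  unfold Pl.ps
  classical
  have := Finset.single_le_sum (f := fun l => if Z.inc x l then f l else 0)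
    (fun l _ => Nat.zero_le _) (Finset.mem_univ l)
  simpa [h] using this

end LSYS_

open LSYS_ in
theorem lsys_proof (hP : Stmt_Pln.{u}) : Stmt_Lsys.{u} := by
  intro K _ _ Z D s hL
  obtain ⟨p1, p2, -, -, -, p6, p7, p8, p9, -⟩ := hP K Z
  have hone := hL.ne_one
  have hline := hL.line
  have htot := hL.tot
  have hsmall := hL.small
  set q := Fintype.card K with hq
  have hsq : q ^ 2 = q * q := sq q
  have hlt : ∀ l, Z.ls (tt Z s) l = q * ext Z s l + tau Z s := by
    intro l
    have := p7 (ext Z s) l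
    exact this
  have hst : ∑ x, tt Z s x = tau Z s * (q + 1) := by
    have := p8 (fun _ => 1) (ext Z s)
    simp only [p1, one_mul] at this
    unfold tt
    rw [← this]
    unfold tau
    rw [Finset.sum_mul]
  have hps : ∀ x, Z.ps (Z.ls s) x + q * D = q * s x + 2 * (q * q) := by
    intro x
    rw [p6 s x, ← hsq, ← htot]
    ring
  -- the point weights
  have c1 : ∀ x, 2 ≤ s x + 2 * tt Z s x := by
    intro x
    by_contra hcon
    have h1 := hone x
    have hs0 : s x = 0 := by omega
    have ht0 : tt Z s x = 0 := by omega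
    have h2 : Z.ps (fun _ => 2 * q * 1) x ≤ Z.ps (fun l => Z.ls s l + D * 1) x := by
      refine ps_mono Z _ _ x fun l hl => ?_
      have h3 : ext Z s l ≤ tt Z s x := le_ps Z _ x l hl
      have h4 : Z.ls s l ≠ 0 := by
        intro h0
        unfold ext at h3
        rw [if_pos h0] at h3
        omega
      rcases hline l with h5 | h5
      · exact absurd h5 h4
      · omega
    rw [ps_mul, ps_add, ps_mul, p2] at h2
    have h3 := hps x
    rw [hs0] at h3
    nlinarith
  have c2 : D + 2 ≤ 2 * tau Z s := by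
    have h1 : ∑ x : Z.Pt, 2 ≤ ∑ x, (s x + 2 * tt Z s x) := Finset.sum_le_sum fun x _ => c1 x
    rw [Finset.sum_const, smul_eq_mul, Finset.card_univ, p9, Finset.sum_add_distrib,
      ← Finset.mul_sum, hst] at h1
    by_contra hcon
    have h2 : 2 * tau Z s ≤ D + 1 := by omega
    have h3 : 2 * (tau Z s * (q + 1)) ≤ (D + 1) * (q + 1) := by
      rw [← mul_assoc]
      exact Nat.mul_le_mul_right _ h2
    nlinarith
  have hk : ∀ x, kap Z s x + 2 = s x + 2 * tt Z s x := by
    intro x
    have := c1 x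
    unfold kap
    omega
  have hw : ∀ l, wp Z D s l + 2 * q = Z.ls s l + (D * 1 + 2 * q * ext Z s l) := by
    intro l
    unfold wp ext
    by_cases h : Z.ls s l = 0
    · rw [if_pos h, if_pos h, h]
      omega
    · rw [if_neg h, if_neg h]
      rcases hline l with h5 | h5
      · exact absurd h5 h
      · omega
  refine ⟨c2, c1, ?_, ?_⟩
  · intro l
    have h1 : Z.ls (fun x => kap Z s x + 2 * 1) l = Z.ls (fun x => s x + 2 * tt Z s x) l := by
      congr 1
      funext x
      rw [← hk x]
    rw [ls_add, ls_mul, p1, ls_add, ls_mul, hlt] at h1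
    have h2 := hw l
    have h3 : 2 * q * ext Z s l = 2 * (q * ext Z s l) := by ring
    rw [h3] at h2
    omega
  · intro x
    have h1 : Z.ps (fun l => wp Z D s l + 2 * q * 1) x =
        Z.ps (fun l => Z.ls s l + (D * 1 + 2 * q * ext Z s l)) x := by
      congr 1
      funext l
      rw [← hw l]
      ring
    rw [ps_add, ps_mul, p2, ps_add, ps_add, ps_mul, ps_mul, p2] at h1
    have h2 := hps x
    have h3 := hk x
    have h4 : Z.ps (ext Z s) x = tt Z s x := rfl
    rw [h4] at h1
    have h5 : q * (kap Z s x + 2) = q * (s x + 2 * tt Z s x) := by rw [h3]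
    nlinarith

end Pool.Agent.CLH
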