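import Pool.Agent.CLH.Stmts

set_option autoImplicit false

/-!
# CLH, module MODQ: the weights modulo `q` are at most `D`
-/

open scoped BigOperators

namespace Pool.Agent.CLH

universe u

namespace Modq_

variable {K : Type u} [Field K]

theorem ls_add (Z : Pl K) (f g : Z.Pt → ℕ) (l : Z.Ln) :
    Z.ls (fun x => f x + g x) l = Z.ls f l + Z.ls g l := by
  classical
  unfold Pl.ls
  rw [← Finset.sum_add_distrib]
  apply Finset.sum_congr rfl
  intro x _
  by_cases h : Z.inc x l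
  · simp only [if_pos h]
  · simp only [if_neg h, add_zero]

theorem ps_add (Z : Pl K) (f g : Z.Ln → ℕ) (x : Z.Pt) :
    Z.ps (fun l => f l + g l) x = Z.ps f x + Z.ps g x := by
  classical
  unfold Pl.ps
  rw [← Finset.sum_add_distrib]
  apply Finset.sum_congr rfl
  intro l _
  by_cases h : Z.inc x l
  · simp only [if_pos h]
  · simp only [if_neg h, add_zero]

theorem ps_mul (Z : Pl K) (c : ℕ) (f : Z.Ln → ℕ) (x : Z.Pt) :
    Z.ps (fun l => c * f l) x = c * Z.ps f x := by
  classical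
  unfold Pl.ps
  rw [Finset.mul_sum]
  apply Finset.sum_congr rfl
  intro l _
  by_cases h : Z.inc x l
  · simp only [if_pos h]
  · simp only [if_neg h, mul_zero]

theorem le_ps (Z : Pl K) (f : Z.Ln → ℕ) (x : Z.Pt) (l : Z.Ln) (h : Z.inc x l) :
    f l ≤ Z.ps f x := by
  classical
  unfold Pl.ps
  have := Finset.single_le_sum (f := fun l => if Z.inc x l then f l else 0)
    (fun i _ => Nat.zero_le _) (Finset.mem_univ l)
  simp only [if_pos h] at this
  exact this

open Classical in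
/-- The indicator of a line. -/
noncomputable def dl (Z : Pl K) (l₀ : Z.Ln) (l : Z.Ln) : ℕ := if l = l₀ then 1 else 0

theorem sum_dl (Z : Pl K) (l₀ : Z.Ln) : ∑ l, dl Z l₀ l = 1 := by
  classical
  unfold dl
  simp

theorem ps_dl_of (Z : Pl K) (l₀ : Z.Ln) (x : Z.Pt) (h : Z.inc x l₀) : Z.ps (dl Z l₀) x = 1 := by
  classical
  unfold Pl.ps dl
  rw [Finset.sum_eq_single l₀]
  · rw [if_pos h, if_pos rfl]
  · intro l _ hl
    rw [if_neg hl]; simp
  · intro h; exact absurd (Finset.mem_univ _) h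

theorem ps_dl_not (Z : Pl K) (l₀ : Z.Ln) (x : Z.Pt) (h : ¬ Z.inc x l₀) :
    Z.ps (dl Z l₀) x = 0 := by
  classical
  unfold Pl.ps dl
  apply Finset.sum_eq_zero
  intro l _
  by_cases hl : l = l₀
  · subst hl; rw [if_neg h]
  · rw [if_neg hl]; simp

variable [Fintype K]

theorem step (hP : Stmt_Pln.{u}) (Z : Pl K) (k D : ℕ) (κ : Z.Pt → ℕ) (w : Z.Ln → ℕ)
    (hS : Sys Z k D κ w) (hD2 : D + 2 ≤ Fintype.card K) (l₀ : Z.Ln)
    (hw : Fintype.card K ≤ w l₀) :
    ∃ (k' : ℕ) (κ' : Z.Pt → ℕ) (w' : Z.Ln → ℕ), k = k' + 1 ∧ Sys Z k' D κ' w' ∧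
      w' l₀ + Fintype.card K = w l₀ := by
  classical
  obtain ⟨hl1, hp1, -, -, -, hpls, hlps, hdc, -, -⟩ := hP K Z
  set q := Fintype.card K with hq
  set δ := dl Z l₀ with hδ
  have hκ : ∀ x, Z.ps δ x ≤ κ x := by
    intro x
    by_cases hx : Z.inc x l₀
    · rw [hδ, ps_dl_of Z l₀ x hx]
      by_contra hcon
      have h0 : κ x = 0 := by omega
      have h1 := le_ps Z w x l₀ hx
      rw [hS.point, h0, mul_zero, add_zero] at h1
      omega
    · rw [hδ, ps_dl_not Z l₀ x hx]; exact Nat.zero_le _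
  have hwδ : ∀ l, q * δ l ≤ w l := by
    intro l
    by_cases hl : l = l₀
    · subst hl
      have : δ l = 1 := by rw [hδ]; unfold dl; rw [if_pos rfl]
      rw [this, mul_one]; exact hw
    · have : δ l = 0 := by rw [hδ]; unfold dl; rw [if_neg hl]
      rw [this, mul_zero]; exact Nat.zero_le _
  obtain ⟨κ', hκ'⟩ : ∃ κ' : Z.Pt → ℕ, ∀ x, κ x = κ' x + Z.ps δ x :=
    ⟨fun x => κ x - Z.ps δ x, fun x => by have := hκ x; simp only; omega⟩
  obtain ⟨w', hw'⟩ : ∃ w' : Z.Ln → ℕ, ∀ l, w l = w' l + q * δ l :=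
    ⟨fun l => w l - q * δ l, fun l => by have := hwδ l; simp only; omega⟩
  have hκf : κ = fun x => κ' x + Z.ps δ x := funext hκ'
  have hwf : w = fun l => w' l + q * δ l := funext hw'
  have hsumδ : ∑ l, δ l = 1 := sum_dl Z l₀
  -- total weight
  obtain ⟨x₀, l₁, hx₀⟩ := Z.flag
  have htot : ∑ x, κ x = k * (q + 1) + D := by
    have h1 := hpls κ x₀
    have h2 : Z.ls κ = fun l => k * (fun _ => 1) l + w l := by
      funext l; rw [hS.line]; simp
    rw [h2, ps_add Z (fun l => k * (fun _ => 1) l) w, ps_mul Z k (fun _ => 1), hp1,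
      hS.point, ← hq] at h1
    omega
  have htot2 : q + 1 ≤ ∑ x, κ x := by
    have h3 := hdc (fun _ => 1) δ
    have h4 : ∑ l, δ l * Z.ls (fun _ => 1) l = q + 1 := by
      simp only [hl1]
      rw [← Finset.sum_mul, hsumδ, one_mul]
    rw [h4] at h3
    rw [h3]
    apply Finset.sum_le_sum
    intro x _
    rw [one_mul]; exact hκ x
  have hk : k ≠ 0 := by
    rintro rfl
    rw [htot] at htot2
    omega
  obtain ⟨k', rfl⟩ := Nat.exists_eq_succ_of_ne_zero hk
  refine ⟨k', κ', w', rfl, ⟨fun l => ?_, fun x => ?_⟩, ?_⟩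
  · have h5 := hS.line l
    rw [hκf, ls_add Z κ' (Z.ps δ), hlps, hsumδ, hw' l] at h5
    have h6 : (fun x => κ' x) = κ' := rfl
    omega
  · have h5 := hS.point x
    rw [hwf, ps_add Z w' (fun l => q * δ l), ps_mul Z q δ, hκ' x, Nat.mul_add, ← hq] at h5
    show Z.ps w' x = D + q * κ' x
    omega
  · have h7 := hw' l₀
    have h8 : δ l₀ = 1 := by rw [hδ]; unfold dl; rw [if_pos rfl]
    rw [h8, mul_one] at h7
    exact h7.symm

end Modq_

open Modq_ in
theorem modq_proof (h1 : Stmt_Lemr.{u}) (h2 : Stmt_Pln.{u}) : Stmt_Modq.{u} := by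
  intro K _ _ Z k
  induction k with
  | zero =>
    intro D κ w hS hD hD2 hk l
    by_cases hl : Fintype.card K ≤ w l
    · obtain ⟨k', κ', w', hk', -, -⟩ := step h2 Z 0 D κ w hS hD2 l hl
      omega
    · have h3 : w l ≤ D := by
        by_contra hcon
        exact hl (h1 K Z 0 D κ w hS hD hD2 hk l (by omega))
      rw [Nat.mod_eq_of_lt (by omega)]
      exact h3
  | succ k ih =>
    intro D κ w hS hD hD2 hk l
    by_cases hl : Fintype.card K ≤ w l
    · obtain ⟨k', κ', w', hk', hS', hw'⟩ := step h2 Z (k + 1) D κ w hS hD2 l hl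
      have hkk : k' = k := by omega
      subst hkk
      have h4 := ih D κ' w' hS' hD hD2 (by omega) l
      rw [← hw', Nat.add_mod_right]
      exact h4
    · have h3 : w l ≤ D := by
        by_contra hcon
        exact hl (h1 K Z (k + 1) D κ w hS hD hD2 hk l (by omega))
      rw [Nat.mod_eq_of_lt (by omega)]
      exact h3

end Pool.Agent.CLH
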