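import Pool.Agent.CLH.Stmts

set_option autoImplicit false
set_option linter.unusedSectionVars false

/-!
# CLH, module MOM: first moments (generalisation of `Cyl/Moment.lean`)
-/

namespace Pool.Agent.CLH

open Module
open Pool.Agent.Helper58.Cyl

universe u

/-- MOM. -/
theorem mom_proof : Stmt_Mom.{u} := by
  classical
  intro K _ _ p _ _ V _ _ G hq2 hG ψ hψ P e Q hP he j hj hpj
  let g : K → K → K := fun μ z => G (Q + μ • e + z • P)
  let M : K → K := fun μ => ∑ z : K, z * g μ z
  have fact2 : ∀ α β : K, ∑ μ : K, g μ (α + β * μ) = 0 := by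
    intro α β
    have := hG.line (e + β • P) (Q + α • P)
    rw [hψ (e + β • P) (by simp [he, hP]), zero_add] at this
    rw [← this]
    refine Finset.sum_congr rfl fun μ _ => ?_
    change G _ = G _
    congr 1
    module
  have fact3 : ∀ i : ℕ, 1 ≤ i → i ≤ Fintype.card K - 1 →
      (i : K) * ∑ μ : K, (-μ) ^ (i - 1) * M μ = 0 := by
    intro i hi1 hi2
    have hS : ∑ β : K, ∑ α : K, α ^ i * β ^ (Fintype.card K - i) * ∑ μ : K, g μ (α + β * μ)
        = 0 := by simp [fact2]
    have hS2 : ∑ β : K, ∑ α : K, α ^ i * β ^ (Fintype.card K - i) * ∑ μ : K, g μ (α + β * μ)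
        = ∑ μ : K, ∑ z : K, g μ z *
            ∑ β : K, (z - β * μ) ^ i * β ^ (Fintype.card K - i) := by
      calc ∑ β : K, ∑ α : K, α ^ i * β ^ (Fintype.card K - i) * ∑ μ : K, g μ (α + β * μ)
          = ∑ β : K, ∑ μ : K, ∑ α : K, α ^ i * β ^ (Fintype.card K - i) * g μ (α + β * μ) := by
            refine Finset.sum_congr rfl fun β _ => ?_
            rw [Finset.sum_comm]
            refine Finset.sum_congr rfl fun μ _ => ?_
            rw [Finset.mul_sum]
        _ = ∑ β : K, ∑ μ : K, ∑ z : K,
              (z - β * μ) ^ i * β ^ (Fintype.card K - i) * g μ z := by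
            refine Finset.sum_congr rfl fun β _ => Finset.sum_congr rfl fun μ _ => ?_
            refine Fintype.sum_equiv (Equiv.addRight (β * μ)) _ _ fun α => ?_
            simp
        _ = ∑ μ : K, ∑ β : K, ∑ z : K,
              (z - β * μ) ^ i * β ^ (Fintype.card K - i) * g μ z := Finset.sum_comm
        _ = ∑ μ : K, ∑ z : K, ∑ β : K,
              (z - β * μ) ^ i * β ^ (Fintype.card K - i) * g μ z := by
            refine Finset.sum_congr rfl fun μ _ => Finset.sum_comm
        _ = _ := by
            refine Finset.sum_congr rfl fun μ _ => Finset.sum_congr rfl fun z _ => ?_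
            rw [Finset.mul_sum]
            refine Finset.sum_congr rfl fun β _ => ?_
            ring
    rw [hS] at hS2
    simp only [sum_aux hq2 _ _ i hi1 hi2] at hS2
    have hS3 : ∑ μ : K, ∑ z : K, g μ z * -(i * (z * (-μ) ^ (i - 1)))
        = - ((i : K) * ∑ μ : K, (-μ) ^ (i - 1) * M μ) := by
      rw [Finset.mul_sum, ← Finset.sum_neg_distrib]
      refine Finset.sum_congr rfl fun μ _ => ?_
      simp only [M]
      rw [Finset.mul_sum, Finset.mul_sum, ← Finset.sum_neg_distrib]
      refine Finset.sum_congr rfl fun z _ => ?_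
      ring
    rw [hS3] at hS2
    exact neg_eq_zero.1 hS2.symm
  have h1 := fact3 (j + 1) (by omega) (by omega)
  have h2 : ((j + 1 : ℕ) : K) ≠ 0 := by
    intro h0
    exact hpj ((CharP.cast_eq_zero_iff K p _).1 h0)
  have h3 := (mul_eq_zero.1 h1).resolve_left h2
  rw [Nat.add_sub_cancel] at h3
  have h4 : ∑ μ : K, (-μ) ^ j * M μ = (-1) ^ j * ∑ t : K, t ^ j * M t := by
    rw [Finset.mul_sum]
    refine Finset.sum_congr rfl fun t _ => ?_
    rw [neg_pow]
    ring
  rw [h4] at h3
  exact (mul_eq_zero.1 h3).resolve_left (pow_ne_zero _ (neg_ne_zero.2 one_ne_zero))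

end Pool.Agent.CLH
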