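import Pool.Agent.CLH.Stmts

set_option autoImplicit false

/-!
# CLH, module NC: the non-concurrent case
-/

open scoped BigOperators
open Module

namespace Pool.Agent.CLH

universe u

namespace NC_

variable {K : Type u} [Field K]

theorem le_ls (Z : Pl K) (f : Z.Pt → ℕ) (x : Z.Pt) (l : Z.Ln) (h : Z.inc x l) :
    f x ≤ Z.ls f l := by
  unfold Pl.ls
  classical
  have := Finset.single_le_sum (f := fun x => if Z.inc x l then f x else 0)
    (fun l _ => Nat.zero_le _) (Finset.mem_univ x)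
  simpa [h] using this

theorem le_ps2 (Z : Pl K) (g : Z.Ln → ℕ) (x : Z.Pt) (l m : Z.Ln) (hlm : l ≠ m)
    (hl : Z.inc x l) (hm : Z.inc x m) : g l + g m ≤ Z.ps g x := by
  classical
  unfold Pl.ps
  have h1 : ∑ n ∈ ({l, m} : Finset Z.Ln), (if Z.inc x n then g n else 0) = g l + g m := by
    rw [Finset.sum_pair hlm, if_pos hl, if_pos hm]
  have h2 : ∑ n ∈ ({l, m} : Finset Z.Ln), (if Z.inc x n then g n else 0) ≤
      ∑ n, (if Z.inc x n then g n else 0) :=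
    Finset.sum_le_sum_of_subset (Finset.subset_univ _)
  rw [h1] at h2
  refine h2.trans (le_of_eq ?_)
  refine Finset.sum_congr rfl fun n _ => ?_
  split_ifs <;> rfl

theorem ls_lt (Z : Pl K) (f g : Z.Pt → ℕ) (l : Z.Ln) (h : Z.ls f l < Z.ls g l) :
    ∃ x, Z.inc x l ∧ f x < g x := by
  by_contra hcon
  push Not at hcon
  refine absurd h (not_lt.mpr ?_)
  unfold Pl.ls
  refine Finset.sum_le_sum fun x _ => ?_
  split_ifs with hx
  · exact hcon x hx
  · exact le_rfl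

theorem ls_mul (Z : Pl K) (c : ℕ) (f : Z.Pt → ℕ) (l : Z.Ln) :
    Z.ls (fun x => c * f x) l = c * Z.ls f l := by
  unfold Pl.ls
  rw [Finset.mul_sum]
  refine Finset.sum_congr rfl fun x _ => ?_
  split_ifs <;> simp

end NC_

open NC_ in
theorem nc_proof (h1 : Stmt_Pln.{u}) (h2 : Stmt_Lsys.{u}) : Stmt_Nc.{u} := by
  intro K _ _ Z D s hL hnc hτ
  obtain ⟨p1, p2, p3, p4, -, p6, p7, p8, p9, -⟩ := h1 K Z
  obtain ⟨c1, c2, hS⟩ := h2 K Z D s hL
  set q := Fintype.card K with hq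
  have hq2 : D + 2 ≤ q := hL.small
  have hT : ∀ R : Z.Pt, ∃ l, Z.ls s l = 0 ∧ ¬ Z.inc R l := by
    intro R
    by_contra hcon
    push Not at hcon
    exact hnc ⟨R, hcon⟩
  have hs0 : ∀ x l, Z.ls s l = 0 → Z.inc x l → s x = 0 := by
    intro x l hl hx
    have := le_ls Z s x l hx
    omega
  obtain ⟨R, l0, -⟩ := Z.flag
  obtain ⟨l₁, hl₁, -⟩ := hT R
  obtain ⟨P, hP, -⟩ := p4 l₁ l₁
  obtain ⟨l₂, hl₂, hP₂⟩ := hT P
  have hne : l₁ ≠ l₂ := by
    rintro rfl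
    exact hP₂ hP
  obtain ⟨x₀, hx₁, hx₂⟩ := p4 l₁ l₂
  obtain ⟨l₃, hl₃, hx₃⟩ := hT x₀
  have he : ∀ l, Z.ls s l = 0 → ext Z s l = 1 := by
    intro l hl
    unfold ext
    rw [if_pos hl]
  have ht0 : 2 ≤ tt Z s x₀ := by
    have := le_ps2 Z (ext Z s) x₀ l₁ l₂ hne hx₁ hx₂
    rw [he _ hl₁, he _ hl₂] at this
    exact this
  have hk0 : 2 ≤ kap Z s x₀ := by
    unfold kap
    omega
  -- a simple point on the third line
  have hsum : Z.ls (tt Z s) l₃ = q * ext Z s l₃ + tau Z s := p7 (ext Z s) l₃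
  rw [he _ hl₃, mul_one] at hsum
  obtain ⟨y, hy, hty⟩ : ∃ y, Z.inc y l₃ ∧ tt Z s y < 2 * 1 := by
    apply ls_lt Z (tt Z s) (fun _ => 2 * 1) l₃
    rw [ls_mul, p1, hsum]
    omega
  have hsy : s y = 0 := hs0 y l₃ hl₃ hy
  have hky : kap Z s y = 0 := by
    unfold kap
    omega
  have hpy := hS.point y
  rw [hky, mul_zero, add_zero] at hpy
  obtain ⟨m, hm₀, hmy⟩ := p3 x₀ y
  have hml : m ≠ l₃ := by
    rintro rfl
    exact hx₃ hm₀
  have hw := le_ps2 Z (wp Z D s) y m l₃ hml hmy hy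
  rw [hpy] at hw
  have hw3 : wp Z D s l₃ = D := by
    unfold wp
    rw [if_pos hl₃]
  have hwm : wp Z D s m = 0 := by omega
  have hlm := hS.line m
  rw [hwm, add_zero] at hlm
  have := le_ls Z (kap Z s) x₀ m hm₀
  omega

end Pool.Agent.CLH
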