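import Pool.Agent.CLH.Defs

set_option autoImplicit false

/-!
# CLH: exact statements of the modules
-/

open scoped BigOperators Polynomial LinearAlgebra.Projectivization
open Module Polynomial
open Pool.Agent.Helper58.Cyl (IsWord hyp tot cnt D2 lift TT)

namespace Pool.Agent.CLH

universe u

noncomputable section

/-! ## Part 1: planes -/

/-- PLN: basic facts on planes. -/
def Stmt_Pln : Prop := ∀ (K : Type u) [Field K] [Fintype K] (Z : Pl K),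
  (∀ l, Z.ls (fun _ => 1) l = Fintype.card K + 1) ∧
  (∀ x, Z.ps (fun _ => 1) x = Fintype.card K + 1) ∧
  (∀ x y, ∃ l, Z.inc x l ∧ Z.inc y l) ∧
  (∀ l m, ∃ x, Z.inc x l ∧ Z.inc x m) ∧
  (∀ x y l m, x ≠ y → Z.inc x l → Z.inc y l → Z.inc x m → Z.inc y m → l = m) ∧
  (∀ (f : Z.Pt → ℕ) x, Z.ps (Z.ls f) x = Fintype.card K * f x + ∑ y, f y) ∧
  (∀ (g : Z.Ln → ℕ) l, Z.ls (Z.ps g) l = Fintype.card K * g l + ∑ m, g m) ∧
  (∀ (f : Z.Pt → ℕ) (g : Z.Ln → ℕ), ∑ l, g l * Z.ls f l = ∑ x, f x * Z.ps g x) ∧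
  Fintype.card Z.Pt = Fintype.card K ^ 2 + Fintype.card K + 1 ∧
  Fintype.card Z.Ln = Fintype.card K ^ 2 + Fintype.card K + 1

/-- ROT: two changes of coordinates. -/
def Stmt_Rot : Prop := ∀ (K : Type u) [Field K] (Z : Pl K) (f : Z.Fr),
  (∀ c : K, ∃ f' : Z.Fr, (∀ y m, aff f' y m = aff f y (m + c)) ∧
    (∀ t, f'.l (Sum.inr t) = f.l (Sum.inr t)) ∧ (∀ t, f'.p (Sum.inr t) = f.p (Sum.inr t)) ∧
    ∀ a b, apt f' a b = apt f a (b + c)) ∧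
  ∀ a : K, ∃ f' : Z.Fr, f'.p inf = f.p inf ∧ f'.l inf = ver f a ∧ ver f' 0 = f.l inf ∧
    (∀ A, A ≠ 0 → ver f' A = ver f (a + A⁻¹)) ∧
    (∀ y m, aff f' y m = aff f m (y - m * a)) ∧ ∀ y, slp f' y = apt f a y

/-- RL: the Rédei polynomial. -/
def Stmt_Rl : Prop := ∀ (K : Type u) [Field K] [Fintype K] (Z : Pl K) (k D : ℕ)
  (κ : Z.Pt → ℕ) (w : Z.Ln → ℕ) (f : Z.Fr), Sys Z k D κ w →
  ∃ σ : ℕ → K[X], ∀ i, i + 1 < Fintype.card K → (σ i).natDegree ≤ i ∧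
    (∀ y, (σ i).eval y = (Fpol f w y).coeff i) ∧ (σ i).coeff i = (Gpol f w).coeff i

open Classical in
/-- XI: the covariant lemma. -/
def Stmt_Xi : Prop := ∀ (K : Type u) [Field K] [Fintype K] (Z : Pl K) (k D : ℕ)
  (κ : Z.Pt → ℕ) (w : Z.Ln → ℕ) (f : Z.Fr), Sys Z k D κ w → 0 < D → D + 2 ≤ Fintype.card K →
  κ (f.p inf) = 0 → ∀ (i j : ℕ) (α β : K), i ≤ j →
  α * ((D.choose i : K) * (D.choose (j - i) : K)) = β * (D.choose j : K) → ∀ a₁ : K,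
  α * (((w (ver f a₁)).choose i : K) * ((w (ver f a₁)).choose (j - i) : K)) ≠
    β * ((w (ver f a₁)).choose j : K) →
  (Finset.univ.filter fun x : K × K => κ (apt f x.1 x.2) = 0 ∧
    ∃ m, w (aff f m (x.2 - m * x.1)) = D).card ≤ (Fintype.card K - 1) * j

/-! ## Part 2: local data -/

/-- LSYS: the local data give a system. -/
def Stmt_Lsys : Prop := ∀ (K : Type u) [Field K] [Fintype K] (Z : Pl K) (D : ℕ) (s : Z.Pt → ℕ),
  Loc Z D s → D + 2 ≤ 2 * tau Z s ∧ (∀ x, 2 ≤ s x + 2 * tt Z s x) ∧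
    Sys Z (2 * tau Z s - 2 - D) D (kap Z s) (wp Z D s)

/-- YX: the covariant lemma for local data. -/
def Stmt_Yx : Prop := ∀ (K : Type u) [Field K] [Fintype K] (Z : Pl K) (D : ℕ) (s : Z.Pt → ℕ),
  Loc Z D s → ∀ x l, kap Z s x = 0 → Z.inc x l → Z.ls s l ≠ 0 → wp Z D s l ≠ 0 →
  ∀ (i j : ℕ) (α β : K), i ≤ j →
  α * ((D.choose i : K) * (D.choose (j - i) : K)) = β * (D.choose j : K) →
  α * (((wp Z D s l).choose i : K) * ((wp Z D s l).choose (j - i) : K)) ≠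
    β * ((wp Z D s l).choose j : K) →
  yy Z s ≤ (Fintype.card K - 1) * j + tau Z s

/-- YLOW: lower bounds for the number of simple external points. -/
def Stmt_Ylow : Prop := ∀ (K : Type u) [Field K] [Fintype K] (Z : Pl K) (s : Z.Pt → ℕ),
  tau Z s ≤ Fintype.card K + 1 →
  tau Z s * (Fintype.card K + 2 - tau Z s) ≤ yy Z s ∧
  ((∀ x, 2 ≤ tt Z s x → 4 ≤ tt Z s x) →
    3 * (tau Z s * (Fintype.card K + 1)) ≤ 3 * yy Z s + tau Z s * (tau Z s - 1))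

/-- FATW: the weight of a fat line. -/
def Stmt_Fatw : Prop := ∀ (K : Type u) [Field K] [Fintype K] (Z : Pl K) (D : ℕ) (s : Z.Pt → ℕ),
  Loc Z D s → ∀ l, Z.ls s l ≠ 0 → wp Z D s l ≠ 0 → D + 2 ≤ wp Z D s l + tau Z s

/-- NC: the non-concurrent case. -/
def Stmt_Nc : Prop := ∀ (K : Type u) [Field K] [Fintype K] (Z : Pl K) (D : ℕ) (s : Z.Pt → ℕ),
  Loc Z D s → ¬ Conc Z s → tau Z s ≤ Fintype.card K → D + 4 ≤ 2 * tau Z s

open Classical in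
/-- LD: the logarithmic derivative. -/
def Stmt_Ld : Prop := ∀ (K : Type u) [Field K] [Fintype K] (p : ℕ) [Fact p.Prime] [CharP K p]
  (Z : Pl K) (k D : ℕ) (κ : Z.Pt → ℕ) (w : Z.Ln → ℕ), Sys Z k D κ w → 0 < D →
  D + 2 ≤ Fintype.card K → ∀ (x : Z.Pt) (l l' : Z.Ln), w l = D → Z.inc x l → κ x ≠ 0 →
  Z.inc x l' → l' ≠ l → ∀ ν : ℕ, ¬ p ^ (ν + 1) ∣ w l' →
  min (Finset.univ.filter fun y => Z.inc y l ∧ κ y = 0).card (Fintype.card K - 1) ≤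
    (Finset.univ.filter fun m => Z.inc x m ∧ m ≠ l ∧ w m ≠ 0).card * p ^ ν

/-- LDL: in characteristic three there are no double and no triple points. -/
def Stmt_Ldl : Prop := ∀ (K : Type u) [Field K] [Fintype K] [CharP K 3] (h : ℕ),
  Fintype.card K = 3 ^ h → 4 ≤ h → ∀ (Z : Pl K) (D : ℕ) (s : Z.Pt → ℕ), Loc Z D s →
  tau Z s ≤ 3 ^ (h - 1) → 3 ^ h ≤ 2 * D + 3 → D < 5 * 3 ^ (h - 2) →
  (∀ l, Z.ls s l ≠ 0 → wp Z D s l ≠ 0 → 2 * 3 ^ (h - 2) ≤ wp Z D s l) →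
  ∀ x, 2 ≤ tt Z s x → 4 ≤ tt Z s x

/-- ARIA: arithmetic, first part. -/
def Stmt_Aria : Prop := ∀ (K : Type u) [Field K] (p h : ℕ) [Fact p.Prime] [CharP K p],
  3 ≤ p → 3 ≤ h → ∀ D τ w Y : ℕ, p ^ h ≤ (p - 1) * D + p → D + 2 ≤ 2 * τ → τ ≤ p ^ (h - 1) →
  D + 2 ≤ w + τ → w + 2 ≤ τ → τ * (p ^ h + 2 - τ) ≤ Y → (h = 3 → p = 3 → 8 ≤ τ) →
  (∀ (i j : ℕ) (α β : K), i ≤ j →
    α * ((D.choose i : K) * (D.choose (j - i) : K)) = β * (D.choose j : K) →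
    α * ((w.choose i : K) * (w.choose (j - i) : K)) ≠ β * (w.choose j : K) →
    Y ≤ (p ^ h - 1) * j + τ) →
  p = 3 ∧ 4 ≤ h ∧ 2 * 3 ^ (h - 2) ≤ w ∧ D < 5 * 3 ^ (h - 2)

/-- ARIB: arithmetic, second part. -/
def Stmt_Arib : Prop := ∀ (K : Type u) [Field K] [CharP K 3] (h : ℕ), 4 ≤ h →
  ∀ D τ w Y : ℕ, 3 ^ h ≤ 2 * D + 3 → D + 2 ≤ 2 * τ → τ ≤ 3 ^ (h - 1) → w + 2 ≤ τ →
  2 * 3 ^ (h - 2) ≤ w → D < 5 * 3 ^ (h - 2) → 3 * (τ * (3 ^ h + 1)) ≤ 3 * Y + τ * (τ - 1) →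
  (∀ j : ℕ, (D.choose j : K) = 0 → (w.choose j : K) ≠ 0 → Y ≤ (3 ^ h - 1) * j + τ) → False

/-- DIG: a fat line with a point of weight zero has weight `D`. -/
def Stmt_Dig : Prop := ∀ (K : Type u) [Field K] [Fintype K] (p h : ℕ) [Fact p.Prime] [CharP K p],
  Fintype.card K = p ^ h → 3 ≤ p → 3 ≤ h → ∀ (Z : Pl K) (D : ℕ) (s : Z.Pt → ℕ), Loc Z D s →
  p ^ h ≤ (p - 1) * D + p → tau Z s ≤ p ^ (h - 1) → ¬ Conc Z s →
  ∀ x l, kap Z s x = 0 → Z.inc x l → wp Z D s l = 0 ∨ wp Z D s l = D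

/-! ## Part 3: the classification -/

/-- LEMR: heavy lines have weight at least `q`. -/
def Stmt_Lemr : Prop := ∀ (K : Type u) [Field K] [Fintype K] (Z : Pl K) (k D : ℕ)
  (κ : Z.Pt → ℕ) (w : Z.Ln → ℕ), Sys Z k D κ w → 0 < D → D + 2 ≤ Fintype.card K →
  2 * k + D < Fintype.card K + 1 →
  ∀ l, D < w l → Fintype.card K ≤ w l

/-- MODQ: the weights modulo `q` are at most `D`. -/
def Stmt_Modq : Prop := ∀ (K : Type u) [Field K] [Fintype K] (Z : Pl K) (k D : ℕ)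
  (κ : Z.Pt → ℕ) (w : Z.Ln → ℕ), Sys Z k D κ w → 0 < D → D + 2 ≤ Fintype.card K →
  2 * k + D < Fintype.card K + 1 →
  ∀ l, w l % Fintype.card K ≤ D

/-- TWOW: two weights modulo `q`. -/
def Stmt_Twow : Prop := ∀ (K : Type u) [Field K] [Fintype K] (Z : Pl K) (k D : ℕ)
  (κ : Z.Pt → ℕ) (w : Z.Ln → ℕ), Sys Z k D κ w → 0 < D → D + 2 ≤ Fintype.card K →
  2 * k + D < Fintype.card K + 1 →
  (∀ x l, κ x = 0 → Z.inc x l → w l = 0 ∨ w l = D) →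
  ∀ l, w l % Fintype.card K = 0 ∨ w l % Fintype.card K = D

/-- RDU: removing the heavy lines. -/
def Stmt_Rdu : Prop := ∀ (K : Type u) [Field K] [Fintype K] (Z : Pl K) (k D : ℕ)
  (κ : Z.Pt → ℕ) (w : Z.Ln → ℕ), Sys Z k D κ w → 0 < D → D + 2 ≤ Fintype.card K →
  2 * k + D < Fintype.card K + 1 →
  (∀ l, w l % Fintype.card K = 0 ∨ w l % Fintype.card K = D) →
  ∃ (k' : ℕ) (κ' : Z.Pt → ℕ) (b : Z.Ln → ℕ), k' ≤ k ∧ (∀ l, b l = 0 ∨ b l = 1) ∧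
    Sys Z k' D κ' (fun l => D * b l) ∧ ∀ l, w l = D → b l = 1

/-- GCDD: dividing by the greatest common divisor. -/
def Stmt_Gcdd : Prop := ∀ (K : Type u) [Field K] [Fintype K] (p h : ℕ) [Fact p.Prime],
  Fintype.card K = p ^ h → ∀ (Z : Pl K) (k D : ℕ) (κ : Z.Pt → ℕ) (b : Z.Ln → ℕ),
  Sys Z k D κ (fun l => D * b l) → (∀ l, b l = 0 ∨ b l = 1) → 0 < D → k < D →
  D < Fintype.card K →
  ∃ (g s k₁ : ℕ) (κ₁ : Z.Pt → ℕ), D = g * p ^ s ∧ k₁ < p ^ s ∧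
    Sys Z k₁ (p ^ s) κ₁ (fun l => p ^ s * b l) ∧ ∃ x, ¬ p ∣ κ₁ x

/-- PENC: the case of a pencil. -/
def Stmt_Penc : Prop := ∀ (K : Type u) [Field K] [Fintype K] (Z : Pl K)
  (κ : Z.Pt → ℕ) (b : Z.Ln → ℕ), Sys Z 0 1 κ b → (∀ l, b l = 0 ∨ b l = 1) →
  ∃ R, ∀ l, b l = 1 → Z.inc R l

open Classical in
/-- HAS: the polynomial of the pencil of a point. -/
def Stmt_Has : Prop := ∀ (K : Type u) [Field K] [Fintype K] (p h s : ℕ) [Fact p.Prime]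
  [CharP K p], Fintype.card K = p ^ h → 3 ≤ p → 1 ≤ s → s < h →
  ∀ (Z : Pl K) (k : ℕ) (κ : Z.Pt → ℕ) (b : Z.Ln → ℕ), Sys Z k (p ^ s) κ (fun l => p ^ s * b l) →
  (∀ l, b l = 0 ∨ b l = 1) → k < p ^ s → ∀ (f : Z.Fr) (β : Finset K),
  (∀ a, a ∈ β ↔ b (ver f a) = 1) →
  (∀ n, (∏ a ∈ β, (X - C a)).coeff n ≠ 0 → n % p ^ (h - s) = 0 ∨ n % p ^ (h - s) = 1) ∧
  ∀ a ∈ β, (hasseDeriv (p ^ (h - s)) (∏ a ∈ β, (X - C a))).eval a ≠ 0 →
    p ^ s + 1 ≤ (Finset.univ.filter fun x => Z.inc x (ver f a) ∧ κ x ≠ 0).card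

open Classical in
/-- SUBF: a subfield. -/
def Stmt_Subf : Prop := ∀ (K : Type u) [Field K] [Fintype K] (p h s : ℕ) [Fact p.Prime]
  [CharP K p], Fintype.card K = p ^ h → 3 ≤ p → 1 ≤ s → s < h →
  ∀ (Z : Pl K) (k : ℕ) (κ : Z.Pt → ℕ) (b : Z.Ln → ℕ), Sys Z k (p ^ s) κ (fun l => p ^ s * b l) →
  (∀ l, b l = 0 ∨ b l = 1) → k < p ^ s → (∃ x, ¬ p ∣ κ x) →
  p ^ (h - s) ≤ (Finset.univ.filter fun z : K => z ^ (p ^ (h - s)) = z).card

open Classical in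
/-- NUM: a subfield of degree `e` divides. -/
def Stmt_Num : Prop := ∀ (K : Type u) [Field K] [Fintype K] (p h e : ℕ) [Fact p.Prime],
  Fintype.card K = p ^ h → 1 ≤ e →
  p ^ e ≤ (Finset.univ.filter fun z : K => z ^ (p ^ e) = z).card → e ∣ h

/-- LOC: the external lines are concurrent. -/
def Stmt_Loc : Prop := ∀ (K : Type u) [Field K] [Fintype K] (p h : ℕ) [Fact p.Prime] [CharP K p],
  Fintype.card K = p ^ h → 3 ≤ p → 3 ≤ h → ∀ (Z : Pl K) (D : ℕ) (s : Z.Pt → ℕ), Loc Z D s →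
  p ^ h ≤ (p - 1) * D + p → tau Z s ≤ p ^ (h - 1) →
  (∀ e, e ∣ h → 2 ≤ e → e < h → ¬ p ^ (h - e) ∣ D) → Conc Z s

/-- AXIS: the axis in the concurrent case. -/
def Stmt_Axis : Prop := ∀ (K : Type u) [Field K] [Fintype K] (Z : Pl K) (D : ℕ) (s : Z.Pt → ℕ),
  Loc Z D s → Conc Z s → ∃ R, ∀ l, Fintype.card K ∣ Z.ls s l ↔ Z.inc R l

/-! ## Part 4: words -/

/-- SMW: a small word of the plane. -/
def Stmt_Smw : Prop := ∀ (K : Type u) [Field K] [Fintype K] (p h : ℕ) [Fact p.Prime] [CharP K p],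
  Fintype.card K = p ^ h → 1 ≤ h → ∃ F : (Fin 3 → K) → ZMod p, IsWord K F ∧ (∃ v, F v ≠ 0) ∧
    (p - 1) * cnt F (fun _ => True) + (Fintype.card K - 1) * Fintype.card K ≤
      (Fintype.card K - 1) * ((p - 1) * (2 * Fintype.card K) + p)

/-- LOWP: a nonzero word of the plane has at least `q + 2` points. -/
def Stmt_Lowp : Prop := ∀ (K : Type u) [Field K] [Fintype K] (p : ℕ) (F : (Fin 3 → K) → ZMod p),
  IsWord K F → (∃ v, F v ≠ 0) → (Fintype.card K - 1) * (Fintype.card K + 2) ≤ tot F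

/-- D2F: the minimum weight in planes. -/
def Stmt_D2f : Prop := ∀ (K : Type u) [Field K] [Fintype K] (p h : ℕ) [Fact p.Prime] [CharP K p],
  Fintype.card K = p ^ h → 2 ≤ h →
  (∃ F : (Fin 3 → K) → ZMod p, IsWord K F ∧ (∃ v, F v ≠ 0) ∧ cnt F (fun _ => True) = D2 K p) ∧
  ∃ D, D2 K p + (Fintype.card K - 1) * D = (Fintype.card K - 1) * (2 * Fintype.card K) ∧
    0 < D ∧ D + 2 ≤ Fintype.card K ∧ p ^ h ≤ (p - 1) * D + p

/-- MOM: first moments. -/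
def Stmt_Mom : Prop := ∀ (K : Type u) [Field K] [Fintype K] (p : ℕ) [Fact p.Prime] [CharP K p]
  (V : Type u) [AddCommGroup V] [Module K V] (G : V → K), 2 < Fintype.card K → IsWord K G →
  ∀ ψ : Dual K V,
  (∀ v, ψ v = 0 → G v = 0) → ∀ P e Q : V, ψ P = 0 → ψ e = 0 → ∀ j : ℕ,
  j + 2 ≤ Fintype.card K → ¬ p ∣ j + 1 →
  ∑ t : K, t ^ j * ∑ z : K, z * G (Q + t • e + z • P) = 0

/-- DEGT: functions of two variables whose restrictions to lines have small degree. -/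
def Stmt_Degt : Prop := ∀ (K : Type u) [Field K] [Fintype K] (p h : ℕ) [Fact p.Prime] [CharP K p],
  Fintype.card K = p ^ h → 3 ≤ p → 1 ≤ h → ∀ f : K → K → K,
  (∀ a b α β : K, (α ≠ 0 ∨ β ≠ 0) → ∀ j : ℕ, j + 2 ≤ Fintype.card K → ¬ p ∣ j + 1 →
    ∑ t : K, t ^ j * f (a + t * α) (b + t * β) = 0) →
  ∀ S : Finset (K × K), (∀ x ∈ S, ∀ a, f a (x.1 * a + x.2) = 0) → p ^ (h - 1) ≤ S.card →
  ∀ a b, f a b = 0

/-- TAU: the number of external functionals through a point. -/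
def Stmt_Tau : Prop := ∀ (K : Type u) [Field K] [Fintype K] (p h : ℕ) [Fact p.Prime] [CharP K p],
  Fintype.card K = p ^ h → 3 ≤ p → 1 ≤ h → ∀ (V : Type u) [AddCommGroup V] [Module K V]
  [Finite V], finrank K V = 4 → ∀ F : V → ZMod p, IsWord K F → ∀ P Q : V,
  ∑ z : K, z * lift K F (Q + z • P) ≠ 0 →
  {y : Dual K V | hyp F y = 0 ∧ y P = 0 ∧ y Q = 1}.ncard ≤ p ^ (h - 1)

/-- DEL: the lower bound in dimension four. -/
def Stmt_Del : Prop := ∀ (K : Type u) [Field K] [Fintype K] (p h : ℕ) [Fact p.Prime] [CharP K p],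
  Fintype.card K = p ^ h → 3 ≤ p → 2 ≤ h → ∀ (V : Type u) [AddCommGroup V] [Module K V]
  [Finite V], finrank K V = 4 → ∀ F : V → ZMod p, IsWord K F → ∀ Q : V, F Q ≠ 0 →
  (∀ φ : Dual K V, φ ≠ 0 → hyp F φ = 0 ∨ D2 K p ≤ hyp F φ) →
  Fintype.card K * D2 K p ≤ tot F

/-- The incidence of points and lines of the projective plane of `W`. -/
def pinc {K : Type u} [Field K] {W : Type u} [AddCommGroup W] [Module K W] (x : ℙ K W)
    (φ : ℙ K (Dual K W)) : Prop := φ.rep x.rep = 0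

/-- FRM: the projective plane of a three-dimensional space is a plane. -/
def Stmt_Frm : Prop := ∀ (K : Type u) [Field K] (W : Type u) [AddCommGroup W]
  [Module K W], finrank K W = 3 →
  (∀ x φ, pinc x φ → ∃ f : Frame K (ℙ K W) (ℙ K (Dual K W)) pinc, f.p inf = x ∧ f.l inf = φ) ∧
  ∃ (x : ℙ K W) (φ : ℙ K (Dual K W)), pinc x φ

/-- The hypotheses on a word of minimum weight in dimension four. -/
structure Minw (K : Type u) [Field K] [Fintype K] (p h D : ℕ) (V : Type u) [AddCommGroup V]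
    [Module K V] (F : V → ZMod p) : Prop where
  hq : Fintype.card K = p ^ h
  hV : finrank K V = 4
  word : IsWord K F
  hD : D2 K p + (Fintype.card K - 1) * D = (Fintype.card K - 1) * (2 * Fintype.card K)
  pos : 0 < D
  small : D + 2 ≤ Fintype.card K
  large : p ^ h ≤ (p - 1) * D + p
  low : ∀ φ : Dual K V, φ ≠ 0 → hyp F φ = 0 ∨ D2 K p ≤ hyp F φ
  htot : tot F = Fintype.card K * D2 K p

/-- TOL: the local data at a point. -/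
def Stmt_Tol : Prop := ∀ (K : Type u) [Field K] [Fintype K] (p h D : ℕ) [Fact p.Prime]
  [CharP K p] (V : Type u) [AddCommGroup V] [Module K V] [Finite V] (F : V → ZMod p),
  3 ≤ p → 2 ≤ h → Minw K p h D V F → ∀ P : V, P ≠ 0 → F P = 0 →
  ∃ (Z : Pl K) (s : Z.Pt → ℕ) (L : Dual K V → Z.Ln) (v : Z.Pt → V), Loc Z D s ∧
    (∀ ψ : Dual K V, ψ ≠ 0 → ψ P = 0 → (Fintype.card K - 1) * Z.ls s (L ψ) = hyp F ψ ∧
      ∀ x, Z.inc x (L ψ) ↔ ψ (v x) = 0) ∧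
    (∀ x, v x ∉ Submodule.span K {P}) ∧
    ((∃ Q : V, ∑ z : K, z * lift K F (Q + z • P) ≠ 0) → tau Z s ≤ p ^ (h - 1))

/-- AXP: the axis of a point. -/
def Stmt_Axp : Prop := ∀ (K : Type u) [Field K] [Fintype K] (p h D : ℕ) [Fact p.Prime]
  [CharP K p] (V : Type u) [AddCommGroup V] [Module K V] [Finite V] (F : V → ZMod p),
  3 ≤ p → 3 ≤ h → (∀ e, e ∣ h → 2 ≤ e → e < h → ¬ p ^ (h - e) ∣ D) → Minw K p h D V F →
  ∀ P Q : V, P ≠ 0 → F P = 0 → ∑ z : K, z * lift K F (Q + z • P) ≠ 0 →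
  ∃ R ∉ Submodule.span K {P}, ∀ ψ : Dual K V, ψ ≠ 0 → ψ P = 0 →
    (Fintype.card K * (Fintype.card K - 1) ∣ hyp F ψ ↔ ψ R = 0)

/-- GLOB: all external planes share a point. -/
def Stmt_Glob : Prop := ∀ (K : Type u) [Field K] [Fintype K] (p h D : ℕ) [Fact p.Prime]
  [CharP K p] (V : Type u) [AddCommGroup V] [Module K V] [Finite V] (F : V → ZMod p),
  3 ≤ p → 3 ≤ h → Minw K p h D V F → (∃ v, F v ≠ 0) →
  (∀ P Q : V, P ≠ 0 → F P = 0 → ∑ z : K, z * lift K F (Q + z • P) ≠ 0 →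
    ∃ R ∉ Submodule.span K {P}, ∀ ψ : Dual K V, ψ ≠ 0 → ψ P = 0 →
      (Fintype.card K * (Fintype.card K - 1) ∣ hyp F ψ ↔ ψ R = 0)) →
  ∃ R : V, R ≠ 0 ∧ ∀ ψ : Dual K V, hyp F ψ = 0 → ψ R = 0

/-- CCZ: two external functionals do not span a minimal one, in dimension four. -/
def Stmt_Ccz : Prop := ∀ (K : Type u) [Field K] [Fintype K] (p h D : ℕ) [Fact p.Prime]
  [CharP K p], 3 ≤ p → 3 ≤ h → Fintype.card K = p ^ h →
  D2 K p + (Fintype.card K - 1) * D = (Fintype.card K - 1) * (2 * Fintype.card K) →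
  (∀ e, e ∣ h → 2 ≤ e → e < h → ¬ p ^ (h - e) ∣ D) → Pool.Agent.Helper58.Cyl.CC.{u, u} K p 0

/-- IND: the induction on the dimension. -/
def Stmt_Ind : Prop := ∀ (K : Type u) [Field K] [Fintype K] (p : ℕ) [Fact p.Prime]
  [CharP K p], 0 < D2 K p → (Fintype.card K - 1) ∣ D2 K p → Pool.Agent.Helper58.Cyl.CC.{u, u} K p 0 →
  ∀ k, TT.{u, u} K p k ∧ Pool.Agent.Helper58.Cyl.CC.{u, u} K p k

end

end Pool.Agent.CLH
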