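import Mathlib
import Pool.Agent.CLH.Stmts

/-! CLH NUM: a subfield of degree `e` divides. -/

namespace Pool.Agent.CLH

universe u

theorem num_proof : Stmt_Num.{u} := by
  classical
  intro K _ _ p h e hp hK he hcard
  have hp1 : 1 < p := hp.out.one_lt
  set g := Nat.gcd e h with hg
  have hg1 : 1 ≤ g := Nat.gcd_pos_of_pos_left h he
  -- every element of the set is a root of X^(p^g) - X
  have hsub : (Finset.univ.filter fun z : K => z ^ (p ^ e) = z) ⊆
      (Finset.univ.filter fun z : K => z ^ (p ^ g) = z) := by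
    intro z hz
    rw [Finset.mem_filter] at hz ⊢
    refine ⟨Finset.mem_univ _, ?_⟩
    by_cases hz0 : z = 0
    · subst hz0
      exact zero_pow (pow_ne_zero _ hp.out.ne_zero)
    · have key : ∀ m : ℕ, 1 ≤ p ^ m := fun m => Nat.one_le_pow _ _ (by omega)
      have h1 : z ^ (p ^ e - 1) = 1 := by
        have h2 : z ^ (p ^ e - 1) * z = 1 * z := by
          rw [← pow_succ, Nat.sub_add_cancel (key e), hz.2, one_mul]
        exact mul_right_cancel₀ hz0 h2
      have h2 : z ^ (p ^ h - 1) = 1 := by
        rw [← hK]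
        exact FiniteField.pow_card_sub_one_eq_one z hz0
      have h3 : z ^ (p ^ g - 1) = 1 := by
        have h4 : Nat.gcd (p ^ e - 1) (p ^ h - 1) = p ^ g - 1 :=
          Nat.pow_sub_one_gcd_pow_sub_one p e h
        rw [← h4]
        have h5 : orderOf z ∣ Nat.gcd (p ^ e - 1) (p ^ h - 1) :=
          Nat.dvd_gcd (orderOf_dvd_of_pow_eq_one h1) (orderOf_dvd_of_pow_eq_one h2)
        exact orderOf_dvd_iff_pow_eq_one.1 h5
      calc z ^ (p ^ g) = z ^ (p ^ g - 1 + 1) := by rw [Nat.sub_add_cancel (key g)]
        _ = z := by rw [pow_succ, h3, one_mul]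
  have hroots : (Finset.univ.filter fun z : K => z ^ (p ^ g) = z).card ≤ p ^ g := by
    have hpg : 1 < p ^ g := Nat.one_lt_pow (by omega) hp1
    set P : Polynomial K := Polynomial.X ^ (p ^ g) - Polynomial.X with hP
    have hdeg : P.natDegree = p ^ g := FiniteField.X_pow_card_sub_X_natDegree_eq K hpg
    have hne : P ≠ 0 := FiniteField.X_pow_card_sub_X_ne_zero K hpg
    have h6 : (Finset.univ.filter fun z : K => z ^ (p ^ g) = z) ⊆ P.roots.toFinset := by
      intro z hz
      rw [Finset.mem_filter] at hz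
      rw [Multiset.mem_toFinset, Polynomial.mem_roots hne, Polynomial.IsRoot.def, hP]
      simp [hz.2]
    calc (Finset.univ.filter fun z : K => z ^ (p ^ g) = z).card
        ≤ P.roots.toFinset.card := Finset.card_le_card h6
      _ ≤ Multiset.card P.roots := Multiset.toFinset_card_le _
      _ ≤ P.natDegree := Polynomial.card_roots' P
      _ = p ^ g := hdeg
  have h7 : p ^ e ≤ p ^ g := hcard.trans ((Finset.card_le_card hsub).trans hroots)
  have h8 : e ≤ g := (Nat.pow_le_pow_iff_right hp1).1 h7
  have h9 : g ∣ e := Nat.gcd_dvd_left e h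
  have h10 : g = e := le_antisymm (Nat.le_of_dvd (by omega) h9) h8
  rw [← h10]
  exact Nat.gcd_dvd_right e h

end Pool.Agent.CLH
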