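import Pool.Agent.CLH.Stmts

/-!
# CLH, PENC: the case of a pencil
-/

set_option autoImplicit false

open scoped BigOperators Polynomial

namespace Pool.Agent.CLH

universe u

theorem penc_proof (h1 : Stmt_Pln.{u}) : Stmt_Penc.{u} := by
  intro K _ _ Z κ b hS _
  classical
  obtain ⟨x₀, l₀, hfl⟩ := Z.flag
  have hp := (h1 K Z).2.2.2.2.2.1 κ x₀
  have hls : Z.ls κ = b := by
    funext l
    rw [hS.line l, zero_add]
  rw [hls, hS.point x₀] at hp
  have hsum : ∑ y, κ y = 1 := by omega
  obtain ⟨R, -, hR⟩ : ∃ R ∈ (Finset.univ : Finset Z.Pt), κ R ≠ 0 := by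
    apply Finset.exists_ne_zero_of_sum_ne_zero
    rw [hsum]
    exact one_ne_zero
  refine ⟨R, ?_⟩
  intro l hl
  by_contra hn
  have h3 : Z.ls κ l = 1 := by rw [hls, hl]
  have h4 : Z.ls κ l + κ R ≤ ∑ y, κ y := by
    unfold Pl.ls
    have h5 : (∑ x : Z.Pt, if Z.inc x l then κ x else 0) + κ R =
        ∑ x : Z.Pt, ((if Z.inc x l then κ x else 0) + if x = R then κ R else 0) := by
      rw [Finset.sum_add_distrib, Finset.sum_ite_eq' Finset.univ R (fun _ => κ R)]
      simp
    rw [h5]
    apply Finset.sum_le_sum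
    intro x _
    by_cases hx : x = R
    · subst hx
      rw [if_neg hn, if_pos rfl, zero_add]
    · rw [if_neg hx, add_zero]
      split_ifs
      · exact le_rfl
      · exact Nat.zero_le _
  omega

end Pool.Agent.CLH
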