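import Pool.Agent.CLH.Stmts

set_option autoImplicit false

/-!
# CLH: module PLN
-/

open scoped BigOperators Polynomial

namespace Pool.Agent.CLH

universe u

namespace PLN_

variable {K : Type u} [Field K]

/-- The duality of the standard plane. -/
def dual : SP K ≃ SP K where
  toFun s := match s with
    | Sum.inl x => Sum.inl (x.1, -x.2)
    | Sum.inr z => Sum.inr z
  invFun s := match s with
    | Sum.inl x => Sum.inl (x.1, -x.2)
    | Sum.inr z => Sum.inr z
  left_inv s := by rcases s with ⟨a, b⟩ | z <;> simp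
  right_inv s := by rcases s with ⟨a, b⟩ | z <;> simp

theorem sinc_dual (s t : SP K) : sinc s t ↔ sinc (dual t) (dual s) := by
  rcases s with ⟨a, b⟩ | a | u <;> rcases t with ⟨y, m⟩ | y | v <;> simp [sinc, dual, eq_comm]
  constructor
  · intro h
    linear_combination (-1) * h
  · intro h
    linear_combination (-1) * h

theorem join_s (s t : SP K) : ∃ l, sinc s l ∧ sinc t l := by
  rcases s with ⟨a, b⟩ | a | u <;> rcases t with ⟨c, d⟩ | c | v
  · by_cases h : a = c
    · exact ⟨Sum.inr (Sum.inl a), by simp [sinc], by simp [sinc, h]⟩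
    · have h' : a - c ≠ 0 := sub_ne_zero.2 h
      refine ⟨Sum.inl ((b - d) / (a - c), b - (b - d) / (a - c) * a), ?_, ?_⟩
      · simp [sinc]
      · simp only [sinc]
        field_simp
        ring
  · exact ⟨Sum.inl (c, b - c * a), by simp [sinc], by simp [sinc]⟩
  · exact ⟨Sum.inr (Sum.inl a), by simp [sinc], by simp [sinc]⟩
  · exact ⟨Sum.inl (a, d - a * c), by simp [sinc], by simp [sinc]⟩
  · exact ⟨Sum.inr (Sum.inr ()), by simp [sinc], by simp [sinc]⟩
  · exact ⟨Sum.inr (Sum.inr ()), by simp [sinc], by simp [sinc]⟩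
  · exact ⟨Sum.inr (Sum.inl c), by simp [sinc], by simp [sinc]⟩
  · exact ⟨Sum.inr (Sum.inr ()), by simp [sinc], by simp [sinc]⟩
  · exact ⟨Sum.inr (Sum.inr ()), by simp [sinc], by simp [sinc]⟩

theorem uniq_s (s t l m : SP K) (hst : s ≠ t) (h1 : sinc s l) (h2 : sinc t l) (h3 : sinc s m)
    (h4 : sinc t m) : l = m := by
  rcases s with ⟨a, b⟩ | a | u <;> rcases t with ⟨c, d⟩ | c | v <;>
    rcases l with ⟨y, n⟩ | y | w <;> rcases m with ⟨y', n'⟩ | y' | w' <;>
    simp_all [sinc]
  · -- two affine points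
    have hac : a ≠ c := by
      intro hac
      subst hac
      exact hst (by linear_combination h3 - h4)
    have h5 : (y - y') * (a - c) = 0 := by linear_combination h3 - h4
    have h6 : y = y' := by
      rcases mul_eq_zero.1 h5 with h | h
      · exact sub_eq_zero.1 h
      · exact absurd (sub_eq_zero.1 h) hac
    refine ⟨h6, ?_⟩
    subst h6
    linear_combination h3

section count

variable [Fintype K]

open Classical in
theorem one_sum (p : K → Prop) (a : K) (h : ∀ x, p x ↔ x = a) :
    (∑ x : K, if p x then 1 else 0) = 1 := by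
  rw [Finset.sum_eq_single a]
  · rw [if_pos ((h a).2 rfl)]
  · intro b _ hb
    rw [if_neg (fun hp => hb ((h b).1 hp))]
  · intro ha
    exact absurd (Finset.mem_univ _) ha

open Classical in
theorem cntP (l : SP K) : (∑ s : SP K, if sinc s l then 1 else 0) = Fintype.card K + 1 := by
  rcases l with ⟨y, m⟩ | a | u
  · rw [Fintype.sum_sum_type, Fintype.sum_prod_type, Fintype.sum_sum_type]
    have e1 : ∀ x : K, (∑ b : K, if sinc (Sum.inl (x, b)) (Sum.inl (y, m)) then 1 else 0) = 1 :=
      fun x => one_sum (fun b => sinc (Sum.inl (x, b)) (Sum.inl (y, m))) (y * x + m)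
        (fun b => Iff.rfl)
    have e2 : (∑ b : K, if sinc (Sum.inr (Sum.inl b)) (Sum.inl (y, m)) then 1 else 0) = 1 :=
      one_sum (fun b => sinc (Sum.inr (Sum.inl b)) (Sum.inl (y, m))) y (fun b => Iff.rfl)
    simp only [e1, e2]
    simp [sinc]
  · rw [Fintype.sum_sum_type, Fintype.sum_prod_type, Fintype.sum_sum_type, Finset.sum_comm]
    have e1 : ∀ b : K, (∑ x : K, if sinc (Sum.inl (x, b)) (Sum.inr (Sum.inl a)) then 1 else 0) =
        1 := fun b => one_sum (fun x => sinc (Sum.inl (x, b)) (Sum.inr (Sum.inl a))) a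
        (fun b => Iff.rfl)
    simp only [e1]
    simp [sinc]
  · rw [Fintype.sum_sum_type, Fintype.sum_prod_type, Fintype.sum_sum_type]
    simp [sinc]

open Classical in
theorem cntL (s : SP K) : (∑ l : SP K, if sinc s l then 1 else 0) = Fintype.card K + 1 := by
  rw [← cntP (dual s), ← Equiv.sum_comp dual (fun l => if sinc l (dual s) then 1 else 0)]
  refine Finset.sum_congr rfl (fun l _ => ?_)
  simp only [sinc_dual s l]

end count

/-- the abstract double counting argument -/
theorem pencil {P L : Type u} [Fintype P] [Fintype L] (inc : P → L → Prop) (q : ℕ)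
    (hcnt : ∀ x, (∑ l : L, open Classical in if inc x l then 1 else 0) = q + 1)
    (hjoin : ∀ x y, ∃ l, inc x l ∧ inc y l)
    (huniq : ∀ x y l m, x ≠ y → inc x l → inc y l → inc x m → inc y m → l = m)
    (f : P → ℕ) (x : P) :
    (∑ l : L, open Classical in if inc x l then
      (∑ y : P, open Classical in if inc y l then f y else 0) else 0) = q * f x + ∑ y, f y := by
  classical
  have h1 : ∀ l : L, (if inc x l then (∑ y : P, if inc y l then f y else 0) else 0) =
      ∑ y : P, f y * (if inc x l ∧ inc y l then 1 else 0) := by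
    intro l
    by_cases h : inc x l
    · simp only [h, if_true, true_and]
      refine Finset.sum_congr rfl (fun y _ => ?_)
      by_cases h' : inc y l <;> simp [h']
    · simp [h]
  have h2 : ∀ y : P, (∑ l : L, if inc x l ∧ inc y l then 1 else 0) =
      1 + (if y = x then q else 0) := by
    intro y
    by_cases hy : y = x
    · subst hy
      simp only [and_self, if_true]
      have := hcnt y
      rw [add_comm 1 q]
      rw [← this]
    · rw [if_neg hy, add_zero]
      obtain ⟨l0, h3, h4⟩ := hjoin x y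
      rw [Finset.sum_eq_single l0]
      · simp [h3, h4]
      · intro l _ hl
        rw [if_neg]
        rintro ⟨h5, h6⟩
        exact hl (huniq x y l l0 (Ne.symm hy) h5 h6 h3 h4)
      · intro h
        exact absurd (Finset.mem_univ _) h
  calc _ = ∑ l : L, ∑ y : P, f y * (if inc x l ∧ inc y l then 1 else 0) := by
        refine Finset.sum_congr rfl (fun l _ => ?_)
        rw [← h1 l]
    _ = ∑ y : P, f y * (∑ l : L, if inc x l ∧ inc y l then 1 else 0) := by
        rw [Finset.sum_comm]
        refine Finset.sum_congr rfl (fun y _ => ?_)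
        rw [Finset.mul_sum]
    _ = ∑ y : P, (f y + (if y = x then q * f x else 0)) := by
        refine Finset.sum_congr rfl (fun y _ => ?_)
        rw [h2 y]
        by_cases hy : y = x
        · subst hy
          simp
          ring
        · simp [hy]
    _ = q * f x + ∑ y, f y := by
        rw [Finset.sum_add_distrib, Finset.sum_ite_eq' Finset.univ x, if_pos (Finset.mem_univ x)]
        ring

end PLN_

open PLN_ in
theorem pln_proof : Stmt_Pln.{u} := by
  classical
  intro K _ _ Z
  obtain ⟨x0, l0, hx0⟩ := Z.flag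
  obtain ⟨f, -, -⟩ := Z.frame x0 l0 hx0
  have hinc : ∀ x l, Z.inc x l ↔ sinc (f.p.symm x) (f.l.symm l) := by
    intro x l
    rw [f.hinc, Equiv.apply_symm_apply, Equiv.apply_symm_apply]
  have h1 : ∀ l, Z.ls (fun _ => 1) l = Fintype.card K + 1 := by
    intro l
    unfold Pl.ls
    rw [← cntP (f.l.symm l), ← Equiv.sum_comp f.p]
    refine Finset.sum_congr rfl (fun s _ => ?_)
    simp only [hinc, Equiv.symm_apply_apply]
  have h2 : ∀ x, Z.ps (fun _ => 1) x = Fintype.card K + 1 := by
    intro x
    unfold Pl.ps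
    rw [← cntL (f.p.symm x), ← Equiv.sum_comp f.l]
    refine Finset.sum_congr rfl (fun s _ => ?_)
    simp only [hinc, Equiv.symm_apply_apply]
  have h3 : ∀ x y, ∃ l, Z.inc x l ∧ Z.inc y l := by
    intro x y
    obtain ⟨l, ha, hb⟩ := join_s (f.p.symm x) (f.p.symm y)
    refine ⟨f.l l, ?_, ?_⟩
    · rw [hinc, Equiv.symm_apply_apply]; exact ha
    · rw [hinc, Equiv.symm_apply_apply]; exact hb
  have h4 : ∀ l m, ∃ x, Z.inc x l ∧ Z.inc x m := by
    intro l m
    obtain ⟨s, ha, hb⟩ := join_s (dual (f.l.symm l)) (dual (f.l.symm m))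
    have hs : dual (dual.symm s) = s := Equiv.apply_symm_apply _ _
    refine ⟨f.p (dual.symm s), ?_, ?_⟩
    · rw [hinc, Equiv.symm_apply_apply, sinc_dual, hs]; exact ha
    · rw [hinc, Equiv.symm_apply_apply, sinc_dual, hs]; exact hb
  have h5 : ∀ x y l m, x ≠ y → Z.inc x l → Z.inc y l → Z.inc x m → Z.inc y m → l = m := by
    intro x y l m hxy ha hb hc hd
    rw [hinc] at ha hb hc hd
    exact f.l.symm.injective (uniq_s _ _ _ _ (fun h => hxy (f.p.symm.injective h)) ha hb hc hd)
  have h6 : ∀ (g : Z.Pt → ℕ) x, Z.ps (Z.ls g) x = Fintype.card K * g x + ∑ y, g y := by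
    intro g x
    exact pencil Z.inc (Fintype.card K) h2 h3 h5 g x
  have h7 : ∀ (g : Z.Ln → ℕ) l, Z.ls (Z.ps g) l = Fintype.card K * g l + ∑ m, g m := by
    intro g l
    refine pencil (fun l x => Z.inc x l) (Fintype.card K) h1 h4 ?_ g l
    intro l m x y hlm ha hb hc hd
    by_contra hxy
    exact hlm (h5 x y l m hxy ha hc hb hd)
  have h8 : ∀ (g : Z.Pt → ℕ) (h : Z.Ln → ℕ), ∑ l, h l * Z.ls g l = ∑ x, g x * Z.ps h x := by
    intro g h
    unfold Pl.ls Pl.ps
    simp only [Finset.mul_sum]
    rw [Finset.sum_comm]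
    refine Finset.sum_congr rfl (fun x _ => Finset.sum_congr rfl (fun l _ => ?_))
    by_cases hxl : Z.inc x l
    · simp only [hxl, if_true]
      ring
    · simp [hxl]
  have hcard : Fintype.card (SP K) = Fintype.card K ^ 2 + Fintype.card K + 1 := by
    simp only [Fintype.card_sum, Fintype.card_prod, Fintype.card_unit]
    ring
  refine ⟨h1, h2, h3, h4, h5, h6, h7, h8, ?_, ?_⟩
  · rw [← hcard]
    exact (Fintype.card_congr f.p).symm
  · rw [← hcard]
    exact (Fintype.card_congr f.l).symm

end Pool.Agent.CLH
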