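import Pool.Agent.CLH.Stmts

set_option autoImplicit false

/-!
# CLH, module RDU: removing the heavy lines
-/

open scoped BigOperators

namespace Pool.Agent.CLH

universe u

namespace RDU_

variable {K : Type u} [Field K]

theorem ps_lin (Z : Pl K) (D q : ℕ) (b c : Z.Ln → ℕ) (x : Z.Pt) :
    Z.ps (fun l => D * b l + q * c l) x = D * Z.ps b x + q * Z.ps c x := by
  classical
  unfold Pl.ps
  rw [Finset.mul_sum, Finset.mul_sum, ← Finset.sum_add_distrib]
  refine Finset.sum_congr rfl fun l _ => ?_
  split_ifs <;> simp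

theorem ps_mul (Z : Pl K) (D : ℕ) (b : Z.Ln → ℕ) (x : Z.Pt) :
    Z.ps (fun l => D * b l) x = D * Z.ps b x := by
  classical
  unfold Pl.ps
  rw [Finset.mul_sum]
  refine Finset.sum_congr rfl fun l _ => ?_
  split_ifs <;> simp

theorem ls_add (Z : Pl K) (f g : Z.Pt → ℕ) (l : Z.Ln) :
    Z.ls (fun x => f x + g x) l = Z.ls f l + Z.ls g l := by
  classical
  unfold Pl.ls
  rw [← Finset.sum_add_distrib]
  refine Finset.sum_congr rfl fun x _ => ?_
  split_ifs <;> simp

theorem ls_const (Z : Pl K) (D : ℕ) (l : Z.Ln) :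
    Z.ls (fun _ => D) l = D * Z.ls (fun _ => 1) l := by
  classical
  unfold Pl.ls
  rw [Finset.mul_sum]
  refine Finset.sum_congr rfl fun x _ => ?_
  split_ifs <;> simp

end RDU_

open RDU_ in
theorem rdu_proof (hP : Stmt_Pln.{u}) : Stmt_Rdu.{u} := by
  intro K _ _ Z k D κ w hS hD hDq _ hw
  classical
  obtain ⟨h1, h2, -, -, -, -, h7, -⟩ := hP K Z
  set q := Fintype.card K with hq
  have hDlt : D < q := by omega
  have hq0 : 0 < q := by omega
  set c : Z.Ln → ℕ := fun l => w l / q with hc
  set b : Z.Ln → ℕ := fun l => if w l % q = D then 1 else 0 with hb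
  have hb01 : ∀ l, b l = 0 ∨ b l = 1 := by
    intro l
    simp only [hb]
    split_ifs
    · exact Or.inr rfl
    · exact Or.inl rfl
  have hwl : ∀ l, w l = D * b l + q * c l := by
    intro l
    have hdm := Nat.mod_add_div (w l) q
    simp only [hb, hc]
    split_ifs with h
    · rw [mul_one]; rw [h] at hdm; exact hdm.symm
    · rcases hw l with h0 | h0
      · rw [mul_zero]; rw [h0] at hdm; exact hdm.symm
      · exact absurd h0 h
  have hpt : ∀ x, D * Z.ps b x + q * Z.ps c x = D + q * κ x := by
    intro x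
    rw [← ps_lin, ← hS.point x]
    congr 1
    funext l
    exact (hwl l).symm
  have hb1 : ∀ x, 1 ≤ Z.ps b x := by
    intro x
    by_contra hcon
    have h0 : Z.ps b x = 0 := by omega
    have h3 := hpt x
    rw [h0, mul_zero, zero_add] at h3
    have h4 : q ∣ D := (Nat.dvd_add_left (dvd_mul_right q (κ x))).mp
      (h3 ▸ dvd_mul_right q (Z.ps c x))
    exact absurd (Nat.le_of_dvd hD h4) (by omega)
  have hcκ : ∀ x, Z.ps c x ≤ κ x := by
    intro x
    have h3 := hpt x
    have h4 : D * 1 ≤ D * Z.ps b x := Nat.mul_le_mul_left D (hb1 x)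
    have h5 : q * Z.ps c x ≤ q * κ x := by omega
    exact Nat.le_of_mul_le_mul_left h5 hq0
  set κ' : Z.Pt → ℕ := fun x => κ x - Z.ps c x with hκ'
  have hκ : ∀ x, κ x = κ' x + Z.ps c x := by
    intro x
    have := hcκ x
    simp only [hκ']
    omega
  have hpt' : ∀ x, D * Z.ps b x = D + q * κ' x := by
    intro x
    have h3 := hpt x
    rw [hκ x, mul_add] at h3
    omega
  have hline : ∀ l, Z.ls κ' l + ∑ m, c m = k + D * b l := by
    intro l
    have h3 := hS.line l
    have h4 : Z.ls κ l = Z.ls κ' l + Z.ls (Z.ps c) l := by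
      rw [← ls_add]
      congr 1
      funext x
      exact hκ x
    rw [h4, h7 c l, hwl l] at h3
    omega
  have hck : ∑ m, c m ≤ k := by
    by_contra hcon
    push Not at hcon
    have hall : ∀ l, b l = 1 := by
      intro l
      rcases hb01 l with h0 | h0
      · have := hline l
        rw [h0, mul_zero, add_zero] at this
        omega
      · exact h0
    have hbf : b = fun _ => 1 := funext hall
    have hκD : ∀ x, κ' x = D := by
      intro x
      have h3 := hpt' x
      rw [hbf, h2 x] at h3
      have h4 : q * κ' x = q * D := by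
        have : D * (q + 1) = D + q * D := by ring
        omega
      exact Nat.eq_of_mul_eq_mul_left hq0 h4
    obtain ⟨x, l, -⟩ := Z.flag
    have h3 := hline l
    have hκf : κ' = fun _ => D := funext hκD
    rw [hκf, ls_const, h1 l, hall l, mul_one] at h3
    have : D * (q + 1) = D * q + D := by ring
    omega
  refine ⟨k - ∑ m, c m, κ', b, Nat.sub_le _ _, hb01, ⟨fun l => ?_, fun x => ?_⟩, fun l hl => ?_⟩
  · have := hline l
    show Z.ls κ' l = k - ∑ m, c m + D * b l
    omega
  · rw [ps_mul]
    exact hpt' x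
  · simp only [hb]
    rw [if_pos]
    rw [hl]
    exact Nat.mod_eq_of_lt hDlt

end Pool.Agent.CLH
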