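import Pool.Agent.CLH.Stmts

set_option autoImplicit false

/-!
# CLH, module RL: the Rédei polynomial
-/

open scoped BigOperators Polynomial
open Module

namespace Pool.Agent.CLH

universe u

namespace Rl_

variable {K : Type u} [Field K]

/-! ### pairs of polynomials -/

/-- The coefficients of `P` have degree at most `i` with top coefficients given by `Q`. -/
def Good (P : K[X][X]) (Q : K[X]) : Prop :=
  ∀ i, (P.coeff i).natDegree ≤ i ∧ (P.coeff i).coeff i = Q.coeff i

theorem good_one : Good (1 : K[X][X]) (1 : K[X]) := by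
  intro i
  rw [Polynomial.coeff_one, Polynomial.coeff_one]
  by_cases h : i = 0
  · subst h; simp
  · rw [if_neg h, if_neg h]; simp

theorem Good.mul {P P' : K[X][X]} {Q Q' : K[X]} (h : Good P Q) (h' : Good P' Q') :
    Good (P * P') (Q * Q') := by
  intro n
  rw [Polynomial.coeff_mul, Polynomial.coeff_mul]
  constructor
  · apply Polynomial.natDegree_sum_le_of_forall_le
    rintro ⟨i, j⟩ hij
    rw [Finset.HasAntidiagonal.mem_antidiagonal] at hij
    calc (P.coeff i * P'.coeff j).natDegree ≤ (P.coeff i).natDegree + (P'.coeff j).natDegree :=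
          Polynomial.natDegree_mul_le
      _ ≤ i + j := Nat.add_le_add (h i).1 (h' j).1
      _ = n := hij
  · rw [Polynomial.finsetSum_coeff]
    apply Finset.sum_congr rfl
    rintro ⟨i, j⟩ hij
    rw [Finset.HasAntidiagonal.mem_antidiagonal] at hij
    simp only at hij ⊢
    rw [← hij, Polynomial.coeff_mul_add_eq_of_natDegree_le (h i).1 (h' j).1, (h i).2, (h' j).2]

theorem Good.pow {P : K[X][X]} {Q : K[X]} (h : Good P Q) (n : ℕ) : Good (P ^ n) (Q ^ n) := by
  induction n with
  | zero => rw [pow_zero, pow_zero]; exact good_one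
  | succ n ih => rw [pow_succ, pow_succ]; exact ih.mul h

theorem Good.prod {ι : Type*} (s : Finset ι) {P : ι → K[X][X]} {Q : ι → K[X]}
    (h : ∀ x ∈ s, Good (P x) (Q x)) : Good (∏ x ∈ s, P x) (∏ x ∈ s, Q x) := by
  classical
  induction s using Finset.induction_on with
  | empty => rw [Finset.prod_empty, Finset.prod_empty]; exact good_one
  | insert a s ha ih =>
    rw [Finset.prod_insert ha, Finset.prod_insert ha]
    exact (h a (Finset.mem_insert_self a s)).mul
      (ih fun x hx => h x (Finset.mem_insert_of_mem hx))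

theorem good_base (a b : K) :
    Good (1 + Polynomial.C (Polynomial.C a * Polynomial.X - Polynomial.C b) * Polynomial.X)
      (1 + Polynomial.C a * Polynomial.X) := by
  intro i
  have hP : (1 + Polynomial.C (Polynomial.C a * Polynomial.X - Polynomial.C b) *
      Polynomial.X : K[X][X]).coeff i = (if i = 0 then 1 else 0) +
      (Polynomial.C a * Polynomial.X - Polynomial.C b) * (if 1 = i then 1 else 0) := by
    rw [Polynomial.coeff_add, Polynomial.coeff_C_mul, Polynomial.coeff_one, Polynomial.coeff_X]
  have hQ : (1 + Polynomial.C a * Polynomial.X : K[X]).coeff i = (if i = 0 then 1 else 0) +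
      a * (if 1 = i then 1 else 0) := by
    rw [Polynomial.coeff_add, Polynomial.coeff_C_mul, Polynomial.coeff_one, Polynomial.coeff_X]
  rw [hP, hQ]
  rcases i with _ | _ | i
  · simp
  · have h0 : ¬ (0 + 1 = 0) := by omega
    have h1 : 1 = 0 + 1 := by omega
    rw [if_neg h0, if_pos h1, if_neg h0, if_pos h1, mul_one, mul_one, zero_add, zero_add]
    constructor
    · refine (Polynomial.natDegree_sub_le _ _).trans ?_
      rw [Polynomial.natDegree_C]
      exact max_le ((Polynomial.natDegree_C_mul_le a _).trans Polynomial.natDegree_X_le)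
        (Nat.zero_le _)
    · rw [Polynomial.coeff_sub, Polynomial.coeff_C_mul, Polynomial.coeff_X_one, mul_one,
        Polynomial.coeff_C_succ, sub_zero, zero_add]
  · have h1 : ¬ (i + 1 + 1 = 0) := by omega
    have h2 : ¬ (1 = i + 1 + 1) := by omega
    rw [if_neg h1, if_neg h2, if_neg h1, if_neg h2, mul_zero, mul_zero, add_zero, add_zero]
    simp

/-! ### the product over the field -/

variable [Fintype K]

theorem prod_one_sub :
    ∏ m : K, (1 - Polynomial.C m * Polynomial.X) =
      (1 - Polynomial.X ^ (Fintype.card K - 1) : K[X]) := by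
  classical
  have hcard : 1 < Fintype.card K := Fintype.one_lt_card
  have hd1 : (∏ m : K, (1 - Polynomial.C m * Polynomial.X)).natDegree ≤ Fintype.card K - 1 := by
    rw [← Finset.mul_prod_erase Finset.univ _ (Finset.mem_univ (0 : K)), Polynomial.C_0, zero_mul,
      sub_zero, one_mul]
    refine (Polynomial.natDegree_prod_le _ _).trans ?_
    have : ∑ m ∈ Finset.univ.erase (0 : K), (1 - Polynomial.C m * Polynomial.X).natDegree ≤
        ∑ m ∈ Finset.univ.erase (0 : K), 1 := by
      apply Finset.sum_le_sum
      intro m _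
      refine (Polynomial.natDegree_sub_le _ _).trans ?_
      rw [Polynomial.natDegree_one]
      exact max_le (Nat.zero_le _) ((Polynomial.natDegree_C_mul_le m _).trans Polynomial.natDegree_X_le)
    refine this.trans ?_
    rw [Finset.sum_const, Finset.card_erase_of_mem (Finset.mem_univ _), Finset.card_univ,
      smul_eq_mul, mul_one]
  have hd2 : (1 - Polynomial.X ^ (Fintype.card K - 1) : K[X]).natDegree ≤
      Fintype.card K - 1 := by
    refine (Polynomial.natDegree_sub_le _ _).trans ?_
    rw [Polynomial.natDegree_one, Polynomial.natDegree_X_pow]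
    exact max_le (Nat.zero_le _) le_rfl
  apply Polynomial.eq_of_natDegree_lt_card_of_eval_eq _ _ (f := (id : K → K))
    Function.injective_id
  · intro t
    rw [Polynomial.eval_prod]
    simp only [id, Polynomial.eval_sub, Polynomial.eval_one, Polynomial.eval_mul,
      Polynomial.eval_C, Polynomial.eval_X, Polynomial.eval_pow]
    by_cases ht : t = 0
    · subst ht
      rw [zero_pow (by omega)]
      simp
    · rw [FiniteField.pow_card_sub_one_eq_one t ht, sub_self]
      exact Finset.prod_eq_zero (Finset.mem_univ t⁻¹) (by rw [inv_mul_cancel₀ ht, sub_self])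
  · rw [max_lt_iff]
    omega

theorem prod_one_add :
    ∏ m : K, (1 + Polynomial.C m * Polynomial.X) =
      (1 - Polynomial.X ^ (Fintype.card K - 1) : K[X]) := by
  rw [← prod_one_sub]
  apply Fintype.prod_equiv (Equiv.neg K)
  intro m
  simp

theorem coeff_mul_lam (A : K[X]) (r i : ℕ) (hi : i + 1 < Fintype.card K) :
    (A * (1 - Polynomial.X ^ (Fintype.card K - 1)) ^ r).coeff i = A.coeff i := by
  induction r with
  | zero => rw [pow_zero, mul_one]
  | succ r ih =>
    rw [pow_succ, ← mul_assoc, mul_sub, mul_one, Polynomial.coeff_sub, ih,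
      Polynomial.coeff_mul_X_pow', if_neg (by omega), sub_zero]

theorem coeff_eq {A B : K[X]} {r k i : ℕ} (hi : i + 1 < Fintype.card K)
    (h : A * (1 - Polynomial.X ^ (Fintype.card K - 1)) ^ r =
      B * (1 - Polynomial.X ^ (Fintype.card K - 1)) ^ k) : A.coeff i = B.coeff i := by
  rw [← coeff_mul_lam A r i hi, h, coeff_mul_lam B k i hi]

/-! ### sums over lines -/

omit [Fintype K] in
theorem ls_frame {Z : Pl K} (f : Z.Fr) [Fintype K] (κ : Z.Pt → ℕ) (t : SP K) [DecidablePred fun s => sinc s t] :
    Z.ls κ (f.l t) = ∑ s : SP K, if sinc s t then κ (f.p s) else 0 := by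
  classical
  unfold Pl.ls
  rw [← Equiv.sum_comp f.p]
  apply Finset.sum_congr rfl
  intro s _
  by_cases h : sinc s t
  · rw [if_pos h, if_pos ((f.hinc s t).mp h)]
  · rw [if_neg h, if_neg (fun hh => h ((f.hinc s t).mpr hh))]

theorem ls_ver {Z : Pl K} (f : Z.Fr) (κ : Z.Pt → ℕ) (a : K) :
    Z.ls κ (ver f a) = ∑ b, κ (apt f a b) + κ (f.p inf) := by
  classical
  unfold ver
  rw [ls_frame, Fintype.sum_sum_type, Fintype.sum_sum_type, Fintype.sum_prod_type]
  congr 1
  · rw [Finset.sum_eq_single a]
    · apply Finset.sum_congr rfl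
      intro b _
      rw [if_pos (show sinc (Sum.inl (a, b)) (Sum.inr (Sum.inl a)) from rfl)]
      rfl
    · intro a' _ ha'
      apply Finset.sum_eq_zero
      intro b _
      rw [if_neg (show ¬ sinc (Sum.inl (a', b)) (Sum.inr (Sum.inl a)) from ha')]
    · intro h; exact absurd (Finset.mem_univ a) h
  · have h1 : ∑ y : K, (if sinc (Sum.inr (Sum.inl y)) (Sum.inr (Sum.inl a)) then
        κ (f.p (Sum.inr (Sum.inl y))) else 0) = 0 := by
      apply Finset.sum_eq_zero
      intro y _
      rw [if_neg (show ¬ sinc (Sum.inr (Sum.inl y)) (Sum.inr (Sum.inl a)) from id)]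
    rw [h1, zero_add]
    rw [Fintype.sum_unique]
    rw [if_pos (show sinc (Sum.inr (Sum.inr default)) (Sum.inr (Sum.inl a)) from trivial)]
    rfl

theorem ls_aff {Z : Pl K} (f : Z.Fr) (κ : Z.Pt → ℕ) (y m : K) :
    Z.ls κ (aff f y m) = ∑ a, κ (apt f a (y * a + m)) + κ (slp f y) := by
  classical
  unfold aff
  rw [ls_frame, Fintype.sum_sum_type, Fintype.sum_sum_type, Fintype.sum_prod_type]
  congr 1
  · apply Finset.sum_congr rfl
    intro a _
    rw [Finset.sum_eq_single (y * a + m)]
    · rw [if_pos (show sinc (Sum.inl (a, y * a + m)) (Sum.inl (y, m)) from rfl)]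
      rfl
    · intro b _ hb
      rw [if_neg (show ¬ sinc (Sum.inl (a, b)) (Sum.inl (y, m)) from hb)]
    · intro h; exact absurd (Finset.mem_univ _) h
  · have h1 : ∑ z : Unit, (if sinc (Sum.inr (Sum.inr z)) (Sum.inl (y, m)) then
        κ (f.p (Sum.inr (Sum.inr z))) else 0) = 0 := by
      apply Finset.sum_eq_zero
      intro z _
      rw [if_neg (show ¬ sinc (Sum.inr (Sum.inr z)) (Sum.inl (y, m)) from id)]
    rw [h1, add_zero, Finset.sum_eq_single y]
    · rw [if_pos (show sinc (Sum.inr (Sum.inl y)) (Sum.inl (y, m)) from rfl)]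
      rfl
    · intro z _ hz
      rw [if_neg (show ¬ sinc (Sum.inr (Sum.inl z)) (Sum.inl (y, m)) from hz)]
    · intro h; exact absurd (Finset.mem_univ _) h

end Rl_

open Rl_ in
theorem rl_proof : Stmt_Rl.{u} := by
  intro K _ _ Z k D κ w f hS
  set R : K[X][X] := ∏ x : K × K,
    (1 + Polynomial.C (Polynomial.C x.1 * Polynomial.X - Polynomial.C x.2) * Polynomial.X) ^
      κ (apt f x.1 x.2) with hR
  set S : K[X] := ∏ x : K × K, (1 + Polynomial.C x.1 * Polynomial.X) ^ κ (apt f x.1 x.2) with hSS
  have hgood : Good R S := Good.prod _ fun x _ => (good_base x.1 x.2).pow _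
  refine ⟨fun i => R.coeff i, fun i hi => ⟨(hgood i).1, fun y => ?_, ?_⟩⟩
  · -- evaluation
    have h1 : (R.coeff i).eval y = (R.map (Polynomial.evalRingHom y)).coeff i := by
      rw [Polynomial.coeff_map, Polynomial.coe_evalRingHom]
    rw [h1]
    have h2 : R.map (Polynomial.evalRingHom y) =
        ∏ m : K, (1 - Polynomial.C m * Polynomial.X) ^ (∑ a, κ (apt f a (y * a + m))) := by
      rw [hR, Polynomial.map_prod, Fintype.prod_prod_type]
      simp only [Polynomial.map_pow, Polynomial.map_add, Polynomial.map_one, Polynomial.map_mul,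
        Polynomial.map_C, Polynomial.map_X, Polynomial.coe_evalRingHom, Polynomial.eval_sub,
        Polynomial.eval_mul, Polynomial.eval_C, Polynomial.eval_X]
      have h3 : ∀ a : K, ∏ b : K, (1 + Polynomial.C (a * y - b) * Polynomial.X) ^ κ (apt f a b) =
          ∏ m : K, (1 - Polynomial.C m * Polynomial.X : K[X]) ^ κ (apt f a (y * a + m)) := by
        intro a
        symm
        apply Fintype.prod_equiv (Equiv.addLeft (y * a))
        intro m
        rw [Equiv.coe_addLeft]
        have : a * y - (y * a + m) = -m := by ring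
        rw [this, Polynomial.C_neg]
        ring
      rw [Finset.prod_congr rfl fun a _ => h3 a, Finset.prod_comm]
      apply Finset.prod_congr rfl
      intro m _
      rw [Finset.prod_pow_eq_pow_sum]
    apply coeff_eq hi (r := κ (slp f y)) (k := k)
    rw [h2, ← prod_one_sub, ← Finset.prod_pow, ← Finset.prod_pow, Fpol, ← Finset.prod_mul_distrib,
      ← Finset.prod_mul_distrib]
    apply Finset.prod_congr rfl
    intro m _
    rw [← pow_add, ← pow_add, ← ls_aff, hS.line, Nat.add_comm k]
  · rw [(hgood i).2]
    apply coeff_eq hi (r := κ (f.p inf)) (k := k)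
    rw [hSS, Fintype.prod_prod_type, ← prod_one_add, ← Finset.prod_pow, ← Finset.prod_pow, Gpol,
      ← Finset.prod_mul_distrib, ← Finset.prod_mul_distrib]
    apply Finset.prod_congr rfl
    intro a _
    simp only
    rw [Finset.prod_pow_eq_pow_sum, ← pow_add, ← pow_add, ← ls_ver, hS.line, Nat.add_comm k]

end Pool.Agent.CLH
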