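import Pool.Agent.CLH.Stmts

/-!
# CLH, module ROT: two changes of coordinates
-/

set_option autoImplicit false

namespace Pool.Agent.CLH

universe u

namespace ROT_

variable {K : Type u} [Field K]

/-- The shift of the points. -/
noncomputable def sh (c : K) : SP K ≃ SP K where
  toFun
    | Sum.inl x => Sum.inl (x.1, x.2 + c)
    | Sum.inr t => Sum.inr t
  invFun
    | Sum.inl x => Sum.inl (x.1, x.2 - c)
    | Sum.inr t => Sum.inr t
  left_inv := by
    rintro (⟨a, b⟩ | t)
    · simp
    · rfl
  right_inv := by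
    rintro (⟨a, b⟩ | t)
    · simp
    · rfl

theorem sh_inl (c a b : K) : sh c (Sum.inl (a, b)) = Sum.inl (a, b + c) := rfl

theorem sh_inr (c : K) (t : K ⊕ Unit) : sh c (Sum.inr t) = Sum.inr t := rfl

theorem sinc_sh (c : K) (s t : SP K) : sinc s t ↔ sinc (sh c s) (sh c t) := by
  rcases s with ⟨a, b⟩ | (y | ⟨⟩) <;> rcases t with ⟨y', m⟩ | (a' | ⟨⟩) <;>
    simp only [sh_inl, sh_inr, sinc]
  constructor
  · intro h
    rw [h, add_assoc]
  · intro h
    rw [← add_assoc] at h
    exact add_right_cancel h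

open Classical in
/-- The rotation of the points. -/
noncomputable def rp (a : K) : SP K → SP K
  | Sum.inl x => if x.1 = 0 then Sum.inr (Sum.inl x.2) else Sum.inl (a + x.1⁻¹, x.2 * x.1⁻¹)
  | Sum.inr (Sum.inl y) => Sum.inl (a, y)
  | Sum.inr (Sum.inr t) => Sum.inr (Sum.inr t)

open Classical in
/-- The inverse rotation of the points. -/
noncomputable def rp' (a : K) : SP K → SP K
  | Sum.inl x => if x.1 = a then Sum.inr (Sum.inl x.2)
      else Sum.inl ((x.1 - a)⁻¹, x.2 * (x.1 - a)⁻¹)
  | Sum.inr (Sum.inl y) => Sum.inl (0, y)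
  | Sum.inr (Sum.inr t) => Sum.inr (Sum.inr t)

/-- The rotation of the points as an equivalence. -/
noncomputable def rpe (a : K) : SP K ≃ SP K where
  toFun := rp a
  invFun := rp' a
  left_inv := by
    rintro (⟨A, B⟩ | (y | t))
    · by_cases hA : A = 0
      · simp [rp, rp', hA]
      · have h1 : a + A⁻¹ ≠ a := by
          intro h
          exact hA (inv_eq_zero.1 (add_eq_left.1 h))
        simp only [rp, rp', if_neg hA, if_neg h1, add_sub_cancel_left, inv_inv]
        rw [mul_assoc, inv_mul_cancel₀ hA, mul_one]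
    · simp [rp, rp']
    · rfl
  right_inv := by
    rintro (⟨x, b⟩ | (y | t))
    · by_cases hx : x = a
      · simp [rp, rp', hx]
      · have h1 : (x - a)⁻¹ ≠ 0 := inv_ne_zero (sub_ne_zero.2 hx)
        simp only [rp, rp', if_neg hx, if_neg h1, inv_inv]
        rw [mul_assoc, inv_mul_cancel₀ (sub_ne_zero.2 hx), mul_one, add_sub_cancel]
    · simp [rp, rp']
    · rfl

open Classical in
/-- The rotation of the lines. -/
noncomputable def rl (a : K) : SP K → SP K
  | Sum.inl x => Sum.inl (x.2, x.1 - x.2 * a)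
  | Sum.inr (Sum.inl A) => if A = 0 then Sum.inr (Sum.inr ()) else Sum.inr (Sum.inl (a + A⁻¹))
  | Sum.inr (Sum.inr _) => Sum.inr (Sum.inl a)

open Classical in
/-- The inverse rotation of the lines. -/
noncomputable def rl' (a : K) : SP K → SP K
  | Sum.inl x => Sum.inl (x.2 + x.1 * a, x.1)
  | Sum.inr (Sum.inl A) => if A = a then Sum.inr (Sum.inr ()) else Sum.inr (Sum.inl (A - a)⁻¹)
  | Sum.inr (Sum.inr _) => Sum.inr (Sum.inl 0)

/-- The rotation of the lines as an equivalence. -/
noncomputable def rle (a : K) : SP K ≃ SP K where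
  toFun := rl a
  invFun := rl' a
  left_inv := by
    rintro (⟨y, m⟩ | (A | ⟨⟩))
    · simp [rl, rl']
    · by_cases hA : A = 0
      · simp [rl, rl', hA]
      · have h1 : a + A⁻¹ ≠ a := by
          intro h
          exact hA (inv_eq_zero.1 (add_eq_left.1 h))
        simp only [rl, rl', if_neg hA, if_neg h1, add_sub_cancel_left, inv_inv]
    · simp [rl, rl']
  right_inv := by
    rintro (⟨y, m⟩ | (A | ⟨⟩))
    · simp [rl, rl']
    · by_cases hA : A = a
      · simp [rl, rl', hA]
      · have h1 : (A - a)⁻¹ ≠ 0 := inv_ne_zero (sub_ne_zero.2 hA)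
        simp only [rl, rl', if_neg hA, if_neg h1, inv_inv, add_sub_cancel]
    · simp [rl, rl']

theorem sinc_rot (a : K) (s t : SP K) : sinc s t ↔ sinc (rp a s) (rl a t) := by
  rcases s with ⟨A, B⟩ | (y | ⟨⟩)
  · by_cases hA : A = 0
    · have hp : rp a (Sum.inl (A, B)) = Sum.inr (Sum.inl B) := by simp [rp, hA]
      rw [hp]
      rcases t with ⟨y', m⟩ | (a' | ⟨⟩)
      · simp only [rl, sinc, hA, mul_zero, zero_add]
      · by_cases h : a' = 0
        · simp [rl, sinc, hA, h]
        · have : ¬ (0 = a') := fun h2 => h h2.symm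
          simp [rl, sinc, hA, h, this]
      · simp [rl, sinc]
    · have hp : rp a (Sum.inl (A, B)) = Sum.inl (a + A⁻¹, B * A⁻¹) := by simp [rp, hA]
      rw [hp]
      rcases t with ⟨y', m⟩ | (a' | ⟨⟩)
      · simp only [rl, sinc]
        constructor
        · intro h
          rw [h]
          field_simp
          ring
        · intro h
          field_simp at h
          linear_combination h
      · by_cases h : a' = 0
        · simp [rl, sinc, hA, h]
        · simp [rl, sinc, h]
      · have h1 : ¬ (a + A⁻¹ = a) := by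
          intro h
          exact hA (inv_eq_zero.1 (add_eq_left.1 h))
        simp [rl, sinc, hA]
  · have hp : rp a (Sum.inr (Sum.inl y)) = Sum.inl (a, y) := rfl
    rw [hp]
    rcases t with ⟨y', m⟩ | (a' | ⟨⟩)
    · simp only [rl, sinc]
      constructor
      · intro h
        rw [h]
        ring
      · intro h
        rw [h]
        ring
    · by_cases h : a' = 0
      · simp [rl, sinc, h]
      · simp [rl, sinc, h]
    · simp [rl, sinc]
  · have hp : rp a (Sum.inr (Sum.inr ())) = Sum.inr (Sum.inr ()) := rfl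
    rw [hp]
    rcases t with ⟨y', m⟩ | (a' | ⟨⟩)
    · simp [rl, sinc]
    · by_cases h : a' = 0
      · simp [rl, sinc, h]
      · simp [rl, sinc, h]
    · simp [rl, sinc]

end ROT_

open ROT_ in
theorem rot_proof : Stmt_Rot.{u} := by
  intro K _ Z f
  constructor
  · intro c
    refine ⟨⟨(sh c).trans f.p, (sh c).trans f.l, fun s t => ?_⟩, ?_, ?_, ?_, ?_⟩
    · rw [sinc_sh c]
      exact f.hinc _ _
    · intro y m; rfl
    · intro t; rfl
    · intro t; rfl
    · intro a b; rfl
  · intro a
    refine ⟨⟨(rpe a).trans f.p, (rle a).trans f.l, fun s t => ?_⟩, ?_, ?_, ?_, ?_, ?_, ?_⟩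
    · rw [sinc_rot a]
      exact f.hinc _ _
    · rfl
    · rfl
    · change f.l (rl a (Sum.inr (Sum.inl 0))) = f.l inf
      simp [rl, inf]
    · intro A hA
      change f.l (rl a (Sum.inr (Sum.inl A))) = f.l (Sum.inr (Sum.inl (a + A⁻¹)))
      simp [rl, hA]
    · intro y m; rfl
    · intro y; rfl

end Pool.Agent.CLH
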