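import Pool.Agent.CLH.Stmts

set_option autoImplicit false

open scoped BigOperators
open Module

namespace Pool.Agent.CLH

universe u

open Pool.Agent.Helper58.Cyl

namespace SMW_

section gen

variable {K : Type u} [Field K] [Fintype K]

/-- an additive map on `K` with a nonzero kernel element has kernel size divisible by `p` -/
theorem dvd_ker {p h : ℕ} [Fact p.Prime] (hq : Fintype.card K = p ^ h)
    {Y : Type*} [AddCommGroup Y] (f : K →+ Y) (hf : ∃ l, l ≠ 0 ∧ f l = 0) :
    p ∣ Nat.card {l : K // f l = 0} := by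
  have h1 : Nat.card {l : K // f l = 0} = Nat.card f.ker := rfl
  have h2 : Nat.card f.ker ∣ p ^ h := by
    rw [← hq, ← Nat.card_eq_fintype_card]
    exact AddSubgroup.card_addSubgroup_dvd_card f.ker
  obtain ⟨k, -, hk2⟩ := (Nat.dvd_prime_pow (Fact.out : p.Prime)).1 h2
  rcases Nat.eq_zero_or_pos k with h0 | h0
  · exfalso
    rw [h0, pow_zero, Nat.card_eq_one_iff_unique] at hk2
    obtain ⟨l, hl, hfl⟩ := hf
    have hs := hk2.1
    have h3 : (⟨l, hfl⟩ : f.ker) = ⟨0, map_zero f⟩ := Subsingleton.elim _ _
    exact hl (congrArg Subtype.val h3)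
  · rw [h1, hk2]
    exact dvd_pow_self p (by omega)

variable {V : Type*} [AddCommGroup V] [Module K V]
variable {Y : Type*} [AddCommGroup Y]

theorem wordT {p h : ℕ} [Fact p.Prime] (hq : Fintype.card K = p ^ h) (hh : 1 ≤ h) [Finite Y]
    (hY : Nat.card Y * p ≤ Fintype.card K * Fintype.card K) (g : V →+ Y) :
    IsWord K (T K p g) where
  zero := by
    have : Nat.card {l : K // g (l • (0 : V)) = 0} = p ^ h := by
      rw [← hq, ← Nat.card_eq_fintype_card]
      exact Nat.card_congr (Equiv.subtypeUnivEquiv (fun _ => by simp))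
    unfold T
    rw [this]
    simp
    omega
  smul a v ha := by
    simp only [T]
    congr 1
    refine Nat.card_congr ((Equiv.mulRight₀ a ha).subtypeEquiv fun l => ?_)
    simp [mul_smul]
  line u v := by
    classical
    have hcard : ∀ w : V, Nat.card {l : K // g (l • w) = 0}
        = ∑ l : K, if g (l • w) = 0 then 1 else 0 := by
      intro w
      rw [Nat.card_eq_fintype_card, Fintype.card_subtype, Finset.card_filter]
    let N : ℕ := ∑ l : K, ∑ m : K, if g (l • v + m • u) = 0 then 1 else 0
    have h1 : Nat.card {l : K // g (l • u) = 0}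
        + ∑ a : K, Nat.card {l : K // g (l • (v + a • u)) = 0} = N + Fintype.card K := by
      simp only [hcard]
      rw [Finset.sum_comm (s := Finset.univ) (t := Finset.univ)]
      simp only [N]
      rw [← Finset.add_sum_erase Finset.univ
          (fun l : K => ∑ a : K, if g (l • (v + a • u)) = 0 then 1 else 0)
          (Finset.mem_univ (0 : K)),
        ← Finset.add_sum_erase Finset.univ
          (fun l : K => ∑ m : K, if g (l • v + m • u) = 0 then 1 else 0) (Finset.mem_univ (0 : K))]
      have h2 : ∀ l ∈ Finset.univ.erase (0 : K),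
          (∑ a : K, if g (l • (v + a • u)) = 0 then 1 else 0)
          = ∑ m : K, if g (l • v + m • u) = 0 then 1 else 0 := by
        intro l hl
        have hl0 : l ≠ 0 := by simpa using hl
        refine Fintype.sum_equiv (Equiv.mulLeft₀ l hl0) _ _ fun a => ?_
        simp [smul_add, mul_smul]
      rw [Finset.sum_congr rfl h2]
      simp only [zero_smul, map_zero, if_true, Finset.sum_const, Finset.card_univ, smul_eq_mul,
        mul_one, zero_add]
      ring
    have h2 : p ∣ N := by
      let f : K × K →+ Y :=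
        { toFun := fun x => g (x.1 • v + x.2 • u)
          map_zero' := by simp
          map_add' := by
            intro x y
            rw [← map_add]
            congr 1
            simp only [Prod.fst_add, Prod.snd_add]
            module }
      have hN : N = Nat.card f.ker := by
        have : N = ∑ x : K × K, if f x = 0 then 1 else 0 := by
          rw [Fintype.sum_prod_type]
          rfl
        rw [this, ← Finset.card_filter, ← Fintype.card_subtype, ← Nat.card_eq_fintype_card]
        rfl
      rw [hN]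
      have h3 := AddSubgroup.card_mul_index f.ker
      rw [AddSubgroup.index_ker, Nat.card_prod, Nat.card_eq_fintype_card (α := K)] at h3
      have h4 : Nat.card f.range ≤ Nat.card Y :=
        Nat.card_le_card_of_injective _ Subtype.coe_injective
      have h5 : Nat.card f.ker ∣ p ^ (h + h) := by
        refine ⟨Nat.card f.range, ?_⟩
        rw [h3, hq, pow_add]
      obtain ⟨k, hk, hk2⟩ := (Nat.dvd_prime_pow (Fact.out : p.Prime)).1 h5
      have hp := (Fact.out : p.Prime).two_le
      rcases Nat.eq_zero_or_pos k with h0 | h0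
      · exfalso
        rw [hk2, h0, pow_zero, one_mul] at h3
        have h6 : Nat.card f.range * p ≤ Fintype.card K * Fintype.card K :=
          (Nat.mul_le_mul_right p h4).trans hY
        rw [h3] at h6
        have h7 : 0 < Fintype.card K * Fintype.card K :=
          Nat.mul_pos Fintype.card_pos Fintype.card_pos
        nlinarith
      · rw [hk2]
        exact dvd_pow_self p (by omega)
    have h3 := congrArg (fun n : ℕ => (n : ZMod p)) h1
    simp only [Nat.cast_add, Nat.cast_sum] at h3
    simp only [T]
    rw [h3, hq]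
    have h4 : (N : ZMod p) = 0 := (CharP.cast_eq_zero_iff (ZMod p) p N).2 h2
    rw [h4]
    simp
    omega

end gen

section explicit

variable (K : Type u) [Field K] [Fintype K] (p : ℕ) [Fact p.Prime] [CharP K p]

/-- Frobenius as an additive map -/
noncomputable def fr : K →+ K := (frobenius K p).toAddMonoidHom

/-- `x ^ p - x` -/
noncomputable def ph : K →+ K := fr K p - AddMonoidHom.id K

/-- coordinate -/
noncomputable def co (i : Fin 3) : (Fin 3 → K) →+ K := Pi.evalAddMonoidHom (fun _ => K) i

/-- first map -/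
noncomputable def g1 : (Fin 3 → K) →+ K × (ph K p).range :=
  (co K 1 - (fr K p).comp (co K 0)).prod ((ph K p).rangeRestrict.comp (co K 2))

theorem fr_apply (x : K) : fr K p x = x ^ p := rfl
theorem ph_apply (x : K) : ph K p x = x ^ p - x := rfl
theorem co_apply (i : Fin 3) (v : Fin 3 → K) : co K i v = v i := rfl

theorem g1_eq_zero (v : Fin 3 → K) : g1 K p v = 0 ↔ v 1 = (v 0) ^ p ∧ (v 2) ^ p = v 2 := by
  constructor
  · intro h
    have h1 : v 1 - (v 0) ^ p = 0 := congrArg Prod.fst h
    have h2 : (v 2) ^ p - v 2 = 0 := congrArg (fun x => (x.2 : K)) h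
    exact ⟨sub_eq_zero.1 h1, sub_eq_zero.1 h2⟩
  · rintro ⟨h1, h2⟩
    refine Prod.ext ?_ (Subtype.ext ?_)
    · change v 1 - (v 0) ^ p = 0
      exact sub_eq_zero.2 h1
    · change (v 2) ^ p - v 2 = 0
      exact sub_eq_zero.2 h2

theorem card_ker : Nat.card (ph K p).ker = p := by
  have h1 : Nat.card (ph K p).ker = Nat.card (S K) := by
    refine Nat.card_congr (Equiv.subtypeEquivRight fun x => ?_)
    rw [AddMonoidHom.mem_ker, ph_apply, sub_eq_zero, mem_S]
    exact (Subfield.mem_bot_iff_pow_eq_self K p).symm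
  rw [h1]
  exact card_S

theorem card_range : Nat.card (ph K p).range * p = Fintype.card K := by
  have h3 := AddSubgroup.card_mul_index (ph K p).ker
  rw [AddSubgroup.index_ker, card_ker, Nat.card_eq_fintype_card (α := K)] at h3
  rw [mul_comm]
  exact h3

variable {p}

theorem T2_ne {v : Fin 3 → K} (h : v 2 ≠ 0) : T K p (co K 2) v = 1 := by
  unfold T
  have : Nat.card {l : K // co K 2 (l • v) = 0} = 1 := by
    rw [Nat.card_eq_one_iff_unique]
    constructor
    · constructor
      rintro ⟨a, ha⟩ ⟨b, hb⟩
      have ha' : a * v 2 = 0 := ha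
      have hb' : b * v 2 = 0 := hb
      have h1 : a = 0 := by simpa [h] using ha'
      have h2 : b = 0 := by simpa [h] using hb'
      exact Subtype.ext (h1.trans h2.symm)
    · exact ⟨⟨0, by simp⟩⟩
  rw [this]
  simp

theorem T2_eq {h : ℕ} (hq : Fintype.card K = p ^ h) (hh : 1 ≤ h) {v : Fin 3 → K}
    (h2 : v 2 = 0) : T K p (co K 2) v = 0 := by
  unfold T
  have : Nat.card {l : K // co K 2 (l • v) = 0} = p ^ h := by
    rw [← hq, ← Nat.card_eq_fintype_card]
    refine Nat.card_congr (Equiv.subtypeUnivEquiv fun l => ?_)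
    change l * v 2 = 0
    rw [h2, mul_zero]
  rw [this]
  simp
  omega

theorem T1_eq {h : ℕ} (hq : Fintype.card K = p ^ h) {v : Fin 3 → K}
    (hv : ∃ l : K, l ≠ 0 ∧ l * v 1 = (l * v 0) ^ p ∧ (l * v 2) ^ p = l * v 2) :
    T K p (g1 K p) v = 0 := by
  unfold T
  obtain ⟨l, hl, h1, h2⟩ := hv
  have h3 := dvd_ker (p := p) hq ((g1 K p).comp
    ((LinearMap.toSpanSingleton K (Fin 3 → K) v).toAddMonoidHom)) ⟨l, hl, by
      change g1 K p (l • v) = 0
      rw [g1_eq_zero]
      exact ⟨h1, h2⟩⟩
  exact (CharP.cast_eq_zero_iff (ZMod p) p _).2 h3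

theorem T1_ne {v : Fin 3 → K} (h2 : v 2 ≠ 0) (hv : v 1 / v 2 ≠ (v 0 / v 2) ^ p) :
    T K p (g1 K p) v = 1 := by
  have h0 : ∀ l : K, g1 K p (l • v) = 0 → l = 0 := by
    intro l hl
    rw [g1_eq_zero] at hl
    obtain ⟨ha, hb⟩ := hl
    by_contra hne
    apply hv
    have ha' : l * v 1 = (l * v 0) ^ p := ha
    have hb' : (l * v 2) ^ p = l * v 2 := hb
    have h3 : l * v 2 ≠ 0 := mul_ne_zero hne h2
    calc v 1 / v 2 = (l * v 1) / (l * v 2) := by field_simp
      _ = (l * v 0) ^ p / (l * v 2) ^ p := by rw [ha', hb']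
      _ = (v 0 / v 2) ^ p := by
        rw [← div_pow]
        congr 1
        field_simp
  unfold T
  have : Nat.card {l : K // g1 K p (l • v) = 0} = 1 := by
    rw [Nat.card_eq_one_iff_unique]
    constructor
    · constructor
      rintro ⟨a, ha⟩ ⟨b, hb⟩
      exact Subtype.ext ((h0 a ha).trans (h0 b hb).symm)
    · exact ⟨⟨0, by simp⟩⟩
  rw [this]
  simp

/-- the range of the `(p-1)`-st power map is large -/
theorem card_pow : Fintype.card K - 1 ≤
    Nat.card (powMonoidHom (α := Kˣ) (p - 1)).range * (p - 1) := by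
  classical
  have hp := (Fact.out : p.Prime).two_le
  have : NeZero (p - 1) := ⟨by omega⟩
  have h3 := Subgroup.card_mul_index (powMonoidHom (α := Kˣ) (p - 1)).ker
  rw [Subgroup.index_ker] at h3
  have h4 : Nat.card Kˣ = Fintype.card K - 1 := by
    rw [Nat.card_eq_fintype_card, Fintype.card_units]
  have h5 : Nat.card (powMonoidHom (α := Kˣ) (p - 1)).ker ≤ p - 1 := by
    have h6 : (powMonoidHom (α := Kˣ) (p - 1)).ker = rootsOfUnity (p - 1) K := by
      ext x
      rw [MonoidHom.mem_ker, powMonoidHom_apply, mem_rootsOfUnity]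
    rw [h6]
    exact card_rootsOfUnity K (p - 1)
  rw [← h4, ← h3, mul_comm]
  exact Nat.mul_le_mul_left _ h5

end explicit

end SMW_

open SMW_ in
theorem smw_proof : Stmt_Smw.{u} := by
  intro K _ _ p h _ _ hq hh
  classical
  have hp := (Fact.out : p.Prime).two_le
  have hpp := (Fact.out : p.Prime)
  have hqp : p ≤ Fintype.card K := by
    rw [hq]
    calc p = p ^ 1 := (pow_one p).symm
      _ ≤ p ^ h := Nat.pow_le_pow_right (by omega) hh
  have hw2 : IsWord K (T K p (co K 2)) := by
    apply wordT hq hh
    rw [Nat.card_eq_fintype_card]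
    exact Nat.mul_le_mul_left _ hqp
  have hw1 : IsWord K (T K p (g1 K p)) := by
    apply wordT hq hh
    rw [Nat.card_prod, Nat.card_eq_fintype_card (α := K), mul_assoc, card_range]
  refine ⟨fun v => T K p (co K 2) v - T K p (g1 K p) v, hw2.sub hw1, ?_, ?_⟩
  · refine ⟨Pi.single 2 1, ?_⟩
    have h1 : T K p (co K 2) (Pi.single 2 1) = 1 := T2_ne K (by simp)
    have h2 : T K p (g1 K p) (Pi.single 2 1) = 0 := by
      apply T1_eq K hq
      refine ⟨1, one_ne_zero, ?_, ?_⟩
      · simp [hpp.ne_zero]
      · simp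
    change T K p (co K 2) (Pi.single 2 1) - T K p (g1 K p) (Pi.single 2 1) ≠ 0
    rw [h1, h2]
    simp
  · set F : (Fin 3 → K) → ZMod p := fun v => T K p (co K 2) v - T K p (g1 K p) v with hF
    set R := (powMonoidHom (α := Kˣ) (p - 1)).range with hR
    let fA : Kˣ × K → (Fin 3 → K) := fun x => ![x.1 * x.2, x.1 * x.2 ^ p, x.1]
    let B : Set (Fin 3 → K) := {v | v 2 = 0 ∧ F v ≠ 0}
    let fZ : Option (Kˣ × R) → (Fin 3 → K) := fun x =>
      match x with
      | none => 0
      | some x => ![(x.1 : K), ((x.2 : Kˣ) : K) * (x.1 : K) ^ p, 0]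
    have hsub : {v | True ∧ F v ≠ 0} ⊆ Set.range fA ∪ B := by
      rintro v ⟨-, hv⟩
      by_cases h2 : v 2 = 0
      · exact Or.inr ⟨h2, hv⟩
      · left
        have h3 : v 1 / v 2 = (v 0 / v 2) ^ p := by
          by_contra hne
          apply hv
          change T K p (co K 2) v - T K p (g1 K p) v = 0
          rw [T2_ne K h2, T1_ne K h2 hne, sub_self]
        refine ⟨(Units.mk0 _ h2, v 0 / v 2), ?_⟩
        ext i
        fin_cases i
        · change v 2 * (v 0 / v 2) = v 0
          field_simp
        · change v 2 * (v 0 / v 2) ^ p = v 1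
          rw [← h3]
          field_simp
        · rfl
    have hA : (Set.range fA).ncard ≤ (Fintype.card K - 1) * Fintype.card K := by
      rw [← Set.image_univ]
      refine (Set.ncard_image_le (Set.toFinite _)).trans ?_
      rw [Set.ncard_univ, Nat.card_prod, Nat.card_eq_fintype_card, Nat.card_eq_fintype_card,
        Fintype.card_units]
    have hZinj : Function.Injective fZ := by
      rintro (_ | ⟨a, y⟩) (_ | ⟨b, z⟩) hxy
      · rfl
      · exfalso
        have h0 : (0 : K) = (b : K) := congrFun hxy 0
        exact b.ne_zero h0.symm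
      · exfalso
        have h0 : (a : K) = (0 : K) := congrFun hxy 0
        exact a.ne_zero h0
      · have h0 : (a : K) = (b : K) := congrFun hxy 0
        have h1 : ((y : Kˣ) : K) * (a : K) ^ p = ((z : Kˣ) : K) * (b : K) ^ p := congrFun hxy 1
        have hab : a = b := Units.ext h0
        subst hab
        have h2 : ((y : Kˣ) : K) = ((z : Kˣ) : K) :=
          mul_right_cancel₀ (pow_ne_zero p a.ne_zero) h1
        have h3 : y = z := Subtype.ext (Units.ext h2)
        rw [h3]
    have hZcard : (Set.range fZ).ncard = (Fintype.card K - 1) * Nat.card R + 1 := by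
      rw [← Set.image_univ, Set.ncard_image_of_injective _ hZinj, Set.ncard_univ,
        Finite.card_option, Nat.card_prod, Nat.card_eq_fintype_card (α := Kˣ),
        Fintype.card_units]
    have hZ0 : ∀ v ∈ Set.range fZ, v 2 = 0 ∧ F v = 0 := by
      rintro v ⟨x, rfl⟩
      have h2 : fZ x 2 = 0 := by
        rcases x with _ | ⟨a, y⟩ <;> rfl
      refine ⟨h2, ?_⟩
      change T K p (co K 2) (fZ x) - T K p (g1 K p) (fZ x) = 0
      have h3 : T K p (g1 K p) (fZ x) = 0 := by
        apply T1_eq K hq
        rcases x with _ | ⟨a, ⟨y, hy⟩⟩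
        · refine ⟨1, one_ne_zero, ?_, ?_⟩
          · change (1 : K) * 0 = (1 * 0) ^ p
            simp [hpp.ne_zero]
          · change ((1 : K) * 0) ^ p = 1 * 0
            simp [hpp.ne_zero]
        · obtain ⟨l, hl⟩ := hy
          rw [powMonoidHom_apply] at hl
          refine ⟨(l : K), l.ne_zero, ?_, ?_⟩
          · change (l : K) * ((y : K) * (a : K) ^ p) = ((l : K) * (a : K)) ^ p
            rw [← hl, Units.val_pow_eq_pow_val, mul_pow]
            have h4 : (l : K) ^ p = (l : K) * (l : K) ^ (p - 1) := by
              rw [← pow_succ']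
              congr 1
              omega
            rw [h4]
            ring
          · change ((l : K) * 0) ^ p = (l : K) * 0
            simp [hpp.ne_zero]
      rw [T2_eq K hq hh h2, h3, sub_zero]
    have hBZ : B.ncard + (Set.range fZ).ncard ≤ Fintype.card K * Fintype.card K := by
      have hd : Disjoint B (Set.range fZ) := by
        rw [Set.disjoint_left]
        rintro v ⟨-, hv⟩ hv2
        exact hv (hZ0 v hv2).2
      rw [← Set.ncard_union_eq hd (Set.toFinite _) (Set.toFinite _)]
      let fP : K × K → (Fin 3 → K) := fun x => ![x.1, x.2, 0]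
      have hs : B ∪ Set.range fZ ⊆ Set.range fP := by
        intro v hv
        have h2 : v 2 = 0 := by
          rcases hv with hv | hv
          · exact hv.1
          · exact (hZ0 v hv).1
        refine ⟨(v 0, v 1), ?_⟩
        ext i
        fin_cases i
        · rfl
        · rfl
        · exact h2.symm
      refine (Set.ncard_le_ncard hs (Set.toFinite _)).trans ?_
      rw [← Set.image_univ]
      refine (Set.ncard_image_le (Set.toFinite _)).trans ?_
      rw [Set.ncard_univ, Nat.card_prod, Nat.card_eq_fintype_card]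
    have hcnt : cnt F (fun _ => True) ≤ (Set.range fA).ncard + B.ncard := by
      change {v | True ∧ F v ≠ 0}.ncard ≤ _
      exact (Set.ncard_le_ncard hsub (Set.toFinite _)).trans (Set.ncard_union_le _ _)
    have hpow := card_pow K (p := p)
    rw [hZcard] at hBZ
    -- arithmetic
    obtain ⟨Q, hQ⟩ : ∃ Q, Fintype.card K = Q + 1 := ⟨Fintype.card K - 1, by omega⟩
    obtain ⟨P, hP⟩ : ∃ P, p = P + 1 := ⟨p - 1, by omega⟩
    rw [hQ] at hA hBZ ⊢
    rw [hQ] at hpow
    have hP1 : p - 1 = P := by omega
    have hQ1 : Q + 1 - 1 = Q := by omega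
    rw [hQ1] at hA hBZ hpow ⊢
    rw [hP1] at hpow ⊢
    have hpow' : Q ≤ Nat.card R * P := by
      have : Nat.card (powMonoidHom (α := Kˣ) (p - 1)).range = Nat.card R := rfl
      rw [hP1] at this
      rw [← this]
      exact hpow
    have e1 : P * cnt F (fun _ => True) ≤ P * (Q * (Q + 1)) + P * B.ncard := by
      rw [← mul_add]
      exact Nat.mul_le_mul_left _ (hcnt.trans (Nat.add_le_add_right hA _))
    have e2 : P * B.ncard + Q * (Nat.card R * P) + P ≤ P * ((Q + 1) * (Q + 1)) := by
      have := Nat.mul_le_mul_left P hBZ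
      calc P * B.ncard + Q * (Nat.card R * P) + P
          = P * (B.ncard + (Q * Nat.card R + 1)) := by ring
        _ ≤ _ := this
    have e3 : Q * Q ≤ Q * (Nat.card R * P) := Nat.mul_le_mul_left _ hpow'
    have e4 : Q * (P * (2 * (Q + 1)) + p) = P * (Q * (Q + 1)) + P * (Q * (Q + 1)) + Q * P + Q := by
      rw [hP]; ring
    rw [e4]
    have e5 : P * ((Q + 1) * (Q + 1)) = P * (Q * (Q + 1)) + Q * P + P := by ring
    rw [e5] at e2
    have e6 : Q * (Q + 1) = Q * Q + Q := by ring
    rw [e6] at e1 e2 ⊢
    omega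

end Pool.Agent.CLH
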