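import Pool.Agent.CLH.Stmts

set_option autoImplicit false

/-!
# CLH: module SUBF, a subfield
-/

open scoped BigOperators Polynomial
open Module Polynomial

namespace Pool.Agent.CLH

universe u

namespace SUBF_

variable {K : Type u} [Field K] [Fintype K]

/-- The lines through the vertical point. -/
lemma ps_inf {Z : Pl K} (f : Z.Fr) (g : Z.Ln → ℕ) :
    Z.ps g (f.p inf) = g (f.l inf) + ∑ a : K, g (ver f a) := by
  classical
  unfold Pl.ps
  rw [← Equiv.sum_comp f.l, Fintype.sum_sum_type, Fintype.sum_sum_type]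
  have e1 : ∑ t : K × K, (if Z.inc (f.p inf) (f.l (Sum.inl t)) then g (f.l (Sum.inl t)) else 0)
      = 0 := by
    refine Finset.sum_eq_zero fun t _ => if_neg ?_
    rw [← f.hinc]
    exact fun h => h
  have e2 : ∀ t : K ⊕ Unit, Z.inc (f.p inf) (f.l (Sum.inr t)) := by
    intro t
    rw [← f.hinc]
    cases t <;> exact trivial
  rw [e1, zero_add]
  rw [Finset.sum_congr rfl (fun a _ => if_pos (e2 (Sum.inl a))),
    Finset.sum_congr rfl (fun a _ => if_pos (e2 (Sum.inr a)))]
  simp only [Finset.univ_unique, Finset.sum_singleton]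
  rw [add_comm]
  rfl

/-- The number of vertical lines with `b = 1`. -/
lemma sum_beta {Z : Pl K} (f : Z.Fr) (b : Z.Ln → ℕ) (hb : ∀ l, b l = 0 ∨ b l = 1)
    (β : Finset K) (hβ : ∀ a, a ∈ β ↔ b (ver f a) = 1) : ∑ a : K, b (ver f a) = β.card := by
  classical
  rw [Finset.card_eq_sum_ones, ← Finset.sum_subset (Finset.subset_univ β)]
  · exact Finset.sum_congr rfl fun a ha => (hβ a).1 ha
  · intro a _ ha
    rcases hb (ver f a) with h | h
    · exact h
    · exact absurd ((hβ a).2 h) ha

/-- A case of Lucas' theorem. -/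
lemma lucas (p e κ : ℕ) [hp : Fact p.Prime] (he : 1 ≤ e) (hκ : ¬ p ∣ κ) :
    ¬ p ∣ (1 + p ^ e * κ).choose (p ^ e) := by
  have hp1 : 1 < p := hp.out.one_lt
  have key : ∀ e : ℕ, 1 ≤ e → (1 + p ^ e * κ).choose (p ^ e) ≡ κ [MOD p] := by
    intro e he
    have h0 : (1 + p ^ e * κ).choose (p ^ e) ≡ (p ^ (e - 1) * κ).choose (p ^ (e - 1)) [MOD p] := by
      have h := @Choose.choose_modEq_choose_mod_mul_choose_div_nat (1 + p ^ e * κ) (p ^ e) p _
      obtain ⟨e', rfl⟩ : ∃ e', e = e' + 1 := ⟨e - 1, by omega⟩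
      have e1 : p ^ (e' + 1) % p = 0 := by rw [pow_succ]; exact Nat.mul_mod_left _ _
      have e2 : p ^ (e' + 1) / p = p ^ e' := by
        rw [pow_succ]; exact Nat.mul_div_cancel _ (by omega)
      have e3 : (1 + p ^ (e' + 1) * κ) / p = p ^ e' * κ := by
        rw [pow_succ, show 1 + p ^ e' * p * κ = 1 + p * (p ^ e' * κ) by ring,
          Nat.add_mul_div_left _ _ (by omega), Nat.div_eq_of_lt hp1, zero_add]
      rw [e1, e2, e3, Nat.choose_zero_right, one_mul] at h
      simpa using h
    have h1 : ∀ n : ℕ, (p ^ n * κ).choose (p ^ n) ≡ κ [MOD p] := by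
      intro n
      induction n with
      | zero => simp [Nat.ModEq.refl]
      | succ n ih =>
        have h := @Choose.choose_modEq_choose_mod_mul_choose_div_nat (p ^ (n + 1) * κ)
          (p ^ (n + 1)) p _
        have e1 : p ^ (n + 1) % p = 0 := by rw [pow_succ]; exact Nat.mul_mod_left _ _
        have e2 : p ^ (n + 1) / p = p ^ n := by
          rw [pow_succ]; exact Nat.mul_div_cancel _ (by omega)
        have e3 : (p ^ (n + 1) * κ) / p = p ^ n * κ := by
          rw [pow_succ, show p ^ n * p * κ = p * (p ^ n * κ) by ring]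
          exact Nat.mul_div_cancel_left _ (by omega)
        rw [e1, e2, e3, Nat.choose_zero_right, one_mul] at h
        exact h.trans ih
    exact h0.trans (h1 _)
  intro h
  exact hκ ((Nat.modEq_zero_iff_dvd).1 ((key e he).symm.trans ((Nat.modEq_zero_iff_dvd).2 h)))

end SUBF_

open SUBF_

open Classical in
theorem subf_proof (h1 : Stmt_Has.{u}) (h2 : Stmt_Pln.{u}) : Stmt_Subf.{u} := by
  intro K _ _ p h s hp _ hq hp3 hs hsh Z k κ b hsys hb hk ⟨x, hx⟩
  have hp0 : 0 < p := by omega
  have hps : 0 < p ^ s := pow_pos hp0 s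
  set E := p ^ (h - s) with hE
  have hqE : Fintype.card K = p ^ s * E := by
    rw [hq, hE, ← pow_add]
    congr 1
    omega
  have hE3 : 3 ≤ E := by
    calc 3 ≤ p := hp3
      _ = p ^ 1 := (pow_one p).symm
      _ ≤ E := Nat.pow_le_pow_right hp0 (by omega)
  -- the number of lines with b = 1
  have hps1 : ∀ x, Z.ps b x = 1 + E * κ x := by
    intro x
    have e := hsys.point x
    have e2 : Z.ps (fun l => p ^ s * b l) x = p ^ s * Z.ps b x := by
      unfold Pl.ps
      rw [Finset.mul_sum]
      refine Finset.sum_congr rfl fun l _ => ?_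
      split_ifs <;> simp
    rw [e2, hqE] at e
    have e3 : p ^ s * Z.ps b x = p ^ s * (1 + E * κ x) := by rw [e]; ring
    exact Nat.eq_of_mul_eq_mul_left hps e3
  obtain ⟨-, hps2, -⟩ := h2 K Z
  -- a line with b = 0 through x
  obtain ⟨li, hli, hbi⟩ : ∃ l, Z.inc x l ∧ b l = 0 := by
    by_contra hcon
    push_neg at hcon
    have e1 : Z.ps b x = Z.ps (fun _ => 1) x := by
      unfold Pl.ps
      refine Finset.sum_congr rfl fun l _ => ?_
      split_ifs with h
      · rcases hb l with h' | h'
        · exact absurd h' (hcon l h)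
        · exact h'
      · rfl
    rw [hps1, hps2] at e1
    have e2 : E * κ x = E * p ^ s := by
      have : E * κ x = Fintype.card K := by omega
      rw [this, hqE]; ring
    have e3 := Nat.eq_of_mul_eq_mul_left (by omega : 0 < E) e2
    apply hx
    rw [e3]
    exact dvd_pow_self p (by omega)
  obtain ⟨f, hfx, hfl⟩ := Z.frame x li hli
  have hβex : ∀ f : Z.Fr, ∃ β : Finset K, ∀ a, a ∈ β ↔ b (ver f a) = 1 := fun f =>
    ⟨Finset.univ.filter fun a => b (ver f a) = 1, fun a => by simp⟩
  obtain ⟨β, hβ⟩ := hβex f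
  have hβc : β.card = 1 + E * κ x := by
    have e := ps_inf f b
    rw [hfx, hfl, hbi, hps1, sum_beta f b hb β hβ] at e
    omega
  have hκ1 : 1 ≤ κ x := by
    rcases Nat.eq_zero_or_pos (κ x) with h0 | h0
    · exact absurd (by rw [h0]; exact dvd_zero p) hx
    · exact h0
  obtain ⟨-, hb2⟩ := h1 K p h s hq hp3 hs hsh Z k κ b hsys hb hk f β hβ
  -- some root of P is not a root of the Hasse derivative
  set P : K[X] := ∏ a ∈ β, (X - C a) with hP
  have hPm : P.Monic := monic_prod_of_monic _ _ fun a _ => monic_X_sub_C a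
  have hPd : P.natDegree = 1 + E * κ x := by
    rw [hP, natDegree_prod_of_monic _ _ fun a _ => monic_X_sub_C a]
    simp [hβc]
  obtain ⟨a, haβ, haE⟩ : ∃ a ∈ β, (hasseDeriv E P).eval a ≠ 0 := by
    by_contra hcon
    push_neg at hcon
    have hz : hasseDeriv E P = 0 := by
      refine eq_zero_of_natDegree_lt_card_of_eval_eq_zero' _ β (fun i hi => hcon i hi) ?_
      refine lt_of_le_of_lt (natDegree_hasseDeriv_le P E) ?_
      rw [hPd, hβc]
      omega
    have hc : (hasseDeriv E P).coeff (1 + E * (κ x - 1)) = 0 := by rw [hz]; simp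
    rw [hasseDeriv_coeff] at hc
    have e1 : 1 + E * (κ x - 1) + E = 1 + E * κ x := by
      obtain ⟨c, hc'⟩ : ∃ c, κ x = c + 1 := ⟨κ x - 1, by omega⟩
      rw [hc', Nat.add_sub_cancel]
      ring
    rw [e1] at hc
    have e2 : P.coeff (1 + E * κ x) = 1 := by
      rw [← hPd]
      exact hPm.coeff_natDegree
    rw [e2, mul_one, CharP.cast_eq_zero_iff K p] at hc
    exact lucas p (h - s) (κ x) (by omega) hx hc
  have hcard := hb2 a haβ haE
  -- a point of weight one
  obtain ⟨x', hx'l, hx'1⟩ : ∃ x', Z.inc x' (ver f a) ∧ κ x' = 1 := by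
    by_contra hcon
    push_neg at hcon
    have e1 : Z.ls κ (ver f a) = k + p ^ s := by
      have := hsys.line (ver f a)
      rw [(hβ a).1 haβ] at this
      simpa using this
    have e2 : 2 * (Finset.univ.filter fun x => Z.inc x (ver f a) ∧ κ x ≠ 0).card ≤
        Z.ls κ (ver f a) := by
      unfold Pl.ls
      rw [mul_comm, ← smul_eq_mul, ← Finset.sum_const]
      calc ∑ _x ∈ Finset.univ.filter (fun x => Z.inc x (ver f a) ∧ κ x ≠ 0), 2
          ≤ ∑ x ∈ Finset.univ.filter (fun x => Z.inc x (ver f a) ∧ κ x ≠ 0),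
            (if Z.inc x (ver f a) then κ x else 0) := by
            refine Finset.sum_le_sum fun y hy => ?_
            rw [Finset.mem_filter] at hy
            rw [if_pos hy.2.1]
            have := hcon y hy.2.1
            have := hy.2.2
            omega
        _ ≤ _ := Finset.sum_le_sum_of_subset (Finset.filter_subset _ _)
    omega
  obtain ⟨f', hfx', hfl'⟩ := Z.frame x' (ver f a) hx'l
  obtain ⟨β', hβ'⟩ := hβex f'
  have hβc' : β'.card = E := by
    have e := ps_inf f' b
    rw [hfx', hfl', (hβ a).1 haβ, hps1, sum_beta f' b hb β' hβ', hx'1] at e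
    omega
  obtain ⟨hb1, -⟩ := h1 K p h s hq hp3 hs hsh Z k κ b hsys hb hk f' β' hβ'
  set Q : K[X] := ∏ a ∈ β', (X - C a) with hQ
  have hQm : Q.Monic := monic_prod_of_monic _ _ fun a _ => monic_X_sub_C a
  have hQd : Q.natDegree = E := by
    rw [hQ, natDegree_prod_of_monic _ _ fun a _ => monic_X_sub_C a]
    simp [hβc']
  have hQe : ∀ a ∈ β', a ^ E + Q.coeff 1 * a + Q.coeff 0 = 0 := by
    intro a ha
    have e1 : Q.eval a = 0 := by
      rw [hQ, eval_prod]
      exact Finset.prod_eq_zero ha (by simp)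
    rw [eval_eq_sum_range, hQd] at e1
    have hsub : ({0, 1, E} : Finset ℕ) ⊆ Finset.range (E + 1) := by
      intro n hn
      simp only [Finset.mem_insert, Finset.mem_singleton] at hn
      rw [Finset.mem_range]
      omega
    rw [← Finset.sum_subset hsub, Finset.sum_insert (by simp; omega),
      Finset.sum_insert (by simp; omega), Finset.sum_singleton, ← hQd, hQm.coeff_natDegree,
      hQd] at e1
    · rw [← e1]
      ring
    · intro n hn hn'
      rw [Finset.mem_range] at hn
      simp only [Finset.mem_insert, Finset.mem_singleton, not_or] at hn'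
      have hz : Q.coeff n = 0 := by
        by_contra hne
        have hm := hb1 n hne
        rw [← hE, Nat.mod_eq_of_lt (by omega)] at hm
        omega
      rw [hz, zero_mul]
  obtain ⟨a0, ha0⟩ : ∃ a0, a0 ∈ β' := Finset.card_pos.1 (by omega)
  obtain ⟨a1, ha1, hne⟩ : ∃ a1 ∈ β', a1 ≠ a0 := by
    by_contra hcon
    push_neg at hcon
    have : β' ⊆ {a0} := fun y hy => by rw [Finset.mem_singleton]; exact hcon y hy
    have := Finset.card_le_card this
    rw [Finset.card_singleton] at this
    omega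
  have ht : ∀ a ∈ β', (a - a0) ^ E = -Q.coeff 1 * (a - a0) := by
    intro a ha
    have e1 := hQe a ha
    have e2 := hQe a0 ha0
    have e3 : (a - a0) ^ E = a ^ E - a0 ^ E := by
      rw [hE]
      exact sub_pow_char_pow (p := p) a a0 (h - s)
    rw [e3]
    linear_combination e1 - e2
  have hn1 : a1 - a0 ≠ 0 := sub_ne_zero.2 hne
  have hu : -Q.coeff 1 ≠ 0 := by
    intro h0
    have e1 := ht a1 ha1
    rw [h0, zero_mul] at e1
    exact hn1 (pow_eq_zero_iff (by omega)|>.1 e1)
  have hfin : (β'.image fun a => (a - a0) / (a1 - a0)).card = E := by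
    rw [← hβc']
    refine Finset.card_image_of_injective β' (fun a b hab => ?_)
    simpa [div_left_inj' hn1] using hab
  rw [← hfin]
  refine Finset.card_le_card ?_
  rw [hfin]
  intro z hz
  rw [Finset.mem_image] at hz
  obtain ⟨a, ha, rfl⟩ := hz
  rw [Finset.mem_filter]
  refine ⟨Finset.mem_univ _, ?_⟩
  rw [div_pow, ht a ha, ht a1 ha1]
  exact mul_div_mul_left _ _ hu

end Pool.Agent.CLH
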