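import Pool.Agent.CLH.Stmts

set_option autoImplicit false
set_option linter.unusedSectionVars false
set_option linter.style.haveILetI false

/-!
# CLH, module TAU: the number of external functionals through a point
-/

namespace Pool.Agent.CLH

open Module
open Pool.Agent.Helper58.Cyl

universe u

/-- TAU. -/
theorem tau_proof (h1 : Stmt_Mom.{u}) (h2 : Stmt_Degt.{u}) : Stmt_Tau.{u} := by
  classical
  intro K _ _ p h _ _ hq hp3 hh V _ _ _ hV F hF P Q hM
  haveI : FiniteDimensional K V := Module.finite_of_finrank_pos (by omega)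
  haveI : Finite (Dual K V) := Module.finite_of_finite K
  haveI : Fintype (Dual K V) := Fintype.ofFinite _
  have hpp : p.Prime := Fact.out
  have hq2 : 2 < Fintype.card K := by
    rw [hq]
    calc 2 < p := by omega
      _ = p ^ 1 := (pow_one p).symm
      _ ≤ p ^ h := Nat.pow_le_pow_right (by omega) hh
  have hQq : p ^ (h - 1) < Fintype.card K := by
    rw [hq]; exact Nat.pow_lt_pow_right (by omega) (by omega)
  by_contra hcon
  push Not at hcon
  set A : Set (Dual K V) := {y : Dual K V | hyp F y = 0 ∧ y P = 0 ∧ y Q = 1} with hA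
  have hAf : A.Finite := Set.toFinite _
  obtain ⟨y0, hy0⟩ : A.Nonempty := by
    rw [← Set.ncard_pos hAf]; omega
  have hA2 : p ^ (h - 1) ≤ (A \ {y0}).ncard := by
    rw [Set.ncard_sdiff_singleton_of_mem hy0]; omega
  obtain ⟨S', hS'1, hS'2⟩ : ∃ S' : Finset (Dual K V), (S' : Set (Dual K V)) ⊆ A \ {y0} ∧
      S'.card = p ^ (h - 1) := by
    have h3 : p ^ (h - 1) ≤ (A \ {y0}).toFinset.card := by
      rw [← Set.ncard_eq_toFinset_card']; exact hA2
    obtain ⟨S', h4, h5⟩ := Finset.exists_subset_card_eq h3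
    refine ⟨S', ?_, h5⟩
    intro y hy
    have := h4 hy
    simpa using this
  have hS'm : ∀ y ∈ S', hyp F y = 0 ∧ y P = 0 ∧ y Q = 1 ∧ y ≠ y0 := by
    intro y hy
    have h3 := hS'1 hy
    exact ⟨h3.1.1, h3.1.2.1, h3.1.2.2, h3.2⟩
  obtain ⟨v, hv⟩ := avoid (S'.image fun y => y - y0)
    (lt_of_le_of_lt Finset.card_image_le (by omega)) (by
      intro φ hφ
      obtain ⟨y, hy, rfl⟩ := Finset.mem_image.1 hφ
      exact sub_ne_zero.2 (hS'm y hy).2.2.2)
  set e2 : V := v - y0 v • Q with he2
  have hye2 : ∀ y ∈ S', y e2 ≠ 0 := by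
    intro y hy
    have h3 := hv (y - y0) (Finset.mem_image_of_mem _ hy)
    rw [he2, map_sub, map_smul, (hS'm y hy).2.2.1, smul_eq_mul, mul_one]
    exact h3
  have hy0e2 : y0 e2 = 0 := by
    rw [he2, map_sub, map_smul, hy0.2.2, smul_eq_mul, mul_one, sub_self]
  obtain ⟨w, hw⟩ := exists_notMem_span (K := K) ![P, Q, e2] (by rw [hV]; norm_num)
  obtain ⟨χ, hχ1, hχ2⟩ := exists_functional _ hw
  have hχP : χ P = 0 := hχ2 P (Submodule.subset_span ⟨0, rfl⟩)
  have hχQ : χ Q = 0 := hχ2 Q (Submodule.subset_span ⟨1, rfl⟩)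
  have hχe : χ e2 = 0 := hχ2 e2 (Submodule.subset_span ⟨2, rfl⟩)
  set e1 : V := w - y0 w • Q with he1
  have hχe1 : χ e1 = 1 := by simp [he1, hχ1, hχQ]
  have hy0e1 : y0 e1 = 0 := by simp [he1, hy0.2.2]
  have hP0 : P ≠ 0 := by
    rintro rfl
    apply hM
    simp only [smul_zero, add_zero]
    rw [← Finset.sum_mul]
    have h3 : ∑ z : K, z = 0 := by
      have := FiniteField.sum_pow_lt_card_sub_one K 1 (by omega)
      simpa using this
    rw [h3, zero_mul]
  set G : V → K := lift K F with hG
  have hGw : IsWord K G := isWord_lift hF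
  set f : K → K → K := fun a b => ∑ z : K, z * G (Q + a • e1 + b • e2 + z • P) with hf
  have hf0 : f 0 0 ≠ 0 := by
    simp only [hf, zero_smul, add_zero]
    exact hM
  apply hf0
  refine h2 K p h hq hp3 hh f ?_ (S'.image fun y => (-(y e1 / y e2), -(y e2)⁻¹)) ?_ ?_ 0 0
  · intro a b α β _ j hj hpj
    have h3 := h1 K p V G hq2 hGw y0 (by
      intro u hu
      rw [hG, lift_eq_zero]
      exact hyp_eq_zero.1 hy0.1 u hu) P (α • e1 + β • e2) (Q + a • e1 + b • e2) hy0.2.1
      (by simp [hy0e1, hy0e2]) j hj hpj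
    rw [← h3]
    refine Finset.sum_congr rfl fun t _ => ?_
    simp only [hf]
    congr 1
    refine Finset.sum_congr rfl fun z _ => ?_
    congr 2
    module
  · intro x hx a
    obtain ⟨y, hy, rfl⟩ := Finset.mem_image.1 hx
    obtain ⟨hy1, hy2, hy3, -⟩ := hS'm y hy
    simp only [hf]
    apply Finset.sum_eq_zero
    intro z _
    have h3 : G (Q + a • e1 + (-(y e1 / y e2) * a + -(y e2)⁻¹) • e2 + z • P) = 0 := by
      rw [hG, lift_eq_zero]
      apply hyp_eq_zero.1 hy1
      have h4 := hye2 y hy
      simp only [map_add, map_smul, hy2, hy3, smul_eq_mul]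
      field_simp
      ring
    rw [h3, mul_zero]
  · rw [Finset.card_image_of_injOn, hS'2]
    have hne : S'.Nonempty := by
      rw [← Finset.card_pos, hS'2]; positivity
    obtain ⟨y1, hy1⟩ := hne
    have hli : LinearIndependent K ![P, Q, e2, e1] := by
      rw [Fintype.linearIndependent_iff]
      intro g hg
      simp only [Fin.sum_univ_four, Matrix.cons_val_zero, Matrix.cons_val_one, Matrix.cons_val] at hg
      have a3 : g 3 = 0 := by
        have := congrArg χ hg
        simpa [hχP, hχQ, hχe, hχe1] using this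
      have a1 : g 1 = 0 := by
        have := congrArg y0 hg
        simpa [hy0.2.1, hy0.2.2, hy0e2, hy0e1] using this
      have a2 : g 2 = 0 := by
        have := congrArg y1 hg
        have h4 := hye2 y1 hy1
        simpa [a1, a3, (hS'm y1 hy1).2.1, h4] using this
      have a0 : g 0 = 0 := by
        rw [a1, a2, a3] at hg
        simpa [hP0] using hg
      intro i
      fin_cases i
      · exact a0
      · exact a1
      · exact a2
      · exact a3
    have hspan := hli.span_eq_top_of_card_eq_finrank' (by simp [hV])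
    intro y hy y' hy' heq
    have hy := Finset.mem_coe.1 hy
    have hy' := Finset.mem_coe.1 hy'
    simp only [Prod.mk.injEq, neg_inj, inv_inj] at heq
    obtain ⟨b1, b2⟩ := heq
    rw [b2] at b1
    have h4 := hye2 y' hy'
    have b3 : y e1 = y' e1 := by
      field_simp at b1
      exact b1
    apply LinearMap.ext_on hspan
    rintro u ⟨i, rfl⟩
    fin_cases i
    · simp [(hS'm y hy).2.1, (hS'm y' hy').2.1]
    · simp [(hS'm y hy).2.2.1, (hS'm y' hy').2.2.1]
    · simpa using b2
    · simpa using b3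

end Pool.Agent.CLH
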