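import Pool.Agent.CLH.Stmts

set_option autoImplicit false
set_option linter.unusedSectionVars false
set_option linter.style.haveILetI false

open scoped BigOperators Polynomial LinearAlgebra.Projectivization
open Module Polynomial
open Pool.Agent.Helper58.Cyl (IsWord hyp tot cnt D2 lift TT cnt_congr cnt_pos_iff hyp_eq_zero
  finrank_ker exists_functional lift_eq_zero)

namespace Pool.Agent.CLH

universe u

noncomputable section

namespace TOL_

variable {K : Type u} [Field K] [Fintype K] {V : Type u} [AddCommGroup V] [Module K V]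

/-- the projection along `P` -/
def pr (y0 : Dual K V) (P : V) (hP : y0 P = 1) : V →ₗ[K] LinearMap.ker y0 where
  toFun v := ⟨v - y0 v • P, by simp [hP]⟩
  map_add' v w := by
    apply Subtype.ext
    simp only [map_add, Submodule.coe_add]
    module
  map_smul' a v := by
    apply Subtype.ext
    simp only [map_smul, smul_eq_mul, RingHom.id_apply, Submodule.coe_smul]
    module

theorem pr_coe (y0 : Dual K V) (P : V) (hP : y0 P = 1) (v : V) :
    ((pr y0 P hP v : LinearMap.ker y0) : V) = v - y0 v • P := rfl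

theorem pr_sub (y0 : Dual K V) (P : V) (hP : y0 P = 1) (w : LinearMap.ker y0) (z : K) :
    pr y0 P hP ((w : V) + z • P) = w := by
  apply Subtype.ext
  have hw : y0 (w : V) = 0 := w.2
  rw [pr_coe]
  simp [hP, hw]

open Classical in
/-- the number of the support points on the line `P x` -/
def ss {p : ℕ} (F : V → ZMod p) (y0 : Dual K V) (P : V) (x : ℙ K (LinearMap.ker y0)) : ℕ :=
  (Finset.univ.filter fun z : K => F ((x.rep : V) + z • P) ≠ 0).card

open Classical in
/-- the main counting identity -/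
theorem key [Finite V] {p : ℕ} {F : V → ZMod p} (hF : IsWord K F) (y0 : Dual K V) (P : V)
    (hP : y0 P = 1) [Fintype (ℙ K (LinearMap.ker y0))] (Q : ℙ K (LinearMap.ker y0) → Prop) :
    (Fintype.card K - 1) * ∑ x, (if Q x then ss F y0 P x else 0) =
      cnt F (fun v => ∃ h : pr y0 P hP v ≠ 0, Q (Projectivization.mk K (pr y0 P hP v) h)) := by
  have hmk : ∀ (x : ℙ K (LinearMap.ker y0)) (a : Kˣ) (h : a • x.rep ≠ 0),
      Projectivization.mk K (a • x.rep) h = x := by
    intro x a h
    conv_rhs => rw [← x.mk_rep]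
    rw [Projectivization.mk_eq_mk_iff]
    exact ⟨a, rfl⟩
  have hne : ∀ (x : ℙ K (LinearMap.ker y0)) (a : Kˣ), a • x.rep ≠ 0 := by
    intro x a
    rw [Units.smul_def]
    exact smul_ne_zero a.ne_zero x.rep_nonzero
  have hpr : ∀ (x : ℙ K (LinearMap.ker y0)) (z : K) (a : Kˣ),
      pr y0 P hP ((a : K) • ((x.rep : V) + z • P)) = a • x.rep := by
    intro x z a
    rw [map_smul, pr_sub, Units.smul_def]
  let S : Type u := {v : V // (∃ h : pr y0 P hP v ≠ 0,
    Q (Projectivization.mk K (pr y0 P hP v) h)) ∧ F v ≠ 0}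
  let T : Type u := (Σ x : {x : ℙ K (LinearMap.ker y0) // Q x},
    {z : K // F ((x.1.rep : V) + z • P) ≠ 0}) × Kˣ
  have hmem : ∀ t : T, (∃ h : pr y0 P hP ((t.2 : K) • ((t.1.1.1.rep : V) + t.1.2.1 • P)) ≠ 0,
      Q (Projectivization.mk K (pr y0 P hP ((t.2 : K) • ((t.1.1.1.rep : V) + t.1.2.1 • P))) h)) ∧
      F ((t.2 : K) • ((t.1.1.1.rep : V) + t.1.2.1 • P)) ≠ 0 := by
    intro t
    refine ⟨⟨?_, ?_⟩, ?_⟩
    · rw [hpr]; exact hne _ _
    · have e : Projectivization.mk K (pr y0 P hP ((t.2 : K) • ((t.1.1.1.rep : V) + t.1.2.1 • P)))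
          (by rw [hpr]; exact hne _ _) = t.1.1.1 := by
        simp only [hpr]
        exact hmk _ _ _
      rw [e]
      exact t.1.1.2
    · rw [hF.smul _ _ t.2.ne_zero]
      exact t.1.2.2
  let f : T → S := fun t => ⟨(t.2 : K) • ((t.1.1.1.rep : V) + t.1.2.1 • P), hmem t⟩
  have hP0 : P ≠ 0 := by
    rintro rfl
    simp at hP
  have hf : Function.Bijective f := by
    constructor
    · rintro ⟨⟨⟨x, hx⟩, ⟨z, hz⟩⟩, a⟩ ⟨⟨⟨x', hx'⟩, ⟨z', hz'⟩⟩, b⟩ h
      have h1 : (a : K) • ((x.rep : V) + z • P) = (b : K) • ((x'.rep : V) + z' • P) :=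
        congrArg Subtype.val h
      have h2 : a • x.rep = b • x'.rep := by
        rw [← hpr x z a, ← hpr x' z' b, h1]
      have h3 : x = x' := by
        rw [← hmk x a (hne x a), ← hmk x' b (hne x' b)]
        congr 1
      subst h3
      have h4 : (a : K) = b := by
        have h5 : ((a : K) - b) • x.rep = 0 := by
          rw [sub_smul, ← Units.smul_def, ← Units.smul_def, h2, sub_self]
        rcases smul_eq_zero.1 h5 with h6 | h6
        · exact sub_eq_zero.1 h6
        · exact absurd h6 x.rep_nonzero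
      have h5 : a = b := Units.ext h4
      subst h5
      have h6 : (x.rep : V) + z • P = (x.rep : V) + z' • P := by
        have := congrArg (fun v => (a⁻¹ : Kˣ) • v) h1
        simpa [Units.smul_def] using this
      have h7 : z • P = z' • P := add_left_cancel h6
      have h8 : z = z' := by
        have h9 : (z - z') • P = 0 := by rw [sub_smul, h7, sub_self]
        rcases smul_eq_zero.1 h9 with h | h
        · exact sub_eq_zero.1 h
        · exact absurd h hP0
      subst h8
      rfl
    · rintro ⟨v, ⟨hv, hvQ⟩, hFv⟩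
      obtain ⟨a, ha⟩ := Projectivization.exists_smul_eq_mk_rep K (pr y0 P hP v) hv
      have hv1 : v = ((a⁻¹ : Kˣ) : K) •
          (((Projectivization.mk K (pr y0 P hP v) hv).rep : V) + ((a : K) * y0 v) • P) := by
        have h1 : ((Projectivization.mk K (pr y0 P hP v) hv).rep : V) =
            (a : K) • (v - y0 v • P) := by
          rw [← ha]
          rfl
        rw [h1, mul_smul, ← smul_add, smul_smul, Units.inv_mul, one_smul]
        simp
      have hFr : F (((Projectivization.mk K (pr y0 P hP v) hv).rep : V) +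
          ((a : K) * y0 v) • P) ≠ 0 := by
        rw [hv1, hF.smul _ _ (a⁻¹).ne_zero] at hFv
        exact hFv
      refine ⟨⟨⟨⟨Projectivization.mk K (pr y0 P hP v) hv, hvQ⟩, ⟨(a : K) * y0 v, hFr⟩⟩, a⁻¹⟩, ?_⟩
      apply Subtype.ext
      exact hv1.symm
  have hcard := Nat.card_congr (Equiv.ofBijective f hf)
  have hS : Nat.card S = cnt F (fun v => ∃ h : pr y0 P hP v ≠ 0,
      Q (Projectivization.mk K (pr y0 P hP v) h)) := rfl
  have hT : Nat.card T = (Fintype.card K - 1) * ∑ x, (if Q x then ss F y0 P x else 0) := by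
    have hT1 : Nat.card T = Nat.card (Σ x : {x : ℙ K (LinearMap.ker y0) // Q x},
        {z : K // F ((x.1.rep : V) + z • P) ≠ 0}) * Nat.card Kˣ := Nat.card_prod _ _
    rw [hT1, Nat.card_eq_fintype_card (α := Kˣ), Fintype.card_units, mul_comm]
    congr 1
    rw [Nat.card_sigma]
    simp only [Nat.card_eq_fintype_card]
    have e1 : ∀ x : {x : ℙ K (LinearMap.ker y0) // Q x},
        Fintype.card {z : K // F ((x.1.rep : V) + z • P) ≠ 0} = ss F y0 P x.1 := by
      intro x
      rw [Fintype.card_subtype]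
      rfl
    simp only [e1]
    rw [← Finset.sum_filter]
    exact (Finset.sum_subtype (Finset.univ.filter Q) (by simp) (fun x => ss F y0 P x)).symm
  rw [← hT, hcard, hS]

/-- the lift of a functional -/
def lf (y0 : Dual K V) (P : V) (hP : y0 P = 1) (l : Dual K (LinearMap.ker y0)) : Dual K V :=
  l ∘ₗ pr y0 P hP

theorem lf_apply (y0 : Dual K V) (P : V) (hP : y0 P = 1) (l : Dual K (LinearMap.ker y0)) (v : V) :
    lf y0 P hP l v = l (pr y0 P hP v) := rfl

theorem pr_P (y0 : Dual K V) (P : V) (hP : y0 P = 1) : pr y0 P hP P = 0 := by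
  apply Subtype.ext
  rw [pr_coe]
  simp [hP]

theorem lf_P (y0 : Dual K V) (P : V) (hP : y0 P = 1) (l : Dual K (LinearMap.ker y0)) :
    lf y0 P hP l P = 0 := by
  rw [lf_apply, pr_P, map_zero]

theorem pr_mem (y0 : Dual K V) (P : V) (hP : y0 P = 1) (w : LinearMap.ker y0) :
    pr y0 P hP (w : V) = w := by
  have h := pr_sub y0 P hP w 0
  rwa [zero_smul, add_zero] at h

theorem lf_mem (y0 : Dual K V) (P : V) (hP : y0 P = 1) (l : Dual K (LinearMap.ker y0))
    (w : LinearMap.ker y0) : lf y0 P hP l (w : V) = l w := by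
  rw [lf_apply, pr_mem]

theorem lf_ne (y0 : Dual K V) (P : V) (hP : y0 P = 1) {l : Dual K (LinearMap.ker y0)}
    (hl : l ≠ 0) : lf y0 P hP l ≠ 0 := by
  intro h
  apply hl
  ext w
  have := congrArg (fun ψ : Dual K V => ψ (w : V)) h
  simpa [lf_mem] using this

/-- the support avoids the line spanned by `P` -/
theorem pr_ne {p : ℕ} {F : V → ZMod p} (hF : IsWord K F) (y0 : Dual K V) (P : V)
    (hP : y0 P = 1) (hFP : F P = 0) {v : V} (hv : F v ≠ 0) : pr y0 P hP v ≠ 0 := by
  intro h
  have h1 : v = y0 v • P := by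
    have := congrArg Subtype.val h
    rw [pr_coe] at this
    exact sub_eq_zero.1 this
  by_cases h2 : y0 v = 0
  · rw [h2, zero_smul] at h1
    rw [h1] at hv
    exact hv hF.zero
  · rw [h1, hF.smul _ _ h2] at hv
    exact hv hFP

/-- incidence and the lifted functional -/
theorem inc_mk (y0 : Dual K V) (P : V) (hP : y0 P = 1) (φ : ℙ K (Dual K (LinearMap.ker y0)))
    (v : V) (h : pr y0 P hP v ≠ 0) :
    pinc (Projectivization.mk K (pr y0 P hP v) h) φ ↔ lf y0 P hP φ.rep v = 0 := by
  obtain ⟨a, ha⟩ := Projectivization.exists_smul_eq_mk_rep K (pr y0 P hP v) h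
  unfold pinc
  rw [← ha, Units.smul_def, map_smul, smul_eq_mul, lf_apply]
  constructor
  · intro h1
    rcases mul_eq_zero.1 h1 with h2 | h2
    · exact absurd h2 a.ne_zero
    · exact h2
  · intro h1
    rw [h1, mul_zero]

open Classical in
theorem hypid [Finite V] {p : ℕ} {F : V → ZMod p} (hF : IsWord K F) (y0 : Dual K V) (P : V)
    (hP : y0 P = 1) (hFP : F P = 0) [Fintype (ℙ K (LinearMap.ker y0))]
    (φ : ℙ K (Dual K (LinearMap.ker y0))) :
    (Fintype.card K - 1) * ∑ x, (if pinc x φ then ss F y0 P x else 0) =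
      hyp F (lf y0 P hP φ.rep) := by
  rw [key hF y0 P hP]
  unfold hyp
  apply cnt_congr
  intro v hv
  constructor
  · rintro ⟨h, h1⟩
    exact (inc_mk y0 P hP φ v h).1 h1
  · intro h1
    exact ⟨pr_ne hF y0 P hP hFP hv, (inc_mk y0 P hP φ v _).2 h1⟩

theorem totid [Finite V] {p : ℕ} {F : V → ZMod p} (hF : IsWord K F) (y0 : Dual K V) (P : V)
    (hP : y0 P = 1) (hFP : F P = 0) [Fintype (ℙ K (LinearMap.ker y0))] :
    (Fintype.card K - 1) * ∑ x, ss F y0 P x = tot F := by
  have h := key hF y0 P hP (fun _ => True)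
  simp only [if_true] at h
  rw [h]
  unfold tot
  apply cnt_congr
  intro v hv
  constructor
  · intro _; trivial
  · intro _; exact ⟨pr_ne hF y0 P hP hFP hv, trivial⟩

theorem ss_ne_one {p : ℕ} {F : V → ZMod p} (hF : IsWord K F) (y0 : Dual K V) (P : V)
    (hFP : F P = 0) (x : ℙ K (LinearMap.ker y0)) : ss F y0 P x ≠ 1 := by
  classical
  intro h
  obtain ⟨z, hz⟩ := Finset.card_eq_one.1 h
  have h1 := hF.line P (x.rep : V)
  rw [hFP, zero_add] at h1
  have h2 : ∑ a : K, F ((x.rep : V) + a • P) = F ((x.rep : V) + z • P) := by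
    apply Finset.sum_eq_single
    · intro b _ hb
      by_contra h3
      have : b ∈ (Finset.univ.filter fun z : K => F ((x.rep : V) + z • P) ≠ 0) := by
        simp [h3]
      rw [hz, Finset.mem_singleton] at this
      exact hb this
    · intro h3
      exact absurd (Finset.mem_univ _) h3
  have h3 : z ∈ (Finset.univ.filter fun z : K => F ((x.rep : V) + z • P) ≠ 0) := by
    rw [hz]; simp
  rw [Finset.mem_filter] at h3
  apply h3.2
  rw [← h2]
  exact h1

end TOL_

open TOL_ in
theorem tol_proof (h1 : Stmt_Frm.{u}) (h2 : Stmt_Tau.{u}) : Stmt_Tol.{u} := by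
  classical
  intro K _ _ p h D _ _ V _ _ _ F hp hh M P hP0 hFP
  obtain ⟨y0, hyP, -⟩ := exists_functional (K := K) (⊥ : Submodule K V) (v := P)
    (by rw [Submodule.mem_bot]; exact hP0)
  have hy0 : y0 ≠ 0 := by
    rintro rfl
    simp at hyP
  have hW : finrank K (LinearMap.ker y0) = 3 := finrank_ker (n := 3) M.hV hy0
  haveI : Finite (ℙ K (LinearMap.ker y0)) := Quotient.finite _
  haveI : Finite (Dual K (LinearMap.ker y0)) := Module.finite_of_finite K
  haveI : Finite (ℙ K (Dual K (LinearMap.ker y0))) := Quotient.finite _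
  letI i1 : Fintype (ℙ K (LinearMap.ker y0)) := Fintype.ofFinite _
  letI i2 : Fintype (ℙ K (Dual K (LinearMap.ker y0))) := Fintype.ofFinite _
  obtain ⟨hfr, x0, φ0, h0⟩ := h1 K (LinearMap.ker y0) hW
  let Z : Pl K := ⟨ℙ K (LinearMap.ker y0), ℙ K (Dual K (LinearMap.ker y0)), i1, i2, pinc, hfr,
    ⟨x0, φ0, h0⟩⟩
  let s : Z.Pt → ℕ := fun x => ss F y0 P x
  let L : Dual K V → Z.Ln := fun ψ => if hψ : ψ ∘ₗ (LinearMap.ker y0).subtype ≠ 0 then
    Projectivization.mk K (ψ ∘ₗ (LinearMap.ker y0).subtype) hψ else φ0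
  let v : Z.Pt → V := fun x => ((Projectivization.rep (K := K) x : LinearMap.ker y0) : V)
  have hq2 : 2 ≤ Fintype.card K := by have := M.small; have := M.pos; omega
  have hls : ∀ φ : Z.Ln, (Fintype.card K - 1) * Z.ls s φ =
      hyp F (lf y0 P hyP (Projectivization.rep (K := K) φ)) := by
    intro φ
    rw [← hypid M.word y0 P hyP hFP φ]
    rfl
  have htt : (Fintype.card K - 1) * ∑ x, s x = tot F := totid M.word y0 P hyP hFP
  refine ⟨Z, s, L, v, ⟨?_, ?_, ?_, M.pos, M.small⟩, ?_, ?_, ?_⟩
  · intro x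
    exact ss_ne_one M.word y0 P hFP x
  · intro l
    rcases M.low (lf y0 P hyP (Projectivization.rep (K := K) l))
      (lf_ne y0 P hyP (Projectivization.rep_nonzero l)) with h3 | h3
    · left
      rw [← hls l] at h3
      rcases Nat.mul_eq_zero.1 h3 with h4 | h4
      · omega
      · exact h4
    · right
      rw [← hls l] at h3
      have h4 := M.hD
      have h5 : (Fintype.card K - 1) * (2 * Fintype.card K) ≤
          (Fintype.card K - 1) * (Z.ls s l + D) := by
        rw [← h4, mul_add]
        omega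
      exact Nat.le_of_mul_le_mul_left h5 (by omega)
  · have h3 := M.htot
    have h4 := M.hD
    have h5 : (Fintype.card K - 1) * (∑ x, s x + Fintype.card K * D) =
        (Fintype.card K - 1) * (2 * Fintype.card K ^ 2) := by
      rw [mul_add, htt, h3]
      calc Fintype.card K * D2 K p + (Fintype.card K - 1) * (Fintype.card K * D)
          = Fintype.card K * (D2 K p + (Fintype.card K - 1) * D) := by ring
        _ = Fintype.card K * ((Fintype.card K - 1) * (2 * Fintype.card K)) := by rw [h4]
        _ = _ := by ring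
    exact Nat.eq_of_mul_eq_mul_left (by omega) h5
  · intro ψ hψ hψP
    have hψpr : ∀ w : V, ψ w = (ψ ∘ₗ (LinearMap.ker y0).subtype) (pr y0 P hyP w) := by
      intro w
      rw [LinearMap.comp_apply, Submodule.subtype_apply, pr_coe]
      simp [hψP]
    have hne : ψ ∘ₗ (LinearMap.ker y0).subtype ≠ 0 := by
      intro h3
      apply hψ
      ext w
      rw [hψpr w, h3]
      rfl
    have hL : L ψ = Projectivization.mk K (ψ ∘ₗ (LinearMap.ker y0).subtype) hne := dif_pos hne
    obtain ⟨a, ha⟩ := Projectivization.exists_smul_eq_mk_rep K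
      (ψ ∘ₗ (LinearMap.ker y0).subtype) hne
    have hrep : Projectivization.rep (K := K) (L ψ) =
        (a : K) • (ψ ∘ₗ (LinearMap.ker y0).subtype) := by
      rw [hL, ← ha, Units.smul_def]
    constructor
    · rw [hls]
      have h3 : lf y0 P hyP (Projectivization.rep (K := K) (L ψ)) = (a : K) • ψ := by
        ext w
        rw [lf_apply, hrep, LinearMap.smul_apply, LinearMap.smul_apply, ← hψpr w]
      rw [h3]
      exact Pool.Agent.Helper58.Cyl.hyp_smul F ψ a.ne_zero
    · intro x
      have h3 : Z.inc x (L ψ) ↔ (Projectivization.rep (K := K) (L ψ))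
          (Projectivization.rep (K := K) x) = 0 := Iff.rfl
      rw [h3, hrep, LinearMap.smul_apply, smul_eq_mul]
      constructor
      · intro h4
        rcases mul_eq_zero.1 h4 with h5 | h5
        · exact absurd h5 a.ne_zero
        · exact h5
      · intro h4
        have h5 : (ψ ∘ₗ (LinearMap.ker y0).subtype) (Projectivization.rep (K := K) x) = 0 := h4
        rw [h5, mul_zero]
  · intro x hx
    rw [Submodule.mem_span_singleton] at hx
    obtain ⟨c, hc⟩ := hx
    have h3 : y0 (v x) = 0 := (Projectivization.rep (K := K) x).2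
    rw [← hc] at h3
    simp only [map_smul, hyP, smul_eq_mul, mul_one] at h3
    have h4 : v x = 0 := by rw [← hc, h3, zero_smul]
    exact Projectivization.rep_nonzero (K := K) x (Subtype.ext h4)
  · rintro ⟨Q, hQ⟩
    have h3 := h2 K p h M.hq hp (by omega) V M.hV F M.word P Q hQ
    refine le_trans ?_ h3
    obtain ⟨z, hz⟩ : ∃ z : K, F (Q + z • P) ≠ 0 := by
      by_contra hcon
      push Not at hcon
      apply hQ
      apply Finset.sum_eq_zero
      intro z _
      rw [lift_eq_zero.2 (hcon z), mul_zero]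
    have hne : ∀ l : Z.Ln, Z.ls s l = 0 →
        (Projectivization.rep (K := K) l) (pr y0 P hyP Q) ≠ 0 := by
      intro l hl h4
      have h5 : hyp F (lf y0 P hyP (Projectivization.rep (K := K) l)) = 0 := by
        rw [← hls l, hl, mul_zero]
      rw [hyp_eq_zero] at h5
      apply hz
      apply h5
      rw [map_add, map_smul, lf_P, smul_zero, add_zero, lf_apply]
      exact h4
    have htau : tau Z s = {l : Z.Ln | Z.ls s l = 0}.ncard := by
      unfold tau ext
      rw [← Finset.card_filter, Set.ncard_eq_toFinset_card']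
      congr 1
      ext l
      simp
    rw [htau]
    haveI : Finite (Dual K V) := Module.finite_of_finite K
    refine Set.ncard_le_ncard_of_injOn
      (fun l => ((Projectivization.rep (K := K) l) (pr y0 P hyP Q))⁻¹ •
        lf y0 P hyP (Projectivization.rep (K := K) l)) ?_ ?_ (Set.toFinite _)
    · intro l hl
      refine ⟨?_, ?_, ?_⟩
      · rw [Pool.Agent.Helper58.Cyl.hyp_smul F _ (inv_ne_zero (hne l hl)), ← hls l]
        have : Z.ls s l = 0 := hl
        rw [this, mul_zero]
      · rw [LinearMap.smul_apply, lf_P, smul_zero]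
      · rw [LinearMap.smul_apply, lf_apply, smul_eq_mul, inv_mul_cancel₀ (hne l hl)]
    · intro l hl l' hl' h4
      have h5 : ((Projectivization.rep (K := K) l) (pr y0 P hyP Q))⁻¹ •
          (Projectivization.rep (K := K) l) =
          ((Projectivization.rep (K := K) l') (pr y0 P hyP Q))⁻¹ •
          (Projectivization.rep (K := K) l') := by
        ext w
        have h6 := congrArg (fun y : Dual K V => y (w : V)) h4
        simp only [LinearMap.smul_apply, lf_mem] at h6
        exact h6
      rw [← Projectivization.mk_rep (K := K) l, ← Projectivization.mk_rep (K := K) l',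
        Projectivization.mk_eq_mk_iff']
      refine ⟨(Projectivization.rep (K := K) l) (pr y0 P hyP Q) *
        ((Projectivization.rep (K := K) l') (pr y0 P hyP Q))⁻¹, ?_⟩
      rw [mul_smul, ← h5, smul_smul, mul_inv_cancel₀ (hne l hl), one_smul]

end

end Pool.Agent.CLH
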