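import Pool.Agent.CLH.Stmts

set_option autoImplicit false

/-! # TWOW: two weights modulo `q` -/

open scoped BigOperators

namespace Pool.Agent.CLH

universe u

namespace TWOW_

variable {K : Type u} [Field K]

open Classical in
theorem ls_mono {Z : Pl K} {f g : Z.Pt → ℕ} {l : Z.Ln} (h : ∀ x, Z.inc x l → f x ≤ g x) :
    Z.ls f l ≤ Z.ls g l := by
  unfold Pl.ls
  refine Finset.sum_le_sum fun x _ => ?_
  by_cases hx : Z.inc x l
  · simp only [hx, if_true]; exact h x hx
  · simp only [hx, if_false]; exact le_rfl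

open Classical in
theorem ls_const {Z : Pl K} (c : ℕ) (l : Z.Ln) :
    Z.ls (fun _ => c) l = c * Z.ls (fun _ => 1) l := by
  unfold Pl.ls
  rw [Finset.mul_sum]
  refine Finset.sum_congr rfl fun x _ => ?_
  by_cases hx : Z.inc x l
  · simp only [hx, if_true, mul_one]
  · simp only [hx, if_false, mul_zero]

open Classical in
theorem le_ps {Z : Pl K} {g : Z.Ln → ℕ} {x : Z.Pt} {l : Z.Ln} (h : Z.inc x l) :
    g l ≤ Z.ps g x := by
  unfold Pl.ps
  have h1 := Finset.single_le_sum (s := Finset.univ)
    (f := fun l : Z.Ln => if Z.inc x l then g l else 0) (fun _ _ => Nat.zero_le _)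
    (Finset.mem_univ l)
  simpa only [h, if_true] using h1

open Classical in
theorem le_ps2 {Z : Pl K} {g : Z.Ln → ℕ} {x : Z.Pt} {l m : Z.Ln} (h : Z.inc x l)
    (h' : Z.inc x m) (hne : l ≠ m) : g l + g m ≤ Z.ps g x := by
  unfold Pl.ps
  have h1 := Finset.sum_le_sum_of_subset (f := fun l : Z.Ln => if Z.inc x l then g l else 0)
    (Finset.subset_univ ({l, m} : Finset Z.Ln))
  rw [Finset.sum_pair hne] at h1
  simpa only [h, h', if_true] using h1

open Classical in
theorem ps_split {Z : Pl K} {g : Z.Ln → ℕ} {x : Z.Pt} {l : Z.Ln} (h : Z.inc x l) :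
    Z.ps g x = g l + ∑ m ∈ Finset.univ.erase l, if Z.inc x m then g m else 0 := by
  unfold Pl.ps
  rw [← Finset.add_sum_erase Finset.univ _ (Finset.mem_univ l)]
  simp only [h, if_true]

end TWOW_

open TWOW_ in
open Classical in
theorem twow_proof (h1 : Stmt_Modq.{u}) (h2 : Stmt_Pln.{u}) : Stmt_Twow.{u} := by
  intro K _ _ Z k D κ w hS hD hDq hk hzero l
  have hmod := h1 K Z k D κ w hS hD hDq hk
  obtain ⟨hone, -, -, -, -, -, -, -, -, -⟩ := h2 K Z
  set q := Fintype.card K with hq
  -- first part: light lines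
  have light : ∀ m, w m < q → w m = 0 ∨ w m = D := by
    intro m hm
    have h3 := hmod m
    rw [Nat.mod_eq_of_lt hm] at h3
    by_cases hex : ∃ x, Z.inc x m ∧ κ x = 0
    · obtain ⟨x, hx, hx0⟩ := hex
      exact hzero x m hx0 hx
    · exfalso
      have h4 : Z.ls (fun _ => 1) m ≤ Z.ls κ m := by
        refine ls_mono fun x hx => ?_
        by_contra h5
        exact hex ⟨x, hx, by omega⟩
      rw [hone m, hS.line m] at h4
      omega
  have hq0 : 0 < q := by omega
  obtain ⟨r, hr⟩ : ∃ r, r = w l / q := ⟨_, rfl⟩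
  obtain ⟨t, ht⟩ : ∃ t, t = w l % q := ⟨_, rfl⟩
  have hdm : q * r + t = w l := by rw [hr, ht]; exact Nat.div_add_mod (w l) q
  have hwm := hmod l
  rw [← ht] at hwm
  have hge : ∀ x, Z.inc x l → r ≤ κ x := by
    intro x hx
    have h3 : w l ≤ Z.ps w x := le_ps hx
    rw [hS.point x] at h3
    by_contra h4
    have h5 : κ x + 1 ≤ r := by omega
    have h6 : q * (κ x + 1) ≤ q * r := Nat.mul_le_mul_left q h5
    rw [Nat.mul_add, Nat.mul_one] at h6
    change w l ≤ D + q * κ x at h3
    omega
  have hex : ∃ x, Z.inc x l ∧ κ x = r := by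
    by_contra hno
    have h4 : Z.ls (fun _ => r + 1) l ≤ Z.ls κ l := by
      refine ls_mono fun x hx => ?_
      have h5 := hge x hx
      rcases Nat.lt_or_ge r (κ x) with h6 | h6
      · exact h6
      · exact absurd ⟨x, hx, le_antisymm h6 h5⟩ hno
    rw [ls_const, hone l, hS.line l] at h4
    have h7 : (r + 1) * (q + 1) = q * r + q + r + 1 := by ring
    have h8 : (r + 1) * (q + 1) ≤ k + w l := h4
    rw [h7] at h8
    omega
  obtain ⟨x, hx, hxr⟩ := hex
  have hpt := hS.point x
  rw [ps_split hx] at hpt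
  have hothers : ∀ m ∈ Finset.univ.erase l, (if Z.inc x m then w m else 0) =
      D * (if Z.inc x m ∧ w m = D then 1 else 0) := by
    intro m hm
    have hne : l ≠ m := (Finset.ne_of_mem_erase hm).symm
    by_cases hxm : Z.inc x m
    · have h3 : w l + w m ≤ Z.ps w x := le_ps2 hx hxm hne
      rw [hS.point x] at h3
      change w l + w m ≤ D + q * κ x at h3
      rw [hxr] at h3
      have h4 : w m < q := by omega
      rcases light m h4 with h5 | h5
      · have h6 : ¬ (w m = D) := by omega
        rw [if_pos hxm, if_neg (fun h => h6 h.2), h5, Nat.mul_zero]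
      · rw [if_pos hxm, if_pos ⟨hxm, h5⟩, h5, Nat.mul_one]
    · rw [if_neg hxm, if_neg (fun h => hxm h.1), Nat.mul_zero]
  rw [Finset.sum_congr rfl hothers, ← Finset.mul_sum] at hpt
  set n := ∑ m ∈ Finset.univ.erase l, (if Z.inc x m ∧ w m = D then 1 else 0) with hn
  rw [hxr] at hpt
  change w l + D * n = D + q * r at hpt
  have h9 : t + D * n = D := by omega
  rcases Nat.eq_zero_or_pos n with h10 | h10
  · right
    rw [h10] at h9
    rw [← ht]
    simpa using h9
  · left
    have h11 : D * 1 ≤ D * n := Nat.mul_le_mul_left D h10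
    rw [Nat.mul_one] at h11
    rw [← ht]
    omega

end Pool.Agent.CLH
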