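import Pool.Agent.CLH.Stmts

/-!
# CLH module XI: the covariant lemma
-/

set_option autoImplicit false

open scoped BigOperators Polynomial
open Polynomial
open Finset.HasAntidiagonal (antidiagonal mem_antidiagonal)

namespace Pool.Agent.CLH

universe u

namespace XI_

section poly

variable {K : Type u} [Field K]

/-- The covariant. -/
noncomputable def Ps (α β : K) (i j : ℕ) (P : K[X]) : K[X] :=
  C α * (hasseDeriv i P * hasseDeriv (j - i) P) - C β * (P * hasseDeriv j P)

/-- The coefficients of the covariant. -/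
def cc (α β : K) (i j : ℕ) (x : ℕ × ℕ) : K :=
  α * ((x.1.choose i : K) * (x.2.choose (j - i) : K)) - β * (x.2.choose j : K)

theorem shift (s t n : ℕ) (F : ℕ × ℕ → K) (h : ∀ x : ℕ × ℕ, (x.1 < s ∨ x.2 < t) → F x = 0) :
    ∑ x ∈ antidiagonal n, F (x.1 + s, x.2 + t) = ∑ x ∈ antidiagonal (n + s + t), F x := by
  rw [← Finset.sum_filter_add_sum_filter_not (antidiagonal (n + s + t))
    (fun x : ℕ × ℕ => s ≤ x.1 ∧ t ≤ x.2)]
  have h0 : ∑ x ∈ (antidiagonal (n + s + t)).filter (fun x : ℕ × ℕ => ¬ (s ≤ x.1 ∧ t ≤ x.2)),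
      F x = 0 := by
    refine Finset.sum_eq_zero fun x hx => h x ?_
    have := (Finset.mem_filter.1 hx).2
    omega
  rw [h0, add_zero]
  refine Finset.sum_nbij' (fun x => (x.1 + s, x.2 + t)) (fun x => (x.1 - s, x.2 - t))
    ?_ ?_ ?_ ?_ ?_
  · intro x hx
    rw [mem_antidiagonal] at hx
    rw [Finset.mem_filter, mem_antidiagonal]
    refine ⟨?_, ?_, ?_⟩ <;> simp only <;> omega
  · intro x hx
    rw [Finset.mem_filter, mem_antidiagonal] at hx
    rw [mem_antidiagonal]
    simp only
    omega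
  · intro x _
    simp
  · intro x hx
    rw [Finset.mem_filter, mem_antidiagonal] at hx
    ext
    · simp only; omega
    · simp only; omega
  · intro x _
    rfl

theorem Ps_coeff (α β : K) {i j : ℕ} (hij : i ≤ j) (P : K[X]) (n : ℕ) :
    (Ps α β i j P).coeff n =
      ∑ x ∈ antidiagonal (n + j), cc α β i j x * (P.coeff x.1 * P.coeff x.2) := by
  have h1 : (hasseDeriv i P * hasseDeriv (j - i) P).coeff n =
      ∑ x ∈ antidiagonal (n + j), ((x.1.choose i : K) * P.coeff x.1) *
        ((x.2.choose (j - i) : K) * P.coeff x.2) := by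
    rw [coeff_mul]
    simp only [hasseDeriv_coeff]
    have := shift i (j - i) n (fun x => ((x.1.choose i : K) * P.coeff x.1) *
        ((x.2.choose (j - i) : K) * P.coeff x.2)) (by
      intro x hx
      rcases hx with hx | hx
      · simp only [Nat.choose_eq_zero_of_lt hx, Nat.cast_zero, zero_mul]
      · simp only [Nat.choose_eq_zero_of_lt hx, Nat.cast_zero, zero_mul, mul_zero])
    rw [show n + i + (j - i) = n + j by omega] at this
    exact this
  have h2 : (P * hasseDeriv j P).coeff n =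
      ∑ x ∈ antidiagonal (n + j), P.coeff x.1 * ((x.2.choose j : K) * P.coeff x.2) := by
    rw [coeff_mul]
    simp only [hasseDeriv_coeff]
    have := shift 0 j n (fun x => P.coeff x.1 * ((x.2.choose j : K) * P.coeff x.2)) (by
      intro x hx
      rcases hx with hx | hx
      · omega
      · simp only [Nat.choose_eq_zero_of_lt hx, Nat.cast_zero, zero_mul, mul_zero])
    simp only [add_zero] at this
    exact this
  rw [Ps, coeff_sub, coeff_C_mul, coeff_C_mul, h1, h2, Finset.mul_sum, Finset.mul_sum,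
    ← Finset.sum_sub_distrib]
  refine Finset.sum_congr rfl fun x _ => ?_
  rw [cc]
  ring

theorem taylor_hasse (a : K) (i : ℕ) (P : K[X]) :
    taylor a (hasseDeriv i P) = hasseDeriv i (taylor a P) := by
  ext n
  rw [hasseDeriv_coeff, taylor_coeff, taylor_coeff]
  have h := LinearMap.congr_fun (hasseDeriv_comp (R := K) n i) P
  rw [LinearMap.comp_apply, LinearMap.smul_apply] at h
  rw [h, eval_smul, nsmul_eq_mul]
  rw [show (n + i).choose n = (n + i).choose i from (Nat.choose_symm_add).trans rfl]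

theorem taylor_Ps (α β : K) (i j : ℕ) (a : K) (P : K[X]) :
    taylor a (Ps α β i j P) = Ps α β i j (taylor a P) := by
  rw [Ps, Ps, map_sub, taylor_mul, taylor_mul, taylor_mul, taylor_mul, taylor_C, taylor_C,
    taylor_hasse, taylor_hasse, taylor_hasse]

/-- The covariant of `(1 + X) ^ D` vanishes. -/
theorem Ps_one_add_pow (α β : K) {i j D : ℕ} (hij : i ≤ j)
    (h : α * ((D.choose i : K) * (D.choose (j - i) : K)) = β * (D.choose j : K)) :
    Ps α β i j ((1 + X : K[X]) ^ D) = 0 := by
  have h1 : Ps α β i j (X ^ D : K[X]) = 0 := by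
    ext n
    rw [Ps_coeff α β hij, coeff_zero]
    refine Finset.sum_eq_zero fun x _ => ?_
    rw [coeff_X_pow, coeff_X_pow]
    by_cases h1 : x.1 = D
    · by_cases h2 : x.2 = D
      · rw [cc, h1, h2, h, sub_self, zero_mul]
      · rw [if_neg h2, mul_zero, mul_zero]
    · rw [if_neg h1, zero_mul, mul_zero]
  have h2 : (1 + X : K[X]) ^ D = taylor 1 (X ^ D) := by
    rw [taylor_X_pow, map_one, add_comm]
  rw [h2, ← taylor_Ps, h1, map_zero]

theorem coeff_one_add_mul_pow (m : K) (D i : ℕ) :
    ((1 - C m * X : K[X]) ^ D).coeff i = (D.choose i : K) * (-m) ^ i := by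
  have h : (1 - C m * X : K[X]) ^ D = ((1 + X : K[X]) ^ D).comp (C (-m) * X) := by
    rw [pow_comp, add_comp, X_comp, one_comp, map_neg]
    congr 1
    ring
  rw [h, comp_C_mul_X_coeff, coeff_one_add_X_pow]

end poly

section plane

variable {K : Type u} [Field K] [Fintype K]

theorem ps_vert (Z : Pl K) (f : Z.Fr) (w : Z.Ln → ℕ) :
    Z.ps w (f.p inf) = ∑ a, w (ver f a) + w (f.l inf) := by
  classical
  unfold Pl.ps
  rw [← Equiv.sum_comp f.l]
  simp only [← f.hinc]
  rw [Fintype.sum_sum_type, Fintype.sum_sum_type]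
  simp [sinc, inf, ver]

theorem ps_apt (Z : Pl K) (f : Z.Fr) (w : Z.Ln → ℕ) (a b : K) :
    Z.ps w (apt f a b) = ∑ y, w (aff f y (b - y * a)) + w (ver f a) := by
  classical
  unfold Pl.ps
  rw [← Equiv.sum_comp f.l]
  simp only [apt, ← f.hinc]
  rw [Fintype.sum_sum_type, Fintype.sum_sum_type, Fintype.sum_prod_type]
  have h1 : ∀ y : K, (∑ m : K, if sinc (Sum.inl (a, b) : SP K) (Sum.inl (y, m)) then
      w (f.l (Sum.inl (y, m))) else 0) = w (aff f y (b - y * a)) := by
    intro y
    rw [Finset.sum_eq_single (b - y * a)]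
    · have hs : sinc (Sum.inl (a, b) : SP K) (Sum.inl (y, b - y * a)) :=
        (show b = y * a + (b - y * a) by ring)
      rw [if_pos hs]
      rfl
    · intro m _ hm
      rw [if_neg]
      intro h
      apply hm
      have h' : b = y * a + m := h
      rw [h']; ring
    · intro h
      exact absurd (Finset.mem_univ _) h
  simp only [h1]
  have h2 : (∑ x : K, if sinc (Sum.inl (a, b) : SP K) (Sum.inr (Sum.inl x)) then
      w (f.l (Sum.inr (Sum.inl x))) else 0) = w (ver f a) := by
    rw [Finset.sum_eq_single a]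
    · have hs : sinc (Sum.inl (a, b) : SP K) (Sum.inr (Sum.inl a)) := (show a = a from rfl)
      rw [if_pos hs]
      rfl
    · intro m _ hm
      rw [if_neg]
      intro h
      exact hm (show a = m from h).symm
    · intro h
      exact absurd (Finset.mem_univ _) h
  rw [h2]
  simp [sinc]

end plane

section gen

variable {K : Type u} [Field K] [Fintype K]

/-- The generating polynomial of the vertical pencil. -/
noncomputable def GG (W : K → ℕ) : K[X] := ∏ a : K, (X - C a) ^ W a

theorem GG_natDegree (W : K → ℕ) : (GG W).natDegree = ∑ a, W a := by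
  rw [GG, natDegree_prod_of_monic _ _ (fun a _ => (monic_X_sub_C a).pow _)]
  refine Finset.sum_congr rfl fun a _ => ?_
  rw [(monic_X_sub_C a).natDegree_pow, natDegree_X_sub_C, mul_one]

theorem GG_taylor (W : K → ℕ) (a : K) : ∃ u : K[X], u.coeff 0 ≠ 0 ∧
    taylor a (GG W) = X ^ W a * u := by
  classical
  refine ⟨taylor a (∏ b ∈ Finset.univ.erase a, (X - C b) ^ W b), ?_, ?_⟩
  · rw [taylor_coeff_zero, eval_prod, Finset.prod_ne_zero_iff]
    intro b hb
    rw [eval_pow, eval_sub, eval_X, eval_C]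
    exact pow_ne_zero _ (sub_ne_zero.2 (Ne.symm (Finset.ne_of_mem_erase hb)))
  · have h : GG W = (X - C a) ^ W a * ∏ b ∈ Finset.univ.erase a, (X - C b) ^ W b := by
      rw [GG, ← Finset.mul_prod_erase Finset.univ _ (Finset.mem_univ a)]
    rw [h, taylor_mul]
    congr 1
    rw [taylor_apply, pow_comp, sub_comp, X_comp, C_comp, add_sub_cancel_right]

theorem GG_taylor_coeff_lt (W : K → ℕ) (a : K) {n : ℕ} (h : n < W a) :
    (taylor a (GG W)).coeff n = 0 := by
  obtain ⟨u, -, hu⟩ := GG_taylor W a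
  rw [hu, coeff_X_pow_mul', if_neg (not_le.2 h)]

theorem GG_taylor_coeff_eq (W : K → ℕ) (a : K) : (taylor a (GG W)).coeff (W a) ≠ 0 := by
  obtain ⟨u, hu0, hu⟩ := GG_taylor W a
  rw [hu, coeff_X_pow_mul', if_pos le_rfl, Nat.sub_self]
  exact hu0

theorem GG_taylor_coeff_gt (W : K → ℕ) (a : K) {n : ℕ} (h : ∑ b, W b < n) :
    (taylor a (GG W)).coeff n = 0 := by
  apply coeff_eq_zero_of_natDegree_lt
  rw [natDegree_taylor, GG_natDegree]
  exact h

/-- The covariant is not zero. -/
theorem Ps_ne_zero (W : K → ℕ) (α β : K) {i j : ℕ} (hij : i ≤ j) (a : K)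
    (h : α * (((W a).choose i : K) * ((W a).choose (j - i) : K)) ≠ β * ((W a).choose j : K)) :
    Ps α β i j (GG W) ≠ 0 := by
  have hj : j ≤ 2 * W a := by
    by_contra hlt
    apply h
    have h1 : (W a).choose j = 0 := Nat.choose_eq_zero_of_lt (by omega)
    have h2 : (W a).choose i = 0 ∨ (W a).choose (j - i) = 0 := by
      rcases lt_or_ge (W a) i with h3 | h3
      · exact Or.inl (Nat.choose_eq_zero_of_lt h3)
      · exact Or.inr (Nat.choose_eq_zero_of_lt (by omega))
    rcases h2 with h2 | h2 <;> rw [h1, h2] <;> simp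
  intro h0
  have h1 : (taylor a (Ps α β i j (GG W))).coeff (2 * W a - j) = 0 := by
    rw [h0, map_zero, coeff_zero]
  rw [taylor_Ps, Ps_coeff α β hij, show 2 * W a - j + j = 2 * W a by omega,
    Finset.sum_eq_single (W a, W a)] at h1
  · have h2 := GG_taylor_coeff_eq W a
    rcases mul_eq_zero.1 h1 with h3 | h3
    · apply h
      rw [cc] at h3
      exact sub_eq_zero.1 h3
    · exact mul_ne_zero h2 h2 h3
  · intro x hx hne
    rw [mem_antidiagonal] at hx
    rcases lt_trichotomy x.1 (W a) with h2 | h2 | h2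
    · rw [GG_taylor_coeff_lt W a h2, zero_mul, mul_zero]
    · exfalso
      apply hne
      ext
      · exact h2
      · simp only; omega
    · rw [GG_taylor_coeff_lt W a (show x.2 < W a by omega), mul_zero, mul_zero]
  · intro hn
    exact absurd (mem_antidiagonal.2 (by simp only; omega)) hn

omit [Fintype K] in
theorem root_coeff {P : K[X]} (hP : P ≠ 0) (a : K) :
    (taylor a P).coeff (rootMultiplicity a P) ≠ 0 := by
  have h : rootMultiplicity a P = (taylor a P).natTrailingDegree := by
    rw [rootMultiplicity_eq_natTrailingDegree, taylor_apply]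
  rw [h]
  intro h0
  rw [← trailingCoeff, trailingCoeff_eq_zero] at h0
  apply hP
  exact (taylor_injective a) (by rw [h0, map_zero])

theorem sum_mult (W : K → ℕ) (α β : K) {i j : ℕ} (hij : i ≤ j)
    (h0 : Ps α β i j (GG W) ≠ 0) :
    ∑ a, rootMultiplicity a (Ps α β i j (GG W)) + j ≤ 2 * ∑ a, W a := by
  classical
  set P := Ps α β i j (GG W) with hP
  have h1 : ∑ a, rootMultiplicity a P ≤ P.natDegree := by
    have h2 : ∑ a, Multiset.count a P.roots = Multiset.card P.roots :=
      Multiset.sum_count_eq_card (fun a _ => Finset.mem_univ a)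
    simp only [count_roots] at h2
    rw [h2]
    exact card_roots' P
  have h3 : P.natDegree + j ≤ 2 * ∑ a, W a := by
    by_contra hlt
    have h4 : P.coeff P.natDegree = 0 := by
      rw [hP, Ps_coeff α β hij]
      refine Finset.sum_eq_zero fun x hx => ?_
      rw [mem_antidiagonal, ← hP] at hx
      have hz : ∀ n, ∑ a, W a < n → (GG W).coeff n = 0 := fun n hn =>
        coeff_eq_zero_of_natDegree_lt (by rw [GG_natDegree]; exact hn)
      rcases lt_or_ge (∑ a, W a) x.1 with h5 | h5
      · rw [hz _ h5, zero_mul, mul_zero]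
      · rw [hz x.2 (by omega), mul_zero, mul_zero]
    rw [coeff_natDegree, leadingCoeff_eq_zero] at h4
    exact h0 h4
  omega

end gen

section claim

variable {K : Type u} [Field K] [Fintype K]

/-- The map `A ↦ a + 1 / A`, with `0 ↦ a`. -/
def invEq (a : K) : K ≃ K where
  toFun A := a + A⁻¹
  invFun x := (x - a)⁻¹
  left_inv A := by simp
  right_inv x := by simp

theorem gpol_comp (Z : Pl K) (f f' : Z.Fr) (w : Z.Ln → ℕ) (a : K)
    (h : ∀ A, A ≠ 0 → ver f' A = ver f (a + A⁻¹)) :
    (Gpol f' w).comp (C (-1) * X) =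
      ∏ b : K, (1 - C ((b - a)⁻¹) * X) ^ w (ver f b) := by
  rw [← Equiv.prod_comp (invEq a), Gpol, prod_comp]
  refine Finset.prod_congr rfl fun A _ => ?_
  rw [pow_comp, add_comp, one_comp, mul_comp, C_comp, X_comp]
  by_cases hA : A = 0
  · subst hA
    simp [invEq]
  · rw [h A hA]
    have h1 : (invEq a A - a)⁻¹ = A := by simp [invEq]
    have h2 : (1 + C A * (C (-1) * X) : K[X]) = 1 - C A * X := by
      rw [map_neg, map_one]; ring
    rw [h1, h2]
    rfl

theorem taylor_GG (Z : Pl K) (f f' : Z.Fr) (w : Z.Ln → ℕ) (a : K)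
    (h : ∀ A, A ≠ 0 → ver f' A = ver f (a + A⁻¹)) (hw : w (ver f a) = 0) :
    ∃ c : K, c ≠ 0 ∧ ∀ i, (taylor a (GG fun b => w (ver f b))).coeff i =
      c * ((-1) ^ i * (Gpol f' w).coeff i) := by
  classical
  refine ⟨∏ b : K, (if b = a then 1 else (a - b) ^ w (ver f b)), ?_, ?_⟩
  · rw [Finset.prod_ne_zero_iff]
    intro b _
    by_cases hb : b = a
    · rw [if_pos hb]; exact one_ne_zero
    · rw [if_neg hb]; exact pow_ne_zero _ (sub_ne_zero.2 (Ne.symm hb))
  · intro i
    have h1 : taylor a (GG fun b => w (ver f b)) =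
        C (∏ b : K, (if b = a then 1 else (a - b) ^ w (ver f b))) *
          (Gpol f' w).comp (C (-1) * X) := by
      rw [gpol_comp Z f f' w a h, map_prod, ← Finset.prod_mul_distrib, taylor_apply, GG, prod_comp]
      refine Finset.prod_congr rfl fun b _ => ?_
      rw [pow_comp, sub_comp, X_comp, C_comp]
      by_cases hb : b = a
      · subst hb
        rw [hw, if_pos rfl, pow_zero, pow_zero, map_one, mul_one]
      · have hab : a - b ≠ 0 := sub_ne_zero.2 (Ne.symm hb)
        rw [if_neg hb, map_pow, ← mul_pow]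
        congr 1
        have h2 : (b - a)⁻¹ = -(a - b)⁻¹ := by
          rw [← inv_neg, neg_sub]
        rw [h2, map_neg, mul_sub, mul_one]
        have h3 : C (a - b) * (-C (a - b)⁻¹ * X) = (-X : K[X]) := by
          rw [neg_mul, mul_neg, ← mul_assoc, ← C_mul, mul_inv_cancel₀ hab, map_one, one_mul]
        rw [h3, map_sub]
        ring
    rw [h1, coeff_C_mul, comp_C_mul_X_coeff, mul_comm ((Gpol f' w).coeff i)]

theorem claim (h1 : Stmt_Rl.{u}) (h2 : Stmt_Rot.{u}) (Z : Pl K) (k D : ℕ)
    (κ : Z.Pt → ℕ) (w : Z.Ln → ℕ) (f : Z.Fr) (hS : Sys Z k D κ w) (hD : D + 2 ≤ Fintype.card K)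
    (hκ : κ (f.p inf) = 0) (α β : K) {i j : ℕ} (hij : i ≤ j)
    (hαβ : α * ((D.choose i : K) * (D.choose (j - i) : K)) = β * (D.choose j : K)) (a : K)
    (n : ℕ) (hn : ∑ x ∈ antidiagonal n, cc α β i j x *
      ((taylor a (GG fun b => w (ver f b))).coeff x.1 *
        (taylor a (GG fun b => w (ver f b))).coeff x.2) ≠ 0) (hjn : j ≤ n)
    (Y : Finset K) (hY : ∀ b ∈ Y, κ (apt f a b) = 0 ∧ ∃ m, w (aff f m (b - m * a)) = D)
    (hne : Y.Nonempty) : w (ver f a) = 0 ∧ Y.card ≤ n := by
  classical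
  -- the weights through the points of `Y`
  have hall : ∀ b ∈ Y, w (ver f a) = 0 ∧ ∃ m₀, w (aff f m₀ (b - m₀ * a)) = D ∧
      ∀ m, m ≠ m₀ → w (aff f m (b - m * a)) = 0 := by
    intro b hb
    obtain ⟨hb1, m₀, hm₀⟩ := hY b hb
    have h3 := hS.point (apt f a b)
    rw [ps_apt, hb1, mul_zero, add_zero, ← Finset.add_sum_erase Finset.univ _
      (Finset.mem_univ m₀), hm₀] at h3
    have h4 : ∑ x ∈ Finset.univ.erase m₀, w (aff f x (b - x * a)) = 0 := by omega
    refine ⟨by omega, m₀, hm₀, fun m hm => ?_⟩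
    exact Finset.sum_eq_zero_iff.1 h4 m (Finset.mem_erase.2 ⟨hm, Finset.mem_univ _⟩)
  obtain ⟨b₀, hb₀⟩ := hne
  have hw : w (ver f a) = 0 := (hall b₀ hb₀).1
  refine ⟨hw, ?_⟩
  -- the other frame
  obtain ⟨f', -, -, -, hver, haff, -⟩ := (h2 K Z f).2 a
  obtain ⟨c, hc, hG⟩ := taylor_GG Z f f' w a hver hw
  obtain ⟨σ, hσ⟩ := h1 K Z k D κ w f' hS
  -- the sum of the weights
  have hsumW : ∑ b, w (ver f b) ≤ D := by
    have h3 := hS.point (f.p inf)
    rw [ps_vert, hκ, mul_zero, add_zero] at h3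
    omega
  have hH0 : ∀ i, D < i → (Gpol f' w).coeff i = 0 := by
    intro i hi
    have h3 := hG i
    rw [GG_taylor_coeff_gt (fun b => w (ver f b)) a (lt_of_le_of_lt hsumW hi)] at h3
    rcases mul_eq_zero.1 h3.symm with h4 | h4
    · exact absurd h4 hc
    · rcases mul_eq_zero.1 h4 with h5 | h5
      · exact absurd h5 (pow_ne_zero _ (neg_ne_zero.2 one_ne_zero))
      · exact h5
  set τ : ℕ → K[X] := fun i => if i ≤ D then σ i else 0 with hτ
  have hτd : ∀ i, (τ i).natDegree ≤ i := by
    intro i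
    by_cases hi : i ≤ D
    · simp only [hτ, if_pos hi]
      exact (hσ i (by omega)).1
    · simp only [hτ, if_neg hi, natDegree_zero]
      exact Nat.zero_le _
  have hτc : ∀ i, (τ i).coeff i = (Gpol f' w).coeff i := by
    intro i
    by_cases hi : i ≤ D
    · simp only [hτ, if_pos hi]
      exact (hσ i (by omega)).2.2
    · simp only [hτ, if_neg hi, coeff_zero]
      exact (hH0 i (by omega)).symm
  have hτe : ∀ b ∈ Y, ∃ m₀ : K, ∀ i, (τ i).eval b = (D.choose i : K) * (-m₀) ^ i := by
    intro b hb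
    obtain ⟨-, m₀, hm₀, hm⟩ := hall b hb
    refine ⟨m₀, fun i => ?_⟩
    by_cases hi : i ≤ D
    · simp only [hτ, if_pos hi]
      rw [(hσ i (by omega)).2.1 b]
      have h3 : Fpol f' w b = (1 - C m₀ * X) ^ D := by
        rw [Fpol, Finset.prod_eq_single m₀]
        · rw [haff, hm₀]
        · intro m _ hmm
          rw [haff, hm m hmm, pow_zero]
        · intro h
          exact absurd (Finset.mem_univ _) h
      rw [h3, coeff_one_add_mul_pow]
    · simp only [hτ, if_neg hi, eval_zero]
      rw [Nat.choose_eq_zero_of_lt (by omega), Nat.cast_zero, zero_mul]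
  -- the polynomial Theta
  set Θ : K[X] := ∑ x ∈ antidiagonal n, C (cc α β i j x) * (τ x.1 * τ x.2) with hΘ
  have hΘd : Θ.natDegree ≤ n := by
    rw [hΘ]
    refine natDegree_sum_le_of_forall_le _ _ fun x hx => ?_
    rw [mem_antidiagonal] at hx
    refine (natDegree_C_mul_le _ _).trans ?_
    refine natDegree_mul_le.trans ?_
    have := hτd x.1
    have := hτd x.2
    omega
  have hΘc : Θ.coeff n ≠ 0 := by
    have h3 : Θ.coeff n = ∑ x ∈ antidiagonal n, cc α β i j x *
        ((Gpol f' w).coeff x.1 * (Gpol f' w).coeff x.2) := by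
      rw [hΘ, finsetSum_coeff]
      refine Finset.sum_congr rfl fun x hx => ?_
      rw [mem_antidiagonal] at hx
      rw [coeff_C_mul, ← hx, coeff_mul_add_eq_of_natDegree_le (hτd x.1) (hτd x.2), hτc, hτc]
    intro h0
    apply hn
    rw [h3] at h0
    have h4 : ∑ x ∈ antidiagonal n, cc α β i j x *
        ((taylor a (GG fun b => w (ver f b))).coeff x.1 *
          (taylor a (GG fun b => w (ver f b))).coeff x.2) =
        (c * c * (-1) ^ n) * ∑ x ∈ antidiagonal n, cc α β i j x *
        ((Gpol f' w).coeff x.1 * (Gpol f' w).coeff x.2) := by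
      rw [Finset.mul_sum]
      refine Finset.sum_congr rfl fun x hx => ?_
      rw [mem_antidiagonal] at hx
      rw [hG, hG, ← hx, pow_add]
      ring
    rw [h4, h0, mul_zero]
  have hΘ0 : Θ ≠ 0 := by
    intro h0
    rw [h0, coeff_zero] at hΘc
    exact hΘc rfl
  have hroots : Y.val ⊆ Θ.roots := by
    intro b hb
    have hb' : b ∈ Y := hb
    obtain ⟨m₀, hm₀⟩ := hτe b hb'
    rw [mem_roots hΘ0, IsRoot.def, hΘ, eval_finsetSum]
    have h3 : ∀ x ∈ antidiagonal n, eval b (C (cc α β i j x) * (τ x.1 * τ x.2)) =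
        (-m₀) ^ n * (cc α β i j x * (((1 + X : K[X]) ^ D).coeff x.1 *
          ((1 + X : K[X]) ^ D).coeff x.2)) := by
      intro x hx
      rw [mem_antidiagonal] at hx
      rw [eval_mul, eval_C, eval_mul, hm₀, hm₀, coeff_one_add_X_pow, coeff_one_add_X_pow, ← hx,
        pow_add]
      ring
    rw [Finset.sum_congr rfl h3, ← Finset.mul_sum]
    have h4 := Ps_coeff α β hij ((1 + X : K[X]) ^ D) (n - j)
    rw [Ps_one_add_pow α β hij hαβ, coeff_zero, show n - j + j = n by omega] at h4
    rw [← h4, mul_zero]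
  exact (card_le_degree_of_subset_roots hroots).trans hΘd

end claim

end XI_

open XI_ in
theorem xi_proof (h1 : Stmt_Rl.{u}) (h2 : Stmt_Rot.{u}) (_h3 : Stmt_Pln.{u}) : Stmt_Xi.{u} := by
  classical
  intro K _ _ Z k D κ w f hS _ hD hκ i j α β hij hαβ a₁ ha₁
  set W : K → ℕ := fun b => w (ver f b) with hW
  have hP0 : Ps α β i j (GG W) ≠ 0 := Ps_ne_zero W α β hij a₁ ha₁
  have hsum := sum_mult W α β hij hP0
  set Y : K → Finset K := fun a => Finset.univ.filter fun b =>
    κ (apt f a b) = 0 ∧ ∃ m, w (aff f m (b - m * a)) = D with hYdef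
  have hone : ∀ a : K, (Y a).card + 2 * W a ≤ rootMultiplicity a (Ps α β i j (GG W)) + j := by
    intro a
    set n := rootMultiplicity a (Ps α β i j (GG W)) + j with hn
    have h4 := root_coeff hP0 a
    rw [taylor_Ps, Ps_coeff α β hij, ← hn] at h4
    have hlow : 2 * W a ≤ n := by
      by_contra hlt
      apply h4
      refine Finset.sum_eq_zero fun x hx => ?_
      rw [mem_antidiagonal] at hx
      rcases lt_or_ge x.1 (W a) with h5 | h5
      · rw [GG_taylor_coeff_lt W a h5, zero_mul, mul_zero]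
      · rw [GG_taylor_coeff_lt W a (show x.2 < W a by omega), mul_zero, mul_zero]
    rcases (Y a).eq_empty_or_nonempty with hemp | hne
    · rw [hemp, Finset.card_empty, zero_add]
      exact hlow
    · obtain ⟨h5, h6⟩ := claim h1 h2 Z k D κ w f hS hD hκ α β hij hαβ a n h4 (by omega) (Y a)
        (fun b hb => (Finset.mem_filter.1 hb).2) hne
      have h7 : W a = 0 := h5
      rw [h7]
      omega
  have hcard : (Finset.univ.filter fun x : K × K => κ (apt f x.1 x.2) = 0 ∧
      ∃ m, w (aff f m (x.2 - m * x.1)) = D).card = ∑ a, (Y a).card := by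
    rw [Finset.card_filter, Fintype.sum_prod_type]
    refine Finset.sum_congr rfl fun a _ => ?_
    simp only [hYdef]
    rw [Finset.card_filter]
  rw [hcard]
  have h8 : ∑ a, ((Y a).card + 2 * W a) ≤
      ∑ a, (rootMultiplicity a (Ps α β i j (GG W)) + j) :=
    Finset.sum_le_sum fun a _ => hone a
  rw [Finset.sum_add_distrib, Finset.sum_add_distrib, ← Finset.mul_sum, Finset.sum_const,
    Finset.card_univ, smul_eq_mul] at h8
  rw [Nat.sub_mul, one_mul]
  omega

end Pool.Agent.CLH
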