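import Pool.Agent.CLH.Stmts

set_option autoImplicit false

/-!
# CLH: module YLOW
-/

open scoped BigOperators Polynomial

namespace Pool.Agent.CLH

universe u

namespace YLOW_

variable {K : Type u} [Field K] (Z : Pl K) (s : Z.Pt → ℕ)

/-- points on external lines do not carry weight -/
theorem s_zero (x : Z.Pt) (h : tt Z s x ≠ 0) : s x = 0 := by
  classical
  unfold tt Pl.ps at h
  obtain ⟨l, -, hl⟩ := Finset.exists_ne_zero_of_sum_ne_zero h
  by_cases hx : Z.inc x l
  · rw [if_pos hx] at hl
    unfold ext at hl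
    by_cases hs : Z.ls s l = 0
    · unfold Pl.ls at hs
      rw [Finset.sum_eq_zero_iff] at hs
      have := hs x (Finset.mem_univ x)
      rwa [if_pos hx] at this
    · rw [if_neg hs] at hl
      exact absurd rfl hl
  · rw [if_neg hx] at hl
    exact absurd rfl hl

theorem ext_sq (l : Z.Ln) : ext Z s l * ext Z s l = ext Z s l := by
  unfold ext
  split_ifs <;> simp

theorem yy_eq : yy Z s = ∑ x : Z.Pt, if tt Z s x = 1 then 1 else 0 := by
  classical
  unfold yy
  rw [Finset.card_filter]
  refine Finset.sum_congr rfl (fun x _ => ?_)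
  by_cases h : tt Z s x = 1
  · have h0 : s x = 0 := s_zero Z s x (by omega)
    simp [h, h0]
  · simp [h]

end YLOW_

open YLOW_ in
theorem ylow_proof (h1 : Stmt_Pln.{u}) : Stmt_Ylow.{u} := by
  classical
  intro K _ _ Z s hτ
  obtain ⟨hl, -, -, -, -, -, h7, h8, -, -⟩ := h1 K Z
  set q := Fintype.card K with hq
  set τ := tau Z s with hτd
  have A : ∑ x, tt Z s x = τ * (q + 1) := by
    have := h8 (fun _ => 1) (ext Z s)
    simp only [hl, one_mul] at this
    rw [← Finset.sum_mul] at this
    exact this.symm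
  have B : ∑ x, tt Z s x * tt Z s x = q * τ + τ * τ := by
    have h2 := h8 (tt Z s) (ext Z s)
    have h3 : ∀ l, Z.ls (tt Z s) l = q * ext Z s l + τ := fun l => h7 (ext Z s) l
    simp only [h3] at h2
    have h4 : ∑ l, ext Z s l * (q * ext Z s l + τ) = q * τ + τ * τ := by
      have h5 : ∀ l, ext Z s l * (q * ext Z s l + τ) = q * ext Z s l + ext Z s l * τ := by
        intro l
        have := ext_sq Z s l
        calc ext Z s l * (q * ext Z s l + τ) = q * (ext Z s l * ext Z s l) + ext Z s l * τ := by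
              ring
          _ = _ := by rw [this]
      simp only [h5]
      rw [Finset.sum_add_distrib, ← Finset.mul_sum, ← Finset.sum_mul]
      rfl
    rw [h4] at h2
    exact h2.symm
  have C : ∑ x, tt Z s x * (tt Z s x - 1) + ∑ x, tt Z s x = ∑ x, tt Z s x * tt Z s x := by
    rw [← Finset.sum_add_distrib]
    refine Finset.sum_congr rfl (fun x _ => ?_)
    rcases Nat.eq_zero_or_pos (tt Z s x) with h | h
    · rw [h]
    · obtain ⟨n, hn⟩ : ∃ n, tt Z s x = n + 1 := ⟨tt Z s x - 1, by omega⟩
      rw [hn, Nat.add_sub_cancel]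
      ring
  rw [A, B] at C
  have hτ1 : τ * (τ - 1) + τ = τ * τ := by
    rcases Nat.eq_zero_or_pos τ with h | h
    · rw [h]
    · obtain ⟨n, hn⟩ : ∃ n, τ = n + 1 := ⟨τ - 1, by omega⟩
      rw [hn, Nat.add_sub_cancel]
      ring
  have E : ∑ x, tt Z s x * (tt Z s x - 1) = τ * (τ - 1) := by
    have : q * τ + τ * τ = τ * (τ - 1) + τ * (q + 1) := by
      rw [← hτ1]
      ring
    omega
  refine ⟨?_, fun h4 => ?_⟩
  · have hp : ∀ x, tt Z s x ≤ (if tt Z s x = 1 then 1 else 0) + tt Z s x * (tt Z s x - 1) := by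
      intro x
      rcases Nat.lt_or_ge (tt Z s x) 2 with h | h
      · by_cases h' : tt Z s x = 1
        · simp [h']
        · have : tt Z s x = 0 := by omega
          simp [this]
      · have h9 : 1 ≤ tt Z s x - 1 := by omega
        calc tt Z s x = tt Z s x * 1 := (Nat.mul_one _).symm
          _ ≤ tt Z s x * (tt Z s x - 1) := Nat.mul_le_mul_left _ h9
          _ ≤ _ := Nat.le_add_left _ _
    have hs : ∑ x, tt Z s x ≤ ∑ x, ((if tt Z s x = 1 then 1 else 0) +
        tt Z s x * (tt Z s x - 1)) := Finset.sum_le_sum (fun x _ => hp x)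
    rw [Finset.sum_add_distrib, ← yy_eq, A, E] at hs
    have e1 : τ * (q + 2 - τ) + τ * (τ - 1) = τ * (q + 1) := by
      rcases Nat.eq_zero_or_pos τ with h | h
      · rw [h]; simp
      · rw [← mul_add]
        congr 1
        omega
    omega
  · have hp : ∀ x, 3 * tt Z s x ≤ 3 * (if tt Z s x = 1 then 1 else 0) +
        tt Z s x * (tt Z s x - 1) := by
      intro x
      rcases Nat.lt_or_ge (tt Z s x) 2 with h | h
      · by_cases h' : tt Z s x = 1
        · simp [h']
        · have : tt Z s x = 0 := by omega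
          simp [this]
      · have h5 := h4 x h
        have h9 : 3 ≤ tt Z s x - 1 := by omega
        calc 3 * tt Z s x = tt Z s x * 3 := Nat.mul_comm _ _
          _ ≤ tt Z s x * (tt Z s x - 1) := Nat.mul_le_mul_left _ h9
          _ ≤ _ := Nat.le_add_left _ _
    have hs : ∑ x, 3 * tt Z s x ≤ ∑ x, (3 * (if tt Z s x = 1 then 1 else 0) +
        tt Z s x * (tt Z s x - 1)) := Finset.sum_le_sum (fun x _ => hp x)
    rw [Finset.sum_add_distrib, ← Finset.mul_sum, ← Finset.mul_sum, ← yy_eq, A, E] at hs
    exact hs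

end Pool.Agent.CLH
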