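import Pool.Agent.CLH.Stmts

set_option autoImplicit false

/-!
# CLH: module YX (the covariant lemma for local data)
-/

open scoped BigOperators Polynomial
open Module

namespace Pool.Agent.CLH.YX_

universe u

variable {K : Type u} [Field K]

theorem inc_iff {Z : Pl K} (f : Z.Fr) (s t : SP K) : Z.inc (f.p s) (f.l t) ↔ sinc s t :=
  (f.hinc s t).symm

/-- a second line through a point -/
theorem second_line {Z : Pl K} {x : Z.Pt} {l : Z.Ln} (h : Z.inc x l) :
    ∃ l', Z.inc x l' ∧ l' ≠ l := by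
  obtain ⟨f, hf1, hf2⟩ := Z.frame x l h
  refine ⟨f.l (Sum.inr (Sum.inl 0)), ?_, ?_⟩
  · rw [← hf1, inc_iff]
    exact trivial
  · rw [← hf2]
    intro he
    have := f.l.injective he
    simp [inf] at this

/-- the lines through the vertical point -/
theorem vertical {Z : Pl K} (f : Z.Fr) {l : Z.Ln} (h : Z.inc (f.p inf) l) (hl : l ≠ f.l inf) :
    ∃ a, l = ver f a := by
  obtain ⟨t, rfl⟩ := f.l.surjective l
  rw [inc_iff] at h
  match t, h, hl with
  | Sum.inl z, h, _ => exact absurd h (by simp [sinc, inf])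
  | Sum.inr (Sum.inl a), _, _ => exact ⟨a, rfl⟩
  | Sum.inr (Sum.inr ()), _, hl => exact absurd rfl hl

/-- the points not on the line at infinity -/
theorem affine_pt {Z : Pl K} (f : Z.Fr) {y : Z.Pt} (h : ¬ Z.inc y (f.l inf)) :
    ∃ a b, y = apt f a b := by
  obtain ⟨t, rfl⟩ := f.p.surjective y
  rw [inc_iff] at h
  match t, h with
  | Sum.inl z, _ => exact ⟨z.1, z.2, rfl⟩
  | Sum.inr (Sum.inl a), h => exact absurd (by simp [sinc, inf]) h
  | Sum.inr (Sum.inr ()), h => exact absurd (by simp [sinc, inf]) h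

/-- the lines through an affine point -/
theorem line_through {Z : Pl K} (f : Z.Fr) {a b : K} {l : Z.Ln} (h : Z.inc (apt f a b) l)
    (hl : ¬ Z.inc (f.p inf) l) : ∃ m, l = aff f m (b - m * a) := by
  obtain ⟨t, rfl⟩ := f.l.surjective l
  rw [inc_iff] at hl
  unfold apt at h
  rw [inc_iff] at h
  match t, h, hl with
  | Sum.inl z, h, _ =>
    refine ⟨z.1, ?_⟩
    have h2 : b = z.1 * a + z.2 := h
    have h3 : z.2 = b - z.1 * a := by rw [h2]; ring
    unfold aff
    rw [← h3]
  | Sum.inr (Sum.inl a), _, hl => exact absurd (by simp [sinc, inf]) hl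
  | Sum.inr (Sum.inr ()), _, hl => exact absurd (by simp [sinc, inf]) hl

theorem wp_ext [Fintype K] {Z : Pl K} {D : ℕ} {s : Z.Pt → ℕ} {l : Z.Ln} (h : Z.ls s l = 0) :
    wp Z D s l = D := by
  unfold wp
  rw [if_pos h]

/-- there is an external line through a point with `tt` positive -/
theorem exists_ext {Z : Pl K} {s : Z.Pt → ℕ} {y : Z.Pt} (h : tt Z s y ≠ 0) :
    ∃ l, Z.inc y l ∧ Z.ls s l = 0 := by
  classical
  by_contra hc
  push Not at hc
  apply h
  unfold tt Pl.ps
  refine Finset.sum_eq_zero fun l _ => ?_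
  by_cases h1 : Z.inc y l
  · rw [if_pos h1, ext, if_neg (hc l h1)]
  · rw [if_neg h1]

theorem tau_card {Z : Pl K} (s : Z.Pt → ℕ) [DecidablePred fun l : Z.Ln => Z.ls s l = 0] :
    (Finset.univ.filter fun l : Z.Ln => Z.ls s l = 0).card = tau Z s := by
  rw [Finset.card_filter]
  unfold tau ext
  refine Finset.sum_congr rfl fun l _ => ?_
  by_cases h : Z.ls s l = 0
  · rw [if_pos h, if_pos h]
  · rw [if_neg h, if_neg h]

end Pool.Agent.CLH.YX_

namespace Pool.Agent.CLH

universe u

open YX_ in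
/-- YX. -/
theorem yx_proof (h1 : Stmt_Xi.{u}) (h2 : Stmt_Pln.{u}) (h3 : Stmt_Lsys.{u}) :
    Stmt_Yx.{u} := by
  classical
  intro K _ _ Z D s hL x l hx hxl hl hw i j α β hij h4 h5
  obtain ⟨_, _, _, _, huniq, _⟩ := h2 K Z
  obtain ⟨hτ, hs2, hsys⟩ := h3 K Z D s hL
  have hpt := hsys.point x
  rw [hx, mul_zero, add_zero] at hpt
  -- no external line through `x`
  have hno : ∀ l', Z.inc x l' → Z.ls s l' ≠ 0 := by
    intro l' hxl' h0
    have hne : l ≠ l' := by
      rintro rfl
      exact hl h0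
    have h6 : ∑ t ∈ ({l, l'} : Finset Z.Ln), (if Z.inc x t then wp Z D s t else 0) ≤
        Z.ps (wp Z D s) x := by
      unfold Pl.ps
      exact Finset.sum_le_sum_of_subset (Finset.subset_univ _)
    rw [Finset.sum_pair hne, if_pos hxl, if_pos hxl', hpt, wp_ext (l := l') h0] at h6
    omega
  obtain ⟨li, hxi, hli⟩ := second_line hxl
  obtain ⟨f, hf1, hf2⟩ := Z.frame x li hxi
  have hlv : ∃ a, l = ver f a := by
    apply vertical f
    · rw [hf1]; exact hxl
    · rw [hf2]; exact hli.symm
  obtain ⟨a₁, ha₁⟩ := hlv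
  have key := h1 K Z (2 * tau Z s - 2 - D) D (kap Z s) (wp Z D s) f hsys hL.pos hL.small
    (by rw [hf1]; exact hx) i j α β hij h4 a₁ (by rw [← ha₁]; exact h5)
  -- split
  have hsplit : yy Z s = ((Finset.univ.filter fun y : Z.Pt => s y = 0 ∧ tt Z s y = 1).filter
        fun y => ¬ Z.inc y li).card +
      ((Finset.univ.filter fun y : Z.Pt => s y = 0 ∧ tt Z s y = 1).filter
        fun y => Z.inc y li).card := by
    unfold yy
    rw [add_comm, Finset.card_filter_add_card_filter_not]
  have hA : ((Finset.univ.filter fun y : Z.Pt => s y = 0 ∧ tt Z s y = 1).filter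
        fun y => ¬ Z.inc y li).card ≤ (Fintype.card K - 1) * j := by
    refine le_trans ?_ key
    have hsub : ((Finset.univ.filter fun y : Z.Pt => s y = 0 ∧ tt Z s y = 1).filter
        fun y => ¬ Z.inc y li) ⊆
        (Finset.univ.filter fun x : K × K => kap Z s (apt f x.1 x.2) = 0 ∧
        ∃ m, wp Z D s (aff f m (x.2 - m * x.1)) = D).image fun x : K × K => apt f x.1 x.2 := ?_
    · exact le_trans (Finset.card_le_card hsub) Finset.card_image_le
    intro y hy
    simp only [Finset.mem_filter, Finset.mem_univ, true_and] at hy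
    obtain ⟨⟨hy1, hy2⟩, hy3⟩ := hy
    rw [← hf2] at hy3
    obtain ⟨a, b, rfl⟩ := affine_pt f hy3
    rw [Finset.mem_image]
    refine ⟨(a, b), ?_, rfl⟩
    simp only [Finset.mem_filter, Finset.mem_univ, true_and]
    refine ⟨?_, ?_⟩
    · unfold kap
      rw [hy1, hy2]
    · obtain ⟨l', hl1, hl2⟩ := exists_ext (y := apt f a b) (s := s) (by rw [hy2]; exact one_ne_zero)
      obtain ⟨m, hm⟩ := line_through f hl1 (by
        rw [hf1]
        intro hc
        exact hno l' hc hl2)
      refine ⟨m, ?_⟩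
      rw [← hm]
      exact wp_ext hl2
  have hB : ((Finset.univ.filter fun y : Z.Pt => s y = 0 ∧ tt Z s y = 1).filter
        fun y => Z.inc y li).card ≤ tau Z s := by
    rw [← tau_card s]
    have hex : ∀ y : Z.Pt, tt Z s y = 1 → ∃ l, Z.inc y l ∧ Z.ls s l = 0 := fun y hy =>
      exists_ext (by rw [hy]; exact one_ne_zero)
    refine Finset.card_le_card_of_injOn
      (fun y => if h : tt Z s y = 1 then (hex y h).choose else li) ?_ ?_
    · intro y hy
      simp only [Finset.coe_filter, Finset.mem_filter, Finset.mem_univ, true_and,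
        Set.mem_ofPred_eq] at hy ⊢
      rw [dif_pos hy.1.2]
      exact (hex y hy.1.2).choose_spec.2
    · intro y hy y' hy' he
      simp only [Finset.coe_filter, Finset.mem_filter, Finset.mem_univ, true_and,
        Set.mem_ofPred_eq] at hy hy'
      simp only at he
      rw [dif_pos hy.1.2, dif_pos hy'.1.2] at he
      by_contra hne
      have e1 := (hex y hy.1.2).choose_spec
      have e2 := (hex y' hy'.1.2).choose_spec
      rw [← he] at e2
      have e3 := huniq y y' _ _ hne e1.1 e2.1 hy.2 hy'.2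
      exact hno li hxi (e3 ▸ e1.2)
  rw [hsplit]
  exact add_le_add hA hB

end Pool.Agent.CLH
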